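import Pool.Agent.Work.MP_56ddc0_co.H55Anim

set_option autoImplicit false

namespace Pool.Agent.Work.MP_56ddc0_co.Anim

open Relation

open Classical in
/-- component of `x` in `A` without `a` -/
noncomputable def comp (A : Finset Cell) (a x : Cell) : Finset Cell :=
  (A.erase a).filter (fun y => ReflTransGen (Step (A.erase a)) x y)

open Classical in
theorem mem_comp {A : Finset Cell} {a x y : Cell} :
    y ∈ comp A a x ↔ (y ≠ a ∧ y ∈ A) ∧ ReflTransGen (Step (A.erase a)) x y := by
  unfold comp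
  rw [Finset.mem_filter, Finset.mem_erase]

theorem comp_conn {A : Finset Cell} {a x : Cell} (hx : x ∈ A) (hxa : x ≠ a) :
    Conn (comp A a x) := by
  have hxc : x ∈ comp A a x := mem_comp.mpr ⟨⟨hxa, hx⟩, ReflTransGen.refl⟩
  refine conn_of_base hxc (fun y hy => ?_)
  have h := (mem_comp.mp hy).2
  induction h with
  | refl => exact ReflTransGen.refl
  | tail h1 h2 ih =>
    rename_i b c
    have hb : b ∈ comp A a x := by
      rcases ReflTransGen.cases_tail h1 with h3 | ⟨d, _, h4⟩
      · rw [h3]; exact hxc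
      · exact mem_comp.mpr ⟨Finset.mem_erase.mp h4.2, h1⟩
    exact (ih hb).tail ⟨h2.1, hy⟩

/-- every other cell is joined to a neighbour of `a` outside `a` -/
theorem exists_nbr {A : Finset Cell} {a y : Cell} (h : ReflTransGen (Step A) a y) :
    y = a ∨ ∃ x ∈ A, x ≠ a ∧ Adj a x ∧ ReflTransGen (Step (A.erase a)) x y := by
  induction h with
  | refl => exact Or.inl rfl
  | tail h1 h2 ih =>
    rename_i b c
    by_cases hc : c = a
    · exact Or.inl hc
    · right
      by_cases hb : b = a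
      · refine ⟨c, h2.2, hc, ?_, ReflTransGen.refl⟩
        rw [← hb]; exact h2.1
      · rcases ih with ih | ⟨x, hx, hxa, hax, hp⟩
        · exact absurd ih hb
        · exact ⟨x, hx, hxa, hax, hp.tail ⟨h2.1, Finset.mem_erase.mpr ⟨hc, h2.2⟩⟩⟩

theorem compl_conn {A : Finset Cell} (hA : Conn A) {a : Cell} (ha : a ∈ A) (x : Cell) : Conn (A \ comp A a x) ∧ a ∈ A \ comp A a x := by
  classical
  have haD : a ∈ A \ comp A a x := by
    rw [Finset.mem_sdiff]
    exact ⟨ha, fun h => (mem_comp.mp h).1.1 rfl⟩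
  refine ⟨conn_of_base haD (fun y hy => ?_), haD⟩
  rw [Finset.mem_sdiff] at hy
  rcases exists_nbr (hA.2 a ha y hy.1) with h | ⟨z, hz, hza, haz, hp⟩
  · rw [h]
  · -- all vertices of the path avoid comp x
    have key : ∀ w, ReflTransGen (Step (A.erase a)) z w → ReflTransGen (Step (A.erase a)) w y →
        w ∈ A → w ≠ a → w ∉ comp A a x := by
      intro w hw1 hw2 hwA hwa hwc
      apply hy.2
      rw [mem_comp]
      refine ⟨⟨?_, hy.1⟩, (mem_comp.mp hwc).2.trans hw2⟩
      rcases ReflTransGen.cases_tail hw2 with h3 | ⟨d, _, h4⟩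
      · rw [h3]; exact hwa
      · exact (Finset.mem_erase.mp h4.2).1
    have hzD : z ∈ A \ comp A a x := by
      rw [Finset.mem_sdiff]
      exact ⟨hz, key z ReflTransGen.refl hp hz hza⟩
    have hpath : ∀ w, ReflTransGen (Step (A.erase a)) z w → ReflTransGen (Step (A.erase a)) w y →
        ReflTransGen (Step (A \ comp A a x)) z w := by
      intro w hw
      induction hw with
      | refl => intro _; exact ReflTransGen.refl
      | tail h1 h2 ih =>
        rename_i b c
        intro hcy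
        refine (ih (ReflTransGen.head h2 hcy)).tail ⟨h2.1, ?_⟩
        have hc := Finset.mem_erase.mp h2.2
        rw [Finset.mem_sdiff]
        exact ⟨hc.2, key c (h1.tail h2) hcy hc.2 hc.1⟩
    exact ReflTransGen.head ⟨haz, hzD⟩ (hpath y hp ReflTransGen.refl)

def nbrs (a : Cell) : Finset Cell := {a + (1, 0), a + (-1, 0), a + (0, 1), a + (0, -1)}

theorem mem_nbrs {a x : Cell} : x ∈ nbrs a ↔ Adj a x := by
  unfold nbrs
  simp only [Finset.mem_insert, Finset.mem_singleton]
  constructor
  · rintro (h | h | h | h)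
    · rw [h]; exact adj_right a
    · rw [h]; exact adj_left a
    · rw [h]; exact adj_up a
    · rw [h]; exact adj_down a
  · exact adj_cases

theorem card_nbrs (a : Cell) : (nbrs a).card ≤ 4 := Finset.card_le_four

/-- if all components at `a` are small, `A` is small -/
theorem card_le_of_comp {A : Finset Cell} (hA : Conn A) {a : Cell} (ha : a ∈ A) (r K : ℕ)
    (hr : ((nbrs a).filter (fun x => x ∈ A)).card ≤ r)
    (hK : ∀ x ∈ A, x ≠ a → (comp A a x).card ≤ K) : A.card ≤ r * K + 1 := by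
  classical
  have hsub : A.erase a ⊆ ((nbrs a).filter (fun x => x ∈ A)).biUnion (fun x => comp A a x) := by
    intro y hy
    have hy' := Finset.mem_erase.mp hy
    rcases exists_nbr (hA.2 a ha y hy'.2) with h | ⟨z, hz, hza, haz, hp⟩
    · exact absurd h hy'.1
    · rw [Finset.mem_biUnion]
      exact ⟨z, Finset.mem_filter.mpr ⟨mem_nbrs.mpr haz, hz⟩, mem_comp.mpr ⟨hy', hp⟩⟩
  have h1 := Finset.card_le_card hsub
  have h2 : (((nbrs a).filter (fun x => x ∈ A)).biUnion (fun x => comp A a x)).card ≤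
      ((nbrs a).filter (fun x => x ∈ A)).card * K := by
    apply Finset.card_biUnion_le_card_mul
    intro x hx
    rw [Finset.mem_filter, mem_nbrs] at hx
    exact hK x hx.2 hx.1.ne.symm
  rw [Finset.card_erase_of_mem ha] at h1
  have h3 : ((nbrs a).filter (fun x => x ∈ A)).card * K ≤ r * K := Nat.mul_le_mul_right _ hr
  omega

/-- balanced cut -/
theorem exists_cut {S : Finset Cell} (hS : Conn S) (K : ℕ) (hK : 1 ≤ K)
    (hN : 4 * K - 2 ≤ S.card) :
    ∃ A ⊆ S, Conn A ∧ Conn (S \ A) ∧ K ≤ A.card ∧ A.card ≤ 3 * K - 2 ∧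
      ∃ a ∈ A, ∃ b ∈ S \ A, Adj a b := by
  classical
  -- candidates
  set C : Finset (Finset Cell) := S.powerset.filter (fun A => Conn A ∧ (A = S ∨ Conn (S \ A)) ∧
    K ≤ A.card) with hC
  have hSC : S ∈ C := by
    rw [hC, Finset.mem_filter, Finset.mem_powerset]
    exact ⟨Finset.Subset.refl _, hS, Or.inl rfl, by omega⟩
  obtain ⟨A, hAC, hmin⟩ := C.exists_min_image (fun A => A.card) ⟨S, hSC⟩
  rw [hC, Finset.mem_filter, Finset.mem_powerset] at hAC
  obtain ⟨hAS, hAconn, hAor, hAK⟩ := hAC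
  -- general reduction
  have hred : ∀ a ∈ A, (A = S ∨ ∃ b ∈ S \ A, Adj a b) → ∀ x ∈ A, x ≠ a →
      (comp A a x).card ≤ K - 1 := by
    intro a ha hab x hx hxa
    by_contra hcon
    push Not at hcon
    have hsubA : comp A a x ⊆ A := fun y hy => (mem_comp.mp hy).1.2
    have hlt : (comp A a x).card < A.card := by
      apply Finset.card_lt_card
      rw [Finset.ssubset_iff_subset_ne]
      refine ⟨hsubA, fun h => ?_⟩
      have : a ∈ comp A a x := by rw [h]; exact ha
      exact (mem_comp.mp this).1.1 rfl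
    have hcompl := compl_conn hAconn ha x
    have hconn2 : Conn (S \ comp A a x) := by
      rcases hab with h | ⟨b, hb, hadj⟩
      · rw [← h]; exact hcompl.1
      · have hB : Conn (S \ A) := by
          rcases hAor with h | h
          · rw [h, Finset.sdiff_self] at hb
            exact absurd hb (Finset.notMem_empty _)
          · exact h
        have h1 := hcompl.1.union hB hcompl.2 hb (Or.inl hadj)
        have h2 : S \ comp A a x = (A \ comp A a x) ∪ (S \ A) := by
          ext y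
          simp only [Finset.mem_sdiff, Finset.mem_union]
          constructor
          · rintro ⟨h3, h4⟩
            by_cases hy : y ∈ A
            · exact Or.inl ⟨hy, h4⟩
            · exact Or.inr ⟨h3, hy⟩
          · rintro (⟨h3, h4⟩ | ⟨h3, h4⟩)
            · exact ⟨hAS h3, h4⟩
            · exact ⟨h3, fun h5 => h4 (hsubA h5)⟩
        rw [h2]; exact h1
    have hmem : comp A a x ∈ C := by
      rw [hC, Finset.mem_filter, Finset.mem_powerset]
      exact ⟨hsubA.trans hAS, comp_conn hx hxa, Or.inr hconn2, by omega⟩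
    have := hmin _ hmem
    omega
  -- A ≠ S
  have hAne : A ≠ S := by
    intro h
    obtain ⟨a, ha⟩ := hAconn.1
    have h1 := card_le_of_comp hAconn ha 4 (K - 1)
      (le_trans (Finset.card_filter_le _ _) (card_nbrs a)) (hred a ha (Or.inl h))
    rw [h] at h1
    omega
  have hB : Conn (S \ A) := hAor.resolve_left hAne
  obtain ⟨a0, ha0⟩ := hAconn.1
  obtain ⟨b0, hb0⟩ := hB.1
  obtain ⟨a, ha, b, hb, hbS, hab⟩ := crossing (hS.2 a0 (hAS ha0) b0 (Finset.mem_sdiff.mp hb0).1)
    ha0 (Finset.mem_sdiff.mp hb0).2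
  have hbB : b ∈ S \ A := Finset.mem_sdiff.mpr ⟨hbS, hb⟩
  refine ⟨A, hAS, hAconn, hB, hAK, ?_, a, ha, b, hbB, hab⟩
  have h3 : ((nbrs a).filter (fun x => x ∈ A)).card ≤ 3 := by
    have h4 : (nbrs a).filter (fun x => x ∈ A) ⊆ (nbrs a).erase b := by
      intro x hx
      rw [Finset.mem_filter] at hx
      rw [Finset.mem_erase]
      exact ⟨fun h => hb (h ▸ hx.2), hx.1⟩
    have h5 := Finset.card_le_card h4
    rw [Finset.card_erase_of_mem (mem_nbrs.mpr hab)] at h5
    have := card_nbrs a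
    omega
  have h1 := card_le_of_comp hAconn ha 3 (K - 1) h3 (hred a ha (Or.inr ⟨b, hbB, hab⟩))
  omega

/-- the cut inequality -/
theorem cut_ineq (N K : ℕ) (hK : 1 ≤ K) (hN : 4 * K - 2 ≤ N) :
    tn N ≤ ∑ k ∈ Finset.Icc K (3 * K - 2), 4 * k * (N - k) * (tn k * tn (N - k)) := by
  classical
  have hexm : ∀ S : Finset Cell, ∃ m : Cell, S.Nonempty →
      m ∈ S ∧ ∀ p ∈ S, m.2 < p.2 ∨ (p.2 = m.2 ∧ m.1 ≤ p.1) := by
    intro S
    by_cases hS : S.Nonempty
    · obtain ⟨m, hm, h⟩ := exists_lexmin hS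
      exact ⟨m, fun _ => ⟨hm, h⟩⟩
    · exact ⟨0, fun h => absurd h hS⟩
  choose μ hμ using hexm
  have hexA : ∀ S : Finset Cell, ∃ A : Finset Cell, S ∈ T N → A ⊆ S ∧ Conn A ∧ Conn (S \ A) ∧
      K ≤ A.card ∧ A.card ≤ 3 * K - 2 ∧ ∃ a ∈ A, ∃ b ∈ S \ A, Adj a b := by
    intro S
    by_cases hS : S ∈ T N
    · obtain ⟨h1, _, h3⟩ := mem_T.mp hS
      obtain ⟨A, h4, h5⟩ := exists_cut h3 K hK (by rw [h1]; exact hN)
      exact ⟨A, fun _ => ⟨h4, h5⟩⟩
    · exact ⟨∅, fun h => absurd h hS⟩
  choose α hα using hexA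
  -- codomain
  set Pos : Finset Cell → Finset Cell → Finset Cell := fun A B =>
    ((A ×ˢ B).biUnion (fun p => nbrs (p.1 - p.2))) with hPos
  have hPoscard : ∀ A B : Finset Cell, (Pos A B).card ≤ 4 * A.card * B.card := by
    intro A B
    have h1 := Finset.card_biUnion_le_card_mul (A ×ˢ B) (fun p : Cell × Cell => nbrs (p.1 - p.2)) 4
      (fun p _ => card_nbrs _)
    rw [Finset.card_product] at h1
    simp only [hPos]
    calc _ ≤ A.card * B.card * 4 := h1
      _ = _ := by ring
  set Cod : Finset ((_ : ℕ) × (_ : Finset Cell × Finset Cell) × Cell) :=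
    (Finset.Icc K (3 * K - 2)).sigma (fun k => (T k ×ˢ T (N - k)).sigma (fun p => Pos p.1 p.2))
    with hCod
  have hCodcard : Cod.card ≤ ∑ k ∈ Finset.Icc K (3 * K - 2),
      4 * k * (N - k) * (tn k * tn (N - k)) := by
    rw [hCod, Finset.card_sigma]
    apply Finset.sum_le_sum
    intro k hk
    rw [Finset.card_sigma]
    have h1 : ∀ p ∈ T k ×ˢ T (N - k), (Pos p.1 p.2).card ≤ 4 * k * (N - k) := by
      intro p hp
      rw [Finset.mem_product] at hp
      have := hPoscard p.1 p.2
      rw [(mem_T.mp hp.1).1, (mem_T.mp hp.2).1] at this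
      exact this
    have h2 := Finset.sum_le_card_nsmul _ _ _ h1
    rw [Finset.card_product, smul_eq_mul] at h2
    calc _ ≤ (T k).card * (T (N - k)).card * (4 * k * (N - k)) := h2
      _ = 4 * k * (N - k) * (tn k * tn (N - k)) := by unfold tn; ring
  refine le_trans ?_ hCodcard
  unfold tn
  apply Finset.card_le_card_of_injOn (fun S =>
    (⟨(α S).card, (sh (-(μ (α S))) (α S), sh (-(μ (S \ α S))) (S \ α S)),
      μ (S \ α S) - μ (α S)⟩ : (_ : ℕ) × (_ : Finset Cell × Finset Cell) × Cell))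
  · intro S hS
    have hS := Finset.mem_coe.mp hS
    obtain ⟨hsub, hA, hB, h1, h2, a, ha, b, hb, hab⟩ := hα S hS
    have hcB : (S \ α S).card = N - (α S).card := by
      rw [Finset.card_sdiff_of_subset hsub, (mem_T.mp hS).1]
    obtain ⟨hmA, hmA'⟩ := hμ _ hA.1
    obtain ⟨hmB, hmB'⟩ := hμ _ hB.1
    rw [Finset.mem_coe, hCod, Finset.mem_sigma]
    simp only
    refine ⟨Finset.mem_Icc.mpr ⟨h1, h2⟩, ?_⟩
    rw [Finset.mem_sigma]
    simp only
    refine ⟨?_, ?_⟩
    · rw [Finset.mem_product]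
      simp only
      exact ⟨mem_T.mpr ⟨card_sh _ _, canon_sh hmA hmA', hA.sh _⟩,
        mem_T.mpr ⟨by rw [card_sh, hcB], canon_sh hmB hmB', hB.sh _⟩⟩
    · simp only [hPos]
      rw [Finset.mem_biUnion]
      refine ⟨(a + -(μ (α S)), b + -(μ (S \ α S))), ?_, ?_⟩
      · rw [Finset.mem_product]
        exact ⟨add_mem_sh ha, add_mem_sh hb⟩
      · rw [mem_nbrs]
        simp only
        have h3 : a + -(μ (α S)) - (b + -(μ (S \ α S))) = a + (-b + μ (S \ α S) - μ (α S)) := by
          abel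
        have h4 : μ (S \ α S) - μ (α S) = b + (-b + μ (S \ α S) - μ (α S)) := by abel
        rw [h3]
        conv_rhs => rw [h4]
        exact (adj_add a b _).mpr hab
  · intro S hS S' hS' heq
    have hS := Finset.mem_coe.mp hS
    have hS' := Finset.mem_coe.mp hS'
    obtain ⟨hsub, hA, hB, _⟩ := hα S hS
    obtain ⟨hsub', hA', hB', _⟩ := hα S' hS'
    simp only [Sigma.mk.injEq, heq_eq_eq, Prod.mk.injEq] at heq
    obtain ⟨_, ⟨h1, h2⟩, h3⟩ := heq
    -- S = sh (μ A) (A0 ∪ sh v B0)
    have hrec : ∀ X : Finset Cell, α X ⊆ X → X = sh (μ (α X)) (sh (-(μ (α X))) (α X) ∪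
        sh (μ (X \ α X) - μ (α X)) (sh (-(μ (X \ α X))) (X \ α X))) := by
      intro X hX
      have h4 : ∀ Y : Finset Cell, sh 0 Y = Y := sh_zero
      ext p
      simp only [mem_sh, Finset.mem_union, Finset.mem_sdiff]
      have e1 : p - μ (α X) - -μ (α X) = p := by abel
      have e2 : p - μ (α X) - (μ (X \ α X) - μ (α X)) - -μ (X \ α X) = p := by abel
      rw [e1, e2]
      constructor
      · intro hp
        by_cases h5 : p ∈ α X
        · exact Or.inl h5
        · exact Or.inr ⟨hp, h5⟩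
      · rintro (h5 | ⟨h5, _⟩)
        · exact hX h5
        · exact h5
    have r1 := hrec S hsub
    have r2 := hrec S' hsub'
    rw [h1, h2, h3] at r1
    -- both are translates of the same set, and both canonical
    set Q : Finset Cell := sh (-(μ (α S'))) (α S') ∪
        sh (μ (S' \ α S') - μ (α S')) (sh (-(μ (S' \ α S'))) (S' \ α S')) with hQ
    have h5 : S = sh (μ (α S) - μ (α S')) S' := by
      have : sh (-(μ (α S'))) S' = Q := by
        have h7 := congrArg (sh (-(μ (α S')))) r2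
        rw [sh_sh, neg_add_cancel, sh_zero] at h7
        exact h7
      rw [sub_eq_add_neg, ← sh_sh, this]
      exact r1
    have h6 := canon_unique (mem_T.mp hS').2.1 (v := μ (α S) - μ (α S'))
      (by rw [← h5]; exact (mem_T.mp hS).2.1)
    rw [h6, sh_zero] at h5
    exact h5

end Pool.Agent.Work.MP_56ddc0_co.Anim
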