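import Pool.Agent.Work.MP_56ddc0_co.H55Quant

set_option autoImplicit false

namespace Pool.Agent.Work.MP_56ddc0_co.RatioAbs

open Filter Topology

theorem sqrt_log_lower (n : ℕ) (hn : 1 ≤ n) :
    Real.log n / 2 - Real.log 2 ≤ Real.log (Nat.sqrt n) := by
  have hn1 : (1 : ℝ) ≤ n := by exact_mod_cast hn
  have h3 : Real.sqrt n / 2 ≤ Nat.sqrt n := by
    have ha : Real.sqrt n < Nat.sqrt n + 1 := by
      rw [Real.sqrt_lt' (by positivity)]
      have := Nat.lt_succ_sqrt' n
      exact_mod_cast this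
    have hb : (1 : ℝ) ≤ Nat.sqrt n := by
      exact_mod_cast (Nat.le_sqrt.mpr (by omega) : 1 ≤ Nat.sqrt n)
    linarith
  have h4 : Real.log (Real.sqrt n / 2) ≤ Real.log (Nat.sqrt n) := by
    apply Real.log_le_log _ h3
    have : 0 < Real.sqrt n := Real.sqrt_pos.mpr (by linarith)
    positivity
  rw [Real.log_div (Real.sqrt_pos.mpr (by linarith)).ne' (by norm_num),
    Real.log_sqrt (by linarith)] at h4
  exact h4

/-- far apart inequality with a quasi-polynomial threshold -/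
theorem far_quant (t : ℕ → ℕ) (hpos : ∀ n, 1 ≤ n → 1 ≤ t n) (L : ℝ) (hL : 0 ≤ L)
    (hdbl : ∀ n, 1 ≤ n → Nat.sqrt n * t n ^ 2 ≤ 2 * t (2 * n + 1)) (A : ℝ) (hA : 0 < A)
    (hlow : ∀ n : ℕ, 1 ≤ n → -(A * (1 + Real.log n) ^ 2) ≤ Real.log (t n) - n * L)
    (C : ℝ) (hC : 0 < C)
    (hrate : ∀ n : ℕ, 1 ≤ n → |(Real.log (t (n + 1)) - ((n + 1 : ℕ) : ℝ) * L) -
      (Real.log (t n) - n * L)| ≤ C * (1 + Real.log n) / Real.sqrt n) :
    ∃ c : ℝ, 0 < c ∧ ∀ n k : ℕ, 1 ≤ n → Real.exp (c * (1 + Real.log n) ^ 2) ≤ k →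
      t (n + k) ^ 2 < t n * t (n + 2 * k) := by
  set c : ℝ := 9 + 2 * A + 2 * (2 + L + 16 * C) with hc
  have hc0 : 0 < c := by positivity
  refine ⟨c, hc0, fun n k hn hk => ?_⟩
  set f : ℕ → ℝ := fun n => Real.log (t n) - n * L with hf
  have hn1 : (1 : ℝ) ≤ n := by exact_mod_cast hn
  have hn0 : (0 : ℝ) < n := by linarith
  have hlogn : 0 ≤ Real.log n := Real.log_nonneg hn1
  set l : ℝ := 1 + Real.log n with hl
  have hl1 : 1 ≤ l := by linarith
  have hk0 : (0 : ℝ) < k := lt_of_lt_of_le (Real.exp_pos _) hk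
  have hk1 : 1 ≤ k := by exact_mod_cast hk0
  set m : ℕ := n + k with hm
  have hm0 : (0 : ℝ) < m := by exact_mod_cast (by omega : 0 < m)
  set x : ℝ := Real.log m with hx
  have hxk : c * l ^ 2 ≤ x := by
    have h1 : c * l ^ 2 ≤ Real.log k := by
      rw [Real.le_log_iff_exp_le hk0]; exact hk
    have h2 : Real.log k ≤ x := Real.log_le_log hk0 (by exact_mod_cast (by omega : k ≤ m))
    linarith
  have hl2 : l ≤ l ^ 2 := by nlinarith
  have hx8 : 8 * l ^ 2 ≤ x := by
    have h1 : 0 ≤ 2 * A + 2 * (2 + L + 16 * C) := by positivity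
    have h2 : 0 ≤ (1 + (2 * A + 2 * (2 + L + 16 * C))) * l ^ 2 := by positivity
    rw [hc] at hxk
    nlinarith
  -- doubling
  have hd : 2 * f m + x / 2 - 2 * Real.log 2 - L ≤ f (2 * m + 1) := by
    have h1 : (0 : ℝ) < t m := by exact_mod_cast hpos m (by omega)
    have h2 : (0 : ℝ) < t (2 * m + 1) := by exact_mod_cast hpos (2 * m + 1) (by omega)
    have h3 : (0 : ℝ) < Nat.sqrt m := by
      exact_mod_cast (Nat.le_sqrt.mpr (by omega) : 1 ≤ Nat.sqrt m)
    have h4 : ((Nat.sqrt m : ℕ) : ℝ) * (t m : ℝ) ^ 2 ≤ 2 * t (2 * m + 1) := by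
      exact_mod_cast hdbl m (by omega)
    have h5 := Real.log_le_log (by positivity) h4
    rw [Real.log_mul h3.ne' (by positivity), Real.log_pow, Real.log_mul (by norm_num) h2.ne'] at h5
    have h6 := sqrt_log_lower m (by omega)
    simp only [hf]
    push_cast at h5 ⊢
    linarith
  -- the loss
  have hloss : f (2 * m + 1) - f (n + 2 * k) ≤ 16 * C := by
    set E : ℝ := C * (2 + x) / Real.exp (x / 2) with hE
    have hstep : ∀ j, j < n + 1 → -E ≤ -(f (n + 2 * k + j + 1)) - -(f (n + 2 * k + j)) := by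
      intro j hj
      have h1 := hrate (n + 2 * k + j) (by omega)
      have h2 := (abs_le.mp h1).2
      have hi : (m : ℝ) ≤ ((n + 2 * k + j : ℕ) : ℝ) := by
        exact_mod_cast (by omega : m ≤ n + 2 * k + j)
      have hi2 : ((n + 2 * k + j : ℕ) : ℝ) ≤ m * 2 := by
        have : n + 2 * k + j ≤ m * 2 := by omega
        exact_mod_cast this
      have hi0 : (0 : ℝ) < ((n + 2 * k + j : ℕ) : ℝ) := lt_of_lt_of_le hm0 hi
      have h3 : C * (1 + Real.log ((n + 2 * k + j : ℕ) : ℝ)) /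
          Real.sqrt ((n + 2 * k + j : ℕ) : ℝ) ≤ E := by
        rw [hE]
        apply div_le_div₀
        · have : 0 ≤ x := by nlinarith
          positivity
        · apply mul_le_mul_of_nonneg_left _ hC.le
          have h4 := Real.log_le_log hi0 hi2
          rw [Real.log_mul hm0.ne' (by norm_num)] at h4
          have := Real.log_two_lt_d9
          linarith
        · exact Real.exp_pos _
        · rw [Real.exp_half, hx, Real.exp_log hm0]
          exact Real.sqrt_le_sqrt hi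
      simp only [hf]
      linarith
    have h5 := sum_lower (fun n => -(f n)) (-E) (n + 2 * k) (n + 1) hstep
    have h6 : n + 2 * k + (n + 1) = 2 * m + 1 := by omega
    simp only [h6] at h5
    have h7 : ((n + 1 : ℕ) : ℝ) * E ≤ 16 * C := by
      -- n + 1 ≤ 2 exp (x/8)
      have h8 : ((n + 1 : ℕ) : ℝ) ≤ 2 * Real.exp (x / 8) := by
        have h9 : (n : ℝ) ≤ Real.exp (x / 8) := by
          rw [← Real.log_le_iff_le_exp hn0]
          linarith
        push_cast
        linarith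
      have h9 : 2 + x ≤ 8 * Real.exp (x / 8) := by
        have := Real.add_one_le_exp (x / 8)
        linarith
      have hx0 : 0 ≤ x := by nlinarith
      rw [hE]
      have h10 : ((n + 1 : ℕ) : ℝ) * (C * (2 + x) / Real.exp (x / 2)) =
          C * (((n + 1 : ℕ) : ℝ) * (2 + x)) / Real.exp (x / 2) := by ring
      rw [h10, div_le_iff₀ (Real.exp_pos _)]
      have h11 : ((n + 1 : ℕ) : ℝ) * (2 + x) ≤ (2 * Real.exp (x / 8)) * (8 * Real.exp (x / 8)) :=
        mul_le_mul h8 h9 (by linarith) (by positivity)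
      have h12 : (2 * Real.exp (x / 8)) * (8 * Real.exp (x / 8)) = 16 * Real.exp (x / 4) := by
        rw [show x / 4 = x / 8 + x / 8 by ring, Real.exp_add]; ring
      have h13 : Real.exp (x / 4) ≤ Real.exp (x / 2) := Real.exp_le_exp.mpr (by linarith)
      calc C * (((n + 1 : ℕ) : ℝ) * (2 + x)) ≤ C * (16 * Real.exp (x / 4)) := by
            apply mul_le_mul_of_nonneg_left _ hC.le
            linarith
        _ ≤ C * (16 * Real.exp (x / 2)) := by
            apply mul_le_mul_of_nonneg_left _ hC.le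
            linarith
        _ = _ := by ring
    linarith
  have hfn := hlow n hn
  have hmain : 2 * f m < f n + f (n + 2 * k) := by
    have h1 : 2 * A * l ^ 2 + 2 * (2 + L + 16 * C) + 9 ≤ c * l ^ 2 := by
      rw [hc]
      have h2 : (1 : ℝ) ≤ l ^ 2 := by nlinarith
      have h3 : 0 ≤ 2 * (2 + L + 16 * C) + 9 := by positivity
      nlinarith
    have h4 := Real.log_two_lt_d9
    have h5 : -(A * l ^ 2) ≤ f n := hfn
    linarith
  -- back to integers
  have h1 : (0 : ℝ) < t m := by exact_mod_cast hpos m (by omega)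
  have h2 : (0 : ℝ) < t n := by exact_mod_cast hpos n hn
  have h3 : (0 : ℝ) < t (n + 2 * k) := by exact_mod_cast hpos (n + 2 * k) (by omega)
  have h4 : Real.log ((t m : ℝ) ^ 2) < Real.log ((t n : ℝ) * t (n + 2 * k)) := by
    rw [Real.log_pow, Real.log_mul h2.ne' h3.ne']
    simp only [hf] at hmain
    have hmc : (m : ℝ) = n + k := by rw [hm]; push_cast; ring
    push_cast at hmain ⊢
    rw [hmc] at hmain
    linarith
  have h5 := (Real.log_lt_log_iff (by positivity) (by positivity)).mp h4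
  exact_mod_cast h5

theorem concave_mid (f : ℕ → ℝ) (a b : ℕ)
    (hcon : ∀ m, a ≤ m → m ≤ b → f m + f (m + 2) ≤ 2 * f (m + 1)) (p d : ℕ) (h1 : a + d ≤ p)
    (h2 : p + d ≤ b + 2) : f (p - d) + f (p + d) ≤ 2 * f p := by
  -- slopes are nonincreasing
  have hslope : ∀ i j, a ≤ i → i ≤ j → j ≤ b + 1 → f (j + 1) - f j ≤ f (i + 1) - f i := by
    intro i j hi hij hj
    induction j, hij using Nat.le_induction with
    | base => exact le_rfl
    | succ j hij ih =>
      have h3 := ih (by omega)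
      have h4 := hcon j (by omega) (by omega)
      have h5 : f (j + 2) = f (j + 1 + 1) := rfl
      rw [h5] at h4
      linarith
  induction d with
  | zero => simp; linarith
  | succ d ih =>
    have h3 := ih (by omega) (by omega)
    have h4 := hslope (p - (d + 1)) (p + d) (by omega) (by omega) (by omega)
    have h5 : p - (d + 1) + 1 = p - d := by omega
    rw [h5] at h4
    have h6 : p + (d + 1) = p + d + 1 := rfl
    rw [h6]
    linarith

theorem concave_three (f : ℕ → ℝ) (a b : ℕ)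
    (hcon : ∀ m, a ≤ m → m ≤ b → f m + f (m + 2) ≤ 2 * f (m + 1)) (i j k : ℕ) (h1 : a ≤ i)
    (h2 : i ≤ j) (h3 : j ≤ k) (h4 : k ≤ b + 1) :
    ((k : ℝ) - j) * f i + ((j : ℝ) - i) * f k ≤ ((k : ℝ) - i) * f j := by
  have hslope : ∀ i j, a ≤ i → i ≤ j → j ≤ b + 1 → f (j + 1) - f j ≤ f (i + 1) - f i := by
    intro i j hi hij hj
    induction j, hij using Nat.le_induction with
    | base => exact le_rfl
    | succ j hij ih =>
      have h3 := ih (by omega)
      have h4 := hcon j (by omega) (by omega)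
      have h5 : f (j + 2) = f (j + 1 + 1) := rfl
      rw [h5] at h4
      linarith
  -- f k - f j ≤ (k-j) s , f j - f i ≥ (j-i) s with s = slope at j
  set s : ℝ := f (j + 1) - f j with hs
  have h5 : f k - f j ≤ ((k : ℝ) - j) * s := by
    obtain ⟨d, rfl⟩ := Nat.exists_eq_add_of_le h3
    have h6 := sum_lower (fun n => -(f n)) (-s) j d (fun l hl => by
      have := hslope j (j + l) (by omega) (by omega) (by omega)
      linarith)
    push_cast
    linarith
  have h6 : ((j : ℝ) - i) * s ≤ f j - f i := by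
    obtain ⟨d, rfl⟩ := Nat.exists_eq_add_of_le h2
    have h7 := sum_lower f s i d (fun l hl => by
      have := hslope (i + l) (i + d) (by omega) (by omega) (by omega)
      linarith)
    push_cast
    linarith
  have hkj : (0 : ℝ) ≤ (k : ℝ) - j := by
    rw [sub_nonneg]; exact_mod_cast h3
  have hji : (0 : ℝ) ≤ (j : ℝ) - i := by
    rw [sub_nonneg]; exact_mod_cast h2
  nlinarith [mul_le_mul_of_nonneg_left h5 hji, mul_le_mul_of_nonneg_left h6 hkj]

theorem quartic_root (c : ℝ) (hc : 0 < c) :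
    ∀ᶠ n : ℕ in atTop, c * (1 + Real.log n) ≤ (Nat.sqrt (Nat.sqrt n) : ℝ) := by
  have hy : Tendsto (fun n : ℕ => Real.sqrt (Real.sqrt (Real.sqrt n))) atTop atTop :=
    Real.tendsto_sqrt_atTop.comp (Real.tendsto_sqrt_atTop.comp
      (Real.tendsto_sqrt_atTop.comp tendsto_natCast_atTop_atTop))
  filter_upwards [hy.eventually (eventually_ge_atTop (8 * c + 2)), eventually_ge_atTop 1]
    with n hn hn1
  set y : ℝ := Real.sqrt (Real.sqrt (Real.sqrt n)) with hyd
  have hn0 : (0 : ℝ) < n := by exact_mod_cast hn1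
  have hy0 : 0 < y := by linarith
  have hlog : Real.log n = 8 * Real.log y := by
    rw [hyd, Real.log_sqrt (Real.sqrt_nonneg _), Real.log_sqrt (Real.sqrt_nonneg _),
      Real.log_sqrt hn0.le]
    ring
  have hlogy : Real.log y ≤ y - 1 := Real.log_le_sub_one_of_pos hy0
  have hs : y ^ 2 < (Nat.sqrt (Nat.sqrt n) : ℝ) + 1 := by
    rw [hyd, Real.sq_sqrt (Real.sqrt_nonneg _), Real.sqrt_lt' (by positivity)]
    have h1 : Nat.sqrt n + 1 ≤ (Nat.sqrt (Nat.sqrt n) + 1) ^ 2 := Nat.lt_succ_sqrt' (Nat.sqrt n)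
    have h2 : Real.sqrt n < ((Nat.sqrt n + 1 : ℕ) : ℝ) := by
      rw [Real.sqrt_lt' (by positivity)]
      exact_mod_cast Nat.lt_succ_sqrt' n
    have h3 : ((Nat.sqrt n + 1 : ℕ) : ℝ) ≤ ((Nat.sqrt (Nat.sqrt n) : ℝ) + 1) ^ 2 := by
      exact_mod_cast h1
    linarith
  rw [hlog]
  nlinarith

/-- every interval `[n, n^7]` contains a strictly convex index -/
theorem interval_convex (f : ℕ → ℝ) (hneg : ∀ n : ℕ, 1 ≤ n → f n ≤ 0) (A : ℝ) (hA : 0 < A)
    (hlow : ∀ n : ℕ, 1 ≤ n → -(A * (1 + Real.log n) ^ 2) ≤ f n) (C : ℝ)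
    (hup : ∀ n : ℕ, 1 ≤ n → f n ≤ C - Real.log n / 2)
    (hcut : ∀ N : ℕ, 2 ≤ N → ∃ k, N ≤ 4 * k + 1 ∧ N ≤ 4 * (N - k) + 1 ∧ 1 ≤ k ∧ k + 1 ≤ N ∧
      f N ≤ 3 * Real.log N + f k + f (N - k)) :
    ∀ᶠ n : ℕ in atTop, ∃ m, n ≤ m ∧ m ≤ n ^ 7 ∧ 2 * f (m + 1) < f m + f (m + 2) := by
  have hs1 := quartic_root (7 * (2 * A + 1)) (by positivity)
  have hs2 := quartic_root 21 (by norm_num)
  have hs3 : ∀ᶠ n : ℕ in atTop, 2 * (C + 3 * Real.log 3 + 7) <
      Real.log (Nat.sqrt (Nat.sqrt n) : ℝ) := by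
    have h1 : ∀ᶠ n : ℕ in atTop, Real.exp (2 * (C + 3 * Real.log 3 + 7)) + 1 ≤
        (Nat.sqrt (Nat.sqrt n) : ℝ) := by
      have h2 := quartic_root 1 (by norm_num)
      have h3 : ∀ᶠ n : ℕ in atTop, Real.exp (2 * (C + 3 * Real.log 3 + 7)) ≤ Real.log n :=
        (Real.tendsto_log_atTop.comp tendsto_natCast_atTop_atTop).eventually
          (eventually_ge_atTop _)
      filter_upwards [h2, h3] with n h4 h5
      linarith
    filter_upwards [h1] with n hn
    rw [Real.lt_log_iff_exp_lt (by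
      have := Real.exp_pos (2 * (C + 3 * Real.log 3 + 7))
      linarith)]
    linarith
  filter_upwards [hs1, hs2, hs3, eventually_ge_atTop 16] with n e1 e2 e3 hn16
  by_contra hcontra
  push Not at hcontra
  have hcon : ∀ m, n ≤ m → m ≤ n ^ 7 → f m + f (m + 2) ≤ 2 * f (m + 1) := hcontra
  set s : ℕ := Nat.sqrt (Nat.sqrt n) with hs
  set b : ℕ := n ^ 7 with hb
  have hn1 : (1 : ℝ) ≤ n := by exact_mod_cast (by omega : 1 ≤ n)
  have hn0 : (0 : ℝ) < n := by linarith
  have hlogn : 0 ≤ Real.log n := Real.log_nonneg hn1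
  have hs4 : s ^ 4 ≤ n := by
    have h1 : s ^ 2 ≤ Nat.sqrt n := Nat.sqrt_le' _
    have h2 : (Nat.sqrt n) ^ 2 ≤ n := Nat.sqrt_le' _
    calc s ^ 4 = (s ^ 2) ^ 2 := by ring
      _ ≤ (Nat.sqrt n) ^ 2 := Nat.pow_le_pow_left h1 2
      _ ≤ n := h2
  have hs2' : 2 ≤ s := by
    have : (21 : ℝ) ≤ s := by linarith
    have : 21 ≤ s := by exact_mod_cast this
    omega
  have hsr : (2 : ℝ) ≤ s := by exact_mod_cast hs2'
  have hs0 : (0 : ℝ) < s := by linarith
  have hb0 : (0 : ℝ) < b := by rw [hb]; positivity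
  have hlogb : Real.log b = 7 * Real.log n := by
    rw [hb]; push_cast; rw [Real.log_pow]; norm_num
  -- doubling step
  set ψ : ℕ → ℝ := fun p => f p + 3 * Real.log p + 6 * Real.log 2 with hψ
  have hstep : ∀ p, 2 * n + 1 ≤ p → 2 * p ≤ b → ψ (2 * p) ≤ 2 * ψ p := by
    intro p hp hpb
    obtain ⟨k, hk1, hk2, hk3, hk4, hk5⟩ := hcut (2 * p) (by omega)
    have h1 : f k + f (2 * p - k) ≤ 2 * f p := by
      rcases Nat.le_total k p with h | h
      · have h2 := concave_mid f n b hcon p (p - k) (by omega) (by omega)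
        have h3 : p - (p - k) = k := by omega
        have h4 : p + (p - k) = 2 * p - k := by omega
        rw [h3, h4] at h2
        exact h2
      · have h2 := concave_mid f n b hcon p (k - p) (by omega) (by omega)
        have h3 : p - (k - p) = 2 * p - k := by omega
        have h4 : p + (k - p) = k := by omega
        rw [h3, h4] at h2
        linarith
    have hp0 : (0 : ℝ) < p := by exact_mod_cast (by omega : 0 < p)
    have h2 : Real.log ((2 * p : ℕ) : ℝ) = Real.log 2 + Real.log p := by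
      push_cast; rw [Real.log_mul (by norm_num) hp0.ne']
    simp only [hψ]
    rw [h2] at hk5 ⊢
    linarith
  have hiter : ∀ j p, 2 * n + 1 ≤ p → 2 ^ j * p ≤ b → ψ (2 ^ j * p) ≤ 2 ^ j * ψ p := by
    intro j
    induction j with
    | zero => intro p _ _; simp
    | succ j ih =>
      intro p hp hpb
      have hp2 : 2 ^ (j + 1) * p = 2 * (2 ^ j * p) := by ring
      have h1 := ih p hp (by omega)
      have h2 : 2 * n + 1 ≤ 2 ^ j * p := le_trans hp (Nat.le_mul_of_pos_left p (by positivity))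
      have h3 := hstep (2 ^ j * p) h2 (by omega)
      rw [hp2]
      calc ψ (2 * (2 ^ j * p)) ≤ 2 * ψ (2 ^ j * p) := h3
        _ ≤ 2 * (2 ^ j * ψ p) := by linarith
        _ = 2 ^ (j + 1) * ψ p := by ring
  -- lower bound in the middle
  have hmid : ∀ p, 2 * n + 1 ≤ p → p ≤ n ^ 6 * s ^ 2 → -(3 * Real.log p) - 6 ≤ f p := by
    intro p hp hp2
    have hp0 : (0 : ℝ) < p := by exact_mod_cast (by omega : 0 < p)
    have hpb : p ≤ b := by
      refine le_trans hp2 ?_
      rw [hb]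
      calc n ^ 6 * s ^ 2 ≤ n ^ 6 * n := by
            apply Nat.mul_le_mul_left
            refine le_trans ?_ hs4
            exact Nat.pow_le_pow_right (by omega) (by omega)
        _ = n ^ 7 := by ring
    set j : ℕ := Nat.log 2 (b / p) with hj
    have hbp : b / p ≠ 0 := by
      have : 1 ≤ b / p := (Nat.one_le_div_iff (by omega)).mpr hpb
      omega
    have hj1 : 2 ^ j * p ≤ b := by
      have h1 : 2 ^ j ≤ b / p := Nat.pow_log_le_self 2 hbp
      calc 2 ^ j * p ≤ b / p * p := Nat.mul_le_mul_right _ h1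
        _ ≤ b := Nat.div_mul_le_self _ _
    have hj2 : b < 2 ^ (j + 1) * p := by
      have h1 : b / p < 2 ^ (j + 1) := Nat.lt_pow_succ_log_self (by norm_num) _
      exact (Nat.div_lt_iff_lt_mul (by omega)).mp h1
    have h1 := hiter j p hp hj1
    have hq1 : 1 ≤ 2 ^ j * p := le_trans (by omega) (Nat.le_mul_of_pos_left p (by positivity))
    have hq0 : (0 : ℝ) < ((2 ^ j * p : ℕ) : ℝ) := by exact_mod_cast hq1
    have h2 := hlow (2 ^ j * p) hq1
    have h3 : 0 ≤ Real.log ((2 ^ j * p : ℕ) : ℝ) := Real.log_nonneg (by exact_mod_cast hq1)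
    have h4 : Real.log ((2 ^ j * p : ℕ) : ℝ) ≤ 7 * Real.log n := by
      rw [← hlogb]; exact Real.log_le_log hq0 (by exact_mod_cast hj1)
    have h5 : (1 + Real.log ((2 ^ j * p : ℕ) : ℝ)) ^ 2 ≤ (7 * (1 + Real.log n)) ^ 2 := by
      apply pow_le_pow_left₀ (by linarith)
      linarith
    have h6 : A * (7 * (1 + Real.log n)) ^ 2 * 2 ≤ (s : ℝ) ^ 2 := by
      have h7 : (7 * (2 * A + 1) * (1 + Real.log n)) ^ 2 ≤ (s : ℝ) ^ 2 :=
        pow_le_pow_left₀ (by positivity) e1 2
      have h8 : A * (7 * (1 + Real.log n)) ^ 2 * 2 ≤ (7 * (2 * A + 1) * (1 + Real.log n)) ^ 2 := by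
        have h9 : (7 * (2 * A + 1) * (1 + Real.log n)) ^ 2 =
          (2 * A + 1) ^ 2 * (7 * (1 + Real.log n)) ^ 2 := by ring
        rw [h9]
        have h10 : A * 2 ≤ (2 * A + 1) ^ 2 := by nlinarith
        nlinarith [sq_nonneg (7 * (1 + Real.log n))]
      linarith
    have h7 : ψ (2 ^ j * p) ≥ -((s : ℝ) ^ 2 / 2) := by
      have h8 : 0 ≤ Real.log 2 := Real.log_nonneg (by norm_num)
      have h9 : A * (1 + Real.log ((2 ^ j * p : ℕ) : ℝ)) ^ 2 ≤ A * (7 * (1 + Real.log n)) ^ 2 :=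
        mul_le_mul_of_nonneg_left h5 hA.le
      simp only [hψ]
      linarith
    -- 2^j ≥ s^2 / 2
    have h8 : (s : ℝ) ^ 2 ≤ 2 * 2 ^ j := by
      have h9 : s ^ 2 * p ≤ 2 ^ (j + 1) * p := by
        have h10 : s ^ 2 * p ≤ b := by
          calc s ^ 2 * p ≤ s ^ 2 * (n ^ 6 * s ^ 2) := Nat.mul_le_mul_left _ hp2
            _ = n ^ 6 * s ^ 4 := by ring
            _ ≤ n ^ 6 * n := Nat.mul_le_mul_left _ hs4
            _ = b := by rw [hb]; ring
        omega
      have h10 : s ^ 2 ≤ 2 ^ (j + 1) := Nat.le_of_mul_le_mul_right h9 (by omega)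
      have h11 : s ^ 2 ≤ 2 * 2 ^ j := by
        calc s ^ 2 ≤ 2 ^ (j + 1) := h10
          _ = 2 * 2 ^ j := by ring
      exact_mod_cast h11
    have h9 : -1 ≤ ψ p := by
      have h10 : (0 : ℝ) < 2 ^ j := by positivity
      by_contra hcc
      push Not at hcc
      nlinarith
    simp only [hψ] at h9
    have := Real.log_two_lt_d9
    linarith
  -- the three points
  set n0 : ℕ := 2 * n + 1 with hn0d
  set n1 : ℕ := n ^ 6 * s with hn1d
  set n2 : ℕ := n ^ 6 * s ^ 2 with hn2d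
  have hn6 : n ≤ n ^ 6 := Nat.le_self_pow (by norm_num) n
  have hn66 : 3 * n ≤ n ^ 6 := by
    calc 3 * n ≤ n * n := Nat.mul_le_mul_right n (by omega)
      _ = n ^ 2 := by ring
      _ ≤ n ^ 6 := Nat.pow_le_pow_right (by omega) (by omega)
  have h01 : n0 ≤ n1 := by
    rw [hn1d]
    have : n ^ 6 ≤ n ^ 6 * s := Nat.le_mul_of_pos_right _ (by omega)
    omega
  have h12 : n1 ≤ n2 := by
    rw [hn1d, hn2d]
    apply Nat.mul_le_mul_left
    nlinarith
  have h2b : n2 ≤ b := by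
    rw [hn2d, hb]
    calc n ^ 6 * s ^ 2 ≤ n ^ 6 * n := by
          apply Nat.mul_le_mul_left
          refine le_trans ?_ hs4
          exact Nat.pow_le_pow_right (by omega) (by omega)
      _ = n ^ 7 := by ring
  have h3 := concave_three f n b hcon n0 n1 n2 (by omega) h01 h12 (by omega)
  have hf0 := hmid n0 (by omega) (by omega)
  have hf2 := hmid n2 (by omega) le_rfl
  have hf1 := hup n1 (by omega)
  have hf0' := hneg n0 (by omega)
  -- logs
  have hl0 : Real.log n0 ≤ Real.log 3 + Real.log n := by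
    have h4 : (n0 : ℝ) ≤ 3 * n := by exact_mod_cast (by omega : n0 ≤ 3 * n)
    have h5 := Real.log_le_log (by exact_mod_cast (by omega : 0 < n0)) h4
    rwa [Real.log_mul (by norm_num) hn0.ne'] at h5
  have hl1 : Real.log n1 = 6 * Real.log n + Real.log s := by
    rw [hn1d]; push_cast
    rw [Real.log_mul (by positivity) hs0.ne', Real.log_pow]
    norm_num
  have hl2 : Real.log n2 ≤ 7 * Real.log n := by
    rw [← hlogb]
    exact Real.log_le_log (by exact_mod_cast (by omega : 0 < n2)) (by exact_mod_cast h2b)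
  have hY : -(21 * Real.log n + 6) ≤ f n2 := by linarith
  have hYs : 21 * Real.log n + 6 ≤ s := by linarith
  have hc1 : ((n1 : ℝ) - n0) * s ≤ (n2 : ℝ) - n0 := by
    have h4 : (n2 : ℝ) = n1 * s := by rw [hn1d, hn2d]; push_cast; ring
    have h5 : (0 : ℝ) ≤ n0 := Nat.cast_nonneg _
    rw [h4]
    nlinarith
  have hc2 : (0 : ℝ) ≤ (n1 : ℝ) - n0 := by
    rw [sub_nonneg]; exact_mod_cast h01
  have hc3 : (0 : ℝ) ≤ (n2 : ℝ) - n1 := by
    rw [sub_nonneg]; exact_mod_cast h12
  have hc4 : (0 : ℝ) < (n2 : ℝ) - n0 := by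
    have h4 : n0 < n2 := by
      rw [hn2d]
      have : n ^ 6 * 2 ≤ n ^ 6 * s ^ 2 := Nat.mul_le_mul_left _ (by nlinarith)
      omega
    rw [sub_pos]; exact_mod_cast h4
  have hfin : f n0 - 1 ≤ f n1 := by
    have h4 : -((n2 : ℝ) - n0) ≤ ((n1 : ℝ) - n0) * f n2 := by
      have h5 : ((n1 : ℝ) - n0) * (-(s : ℝ)) ≤ ((n1 : ℝ) - n0) * f n2 :=
        mul_le_mul_of_nonneg_left (by linarith) hc2
      linarith
    have h5 : ((n2 : ℝ) - n0) * f n0 ≤ ((n2 : ℝ) - n1) * f n0 := by
      nlinarith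
    have h6 : ((n2 : ℝ) - n0) * (f n0 - 1) ≤ ((n2 : ℝ) - n0) * f n1 := by
      have h7 : ((n2 : ℝ) - n0) * (f n0 - 1) = ((n2 : ℝ) - n0) * f n0 + -((n2 : ℝ) - n0) := by ring
      rw [h7]
      linarith
    exact le_of_mul_le_mul_left h6 hc4
  linarith

end Pool.Agent.Work.MP_56ddc0_co.RatioAbs
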