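import Pool.Agent.Work.MP_56ddc0_co.H55Anim

set_option autoImplicit false

namespace Pool.Agent.Work.MP_56ddc0_co.Anim

open Relation

theorem conn_insert' {S : Finset Cell} (hS : Conn S) {a b : Cell} (ha : a ∈ S)
    (hab : Adj a b) : Conn (insert b S) := by
  classical
  rw [Finset.insert_eq]
  exact (conn_singleton b).union hS (Finset.mem_singleton_self b) ha (Or.inl hab.symm)

/-- the largest cell (top row, rightmost) -/
def IsMx (S : Finset Cell) (M : Cell) : Prop :=
  M ∈ S ∧ ∀ p ∈ S, p.2 < M.2 ∨ (p.2 = M.2 ∧ p.1 ≤ M.1)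

theorem IsMx.unique {S : Finset Cell} {M N : Cell} (h : IsMx S M) (h' : IsMx S N) : M = N := by
  have h1 := h.2 N h'.1
  have h2 := h'.2 M h.1
  ext
  · omega
  · omega

/-- the leftmost cell of the top row -/
def IsLx (S : Finset Cell) (M : Cell) : Prop :=
  M ∈ S ∧ ∀ p ∈ S, p.2 < M.2 ∨ (p.2 = M.2 ∧ M.1 ≤ p.1)

theorem exists_lx {S : Finset Cell} (hS : S.Nonempty) : ∃ M, IsLx S M := by
  obtain ⟨m, hm, h⟩ := S.exists_max_image (fun p => toLex (p.2, -p.1)) hS
  refine ⟨m, hm, fun p hp => ?_⟩
  have h1 := h p hp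
  rw [Prod.Lex.toLex_le_toLex] at h1
  simp only at h1
  rcases h1 with h1 | ⟨h1, h2⟩
  · exact Or.inl h1
  · exact Or.inr ⟨h1, by omega⟩

/-- top row -/
def Tr (S : Finset Cell) : Finset Cell := S.filter (fun p => ∀ q ∈ S, q.2 ≤ p.2)

theorem mem_Tr {S : Finset Cell} {p : Cell} : p ∈ Tr S ↔ p ∈ S ∧ ∀ q ∈ S, q.2 ≤ p.2 := by
  unfold Tr; rw [Finset.mem_filter]

theorem IsMx.mem_Tr {S : Finset Cell} {M : Cell} (h : IsMx S M) : M ∈ Tr S := by
  rw [Anim.mem_Tr]
  refine ⟨h.1, fun q hq => ?_⟩
  have := h.2 q hq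
  omega

/-! #### right extension -/

theorem canon_insert {S : Finset Cell} (hS : Canon S) {c : Cell} {M : Cell} (hM : M ∈ S)
    (hc : M.2 < c.2 ∨ (M.2 = c.2 ∧ M.1 < c.1)) : Canon (insert c S) := by
  refine ⟨Finset.mem_insert_of_mem hS.1, fun p hp => ?_⟩
  rcases Finset.mem_insert.mp hp with rfl | hp
  · have := hS.2 M hM
    omega
  · exact hS.2 p hp

theorem right_ext {n : ℕ} {S : Finset Cell} (hS : S ∈ T n) {M : Cell} (hM : IsMx S M) :
    insert (M + (1, 0)) S ∈ T (n + 1) ∧ IsMx (insert (M + (1, 0)) S) (M + (1, 0)) ∧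
      M + (1, 0) ∉ S ∧ Tr (insert (M + (1, 0)) S) = insert (M + (1, 0)) (Tr S) := by
  obtain ⟨h1, h2, h3⟩ := mem_T.mp hS
  have hn : M + (1, 0) ∉ S := by
    intro h
    have := hM.2 _ h
    simp only [Prod.fst_add, Prod.snd_add] at this
    omega
  refine ⟨mem_T.mpr ⟨by rw [Finset.card_insert_of_notMem hn, h1],
    canon_insert h2 hM.1 (by right; simp), conn_insert' h3 hM.1 (adj_right M)⟩,
    ⟨Finset.mem_insert_self _ _, fun p hp => ?_⟩, hn, ?_⟩
  · rcases Finset.mem_insert.mp hp with rfl | hp
    · right; exact ⟨rfl, le_rfl⟩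
    · have := hM.2 p hp
      simp only [Prod.fst_add, Prod.snd_add]
      omega
  · ext p
    rw [mem_Tr, Finset.mem_insert, Finset.mem_insert, mem_Tr]
    constructor
    · rintro ⟨h4 | h4, h5⟩
      · exact Or.inl h4
      · exact Or.inr ⟨h4, fun q hq => h5 q (Finset.mem_insert_of_mem hq)⟩
    · rintro (h4 | ⟨h4, h5⟩)
      · refine ⟨Or.inl h4, fun q hq => ?_⟩
        rw [h4]
        rcases Finset.mem_insert.mp hq with rfl | hq
        · exact le_rfl
        · have := hM.2 q hq
          simp only [Prod.snd_add]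
          omega
      · refine ⟨Or.inr h4, fun q hq => ?_⟩
        rcases Finset.mem_insert.mp hq with rfl | hq
        · have := h5 M hM.1
          simp only [Prod.snd_add]
          omega
        · exact h5 q hq

/-! #### up extension -/

theorem up_ext {n : ℕ} {S : Finset Cell} (hS : S ∈ T n) {z : Cell} (hz : z ∈ Tr S) :
    insert (z + (0, 1)) S ∈ T (n + 1) ∧ IsMx (insert (z + (0, 1)) S) (z + (0, 1)) ∧
      z + (0, 1) ∉ S ∧ Tr (insert (z + (0, 1)) S) = {z + (0, 1)} := by
  obtain ⟨h1, h2, h3⟩ := mem_T.mp hS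
  obtain ⟨hzS, hzt⟩ := mem_Tr.mp hz
  have hn : z + (0, 1) ∉ S := by
    intro h
    have := hzt _ h
    simp only [Prod.snd_add] at this
    omega
  refine ⟨mem_T.mpr ⟨by rw [Finset.card_insert_of_notMem hn, h1],
    canon_insert h2 hzS (by left; simp), conn_insert' h3 hzS (adj_up z)⟩,
    ⟨Finset.mem_insert_self _ _, fun p hp => ?_⟩, hn, ?_⟩
  · rcases Finset.mem_insert.mp hp with rfl | hp
    · right; exact ⟨rfl, le_rfl⟩
    · have := hzt p hp
      simp only [Prod.snd_add]
      omega
  · ext p
    rw [mem_Tr, Finset.mem_insert, Finset.mem_singleton]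
    constructor
    · rintro ⟨h4 | h4, h5⟩
      · exact h4
      · exfalso
        have h6 := h5 _ (Finset.mem_insert_self _ _)
        have h7 := hzt p h4
        simp only [Prod.snd_add] at h6
        omega
    · intro h4
      refine ⟨Or.inl h4, fun q hq => ?_⟩
      rw [h4]
      rcases Finset.mem_insert.mp hq with rfl | hq
      · exact le_rfl
      · have := hzt q hq
        simp only [Prod.snd_add]
        omega

/-! #### hook extensions -/

theorem hook_ext {n : ℕ} {S : Finset Cell} (hS : S ∈ T n) {z : Cell} (hz : IsLx S z) :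
    insert (z + (0, 1)) (insert (z + (-1, 1)) S) ∈ T (n + 2) ∧
      IsMx (insert (z + (0, 1)) (insert (z + (-1, 1)) S)) (z + (0, 1)) ∧
      (insert (z + (0, 1)) (insert (z + (-1, 1)) S)).erase (z + (0, 1)) = insert (z + (-1, 1)) S ∧
      z + (-1, 1) ∉ S ∧ ¬ Conn (insert (z + (-1, 1)) S) ∧
      z + (0, 1) + (-2, 0) ∉ insert (z + (0, 1)) (insert (z + (-1, 1)) S) := by
  obtain ⟨h1, h2, h3⟩ := mem_T.mp hS
  have hn : ∀ c : Cell, z.2 < c.2 → c ∉ S := by
    intro c hc h
    have := hz.2 c h
    omega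
  have hn1 : z + (-1, 1) ∉ S := hn _ (by simp)
  have hn2 : z + (0, 1) ∉ S := hn _ (by simp)
  have hne : z + (0, 1) ≠ z + (-1, 1) := by
    intro h
    have := congrArg Prod.fst h
    simp at this
  have hn3 : z + (0, 1) ∉ insert (z + (-1, 1)) S := by
    rw [Finset.mem_insert]
    push Not
    exact ⟨hne, hn2⟩
  refine ⟨mem_T.mpr ⟨?_, ?_, ?_⟩, ⟨Finset.mem_insert_self _ _, ?_⟩, ?_, hn1, ?_, ?_⟩
  · rw [Finset.card_insert_of_notMem hn3, Finset.card_insert_of_notMem hn1, h1]
  · refine ⟨Finset.mem_insert_of_mem (Finset.mem_insert_of_mem h2.1), fun p hp => ?_⟩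
    have hz0 := h2.2 z hz.1
    rcases Finset.mem_insert.mp hp with rfl | hp
    · simp only [Prod.fst_add, Prod.snd_add]; omega
    rcases Finset.mem_insert.mp hp with rfl | hp
    · simp only [Prod.fst_add, Prod.snd_add]; omega
    · exact h2.2 p hp
  · have h4 : Conn (insert (z + (0, 1)) S) := conn_insert' h3 hz.1 (adj_up z)
    have h5 : Conn (insert (z + (-1, 1)) (insert (z + (0, 1)) S)) := by
      refine conn_insert' h4 (Finset.mem_insert_self _ _) ?_
      have : z + (-1, 1) = z + (0, 1) + (-1, 0) := by rw [add_assoc]; rfl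
      rw [this]
      exact adj_left _
    rw [Finset.insert_comm] at h5
    exact h5
  · intro p hp
    rcases Finset.mem_insert.mp hp with rfl | hp
    · right; exact ⟨rfl, le_rfl⟩
    rcases Finset.mem_insert.mp hp with rfl | hp
    · right; simp
    · left
      have := hz.2 p hp
      simp only [Prod.snd_add]
      omega
  · exact Finset.erase_insert hn3
  · intro hcon
    obtain ⟨y, hy, w, hw, hwS, hyw⟩ := crossing (hcon.2 z (Finset.mem_insert_of_mem hz.1)
      (z + (-1, 1)) (Finset.mem_insert_self _ _)) hz.1 hn1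
    have hw1 : w = z + (-1, 1) := by
      rcases Finset.mem_insert.mp hwS with h | h
      · exact h
      · exact absurd h hw
    subst hw1
    have hy1 := hz.2 y hy
    unfold Adj at hyw
    simp only [Prod.fst_add, Prod.snd_add] at hyw
    have h6 : 1 ≤ |y.2 - (z.2 + 1)| := Int.one_le_abs (by omega)
    have h7 : |y.1 - (z.1 + -1)| = 0 := by
      have := abs_nonneg (y.1 - (z.1 + -1))
      omega
    have h8 : |y.2 - (z.2 + 1)| = 1 := by omega
    rw [abs_eq_zero] at h7
    rcases (abs_eq (by norm_num : (0 : ℤ) ≤ 1)).mp h8 with h9 | h9 <;> omega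
  · rw [Finset.mem_insert, Finset.mem_insert]
    push Not
    refine ⟨?_, ?_, hn _ (by simp)⟩
    · intro h
      have := congrArg Prod.fst h
      simp at this
    · intro h
      have := congrArg Prod.fst h
      simp at this

theorem hook3_ext {n : ℕ} {S : Finset Cell} (hS : S ∈ T n) {z : Cell} (hz : IsLx S z) :
    insert (z + (0, 1)) (insert (z + (-1, 1)) (insert (z + (-2, 1)) S)) ∈ T (n + 3) ∧
      IsMx (insert (z + (0, 1)) (insert (z + (-1, 1)) (insert (z + (-2, 1)) S))) (z + (0, 1)) ∧
      (insert (z + (0, 1)) (insert (z + (-1, 1)) (insert (z + (-2, 1)) S))).erase (z + (0, 1)) =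
        insert (z + (-1, 1)) (insert (z + (-2, 1)) S) ∧
      z + (-1, 1) ∉ insert (z + (-2, 1)) S ∧ z + (-2, 1) ∉ S ∧
      ¬ Conn (insert (z + (-1, 1)) (insert (z + (-2, 1)) S)) ∧
      z + (0, 1) + (-2, 0) ∈
        insert (z + (0, 1)) (insert (z + (-1, 1)) (insert (z + (-2, 1)) S)) := by
  obtain ⟨h1, h2, h3⟩ := mem_T.mp hS
  have hn : ∀ c : Cell, z.2 < c.2 → c ∉ S := by
    intro c hc h
    have := hz.2 c h
    omega
  have hn1 : z + (-1, 1) ∉ S := hn _ (by simp)
  have hn2 : z + (0, 1) ∉ S := hn _ (by simp)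
  have hn3 : z + (-2, 1) ∉ S := hn _ (by simp)
  have hne : ∀ i j : ℤ, i ≠ j → z + (i, 1) ≠ z + (j, 1) := by
    intro i j hij h
    have := congrArg Prod.fst h
    simp only [Prod.fst_add] at this
    omega
  have hn4 : z + (-1, 1) ∉ insert (z + (-2, 1)) S := by
    rw [Finset.mem_insert]
    push Not
    exact ⟨hne _ _ (by norm_num), hn1⟩
  have hn5 : z + (0, 1) ∉ insert (z + (-1, 1)) (insert (z + (-2, 1)) S) := by
    rw [Finset.mem_insert, Finset.mem_insert]
    push Not
    exact ⟨hne _ _ (by norm_num), hne _ _ (by norm_num), hn2⟩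
  have hlow : ∀ y ∈ S, ∀ i : ℤ, i < 0 → ¬ Adj y (z + (i, 1)) := by
    intro y hy i hi hyw
    have hy1 := hz.2 y hy
    unfold Adj at hyw
    simp only [Prod.fst_add, Prod.snd_add] at hyw
    have h6 : 1 ≤ |y.2 - (z.2 + 1)| := Int.one_le_abs (by omega)
    have h7 : |y.1 - (z.1 + i)| = 0 := by
      have := abs_nonneg (y.1 - (z.1 + i))
      omega
    have h8 : |y.2 - (z.2 + 1)| = 1 := by omega
    rw [abs_eq_zero] at h7
    rcases (abs_eq (by norm_num : (0 : ℤ) ≤ 1)).mp h8 with h9 | h9 <;> omega
  refine ⟨mem_T.mpr ⟨?_, ?_, ?_⟩, ⟨Finset.mem_insert_self _ _, ?_⟩, ?_, hn4, hn3, ?_, ?_⟩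
  · rw [Finset.card_insert_of_notMem hn5, Finset.card_insert_of_notMem hn4,
      Finset.card_insert_of_notMem hn3, h1]
  · refine ⟨Finset.mem_insert_of_mem (Finset.mem_insert_of_mem (Finset.mem_insert_of_mem h2.1)),
      fun p hp => ?_⟩
    have hz0 := h2.2 z hz.1
    rcases Finset.mem_insert.mp hp with rfl | hp
    · simp only [Prod.fst_add, Prod.snd_add]; omega
    rcases Finset.mem_insert.mp hp with rfl | hp
    · simp only [Prod.fst_add, Prod.snd_add]; omega
    rcases Finset.mem_insert.mp hp with rfl | hp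
    · simp only [Prod.fst_add, Prod.snd_add]; omega
    · exact h2.2 p hp
  · have h4 : Conn (insert (z + (0, 1)) S) := conn_insert' h3 hz.1 (adj_up z)
    have h5 : Conn (insert (z + (-1, 1)) (insert (z + (0, 1)) S)) := by
      refine conn_insert' h4 (Finset.mem_insert_self _ _) ?_
      have : z + (-1, 1) = z + (0, 1) + (-1, 0) := by rw [add_assoc]; rfl
      rw [this]
      exact adj_left _
    have h6 : Conn (insert (z + (-2, 1)) (insert (z + (-1, 1)) (insert (z + (0, 1)) S))) := by
      refine conn_insert' h5 (Finset.mem_insert_self _ _) ?_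
      have : z + (-2, 1) = z + (-1, 1) + (-1, 0) := by rw [add_assoc]; rfl
      rw [this]
      exact adj_left _
    have h7 : insert (z + (-2, 1)) (insert (z + (-1, 1)) (insert (z + (0, 1)) S)) =
        insert (z + (0, 1)) (insert (z + (-1, 1)) (insert (z + (-2, 1)) S)) := by
      ext p
      simp only [Finset.mem_insert]
      tauto
    rw [← h7]
    exact h6
  · intro p hp
    rcases Finset.mem_insert.mp hp with rfl | hp
    · right; exact ⟨rfl, le_rfl⟩
    rcases Finset.mem_insert.mp hp with rfl | hp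
    · right; simp
    rcases Finset.mem_insert.mp hp with rfl | hp
    · right; simp
    · left
      have := hz.2 p hp
      simp only [Prod.snd_add]
      omega
  · exact Finset.erase_insert hn5
  · intro hcon
    obtain ⟨y, hy, w, hw, hwS, hyw⟩ := crossing (hcon.2 z (Finset.mem_insert_of_mem
      (Finset.mem_insert_of_mem hz.1)) (z + (-1, 1)) (Finset.mem_insert_self _ _)) hz.1 hn1
    rcases Finset.mem_insert.mp hwS with rfl | h
    · exact hlow y hy (-1) (by norm_num) hyw
    rcases Finset.mem_insert.mp h with rfl | h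
    · exact hlow y hy (-2) (by norm_num) hyw
    · exact hw h
  · have : z + (0, 1) + (-2, 0) = z + (-2, 1) := by rw [add_assoc]; rfl
    rw [this]
    exact Finset.mem_insert_of_mem (Finset.mem_insert_of_mem (Finset.mem_insert_self _ _))

theorem conn_erase_right {S : Finset Cell} (hS : Conn S) {c : Cell} (hc : c ∉ S) :
    Conn ((insert c S).erase c) := by
  rw [Finset.erase_insert hc]; exact hS

/-- total size of the top rows -/
noncomputable def Ls (n : ℕ) : ℕ := ∑ S ∈ T n, (Tr S).card

theorem Tr_pos {S : Finset Cell} {M : Cell} (h : IsMx S M) : 1 ≤ (Tr S).card :=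
  Finset.card_pos.mpr ⟨M, h.mem_Tr⟩

/-- the counting step -/
theorem step_count (n : ℕ) : tn (n + 3) ≥ tn (n + 2) + Ls (n + 2) + tn (n + 1) + tn n := by
  classical
  have hexM : ∀ S : Finset Cell, ∃ M : Cell, S.Nonempty → IsMx S M := by
    intro S
    by_cases hS : S.Nonempty
    · obtain ⟨M, hM, h⟩ := exists_lexmax hS
      exact ⟨M, fun _ => ⟨hM, h⟩⟩
    · exact ⟨0, fun h => absurd h hS⟩
  have hexL : ∀ S : Finset Cell, ∃ M : Cell, S.Nonempty → IsLx S M := by
    intro S
    by_cases hS : S.Nonempty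
    · obtain ⟨M, hM⟩ := exists_lx hS
      exact ⟨M, fun _ => hM⟩
    · exact ⟨0, fun h => absurd h hS⟩
  choose μ hμ using hexM
  choose ν hν using hexL
  have hne : ∀ {m : ℕ} {S : Finset Cell}, S ∈ T m → S.Nonempty := fun hS => (mem_T.mp hS).2.2.1
  -- the four families
  set F1 : Finset (Finset Cell) := (T (n + 2)).image (fun S => insert (μ S + (1, 0)) S) with hF1
  set F2 : Finset (Finset Cell) :=
    ((T (n + 2)).sigma (fun S => Tr S)).image (fun x => insert (x.2 + (0, 1)) x.1) with hF2
  set F3 : Finset (Finset Cell) :=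
    (T (n + 1)).image (fun S => insert (ν S + (0, 1)) (insert (ν S + (-1, 1)) S)) with hF3
  set F4 : Finset (Finset Cell) :=
    (T n).image (fun S => insert (ν S + (0, 1)) (insert (ν S + (-1, 1))
      (insert (ν S + (-2, 1)) S))) with hF4
  have c1 : F1.card = tn (n + 2) := by
    rw [hF1, Finset.card_image_of_injOn]
    · rfl
    · intro S hS S' hS' heq
      have hS := Finset.mem_coe.mp hS
      have hS' := Finset.mem_coe.mp hS'
      obtain ⟨_, h1, h2, _⟩ := right_ext hS (hμ S (hne hS))
      obtain ⟨_, h1', h2', _⟩ := right_ext hS' (hμ S' (hne hS'))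
      simp only at heq
      rw [heq] at h1
      have h3 := h1.unique h1'
      have h4 := congrArg (fun X => X.erase (μ S + (1, 0))) heq
      rw [Finset.erase_insert h2, h3, Finset.erase_insert h2'] at h4
      exact h4
  have c2 : F2.card = Ls (n + 2) := by
    rw [hF2, Finset.card_image_of_injOn]
    · rw [Finset.card_sigma]; rfl
    · rintro ⟨S, z⟩ hx ⟨S', z'⟩ hx' heq
      have hx := Finset.mem_sigma.mp (Finset.mem_coe.mp hx)
      have hx' := Finset.mem_sigma.mp (Finset.mem_coe.mp hx')
      simp only at hx hx' heq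
      obtain ⟨_, h1, h2, _⟩ := up_ext hx.1 hx.2
      obtain ⟨_, h1', h2', _⟩ := up_ext hx'.1 hx'.2
      rw [heq] at h1
      have h3 := h1.unique h1'
      have h4 := congrArg (fun X => X.erase (z + (0, 1))) heq
      rw [Finset.erase_insert h2, h3, Finset.erase_insert h2'] at h4
      have h5 : z = z' := add_right_cancel h3
      rw [h4, h5]
  have c3 : F3.card = tn (n + 1) := by
    rw [hF3, Finset.card_image_of_injOn]
    · rfl
    · intro S hS S' hS' heq
      have hS := Finset.mem_coe.mp hS
      have hS' := Finset.mem_coe.mp hS'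
      obtain ⟨_, h1, h2, h3, _, _⟩ := hook_ext hS (hν S (hne hS))
      obtain ⟨_, h1', h2', h3', _, _⟩ := hook_ext hS' (hν S' (hne hS'))
      simp only at heq
      rw [heq] at h1
      have h4 : ν S = ν S' := add_right_cancel (h1.unique h1')
      rw [heq, h4, h2'] at h2
      have h5 := congrArg (fun X => X.erase (ν S' + (-1, 1))) h2
      rw [h4] at h3
      rw [Finset.erase_insert h3, Finset.erase_insert h3'] at h5
      exact h5.symm
  have c4 : F4.card = tn n := by
    rw [hF4, Finset.card_image_of_injOn]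
    · rfl
    · intro S hS S' hS' heq
      have hS := Finset.mem_coe.mp hS
      have hS' := Finset.mem_coe.mp hS'
      obtain ⟨_, h1, h2, h3, h3b, _, _⟩ := hook3_ext hS (hν S (hne hS))
      obtain ⟨_, h1', h2', h3', h3b', _, _⟩ := hook3_ext hS' (hν S' (hne hS'))
      simp only at heq
      rw [heq] at h1
      have h4 : ν S = ν S' := add_right_cancel (h1.unique h1')
      rw [heq, h4, h2'] at h2
      have h5 := congrArg (fun X => (X.erase (ν S' + (-1, 1))).erase (ν S' + (-2, 1))) h2
      rw [h4] at h3 h3b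
      rw [Finset.erase_insert h3, Finset.erase_insert h3', Finset.erase_insert h3b,
        Finset.erase_insert h3b'] at h5
      exact h5.symm
  -- properties
  have p1 : ∀ P ∈ F1, P ∈ T (n + 3) ∧ ∃ c, IsMx P c ∧ Conn (P.erase c) ∧ c + (-1, 0) ∈ P := by
    intro P hP
    obtain ⟨S, hS, rfl⟩ := Finset.mem_image.mp hP
    obtain ⟨h0, h1, h2, _⟩ := right_ext hS (hμ S (hne hS))
    refine ⟨h0, _, h1, ?_, ?_⟩
    · rw [Finset.erase_insert h2]; exact (mem_T.mp hS).2.2
    · apply Finset.mem_insert_of_mem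
      have : μ S + (1, 0) + (-1, 0) = μ S := by rw [add_assoc]; simp
      rw [this]
      exact (hμ S (hne hS)).1
  have p2 : ∀ P ∈ F2, P ∈ T (n + 3) ∧ ∃ c, IsMx P c ∧ Conn (P.erase c) ∧ c + (-1, 0) ∉ P := by
    intro P hP
    obtain ⟨⟨S, z⟩, hx, rfl⟩ := Finset.mem_image.mp hP
    rw [Finset.mem_sigma] at hx
    simp only at hx ⊢
    obtain ⟨h0, h1, h2, h3⟩ := up_ext hx.1 hx.2
    refine ⟨h0, _, h1, ?_, ?_⟩
    · rw [Finset.erase_insert h2]; exact (mem_T.mp hx.1).2.2
    · intro h4
      have h5 : z + (0, 1) + (-1, 0) ∈ Tr (insert (z + (0, 1)) S) := by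
        rw [mem_Tr]
        refine ⟨h4, fun q hq => ?_⟩
        have := h1.2 q hq
        simp only [Prod.snd_add] at this ⊢
        omega
      rw [h3, Finset.mem_singleton] at h5
      have := congrArg Prod.fst h5
      simp at this
  have p3 : ∀ P ∈ F3, P ∈ T (n + 3) ∧ ∃ c, IsMx P c ∧ ¬ Conn (P.erase c) ∧ c + (-2, 0) ∉ P := by
    intro P hP
    obtain ⟨S, hS, rfl⟩ := Finset.mem_image.mp hP
    obtain ⟨h0, h1, h2, h3, h4, h5⟩ := hook_ext hS (hν S (hne hS))
    exact ⟨h0, _, h1, by rw [h2]; exact h4, h5⟩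
  have p4 : ∀ P ∈ F4, P ∈ T (n + 3) ∧ ∃ c, IsMx P c ∧ ¬ Conn (P.erase c) ∧ c + (-2, 0) ∈ P := by
    intro P hP
    obtain ⟨S, hS, rfl⟩ := Finset.mem_image.mp hP
    obtain ⟨h0, h1, h2, h3, h3b, h4, h5⟩ := hook3_ext hS (hν S (hne hS))
    exact ⟨h0, _, h1, by rw [h2]; exact h4, h5⟩
  have d12 : Disjoint F1 F2 := by
    rw [Finset.disjoint_left]
    intro P h1 h2
    obtain ⟨_, c, hc, _, hc2⟩ := p1 P h1
    obtain ⟨_, c', hc', _, hc2'⟩ := p2 P h2
    rw [hc.unique hc'] at hc2
    exact hc2' hc2
  have d34 : Disjoint F3 F4 := by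
    rw [Finset.disjoint_left]
    intro P h1 h2
    obtain ⟨_, c, hc, _, hc2⟩ := p3 P h1
    obtain ⟨_, c', hc', _, hc2'⟩ := p4 P h2
    rw [hc.unique hc'] at hc2
    exact hc2 hc2'
  have d : Disjoint (F1 ∪ F2) (F3 ∪ F4) := by
    rw [Finset.disjoint_left]
    intro P h1 h2
    have a1 : ∃ c, IsMx P c ∧ Conn (P.erase c) := by
      rcases Finset.mem_union.mp h1 with h | h
      · obtain ⟨_, c, hc, hc1, _⟩ := p1 P h; exact ⟨c, hc, hc1⟩
      · obtain ⟨_, c, hc, hc1, _⟩ := p2 P h; exact ⟨c, hc, hc1⟩
    have a2 : ∃ c, IsMx P c ∧ ¬ Conn (P.erase c) := by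
      rcases Finset.mem_union.mp h2 with h | h
      · obtain ⟨_, c, hc, hc1, _⟩ := p3 P h; exact ⟨c, hc, hc1⟩
      · obtain ⟨_, c, hc, hc1, _⟩ := p4 P h; exact ⟨c, hc, hc1⟩
    obtain ⟨c, hc, hc1⟩ := a1
    obtain ⟨c', hc', hc1'⟩ := a2
    rw [hc.unique hc'] at hc1
    exact hc1' hc1
  have hsub : (F1 ∪ F2) ∪ (F3 ∪ F4) ⊆ T (n + 3) := by
    intro P hP
    rcases Finset.mem_union.mp hP with h | h
    · rcases Finset.mem_union.mp h with h | h
      · exact (p1 P h).1
      · exact (p2 P h).1
    · rcases Finset.mem_union.mp h with h | h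
      · exact (p3 P h).1
      · exact (p4 P h).1
  have hle := Finset.card_le_card hsub
  rw [Finset.card_union_of_disjoint d, Finset.card_union_of_disjoint d12,
    Finset.card_union_of_disjoint d34, c1, c2, c3, c4] at hle
  unfold tn at *
  omega

/-- the top rows have average size at least `2 - 1/τ` -/
theorem Ls_lower (n : ℕ) (hn : 1 ≤ n) : 2 * tn (n + 1) ≤ Ls (n + 1) + tn n := by
  classical
  have hexM : ∀ S : Finset Cell, ∃ M : Cell, S.Nonempty → IsMx S M := by
    intro S
    by_cases hS : S.Nonempty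
    · obtain ⟨M, hM, h⟩ := exists_lexmax hS
      exact ⟨M, fun _ => ⟨hM, h⟩⟩
    · exact ⟨0, fun h => absurd h hS⟩
  choose μ hμ using hexM
  have hne : ∀ {m : ℕ} {S : Finset Cell}, S ∈ T m → S.Nonempty := fun hS => (mem_T.mp hS).2.2.1
  -- singles are up-extensions
  have hsingle : ((T (n + 1)).filter (fun S => (Tr S).card = 1)).card ≤ Ls n := by
    have h1 : Ls n = ((T n).sigma (fun S => Tr S)).card := by rw [Finset.card_sigma]; rfl
    rw [h1]
    have h2 : (T (n + 1)).filter (fun S => (Tr S).card = 1) ⊆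
        ((T n).sigma (fun S => Tr S)).image (fun x => insert (x.2 + (0, 1)) x.1) := by
      intro P hP
      obtain ⟨hPT, hP1⟩ := Finset.mem_filter.mp hP
      obtain ⟨g1, g2, g3⟩ := mem_T.mp hPT
      have hM := hμ P (hne hPT)
      set M := μ P with hMdef
      obtain ⟨w, hw⟩ := Finset.card_eq_one.mp hP1
      have hwM : ∀ p ∈ P, p ≠ M → p.2 < M.2 := by
        intro p hp hpM
        rcases hM.2 p hp with h | ⟨h, h'⟩
        · exact h
        · exfalso
          have h3 : p ∈ Tr P := by
            rw [mem_Tr]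
            refine ⟨hp, fun q hq => ?_⟩
            have := hM.2 q hq
            omega
          have h4 := hM.mem_Tr
          rw [hw, Finset.mem_singleton] at h3 h4
          exact hpM (h3.trans h4.symm)
      -- another cell exists
      obtain ⟨p0, hp0, hp0M⟩ : ∃ p ∈ P, p ≠ M := by
        by_contra hcon
        push Not at hcon
        have : P ⊆ {M} := fun p hp => Finset.mem_singleton.mpr (hcon p hp)
        have := Finset.card_le_card this
        rw [g1, Finset.card_singleton] at this
        omega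
      -- neighbour of M is below
      have hnb : ∀ y ∈ P, Adj y M → y = M + (0, -1) := by
        intro y hy hadj
        have h3 := hwM y hy hadj.ne
        rcases adj_cases hadj.symm with h | h | h | h
        · rw [h] at h3; simp at h3
        · rw [h] at h3; simp at h3
        · rw [h] at h3; simp at h3
        · exact h
      have hbelow : M + (0, -1) ∈ P := by
        have h3 := g3.2 M hM.1 p0 hp0
        obtain ⟨y, hy, z, hz, hzP, hyz⟩ := crossing (A := {M}) h3 (Finset.mem_singleton_self M)
          (by rw [Finset.mem_singleton]; exact hp0M)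
        rw [Finset.mem_singleton] at hy
        subst hy
        have h4 := hnb z hzP hyz.symm
        rw [← h4]; exact hzP
      -- erased set is connected
      have hconn : Conn (P.erase M) := by
        have hb : M + (0, -1) ∈ P.erase M := by
          rw [Finset.mem_erase]
          exact ⟨(adj_down M).ne.symm, hbelow⟩
        refine conn_of_base hb (fun p hp => ?_)
        rw [Finset.mem_erase] at hp
        have h3 := g3.2 _ hbelow p hp.2
        -- walk with the retraction M ↦ M + (0,-1)
        set φ : Cell → Cell := fun x => if x = M then M + (0, -1) else x with hφ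
        have hstep : ∀ a b, Step P a b → a ∈ P →
            ReflTransGen (Step (P.erase M)) (φ a) (φ b) := by
          intro a b hab ha
          by_cases ha' : a = M
          · have hb' : b ≠ M := by rw [← ha']; exact hab.1.ne.symm
            have h5 : b = M + (0, -1) := hnb b hab.2 (by rw [← ha']; exact hab.1.symm)
            have hb'' : M + (0, -1) ≠ M := (adj_down M).ne.symm
            simp only [hφ, if_pos ha', h5, if_neg hb'']
            exact ReflTransGen.refl
          · by_cases hb' : b = M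
            · have h5 : a = M + (0, -1) := hnb a ha (by rw [← hb']; exact hab.1)
              simp only [hφ, if_neg ha', if_pos hb']
              rw [h5]
            · simp only [hφ, if_neg ha', if_neg hb']
              exact ReflTransGen.single ⟨hab.1, Finset.mem_erase.mpr ⟨hb', hab.2⟩⟩
        have hwalk : ∀ b, ReflTransGen (Step P) (M + (0, -1)) b →
            b ∈ P ∧ ReflTransGen (Step (P.erase M)) (φ (M + (0, -1))) (φ b) := by
          intro b hb
          induction hb with
          | refl => exact ⟨hbelow, ReflTransGen.refl⟩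
          | tail _ h6 ih => exact ⟨h6.2, ih.2.trans (hstep _ _ h6 ih.1)⟩
        have h6 := (hwalk p h3).2
        simp only [hφ, if_neg hp.1, if_neg (adj_down M).ne.symm] at h6
        exact h6
      have hST : P.erase M ∈ T n := by
        refine mem_T.mpr ⟨by rw [Finset.card_erase_of_mem hM.1, g1]; rfl, ⟨?_, ?_⟩, hconn⟩
        · rw [Finset.mem_erase]
          refine ⟨?_, g2.1⟩
          intro h0
          have h5 := g2.2 _ hbelow
          rw [← h0] at h5
          simp at h5
        · intro p hp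
          exact g2.2 p (Finset.mem_erase.mp hp).2
      rw [Finset.mem_image]
      refine ⟨⟨P.erase M, M + (0, -1)⟩, ?_, ?_⟩
      · rw [Finset.mem_sigma]
        refine ⟨hST, ?_⟩
        simp only
        rw [mem_Tr]
        refine ⟨?_, fun q hq => ?_⟩
        · rw [Finset.mem_erase]
          exact ⟨(adj_down M).ne.symm, hbelow⟩
        · rw [Finset.mem_erase] at hq
          have := hwM q hq.2 hq.1
          simp only [Prod.snd_add]
          omega
      · simp only
        have : M + (0, -1) + (0, 1) = M := by rw [add_assoc]; simp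
        rw [this, Finset.insert_erase hM.1]
    exact le_trans (Finset.card_le_card h2) Finset.card_image_le
  -- large rows from right extensions
  have hbig : ∑ S ∈ T n, ((Tr S).card - 1) ≤ ∑ S ∈ T (n + 1), ((Tr S).card - 2) := by
    have hinj : Set.InjOn (fun S => insert (μ S + (1, 0)) S) (T n : Set (Finset Cell)) := by
      intro S hS S' hS' heq
      have hS := Finset.mem_coe.mp hS
      have hS' := Finset.mem_coe.mp hS'
      obtain ⟨_, h1, h2, _⟩ := right_ext hS (hμ S (hne hS))
      obtain ⟨_, h1', h2', _⟩ := right_ext hS' (hμ S' (hne hS'))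
      simp only at heq
      rw [heq] at h1
      have h3 := h1.unique h1'
      have h4 := congrArg (fun X => X.erase (μ S + (1, 0))) heq
      rw [Finset.erase_insert h2, h3, Finset.erase_insert h2'] at h4
      exact h4
    have h1 : ∑ S ∈ T n, ((Tr S).card - 1) =
        ∑ P ∈ (T n).image (fun S => insert (μ S + (1, 0)) S), ((Tr P).card - 2) := by
      rw [Finset.sum_image hinj]
      apply Finset.sum_congr rfl
      intro S hS
      obtain ⟨_, _, h2, h3⟩ := right_ext hS (hμ S (hne hS))
      rw [h3, Finset.card_insert_of_notMem]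
      · omega
      · intro h4
        exact h2 (mem_Tr.mp h4).1
    rw [h1]
    apply Finset.sum_le_sum_of_subset
    intro P hP
    obtain ⟨S, hS, rfl⟩ := Finset.mem_image.mp hP
    exact (right_ext hS (hμ S (hne hS))).1
  have hn' : Ls n = ∑ S ∈ T n, ((Tr S).card - 1) + tn n := by
    unfold Ls tn
    rw [Finset.card_eq_sum_ones, ← Finset.sum_add_distrib]
    apply Finset.sum_congr rfl
    intro S hS
    have := Tr_pos (hμ S (hne hS))
    omega
  have hn1 : Ls (n + 1) + ((T (n + 1)).filter (fun S => (Tr S).card = 1)).card =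
      ∑ S ∈ T (n + 1), ((Tr S).card - 2) + 2 * tn (n + 1) := by
    unfold Ls tn
    rw [Finset.card_filter, Finset.card_eq_sum_ones, Finset.mul_sum, ← Finset.sum_add_distrib,
      ← Finset.sum_add_distrib]
    apply Finset.sum_congr rfl
    intro S hS
    have := Tr_pos (hμ S (hne hS))
    by_cases h1 : (Tr S).card = 1
    · rw [if_pos h1]; omega
    · rw [if_neg h1]; omega
  omega

/-- `t(n+3) ≥ 3 t(n+2) + t(n)` -/
theorem tn_three (n : ℕ) : 3 * tn (n + 2) + tn n ≤ tn (n + 3) := by
  have h1 := step_count n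
  have h2 : 2 * tn (n + 2) ≤ Ls (n + 2) + tn (n + 1) := Ls_lower (n + 1) (by omega)
  omega

end Pool.Agent.Work.MP_56ddc0_co.Anim
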