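import Pool.Agent.Work.MP_56ddc0_co.H55Main
import Pool.Agent.Work.MP_56ddc0_co.H55Quant2
import Pool.Agent.Work.MP_56ddc0_co.H55Cut
import Pool.Agent.Work.MP_56ddc0_co.H55Three

set_option autoImplicit false

namespace Pool.Agent.Work.MP_56ddc0_co.Anim

open Filter Topology RatioAbs

/-- all the analytic data for the polyomino counts -/
theorem tn_data : ∃ L : ℝ, 0 ≤ L ∧
    Tendsto (fun n : ℕ => (Real.log (tn n) - n * L) / n) atTop (𝓝 0) ∧
    (∀ n : ℕ, 1 ≤ n → Real.log (tn n) ≤ n * L) ∧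
    Tendsto (fun n : ℕ => (tn (n + 1) : ℝ) / tn n) atTop (𝓝 (Real.exp L)) ∧
    (∃ A : ℝ, 0 < A ∧ ∀ n : ℕ, 1 ≤ n →
      -(A * (1 + Real.log n) ^ 2) ≤ Real.log (tn n) - n * L) ∧
    (∃ C : ℝ, 0 < C ∧ ∀ n : ℕ, 1 ≤ n → |(Real.log (tn (n + 1)) - ((n + 1 : ℕ) : ℝ) * L) -
      (Real.log (tn n) - n * L)| ≤ C * (1 + Real.log n) / Real.sqrt n) ∧
    (∀ N : ℕ, 2 ≤ N → ∃ k, N ≤ 4 * k + 1 ∧ N ≤ 4 * (N - k) + 1 ∧ 1 ≤ k ∧ k + 1 ≤ N ∧
      Real.log (tn N) - N * L ≤ 3 * Real.log N + (Real.log (tn k) - k * L) +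
        (Real.log (tn (N - k)) - ((N - k : ℕ) : ℝ) * L)) := by
  obtain ⟨L, hL, h0, hup⟩ := tn_growth
  obtain ⟨D, hD, hK⟩ := tn_kesten L hL h0 hup
  have hcut := cut_log tn tn_pos L (fun N K hK hN => cut_ineq N K hK hN)
  have hlow := log_sq_lower (fun n => Real.log (tn n) - n * L) L hL h0
    (fun m n hm hn => by
      have h1 : (0 : ℝ) < tn m := by exact_mod_cast tn_pos m hm
      have h2 : (0 : ℝ) < tn n := by exact_mod_cast tn_pos n hn
      have h3 : (tn m : ℝ) * tn n ≤ tn (m + n) := by exact_mod_cast tn_mul_le m n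
      have h4 := Real.log_le_log (mul_pos h1 h2) h3
      rw [Real.log_mul h1.ne' h2.ne'] at h4
      push_cast
      linarith)
    (fun n hn => by
      have : 0 ≤ Real.log (tn n) := Real.log_nonneg (by exact_mod_cast tn_pos n hn)
      linarith)
    (fun N hN => hcut N hN)
  refine ⟨L, hL, h0, hup, ratio_tendsto tn tn_pos L h0 slope_tendsto D hD hK,
    ⟨300 + 8 * L, by positivity, hlow⟩, ?_, hcut⟩
  -- the slope inequality in logarithmic form
  obtain ⟨M, hM⟩ := hK.exists_forall_of_atTop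
  obtain ⟨M2, hM2⟩ := exists_nat_gt (2 * D)
  refine slope_rate (fun n => Real.log (tn n) - n * L) (fun n hn => by
    have := hup n hn
    linarith) (300 + 8 * L) (by positivity) hlow (2 * D + 1) (by linarith) (M + M2 + 1) (by omega)
    (fun n hn => ?_)
  have hn' := hM n (by omega)
  have hn0 : (0 : ℝ) < n := by exact_mod_cast (by omega : 0 < n)
  have hnM' : (M2 : ℝ) ≤ n := by exact_mod_cast (by omega : M2 ≤ n)
  have ha : (0 : ℝ) < tn n := by exact_mod_cast tn_pos n (by omega)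
  have hb : (0 : ℝ) < tn (n + 1) := by exact_mod_cast tn_pos (n + 1) (by omega)
  have hc : (0 : ℝ) < tn (n + 2) := by exact_mod_cast tn_pos (n + 2) (by omega)
  have hx : D / n ≤ 1 / 2 := by
    rw [div_le_iff₀ hn0]; linarith
  have hx0 : 0 ≤ D / n := by positivity
  have h2 := Real.log_le_log (by
    have : 0 < 1 - D / n := by linarith
    positivity) hn'
  rw [Real.log_mul (by positivity) (by linarith), Real.log_pow, Real.log_mul ha.ne' hc.ne'] at h2
  have h3 : -(2 * D / n) ≤ Real.log (1 - D / n) := by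
    have h4 := Real.one_sub_inv_le_log_of_pos (x := 1 - D / n) (by linarith)
    have h5 : -(2 * D / n) ≤ 1 - (1 - D / n)⁻¹ := by
      have h6 : (1 - D / n)⁻¹ ≤ 1 + 2 * (D / n) := by
        rw [inv_le_comm₀ (by linarith) (by positivity)]
        rw [inv_le_iff_one_le_mul₀ (by positivity)]
        nlinarith
      have h7 : 2 * D / n = 2 * (D / n) := by ring
      linarith
    linarith
  have h6 : (2 * D + 1) / (n : ℝ) = 2 * D / n + 1 / n := by ring
  have h7 : 0 ≤ 1 / (n : ℝ) := by positivity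
  rw [h6]
  push_cast at h2 ⊢
  linarith

/-- rate of convergence of the ratios -/
theorem tn_rate : ∃ lam C : ℝ, Tendsto (fun n : ℕ => (tn (n + 1) : ℝ) / tn n) atTop (𝓝 lam) ∧
    ∀ n : ℕ, 1 ≤ n → |(tn (n + 1) : ℝ) / tn n - lam| ≤ C * (1 + Real.log n) / Real.sqrt n := by
  obtain ⟨L, hL, h0, hup, hr, _, ⟨C, hC, hrate⟩, _⟩ := tn_data
  refine ⟨Real.exp L, Real.exp L * (C * Real.exp (2 * C)), hr, fun n hn => ?_⟩
  have hn1 : (1 : ℝ) ≤ n := by exact_mod_cast hn
  have hn0 : (0 : ℝ) < n := by linarith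
  have hlog : 0 ≤ Real.log n := Real.log_nonneg hn1
  have hs0 : 0 < Real.sqrt n := Real.sqrt_pos.mpr hn0
  have ha : (0 : ℝ) < tn n := by exact_mod_cast tn_pos n hn
  have hb : (0 : ℝ) < tn (n + 1) := by exact_mod_cast tn_pos (n + 1) (by omega)
  set g : ℝ := (Real.log (tn (n + 1)) - ((n + 1 : ℕ) : ℝ) * L) - (Real.log (tn n) - n * L) with hg
  have h1 := hrate n hn
  rw [← hg] at h1
  have h2 : (tn (n + 1) : ℝ) / tn n = Real.exp L * Real.exp g := by
    rw [← Real.exp_add, hg]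
    have : L + (Real.log (tn (n + 1)) - ((n + 1 : ℕ) : ℝ) * L - (Real.log (tn n) - n * L)) =
        Real.log ((tn (n + 1) : ℝ) / tn n) := by
      rw [Real.log_div hb.ne' ha.ne']
      push_cast
      ring
    rw [this, Real.exp_log (div_pos hb ha)]
  have hbd : C * (1 + Real.log n) / Real.sqrt n ≤ 2 * C := by
    rw [div_le_iff₀ hs0]
    have h3 := Real.log_le_sub_one_of_pos hs0
    rw [Real.log_sqrt hn0.le] at h3
    nlinarith
  have hg2 : |g| ≤ 2 * C := le_trans h1 hbd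
  -- |e^g - 1| ≤ |g| e^{|g|}
  have h3 : |Real.exp g - 1| ≤ |g| * Real.exp (2 * C) := by
    rw [abs_le]
    have e1 := Real.add_one_le_exp g
    have e2 := Real.add_one_le_exp (-g)
    have e3 : 1 ≤ Real.exp (2 * C) := Real.one_le_exp (by linarith)
    have e4 : Real.exp g ≤ Real.exp (2 * C) :=
      Real.exp_le_exp.mpr (le_trans (le_abs_self g) hg2)
    have e5 := neg_abs_le g
    have e6 := le_abs_self g
    have e7 := abs_nonneg g
    constructor
    · nlinarith
    · -- e^g - 1 = e^g (1 - e^{-g}) ≤ e^g g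
      have e8 : Real.exp g - 1 ≤ Real.exp g * g := by
        have e9 : Real.exp g * Real.exp (-g) = 1 := by rw [← Real.exp_add]; simp
        nlinarith [Real.exp_pos g]
      have e10 : Real.exp g * g ≤ Real.exp g * |g| :=
        mul_le_mul_of_nonneg_left e6 (Real.exp_pos g).le
      nlinarith
  rw [h2]
  have h4 : Real.exp L * Real.exp g - Real.exp L = Real.exp L * (Real.exp g - 1) := by ring
  rw [h4, abs_mul, abs_of_pos (Real.exp_pos L)]
  have h5 : |Real.exp g - 1| ≤ (C * (1 + Real.log n) / Real.sqrt n) * Real.exp (2 * C) :=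
    le_trans h3 (mul_le_mul_of_nonneg_right h1 (Real.exp_pos _).le)
  calc Real.exp L * |Real.exp g - 1|
      ≤ Real.exp L * ((C * (1 + Real.log n) / Real.sqrt n) * Real.exp (2 * C)) :=
        mul_le_mul_of_nonneg_left h5 (Real.exp_pos L).le
    _ = _ := by ring

theorem tn_far_quant : ∃ c : ℝ, 0 < c ∧ ∀ n k : ℕ, 1 ≤ n →
    Real.exp (c * (1 + Real.log n) ^ 2) ≤ k → tn (n + k) ^ 2 < tn n * tn (n + 2 * k) := by
  obtain ⟨L, hL, h0, hup, hr, ⟨A, hA, hlow⟩, ⟨C, hC, hrate⟩, _⟩ := tn_data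
  exact far_quant tn tn_pos L hL (fun n _ => doubling n) A hA hlow C hC hrate

theorem tn_interval : ∀ᶠ n : ℕ in atTop, ∃ m, n ≤ m ∧ m ≤ n ^ 7 ∧
    tn (m + 1) ^ 2 < tn m * tn (m + 2) := by
  obtain ⟨L, hL, h0, hup, hr, ⟨A, hA, hlow⟩, _, hcut⟩ := tn_data
  have h1 := interval_convex (fun n => Real.log (tn n) - n * L)
    (fun n hn => by have := hup n hn; linarith) A hA hlow (L + 2 * Real.log 2)
    (fun n hn => by
      have h2 := decay tn L hL tn_pos hup (fun n _ => doubling n) n hn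
      have h3 := sqrt_log_lower n hn
      linarith) hcut
  filter_upwards [h1, eventually_ge_atTop 1] with n hn hn1
  obtain ⟨m, hm1, hm2, hm3⟩ := hn
  refine ⟨m, hm1, hm2, ?_⟩
  have ha : (0 : ℝ) < tn m := by exact_mod_cast tn_pos m (by omega)
  have hb : (0 : ℝ) < tn (m + 1) := by exact_mod_cast tn_pos (m + 1) (by omega)
  have hc : (0 : ℝ) < tn (m + 2) := by exact_mod_cast tn_pos (m + 2) (by omega)
  have h4 : Real.log ((tn (m + 1) : ℝ) ^ 2) < Real.log ((tn m : ℝ) * tn (m + 2)) := by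
    rw [Real.log_pow, Real.log_mul ha.ne' hc.ne']
    push_cast at hm3 ⊢
    linarith
  have h5 := (Real.log_lt_log_iff (by positivity) (by positivity)).mp h4
  exact_mod_cast h5

theorem tn_gt_three (n : ℕ) (hn : 3 ≤ n) : 3 * tn n < tn (n + 1) := by
  have h := tn_three (n - 2)
  have h1 : n - 2 + 2 = n := by omega
  have h2 : n - 2 + 3 = n + 1 := by omega
  rw [h1, h2] at h
  have := tn_pos (n - 2) (by omega)
  omega

end Pool.Agent.Work.MP_56ddc0_co.Anim
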