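import Pool.Agent.Work.MP_56ddc0_co.H55RightMin

set_option autoImplicit false

namespace Pool.Agent.Work.MP_56ddc0_co.RatioAbs

open Filter Topology

/-- the slopes at distance `C n²` beat a given negative average -/
theorem slope_root2 (f h : ℕ → ℝ) (hneg : ∀ n : ℕ, 1 ≤ n → h n < 0) (B : ℝ) (hB : 0 < B)
    (hrate : ∀ n : ℕ, 1 ≤ n → |f (n + 1) - f n| ≤ B * (1 + Real.log n) / Real.sqrt n) (C : ℝ)
    (hup : ∀ n : ℕ, 1 ≤ n → h n ≤ C - Real.log n / 2) :
    ∃ c : ℝ, 0 < c ∧ ∀ n m : ℕ, 1 ≤ n → c * n ^ 2 ≤ m → h n < n * (f (m + 1) - f m) := by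
  -- a decay function
  have hq : Tendsto (fun m : ℕ => B * (1 + Real.log m) / Real.sqrt m) atTop (𝓝 0) := by
    have h1 : Tendsto (fun m : ℕ => (Real.sqrt m)) atTop atTop :=
      Real.tendsto_sqrt_atTop.comp tendsto_natCast_atTop_atTop
    have h2 : Tendsto (fun y : ℝ => Real.log y ^ 1 / (1 * y + 0)) atTop (𝓝 0) :=
      Real.tendsto_pow_log_div_mul_add_atTop 1 0 1 one_ne_zero
    have h3 : Tendsto (fun m : ℕ => B * (1 / Real.sqrt m + 2 * (Real.log (Real.sqrt m) ^ 1 /
        (1 * Real.sqrt m + 0)))) atTop (𝓝 (B * (0 + 2 * 0))) :=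
      ((((tendsto_const_nhds (x := (1 : ℝ))).div_atTop h1).add
        ((h2.comp h1).const_mul 2)).const_mul B)
    simp only [mul_zero, add_zero] at h3
    refine h3.congr' ?_
    filter_upwards [eventually_ge_atTop 1] with m hm
    rw [Real.log_sqrt (Nat.cast_nonneg m)]
    field_simp
  obtain ⟨N0, hN0⟩ := (((Real.tendsto_log_atTop.comp tendsto_natCast_atTop_atTop).eventually
    (eventually_ge_atTop (max (4 * C) 1))).and (eventually_ge_atTop 3)).exists_forall_of_atTop
  set d : ℝ := 80 * B + 1 with hd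
  have hd0 : 0 < d := by positivity
  have hlarge : ∀ n m : ℕ, N0 ≤ n → d ^ 4 * n ^ 2 ≤ m → h n < n * (f (m + 1) - f m) := by
    intro n m hn hm
    obtain ⟨e1, e2⟩ := hN0 n hn
    simp only [Function.comp] at e1
    have e3 : 4 * C ≤ Real.log n := le_trans (le_max_left _ _) e1
    have e4 : 1 ≤ Real.log n := le_trans (le_max_right _ _) e1
    have hn0 : (0 : ℝ) < n := by exact_mod_cast (by omega : 0 < n)
    have hfn : h n ≤ -(Real.log n / 4) := by
      have := hup n (by omega)
      linarith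
    have hm0 : (0 : ℝ) < m := lt_of_lt_of_le (by positivity) hm
    have h1 := (abs_le.mp (hrate m (by exact_mod_cast hm0))).1
    have hs0 : 0 < Real.sqrt m := Real.sqrt_pos.mpr hm0
    -- w = √m / n ≥ d²
    set w : ℝ := Real.sqrt m / n with hw
    have hw0 : 0 < w := div_pos hs0 hn0
    have hsw : Real.sqrt m = n * w := by rw [hw]; field_simp
    have hwd : d ^ 2 ≤ w := by
      rw [hw, le_div_iff₀ hn0]
      apply Real.le_sqrt_of_sq_le
      calc (d ^ 2 * (n : ℝ)) ^ 2 = d ^ 4 * (n : ℝ) ^ 2 := by ring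
        _ ≤ (m : ℝ) := hm
    -- log m = 2 log n + 2 log w
    have hlogm : Real.log m = 2 * (Real.log n + Real.log w) := by
      rw [← Real.log_mul hn0.ne' hw0.ne', ← hsw, Real.log_sqrt hm0.le]; ring
    -- log w ≤ 2 √w
    have hww : 0 < Real.sqrt w := Real.sqrt_pos.mpr hw0
    have hlogw : Real.log w ≤ 2 * Real.sqrt w := by
      have h2 := Real.log_le_sub_one_of_pos hww
      rw [Real.log_sqrt hw0.le] at h2
      linarith
    have hwsq : Real.sqrt w * Real.sqrt w = w := Real.mul_self_sqrt hw0.le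
    have hdw : d ≤ Real.sqrt w := Real.le_sqrt_of_sq_le hwd
    have hd1 : 1 ≤ d := by rw [hd]; linarith
    -- B (1 + log m) < w log n / 4
    have h2 : B * (1 + Real.log m) < w * Real.log n / 4 := by
      rw [hlogm]
      have h3 : B * (1 + 2 * (Real.log n + Real.log w)) ≤
          B * (3 * Real.log n + 4 * Real.sqrt w) :=
        mul_le_mul_of_nonneg_left (by linarith) hB.le
      have h4 : 80 * B < Real.sqrt w := by linarith
      have h5 : B * (3 * Real.log n) ≤ w * Real.log n / 20 := by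
        have : 80 * B ≤ w := by nlinarith
        nlinarith
      have h6 : B * (4 * Real.sqrt w) ≤ w * Real.log n / 20 := by
        have : 80 * B * Real.sqrt w ≤ w := by
          calc 80 * B * Real.sqrt w ≤ Real.sqrt w * Real.sqrt w :=
                mul_le_mul_of_nonneg_right h4.le hww.le
            _ = w := hwsq
        nlinarith
      have h7 : 0 < w * Real.log n := by positivity
      linarith
    have h3 : (n : ℝ) * (B * (1 + Real.log m) / Real.sqrt m) < Real.log n / 4 := by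
      rw [hsw, mul_div_assoc', div_lt_iff₀ (by positivity)]
      nlinarith
    have h4 : (n : ℝ) * (-(B * (1 + Real.log m) / Real.sqrt m)) ≤ n * (f (m + 1) - f m) :=
      mul_le_mul_of_nonneg_left h1 hn0.le
    linarith
  have hsmall : ∀ n : ℕ, ∃ M : ℕ, 1 ≤ n → ∀ m : ℕ, M ≤ m → h n < n * (f (m + 1) - f m) := by
    intro n
    by_cases hn : 1 ≤ n
    · have hn0 : (0 : ℝ) < n := by exact_mod_cast hn
      have h1 : 0 < -(h n) / n := div_pos (by linarith [hneg n hn]) hn0
      obtain ⟨M, hM⟩ := (hq.eventually (gt_mem_nhds h1)).exists_forall_of_atTop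
      refine ⟨M + 1, fun _ m hm => ?_⟩
      have h2 := hM m (by omega)
      have h3 := (abs_le.mp (hrate m (by omega))).1
      rw [lt_div_iff₀ hn0] at h2
      nlinarith
    · exact ⟨0, fun h1 => absurd h1 hn⟩
  choose M hM using hsmall
  set c2 : ℝ := ∑ n ∈ Finset.range N0, (M n : ℝ) with hc2
  have hc20 : 0 ≤ c2 := Finset.sum_nonneg (fun _ _ => Nat.cast_nonneg _)
  refine ⟨d ^ 4 + c2, by positivity, fun n m hn hm => ?_⟩
  have hn0 : (1 : ℝ) ≤ n := by exact_mod_cast hn
  have hn2 : (1 : ℝ) ≤ (n : ℝ) ^ 2 := by nlinarith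
  rcases Nat.lt_or_ge n N0 with hlt | hge
  · apply hM n hn m
    have h1 := Finset.single_le_sum (f := fun n => (M n : ℝ)) (fun _ _ => Nat.cast_nonneg _)
      (Finset.mem_range.mpr hlt)
    have h5 : 0 ≤ d ^ 4 := by positivity
    have h4 : (M n : ℝ) ≤ m := by
      calc (M n : ℝ) ≤ d ^ 4 + c2 := by linarith
        _ ≤ (d ^ 4 + c2) * n ^ 2 := by nlinarith
        _ ≤ m := hm
    exact_mod_cast h4
  · apply hlarge n m hge
    refine le_trans ?_ hm
    nlinarith

end Pool.Agent.Work.MP_56ddc0_co.RatioAbs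

namespace Pool.Agent.Work.MP_56ddc0_co.Anim

open Filter Topology RatioAbs

/-- gluing with one common cell -/
theorem tn_glue (m n : ℕ) : tn (m + 1) * tn (n + 1) ≤ tn (m + n + 1) := by
  classical
  have hex : ∀ S : Finset Cell, ∃ M : Cell, S ∈ T (m + 1) →
      M ∈ S ∧ ∀ p ∈ S, p.2 < M.2 ∨ (p.2 = M.2 ∧ p.1 ≤ M.1) := by
    intro S
    by_cases hS : S ∈ T (m + 1)
    · obtain ⟨M, hM, h⟩ := exists_lexmax (mem_T.mp hS).2.2.1
      exact ⟨M, fun _ => ⟨hM, h⟩⟩
    · exact ⟨0, fun h => absurd h hS⟩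
  choose μ hμ using hex
  have hlt : ∀ A ∈ T (m + 1), ∀ B ∈ T (n + 1), ∀ a ∈ A, ∀ c ∈ sh (μ A) (B.erase 0), Lt a c := by
    intro A hA B hB a ha c hc
    rw [mem_sh, Finset.mem_erase] at hc
    have h1 := (hμ A hA).2 a ha
    have h2 := (mem_T.mp hB).2.1.2 _ hc.2
    have h3 : c - μ A ≠ 0 := hc.1
    simp only [Prod.fst_sub, Prod.snd_sub] at h2
    have h4 : ¬ (c.1 - (μ A).1 = 0 ∧ c.2 - (μ A).2 = 0) := by
      rintro ⟨h5, h6⟩
      exact h3 (Prod.ext h5 h6)
    unfold Lt
    omega
  have hd : ∀ A ∈ T (m + 1), ∀ B ∈ T (n + 1), Disjoint A (sh (μ A) (B.erase 0)) := by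
    intro A hA B hB
    rw [Finset.disjoint_left]
    intro a ha hc
    have := hlt A hA B hB a ha a hc
    exact Lt.asymm' _ _ this this
  unfold tn
  rw [← Finset.card_product]
  apply Finset.card_le_card_of_injOn (fun P => P.1 ∪ sh (μ P.1) (P.2.erase 0))
  · rintro ⟨A, B⟩ hAB
    rw [Finset.mem_coe, Finset.mem_product] at hAB
    obtain ⟨hA, hB⟩ := hAB
    simp only at hA hB ⊢
    obtain ⟨hcA, hkA, hconA⟩ := mem_T.mp hA
    obtain ⟨hcB, hkB, hconB⟩ := mem_T.mp hB
    have h0B : (0 : Cell) ∈ B := hkB.1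
    have heq : A ∪ sh (μ A) (B.erase 0) = A ∪ sh (μ A) B := by
      ext q
      rw [Finset.mem_union, Finset.mem_union, mem_sh, mem_sh, Finset.mem_erase]
      constructor
      · rintro (h | h)
        · exact Or.inl h
        · exact Or.inr h.2
      · rintro (h | h)
        · exact Or.inl h
        · by_cases hq : q - μ A = 0
          · left
            rw [sub_eq_zero] at hq
            rw [hq]
            exact (hμ A hA).1
          · exact Or.inr ⟨hq, h⟩
    rw [Finset.mem_coe, mem_T]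
    refine ⟨?_, ⟨?_, ?_⟩, ?_⟩
    · rw [Finset.card_union_of_disjoint (hd A hA B hB), card_sh, hcA,
        Finset.card_erase_of_mem h0B, hcB]
      omega
    · exact Finset.mem_union_left _ hkA.1
    · intro p hp
      rcases Finset.mem_union.mp hp with hp | hp
      · exact hkA.2 p hp
      · have h1 := hlt A hA B hB _ hkA.1 p hp
        unfold Lt at h1
        simp only at h1
        omega
    · rw [heq]
      refine hconA.union (hconB.sh _) (a := μ A) (b := μ A) (hμ A hA).1 ?_ (Or.inr rfl)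
      rw [mem_sh, sub_self]
      exact h0B
  · rintro ⟨A, B⟩ hAB ⟨A', B'⟩ hAB' heq
    rw [Finset.mem_coe, Finset.mem_product] at hAB hAB'
    obtain ⟨hA, hB⟩ := hAB
    obtain ⟨hA', hB'⟩ := hAB'
    simp only at hA hB hA' hB' heq
    have hAA : A = A' := cut_unique Lt Lt.asymm' heq
      (by rw [(mem_T.mp hA).1, (mem_T.mp hA').1]) (hlt A hA B hB) (hlt A' hA' B' hB')
    subst hAA
    have h2 : sh (μ A) (B.erase 0) = sh (μ A) (B'.erase 0) := by
      have h3 := congrArg (fun X => X \ A) heq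
      rw [Finset.union_sdiff_cancel_left (hd A hA B hB),
        Finset.union_sdiff_cancel_left (hd A hA B' hB')] at h3
      exact h3
    have h4 := congrArg (sh (-(μ A))) h2
    rw [sh_sh, sh_sh, neg_add_cancel, sh_zero, sh_zero] at h4
    have h5 : B = B' := by
      have h6 := congrArg (insert (0 : Cell)) h4
      have hb0 : (0 : Cell) ∈ B := (mem_T.mp hB).2.1.1
      have hb1 : (0 : Cell) ∈ B' := (mem_T.mp hB').2.1.1
      rw [Finset.insert_erase hb0, Finset.insert_erase hb1] at h6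
      exact h6
    rw [h5]

theorem tn_neg1 (L : ℝ) (hL : 0 ≤ L) (hup : ∀ n : ℕ, 1 ≤ n → Real.log (tn n) ≤ n * L) :
    ∀ n : ℕ, 1 ≤ n → Real.log (tn (n + 1)) - n * L < 0 := by
  have hbot := weighted_atBot tn L hL tn_pos hup (fun n _ => doubling n) 0 (by norm_num)
  intro n hn
  by_contra hcon
  push Not at hcon
  have hmul : ∀ k : ℕ, 1 ≤ k → 0 ≤ Real.log (tn (k * n + 1)) - ((k * n : ℕ) : ℝ) * L := by
    intro k hk
    induction k, hk using Nat.le_induction with
    | base => rw [one_mul]; exact hcon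
    | succ k hk ih =>
      have h1 : (0 : ℝ) < tn (k * n + 1) := by exact_mod_cast tn_pos _ (by omega)
      have h2 : (0 : ℝ) < tn (n + 1) := by exact_mod_cast tn_pos (n + 1) (by omega)
      have h3 : (tn (k * n + 1) : ℝ) * tn (n + 1) ≤ tn (k * n + n + 1) := by
        exact_mod_cast tn_glue (k * n) n
      have h4 := Real.log_le_log (mul_pos h1 h2) h3
      rw [Real.log_mul h1.ne' h2.ne'] at h4
      have h5 : (k + 1) * n = k * n + n := by ring
      rw [h5]
      push_cast at ih ⊢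
      linarith
  obtain ⟨M, hM⟩ := (hbot.eventually (eventually_lt_atBot (-L))).exists_forall_of_atTop
  have h1 := hM ((M + 1) * n + 1)
    (le_trans (by omega) (le_trans (Nat.le_mul_of_pos_right (M + 1) hn) (Nat.le_succ _)))
  have h2 := hmul (M + 1) (by omega)
  push_cast at h1 h2
  linarith

/-- every ratio far enough beats the geometric mean of the first `n` ratios -/
theorem tn_later : ∃ c : ℝ, 0 < c ∧ ∀ n m : ℕ, 1 ≤ n → c * n ^ 2 ≤ m →
    tn (n + 1) * tn m ^ n < tn (m + 1) ^ n := by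
  obtain ⟨L, hL, h0, hup, hr, _, ⟨B, hB, hrate⟩, _⟩ := tn_data
  obtain ⟨c, hc, h⟩ := slope_root2 (fun n => Real.log (tn n) - n * L)
    (fun n => Real.log (tn (n + 1)) - n * L) (tn_neg1 L hL hup) B hB hrate
    (2 * L + 2 * Real.log 2) (fun n hn => by
      have h2 := decay tn L hL tn_pos hup (fun n _ => doubling n) (n + 1) (by omega)
      have h3 := sqrt_log_lower (n + 1) (by omega)
      have h4 : Real.log (n : ℝ) ≤ Real.log ((n + 1 : ℕ) : ℝ) :=
        Real.log_le_log (by exact_mod_cast hn) (by push_cast; linarith)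
      push_cast at h2 h3 h4 ⊢
      linarith)
  refine ⟨c, hc, fun n m hn hm => ?_⟩
  have h1 := h n m hn hm
  have hn0 : (1 : ℝ) ≤ n := by exact_mod_cast hn
  have hm0 : (0 : ℝ) < m := lt_of_lt_of_le (by positivity) hm
  have hm1 : 1 ≤ m := by exact_mod_cast hm0
  have ha : (0 : ℝ) < tn (n + 1) := by exact_mod_cast tn_pos (n + 1) (by omega)
  have hb : (0 : ℝ) < tn m := by exact_mod_cast tn_pos m hm1
  have hd : (0 : ℝ) < tn (m + 1) := by exact_mod_cast tn_pos (m + 1) (by omega)
  have h2 : Real.log ((tn (n + 1) : ℝ) * (tn m : ℝ) ^ n) < Real.log ((tn (m + 1) : ℝ) ^ n) := by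
    rw [Real.log_mul ha.ne' (by positivity), Real.log_pow, Real.log_pow]
    push_cast at h1
    nlinarith
  have h3 := (Real.log_lt_log_iff (by positivity) (by positivity)).mp h2
  exact_mod_cast h3

end Pool.Agent.Work.MP_56ddc0_co.Anim
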