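import Pool.Agent.Work.MP_56ddc0_co.H55Main2

set_option autoImplicit false

namespace Pool.Agent.Work.MP_56ddc0_co.RatioAbs

open Filter Topology

/-- the slopes are eventually smaller than any power above `-1/2` -/
theorem slope_small (B e c r : ℝ) (hc : 0 < c) (hr2 : r < 1 / 2) :
    ∀ᶠ m : ℕ in atTop, B * (1 + Real.log m) / Real.sqrt m + e / m < c / (m : ℝ) ^ r := by
  have hd : 0 < 1 / 2 - r := by linarith
  -- functions of a real variable
  have h1 : Tendsto (fun x : ℝ => x ^ (-(1 / 2 - r))) atTop (𝓝 0) := tendsto_rpow_neg_atTop hd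
  have h2 : Tendsto (fun x : ℝ => Real.log x * x ^ (-(1 / 2 - r))) atTop (𝓝 0) := by
    have h3 := (isLittleO_log_rpow_atTop hd).tendsto_div_nhds_zero
    refine h3.congr' ?_
    filter_upwards [eventually_gt_atTop 0] with x hx
    rw [Real.rpow_neg hx.le]
    rfl
  have h3 : Tendsto (fun x : ℝ => x ^ (-(1 - r))) atTop (𝓝 0) :=
    tendsto_rpow_neg_atTop (by linarith)
  have h4 : Tendsto (fun x : ℝ => B * (x ^ (-(1 / 2 - r)) + Real.log x * x ^ (-(1 / 2 - r))) +
      e * x ^ (-(1 - r))) atTop (𝓝 (B * (0 + 0) + e * 0)) :=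
    ((h1.add h2).const_mul B).add (h3.const_mul e)
  simp only [add_zero, mul_zero] at h4
  have h5 := (h4.comp tendsto_natCast_atTop_atTop).eventually (gt_mem_nhds hc)
  filter_upwards [h5, eventually_ge_atTop 1] with m hm hm1
  simp only [Function.comp] at hm
  have hm0 : (0 : ℝ) < m := by exact_mod_cast hm1
  rw [lt_div_iff₀ (Real.rpow_pos_of_pos hm0 r)]
  have e1 : (m : ℝ) ^ (-(1 / 2 - r)) = (m : ℝ) ^ r / Real.sqrt m := by
    rw [Real.sqrt_eq_rpow, ← Real.rpow_sub hm0]
    congr 1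
    ring
  have e2 : (m : ℝ) ^ (-(1 - r)) = (m : ℝ) ^ r / m := by
    have : (m : ℝ) ^ (-(1 - r)) = (m : ℝ) ^ (r - 1) := by congr 1; ring
    rw [this, Real.rpow_sub_one hm0.ne']
  rw [e1, e2] at hm
  have e3 : (B * (1 + Real.log m) / Real.sqrt m + e / m) * (m : ℝ) ^ r =
      B * ((m : ℝ) ^ r / Real.sqrt m + Real.log m * ((m : ℝ) ^ r / Real.sqrt m)) +
        e * ((m : ℝ) ^ r / m) := by
    ring
  rw [e3]
  exact hm

/-- weighted right minima of the slopes in every long interval -/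
theorem right_min_interval (f : ℕ → ℝ) (C : ℝ)
    (hup : ∀ n : ℕ, 1 ≤ n → f n ≤ C - Real.log n / 2)
    (hcut : ∀ N : ℕ, 2 ≤ N → ∃ k, N ≤ 4 * k + 1 ∧ N ≤ 4 * (N - k) + 1 ∧ 1 ≤ k ∧ k + 1 ≤ N ∧
      f N ≤ 3 * Real.log N + f k + f (N - k)) (B : ℝ)
    (hrate : ∀ n : ℕ, 1 ≤ n → |f (n + 1) - f n| ≤ B * (1 + Real.log n) / Real.sqrt n)
    (e : ℝ) (he0 : 0 ≤ e) (he : e < 1 / 2) (κ : ℝ) (hκ : 12 / (1 - 2 * e) < κ) :
    ∀ᶠ N : ℕ in atTop, ∃ n : ℕ, N ≤ n ∧ (n : ℝ) ≤ (N : ℝ) ^ κ ∧ ∀ m : ℕ, n < m →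
      (f (n + 1) - f n) + e / n < (f (m + 1) - f m) + e / m := by
  -- the parameters
  have h2e : 0 < 1 - 2 * e := by linarith
  have hκ0 : 12 < κ := by
    refine lt_of_le_of_lt ?_ hκ
    rw [le_div_iff₀ h2e]
    nlinarith
  have hκe : 12 < κ * (1 - 2 * e) := by rwa [div_lt_iff₀ h2e] at hκ
  -- η between e and (1 - 12 / κ) / 2
  obtain ⟨η, hηe, hηκ⟩ : ∃ η : ℝ, e < η ∧ η < (1 - 12 / κ) / 2 := by
    apply exists_between
    have h1 : 12 / κ < 1 - 2 * e := by
      rw [div_lt_iff₀ (by linarith)]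
      linarith
    linarith
  have hη0 : 0 < η := by linarith
  have h12 : 0 < 12 / κ := by positivity
  have hη2 : η < 1 / 2 := by linarith
  have hd : 0 < 1 / 2 - η := by linarith
  -- p between 3 / (1 / 2 - η) and κ / 2
  obtain ⟨p, hp1, hp2⟩ : ∃ p : ℝ, 3 / (1 / 2 - η) < p ∧ p < κ / 2 := by
    apply exists_between
    rw [div_lt_iff₀ hd]
    have h1 : 12 / κ < 1 - 2 * η := by linarith
    rw [div_lt_iff₀ (by linarith)] at h1
    linarith
  have hp3 : 3 < (1 / 2 - η) * p := by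
    rw [div_lt_iff₀ hd] at hp1
    linarith
  have hp6 : 6 < p := by
    refine lt_of_le_of_lt ?_ hp1
    rw [le_div_iff₀ hd]
    linarith
  have hp0 : 0 < p := by linarith
  -- step 1
  have hone : ∀ᶠ N : ℕ in atTop, ∃ n : ℕ, N ≤ n ∧ (n : ℝ) ≤ (N : ℝ) ^ p ∧
      f (n + 1) - f n < -(η / n) := by
    have hlog : ∀ᶠ N : ℕ in atTop, (C + 3 * Real.log 4 + η * Real.log 8 + 1) /
        ((1 / 2 - η) * p - 3) < Real.log N :=
      (Real.tendsto_log_atTop.comp tendsto_natCast_atTop_atTop).eventually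
        (eventually_gt_atTop _)
    filter_upwards [hlog, eventually_ge_atTop 4] with N hN hN4
    rw [div_lt_iff₀ (by linarith)] at hN
    by_contra hcon
    push Not at hcon
    have hNr : (4 : ℝ) ≤ N := by exact_mod_cast hN4
    have hN0 : (0 : ℝ) < N := by linarith
    have hlogN : 0 < Real.log N := Real.log_pos (by linarith)
    set M : ℕ := ⌊(N : ℝ) ^ p⌋₊ with hM
    have hNp0 : 0 < (N : ℝ) ^ p := Real.rpow_pos_of_pos hN0 p
    have hMle : (M : ℝ) ≤ (N : ℝ) ^ p := Nat.floor_le hNp0.le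
    have h4N : 4 * N ≤ M := by
      apply Nat.le_floor
      have h1 : (N : ℝ) ^ (2 : ℝ) ≤ (N : ℝ) ^ p :=
        Real.rpow_le_rpow_of_exponent_le (by linarith) (by linarith)
      rw [Real.rpow_two] at h1
      push_cast
      nlinarith
    have hlogM : p * Real.log N - 1 ≤ Real.log M := by
      have h1 : (N : ℝ) ^ p < M + 1 := Nat.lt_floor_add_one _
      have h2 : (4 : ℝ) ≤ M := by exact_mod_cast (by omega : 4 ≤ M)
      have h3 : (N : ℝ) ^ p ≤ 2 * M := by linarith
      have h4 := Real.log_le_log hNp0 h3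
      rw [Real.log_rpow hN0, Real.log_mul (by norm_num) (by linarith)] at h4
      have := Real.log_two_lt_d9
      linarith
    have hmono : ∀ a b : ℕ, N ≤ a → a ≤ b → b ≤ M →
        f a + η * Real.log ((a : ℝ) - 1) ≤ f b + η * Real.log ((b : ℝ) - 1) := by
      intro a b ha hab
      induction b, hab using Nat.le_induction with
      | base => intro _; exact le_rfl
      | succ b hab ih =>
        intro hb
        have h1 := ih (by omega)
        have hbM : (b : ℝ) ≤ M := by exact_mod_cast (by omega : b ≤ M)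
        have h2 := hcon b (by omega) (le_trans hbM hMle)
        have hb4 : (4 : ℝ) ≤ b := by exact_mod_cast (by omega : 4 ≤ b)
        have h3 : 1 / (b : ℝ) ≤ Real.log b - Real.log ((b : ℝ) - 1) := by
          rw [← Real.log_div (by linarith) (by linarith)]
          have h4 := Real.one_sub_inv_le_log_of_pos (x := (b : ℝ) / (b - 1))
            (div_pos (by linarith) (by linarith))
          refine le_trans (le_of_eq ?_) h4
          rw [inv_div]
          field_simp
          ring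
        have h4 : η / b = η * (1 / b) := by ring
        have h5 := mul_le_mul_of_nonneg_left h3 hη0.le
        push_cast
        have h6 : (b : ℝ) + 1 - 1 = b := by ring
        rw [h6]
        linarith
    -- the end of the interval
    have hend : ∀ a : ℕ, N ≤ a → a ≤ M →
        f a + η * Real.log ((a : ℝ) - 1) ≤ C + 1 - (1 / 2 - η) * p * Real.log N := by
      intro a ha hap
      have h1 := hmono a M ha hap le_rfl
      have h2 := hup M (by omega)
      have hM4 : (4 : ℝ) ≤ M := by exact_mod_cast (by omega : 4 ≤ M)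
      have h4 : Real.log ((M : ℝ) - 1) ≤ Real.log M :=
        Real.log_le_log (by linarith) (by linarith)
      have h5 := mul_le_mul_of_nonneg_left h4 hη0.le
      have h6 := mul_le_mul_of_nonneg_left hlogM hd.le
      have h7 : (1 / 2 - η) * (p * Real.log N - 1) =
        (1 / 2 - η) * p * Real.log N - (1 / 2 - η) := by ring
      rw [h7] at h6
      linarith
    obtain ⟨k, hk1, hk2, hk3, hk4, hk5⟩ := hcut (4 * N) (by omega)
    have hkN : N ≤ k := by omega
    have hkN' : N ≤ 4 * N - k := by omega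
    have h1 := hmono (4 * N - k) (4 * N) hkN' (by omega) h4N
    have h2 := hend k hkN (by omega)
    have hkr : (N : ℝ) ≤ k := by exact_mod_cast hkN
    have hkr' : (N : ℝ) ≤ ((4 * N - k : ℕ) : ℝ) := by exact_mod_cast hkN'
    have h3 : 0 ≤ η * Real.log ((k : ℝ) - 1) :=
      mul_nonneg hη0.le (Real.log_nonneg (by linarith))
    have h4 : Real.log (((4 * N : ℕ) : ℝ) - 1) - Real.log (((4 * N - k : ℕ) : ℝ) - 1) ≤
        Real.log 8 := by
      have hA : (0 : ℝ) < ((4 * N - k : ℕ) : ℝ) - 1 := by linarith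
      have h5 : Real.log (((4 * N : ℕ) : ℝ) - 1) ≤
          Real.log (8 * (((4 * N - k : ℕ) : ℝ) - 1)) := by
        apply Real.log_le_log
        · push_cast; linarith
        · push_cast at hkr' ⊢
          linarith
      rw [Real.log_mul (by norm_num) hA.ne'] at h5
      linarith
    have h5 := mul_le_mul_of_nonneg_left h4 hη0.le
    have h6 : Real.log ((4 * N : ℕ) : ℝ) = Real.log 4 + Real.log N := by
      push_cast; rw [Real.log_mul (by norm_num) hN0.ne']
    rw [h6] at hk5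
    nlinarith
  -- step 2
  have hpκ : p / κ < 1 / 2 := by
    rw [div_lt_iff₀ (by linarith)]
    linarith
  obtain ⟨M, hM⟩ := (slope_small B e (η - e) (p / κ) (by linarith) hpκ).exists_forall_of_atTop
  filter_upwards [hone, eventually_ge_atTop (max M 2)] with N hN1 hNM
  obtain ⟨n1, h1, h2, h3⟩ := hN1
  have hN2 : 2 ≤ N := le_trans (le_max_right _ _) hNM
  have hMN : M ≤ N := le_trans (le_max_left _ _) hNM
  set b : ℕ := ⌊(N : ℝ) ^ κ⌋₊ with hb
  set g : ℕ → ℝ := fun n => (f (n + 1) - f n) + e / n with hg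
  have hNr : (0 : ℝ) < N := by exact_mod_cast (by omega : 0 < N)
  have hN1r : (1 : ℝ) ≤ N := by exact_mod_cast (by omega : 1 ≤ N)
  have hNκ : 0 < (N : ℝ) ^ κ := Real.rpow_pos_of_pos hNr κ
  have hn1b : n1 ≤ b := by
    apply Nat.le_floor
    refine le_trans h2 ?_
    exact Real.rpow_le_rpow_of_exponent_le hN1r (by linarith)
  have hNb : N ≤ b := le_trans h1 hn1b
  have hn1r : (0 : ℝ) < n1 := by exact_mod_cast (by omega : 0 < n1)
  have hg1 : g n1 < -((η - e) / (N : ℝ) ^ p) := by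
    have h4 : g n1 < -((η - e) / n1) := by
      simp only [hg]
      have : (η - e) / (n1 : ℝ) = η / n1 - e / n1 := by ring
      rw [this]
      linarith
    have h5 : (η - e) / (N : ℝ) ^ p ≤ (η - e) / n1 :=
      div_le_div_of_nonneg_left (by linarith) hn1r h2
    linarith
  have hfar : ∀ m, b < m → -((η - e) / (N : ℝ) ^ p) ≤ g m := by
    intro m hm
    have hm1 : 1 ≤ m := by omega
    have hm0 : (0 : ℝ) < m := by exact_mod_cast hm1
    have h4 := hM m (by omega)
    have h5 := (abs_le.mp (hrate m hm1)).1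
    have h6 : 0 ≤ e / m := by positivity
    have h7 : (η - e) / (m : ℝ) ^ (p / κ) ≤ (η - e) / (N : ℝ) ^ p := by
      apply div_le_div_of_nonneg_left (by linarith) (Real.rpow_pos_of_pos hNr p)
      have h8 : (N : ℝ) ^ κ ≤ m := (Nat.lt_of_floor_lt hm).le
      have h9 : ((N : ℝ) ^ κ) ^ (p / κ) ≤ (m : ℝ) ^ (p / κ) :=
        Real.rpow_le_rpow hNκ.le h8 (div_nonneg hp0.le (by linarith))
      refine le_trans (le_of_eq ?_) h9
      rw [← Real.rpow_mul hNr.le]
      congr 1
      have : κ ≠ 0 := by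
        intro h
        rw [h] at hκ0
        linarith
      field_simp
    simp only [hg]
    linarith
  -- the last minimizer
  obtain ⟨n0, hn0, hmin0⟩ := (Finset.Icc N b).exists_min_image g
    ⟨N, Finset.mem_Icc.mpr ⟨le_rfl, hNb⟩⟩
  obtain ⟨n2, hn2, hmax⟩ := ((Finset.Icc N b).filter (fun n => g n = g n0)).exists_max_image id
    ⟨n0, by rw [Finset.mem_filter]; exact ⟨hn0, rfl⟩⟩
  rw [Finset.mem_filter, Finset.mem_Icc] at hn2
  refine ⟨n2, hn2.1.1, ?_, fun m hm => ?_⟩
  · have h4 : (n2 : ℝ) ≤ b := by exact_mod_cast hn2.1.2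
    exact le_trans h4 (Nat.floor_le hNκ.le)
  change g n2 < g m
  rcases Nat.lt_or_ge b m with hbm | hbm
  · have h4 := hfar m hbm
    have h5 := hmin0 n1 (Finset.mem_Icc.mpr ⟨h1, hn1b⟩)
    rw [hn2.2]
    linarith
  · have hmem : m ∈ Finset.Icc N b := Finset.mem_Icc.mpr ⟨by omega, hbm⟩
    have h4 := hmin0 m hmem
    rw [hn2.2]
    rcases lt_or_eq_of_le h4 with h5 | h5
    · exact h5
    · exfalso
      have h6 := hmax m (by rw [Finset.mem_filter]; exact ⟨hmem, h5.symm⟩)
      simp only [id] at h6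
      omega

end Pool.Agent.Work.MP_56ddc0_co.RatioAbs

namespace Pool.Agent.Work.MP_56ddc0_co.Anim

open Filter Topology RatioAbs

/-- every long interval contains a weighted right minimum of the ratios -/
theorem tn_right_min_interval (e : ℝ) (he0 : 0 ≤ e) (he : e < 1 / 2) (κ : ℝ)
    (hκ : 12 / (1 - 2 * e) < κ) :
    ∀ᶠ N : ℕ in atTop, ∃ n : ℕ, N ≤ n ∧ (n : ℝ) ≤ (N : ℝ) ^ κ ∧ ∀ m : ℕ, n < m →
      (tn (n + 1) : ℝ) / tn n * Real.exp (e / n - e / m) < (tn (m + 1) : ℝ) / tn m := by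
  obtain ⟨L, hL, h0, hup, hr, _, ⟨C, hC, hrate⟩, hcut⟩ := tn_data
  have hκ' := right_min_interval (fun n => Real.log (tn n) - n * L) (L + 2 * Real.log 2)
    (fun n hn => by
      have h2 := decay tn L hL tn_pos hup (fun n _ => doubling n) n hn
      have h3 := sqrt_log_lower n hn
      linarith) hcut C hrate e he0 he κ hκ
  filter_upwards [hκ', eventually_ge_atTop 1] with N hN hN1
  obtain ⟨n, h1, h2, h3⟩ := hN
  refine ⟨n, h1, h2, fun m hm => ?_⟩
  have h4 := h3 m hm
  have ha : (0 : ℝ) < tn n := by exact_mod_cast tn_pos n (by omega)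
  have hb : (0 : ℝ) < tn (n + 1) := by exact_mod_cast tn_pos (n + 1) (by omega)
  have hc : (0 : ℝ) < tn m := by exact_mod_cast tn_pos m (by omega)
  have hd : (0 : ℝ) < tn (m + 1) := by exact_mod_cast tn_pos (m + 1) (by omega)
  have h5 : Real.log ((tn (n + 1) : ℝ) / tn n * Real.exp (e / n - e / m)) <
      Real.log ((tn (m + 1) : ℝ) / tn m) := by
    rw [Real.log_mul (div_pos hb ha).ne' (Real.exp_pos _).ne', Real.log_exp,
      Real.log_div hb.ne' ha.ne', Real.log_div hd.ne' hc.ne']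
    push_cast at h4
    linarith
  exact (Real.log_lt_log_iff (mul_pos (div_pos hb ha) (Real.exp_pos _)) (div_pos hd hc)).mp h5

end Pool.Agent.Work.MP_56ddc0_co.Anim
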