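import Mathlib

/-! Project MP_56ddc0_co: the analytic part. -/

set_option autoImplicit false

namespace Pool.Agent.Work.MP_56ddc0_co

open Filter Topology

/-! ### The second differences -/

theorem final {g : ℕ → ℝ} {l a : ℝ} (hl : 0 ≤ l) (ha : 0 ≤ a)
    (hup : ∀ n : ℕ, 1 ≤ n → g n ≤ l - 1 / 2 * Real.log n)
    (hlow : ∀ n : ℕ, 1 ≤ n → ∃ k : ℕ, n ≤ k ∧ k ≤ 4 * n ∧ -a - 3 * Real.log k ≤ g k)
    {ε : ℝ} (hε0 : 0 ≤ ε) (hε : ε < 1 / 2) :
    ∃ C κ : ℕ, ∀ N : ℕ, 1 ≤ N → ∃ n : ℕ, N ≤ n ∧ n ≤ C * N ^ κ ∧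
      ε / (n : ℝ) ^ 2 < g (n + 2) - 2 * g (n + 1) + g n := by
  set δ : ℝ := 1 / 2 - ε with hδ
  have hδ0 : 0 < δ := by rw [hδ]; linarith
  obtain ⟨A, hA⟩ := exists_nat_ge (3 / δ)
  have hA3 : 3 ≤ (A : ℝ) * δ := by
    rw [div_le_iff₀ hδ0] at hA
    exact hA
  have hA1 : 1 ≤ A := by
    rcases Nat.eq_zero_or_pos A with h | h
    · rw [h] at hA3
      norm_num at hA3
    · exact h
  set c0 : ℝ := 2 * l + 2 * a + 3 * Real.log 12 + 3 * Real.log 8 + 6 with hc0
  obtain ⟨B, hB⟩ := exists_nat_gt (Real.exp (c0 / δ) + 13)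
  have hBexp : Real.exp (c0 / δ) < (B : ℝ) := by linarith
  have hB13 : (13 : ℝ) < (B : ℝ) := by
    have := Real.exp_pos (c0 / δ)
    linarith
  have hB13' : 13 < B := by exact_mod_cast hB13
  have hlogB : c0 < δ * Real.log B := by
    have h1 : c0 / δ < Real.log B := by
      rw [Real.lt_log_iff_exp_lt (by linarith)]
      exact hBexp
    rw [div_lt_iff₀ hδ0] at h1
    linarith
  refine ⟨8 * B ^ 2, A * 2, ?_⟩
  intro N hN
  set m : ℕ := B * N ^ A with hm
  have hNA : N ≤ N ^ A := by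
    calc N = N ^ 1 := (pow_one N).symm
      _ ≤ N ^ A := Nat.pow_le_pow_right hN hA1
  have hmN : 13 * N ≤ m := by
    rw [hm]
    exact Nat.mul_le_mul hB13'.le hNA
  have h8m : 8 * B ^ 2 * N ^ (A * 2) = 8 * m ^ 2 := by
    rw [hm, mul_pow, ← pow_mul]
    ring
  rw [h8m]
  by_contra hcon
  push Not at hcon
  -- the second difference is small on the whole range
  have hD : ∀ n : ℕ, N ≤ n → n ≤ 8 * m ^ 2 → g (n + 2) - 2 * g (n + 1) + g n ≤ ε / (n : ℝ) ^ 2 :=
    hcon
  obtain ⟨k0, hk0, hk0', hgk0⟩ := hlow (3 * N) (by omega)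
  obtain ⟨k1, hk1, hk1', hgk1⟩ := hlow (2 * m ^ 2) (by nlinarith)
  have hm13 : 13 ≤ m := by omega
  have hmR : (13 : ℝ) ≤ (m : ℝ) := by exact_mod_cast hm13
  have hmm : m ≤ m ^ 2 := by nlinarith
  -- (i)
  have hmono : ∀ n : ℕ, N ≤ n → 2 ≤ n → ∀ j : ℕ, n ≤ j → j ≤ 8 * m ^ 2 →
      g (j + 1) - g j ≤ g (n + 1) - g n + ε / ((n : ℝ) - 1) - ε / ((j : ℝ) - 1) := by
    intro n hn hn2 j hj
    induction j, hj using Nat.le_induction with
    | base =>
      intro _
      linarith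
    | succ j hj ih =>
      intro hj8
      have h1 := ih (by omega)
      have h2 := hD j (by omega) (by omega)
      have hjR : (2 : ℝ) ≤ (j : ℝ) := by exact_mod_cast (le_trans hn2 hj)
      have h3 : ε / (j : ℝ) ^ 2 ≤ ε / ((j : ℝ) - 1) - ε / (j : ℝ) := by
        have e1 : ε / ((j : ℝ) - 1) - ε / (j : ℝ) = ε / (((j : ℝ) - 1) * j) := by
          have : (j : ℝ) - 1 ≠ 0 := by linarith
          have : (j : ℝ) ≠ 0 := by linarith
          field_simp
          ring
        rw [e1]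
        apply div_le_div_of_nonneg_left hε0
        · apply mul_pos <;> linarith
        · nlinarith
      have h4 : (((j + 1 : ℕ) : ℝ) - 1) = (j : ℝ) := by
        push_cast
        ring
      rw [h4]
      have h5 : g (j + 1 + 1) = g (j + 2) := rfl
      rw [h5]
      linarith
  set L : ℝ := a + l + 3 * Real.log (8 * (m : ℝ) ^ 2) with hL
  have hlog8m : 0 ≤ Real.log (8 * (m : ℝ) ^ 2) := by
    apply Real.log_nonneg
    nlinarith
  have hL0 : 0 ≤ L := by
    rw [hL]
    linarith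
  -- (ii)
  have hDlow : ∀ n : ℕ, N ≤ n → 2 ≤ n → n ≤ m →
      -(L / (m : ℝ) ^ 2) ≤ g (n + 1) - g n + ε / ((n : ℝ) - 1) := by
    intro n hn hn2 hnm
    set X : ℝ := g (n + 1) - g n + ε / ((n : ℝ) - 1) with hX
    have h1 : ∀ j : ℕ, n ≤ j → j ≤ 8 * m ^ 2 → g j - g n ≤ ((j : ℝ) - n) * X := by
      intro j hj
      induction j, hj using Nat.le_induction with
      | base =>
        intro _
        simp
      | succ j hj ih =>
        intro hj8
        have h2 := ih (by omega)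
        have h3 := hmono n hn hn2 j hj (by omega)
        have hjR : (2 : ℝ) ≤ (j : ℝ) := by exact_mod_cast (le_trans hn2 hj)
        have h4 : 0 ≤ ε / ((j : ℝ) - 1) := div_nonneg hε0 (by linarith)
        push_cast
        nlinarith
    have h2 := h1 k1 (by omega) (by omega)
    have h3 : g n ≤ l := by
      have h4 := hup n (by omega)
      have h5 : 0 ≤ Real.log (n : ℝ) := Real.log_natCast_nonneg n
      linarith
    have h4 : -a - 3 * Real.log (8 * (m : ℝ) ^ 2) ≤ g k1 := by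
      have h5 : Real.log (k1 : ℝ) ≤ Real.log (8 * (m : ℝ) ^ 2) := by
        apply Real.log_le_log
        · have : 0 < k1 := by omega
          exact_mod_cast this
        · have : k1 ≤ 8 * m ^ 2 := by omega
          exact_mod_cast this
      linarith
    have h5 : -L ≤ ((k1 : ℝ) - n) * X := by
      rw [hL]
      linarith
    have h6 : (m : ℝ) ^ 2 ≤ (k1 : ℝ) - n := by
      have h7 : m ^ 2 + n ≤ k1 := by omega
      have h8 : ((m ^ 2 + n : ℕ) : ℝ) ≤ (k1 : ℝ) := by exact_mod_cast h7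
      push_cast at h8
      linarith
    have h7 : (0 : ℝ) < (m : ℝ) ^ 2 := by positivity
    by_contra h8
    push Not at h8
    have h9 : X < 0 := by
      have : 0 ≤ L / (m : ℝ) ^ 2 := div_nonneg hL0 h7.le
      linarith
    have h10 : ((k1 : ℝ) - n) * X ≤ (m : ℝ) ^ 2 * X := by nlinarith
    have h11 : (m : ℝ) ^ 2 * X < (m : ℝ) ^ 2 * (-(L / (m : ℝ) ^ 2)) :=
      mul_lt_mul_of_pos_left h8 h7
    have h12 : (m : ℝ) ^ 2 * (-(L / (m : ℝ) ^ 2)) = -L := by
      field_simp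
    linarith
  -- (iii)
  set η : ℝ := L / (m : ℝ) ^ 2 with hη
  have hη0 : 0 ≤ η := div_nonneg hL0 (by positivity)
  have hk03 : 3 ≤ k0 := by omega
  have hinc : ∀ j : ℕ, k0 ≤ j → j ≤ m →
      g k0 + ε * Real.log ((k0 : ℝ) - 2) + k0 * η ≤ g j + ε * Real.log ((j : ℝ) - 2) + j * η := by
    intro j hj
    induction j, hj using Nat.le_induction with
    | base =>
      intro _
      exact le_refl _
    | succ j hj ih =>
      intro hjm
      have h1 := ih (by omega)
      have h2 := hDlow j (by omega) (by omega) (by omega)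
      have hjR : (3 : ℝ) ≤ (j : ℝ) := by exact_mod_cast (le_trans hk03 hj)
      have h3 : 1 / ((j : ℝ) - 1) ≤ Real.log ((j : ℝ) - 1) - Real.log ((j : ℝ) - 2) := by
        rw [← Real.log_div (by linarith) (by linarith)]
        have h4 := Real.one_sub_inv_le_log_of_pos
          (show 0 < ((j : ℝ) - 1) / ((j : ℝ) - 2) by
            apply div_pos <;> linarith)
        have h5 : 1 - (((j : ℝ) - 1) / ((j : ℝ) - 2))⁻¹ = 1 / ((j : ℝ) - 1) := by
          have : (j : ℝ) - 1 ≠ 0 := by linarith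
          have : (j : ℝ) - 2 ≠ 0 := by linarith
          field_simp
          ring
        rw [h5] at h4
        exact h4
      have h4 : ε / ((j : ℝ) - 1) ≤ ε * (Real.log ((j : ℝ) - 1) - Real.log ((j : ℝ) - 2)) := by
        have := mul_le_mul_of_nonneg_left h3 hε0
        calc ε / ((j : ℝ) - 1) = ε * (1 / ((j : ℝ) - 1)) := by ring
          _ ≤ _ := this
      have h5 : (((j + 1 : ℕ) : ℝ) - 2) = (j : ℝ) - 1 := by
        push_cast
        ring
      rw [h5]
      push_cast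
      linarith
  have hfin := hinc m (by omega) le_rfl
  have hk0R : (3 : ℝ) ≤ (k0 : ℝ) := by exact_mod_cast hk03
  have f1 : 0 ≤ ε * Real.log ((k0 : ℝ) - 2) :=
    mul_nonneg hε0 (Real.log_nonneg (by linarith))
  have f2 : 0 ≤ (k0 : ℝ) * η := mul_nonneg (by linarith) hη0
  have f3 : ε * Real.log ((m : ℝ) - 2) ≤ ε * Real.log m :=
    mul_le_mul_of_nonneg_left (Real.log_le_log (by linarith) (by linarith)) hε0
  have f4 := hup m (by omega)
  have hNR : (1 : ℝ) ≤ (N : ℝ) := by exact_mod_cast hN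
  have f5 : Real.log (k0 : ℝ) ≤ Real.log 12 + Real.log N := by
    rw [← Real.log_mul (by norm_num) (by linarith)]
    apply Real.log_le_log (by linarith)
    have : k0 ≤ 12 * N := by omega
    exact_mod_cast this
  have f6 : (m : ℝ) * η ≤ a + l + 3 * Real.log 8 + 6 := by
    have h1 : (m : ℝ) * η = L / m := by
      rw [hη]
      field_simp
    rw [h1, div_le_iff₀ (by linarith)]
    have h2 : Real.log (8 * (m : ℝ) ^ 2) = Real.log 8 + 2 * Real.log m := by
      rw [Real.log_mul (by norm_num) (by positivity), Real.log_pow]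
      push_cast
      ring
    have h3 : Real.log (m : ℝ) ≤ (m : ℝ) := by
      have := Real.log_le_sub_one_of_pos (show (0 : ℝ) < m by linarith)
      linarith
    have h4 : 0 ≤ Real.log 8 := Real.log_nonneg (by norm_num)
    rw [hL, h2]
    nlinarith [mul_nonneg (by linarith : (0 : ℝ) ≤ (m : ℝ) - 1)
      (by linarith : 0 ≤ a + l + 3 * Real.log 8)]
  have f7 : Real.log (m : ℝ) = Real.log B + A * Real.log N := by
    rw [hm]
    push_cast
    rw [Real.log_mul (by linarith) (by positivity), Real.log_pow]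
  have f8 : δ * Real.log m ≤ c0 + 3 * Real.log N := by
    rw [hδ, hc0]
    nlinarith
  rw [f7] at f8
  have f9 : 0 ≤ Real.log (N : ℝ) := Real.log_nonneg hNR
  nlinarith [mul_le_mul_of_nonneg_right hA3 f9]

/-! ### The growth constant -/

/-- the assumptions of the analytic part -/
structure Hyp (t : ℕ → ℝ) : Prop where
  one_le : ∀ n : ℕ, 1 ≤ n → 1 ≤ t n
  glue : ∀ n : ℕ, Real.sqrt n * t n ^ 2 ≤ t (2 * n + 1)
  cut : ∀ N m : ℕ, 2 ≤ N → 1 ≤ m → 4 * m ≤ N + 2 →
    t N ≤ ∑ k ∈ Finset.Icc m (3 * m - 2), t k * (t (N - k) * ((k : ℝ) * (((N - k : ℕ) : ℝ) * 4)))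

theorem upper_of_window {t : ℕ → ℝ} (ht : Hyp t) {θ : ℝ} (hθ : 0 < θ) {n : ℕ} (hn : 1 ≤ n)
    (hw : ∀ k : ℕ, n ≤ k → k ≤ 4 * n → t k ≤ θ ^ k / (2500 * (k : ℝ) ^ 3)) :
    ∀ N : ℕ, n ≤ N → t N ≤ θ ^ N / (2500 * (N : ℝ) ^ 3) := by
  intro N
  induction N using Nat.strong_induction_on with
  | _ N ih =>
    intro hN
    by_cases h4 : N ≤ 4 * n
    · exact hw N hN h4
    push Not at h4
    obtain ⟨m, hm⟩ : ∃ m, m = (N + 2) / 4 := ⟨_, rfl⟩
    have hm1 : 4 * m ≤ N + 2 := by omega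
    have hm2 : N + 2 ≤ 4 * m + 3 := by omega
    have hmn : n ≤ m := by omega
    have hNR : (5 : ℝ) ≤ (N : ℝ) := by
      have : 5 ≤ N := by omega
      exact_mod_cast this
    refine (ht.cut N m (by omega) (by omega) hm1).trans ?_
    have hterm : ∀ k ∈ Finset.Icc m (3 * m - 2),
        t k * (t (N - k) * ((k : ℝ) * (((N - k : ℕ) : ℝ) * 4))) ≤
          θ ^ N / (2500 * (N : ℝ) ^ 4) := by
      intro k hk
      rw [Finset.mem_Icc] at hk
      have hkN : k < N := by omega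
      have h1 := ih k hkN (by omega)
      have h2 := ih (N - k) (by omega) (by omega)
      have hk1 : 1 ≤ k := by omega
      have hNk1 : 1 ≤ N - k := by omega
      have ht1 : 0 ≤ t k := by linarith [ht.one_le k hk1]
      have ht2 : 0 ≤ t (N - k) := by linarith [ht.one_le (N - k) hNk1]
      set x : ℝ := (k : ℝ) with hx
      set y : ℝ := ((N - k : ℕ) : ℝ) with hy
      have hx0 : 0 < x := by
        rw [hx]
        exact_mod_cast hk1
      have hy0 : 0 < y := by
        rw [hy]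
        exact_mod_cast hNk1
      have hx5 : (N : ℝ) ≤ 5 * x := by
        rw [hx]
        have : N ≤ 5 * k := by omega
        exact_mod_cast this
      have hy5 : (N : ℝ) ≤ 5 * y := by
        rw [hy]
        have : N ≤ 5 * (N - k) := by omega
        exact_mod_cast this
      have h3 : t k * (t (N - k) * (x * (y * 4))) ≤
          (θ ^ k / (2500 * x ^ 3)) * ((θ ^ (N - k) / (2500 * y ^ 3)) * (x * (y * 4))) := by
        apply mul_le_mul h1 _ (by positivity) (by positivity)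
        exact mul_le_mul_of_nonneg_right h2 (by positivity)
      refine h3.trans ?_
      have h4 : (θ ^ k / (2500 * x ^ 3)) * ((θ ^ (N - k) / (2500 * y ^ 3)) * (x * (y * 4))) =
          θ ^ N * (4 / (2500 ^ 2 * (x * y) ^ 2)) := by
        have h5 : θ ^ N = θ ^ k * θ ^ (N - k) := by
          rw [← pow_add]
          congr 1
          omega
        rw [h5]
        field_simp
      have h6 : (N : ℝ) ^ 2 ≤ 25 * (x * y) := by nlinarith
      have h7 : ((N : ℝ) ^ 2) ^ 2 ≤ (25 * (x * y)) ^ 2 :=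
        pow_le_pow_left₀ (by positivity) h6 2
      have h8 : 4 / (2500 ^ 2 * (x * y) ^ 2) ≤ 1 / (2500 * (N : ℝ) ^ 4) := by
        rw [div_le_div_iff₀ (by positivity) (by positivity)]
        nlinarith
      calc θ ^ k / (2500 * x ^ 3) * (θ ^ (N - k) / (2500 * y ^ 3) * (x * (y * 4)))
          = θ ^ N * (4 / (2500 ^ 2 * (x * y) ^ 2)) := h4
        _ ≤ θ ^ N * (1 / (2500 * (N : ℝ) ^ 4)) := mul_le_mul_of_nonneg_left h8 (by positivity)
        _ = θ ^ N / (2500 * (N : ℝ) ^ 4) := by ring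
    refine (Finset.sum_le_sum hterm).trans ?_
    rw [Finset.sum_const, nsmul_eq_mul, Nat.card_Icc]
    have h8 : ((3 * m - 2 + 1 - m : ℕ) : ℝ) ≤ (N : ℝ) := by
      have : 3 * m - 2 + 1 - m ≤ N := by omega
      exact_mod_cast this
    calc ((3 * m - 2 + 1 - m : ℕ) : ℝ) * (θ ^ N / (2500 * (N : ℝ) ^ 4))
        ≤ (N : ℝ) * (θ ^ N / (2500 * (N : ℝ) ^ 4)) :=
          mul_le_mul_of_nonneg_right h8 (by positivity)
      _ = θ ^ N / (2500 * (N : ℝ) ^ 3) := by
          field_simp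

/-- exponential bounds -/
def EB (t : ℕ → ℝ) (θ : ℝ) : Prop := ∃ K : ℝ, ∀ m : ℕ, 1 ≤ m → t m ≤ K * θ ^ m

theorem EB.sqrt_mul_le {t : ℕ → ℝ} (ht : Hyp t) {θ : ℝ} (hθ : 0 < θ) (h : EB t θ) {n : ℕ}
    (hn : 1 ≤ n) : Real.sqrt n * t n ≤ θ ^ (n + 1) := by
  obtain ⟨K, hK⟩ := h
  by_contra hcon
  push Not at hcon
  set u : ℝ := Real.sqrt n * t n with hu
  have hthe : 0 < θ ^ (n + 1) := by positivity
  have hu0 : 0 < u := hthe.trans hcon
  -- the iteration
  have hiter : ∀ i : ℕ, u ^ (2 ^ i) ≤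
      Real.sqrt ((2 ^ i * (n + 1) - 1 : ℕ) : ℝ) * t (2 ^ i * (n + 1) - 1) := by
    intro i
    induction i with
    | zero =>
      simp only [pow_zero, pow_one, one_mul, Nat.add_sub_cancel]
      exact le_refl _
    | succ i ih =>
      obtain ⟨x, hx⟩ : ∃ x, x = 2 ^ i * (n + 1) - 1 := ⟨_, rfl⟩
      rw [← hx] at ih
      have hpos : 1 ≤ 2 ^ i * (n + 1) := by
        have : 1 ≤ 2 ^ i := Nat.one_le_two_pow
        nlinarith
      have hx2 : 2 ^ (i + 1) * (n + 1) - 1 = 2 * x + 1 := by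
        rw [pow_succ, hx]
        have : 2 ^ i * 2 * (n + 1) = 2 * (2 ^ i * (n + 1)) := by ring
        rw [this]
        omega
      rw [hx2]
      have h1 := ht.glue x
      have h2 : Real.sqrt (x : ℝ) ≤ Real.sqrt ((2 * x + 1 : ℕ) : ℝ) := by
        apply Real.sqrt_le_sqrt
        push_cast
        have : (0 : ℝ) ≤ x := Nat.cast_nonneg x
        linarith
      have h3 : 0 ≤ Real.sqrt (x : ℝ) := Real.sqrt_nonneg _
      have h4 : 0 ≤ Real.sqrt (x : ℝ) * t x ^ 2 := by positivity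
      calc u ^ 2 ^ (i + 1) = (u ^ 2 ^ i) ^ 2 := by
            rw [← pow_mul, pow_succ 2 i]
        _ ≤ (Real.sqrt (x : ℝ) * t x) ^ 2 := pow_le_pow_left₀ (by positivity) ih 2
        _ = Real.sqrt (x : ℝ) * (Real.sqrt (x : ℝ) * t x ^ 2) := by ring
        _ ≤ Real.sqrt ((2 * x + 1 : ℕ) : ℝ) * (Real.sqrt (x : ℝ) * t x ^ 2) :=
            mul_le_mul_of_nonneg_right h2 h4
        _ ≤ Real.sqrt ((2 * x + 1 : ℕ) : ℝ) * t (2 * x + 1) :=
            mul_le_mul_of_nonneg_left h1 (Real.sqrt_nonneg _)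
  set r : ℝ := u / θ ^ (n + 1) with hr
  have hr1 : 1 < r := by
    rw [hr, lt_div_iff₀ hthe, one_mul]
    exact hcon
  have hK0 : 0 < K := by
    have h1 := hK 1 le_rfl
    have h2 := ht.one_le 1 le_rfl
    by_contra h3
    push Not at h3
    have : K * θ ^ 1 ≤ 0 := mul_nonpos_of_nonpos_of_nonneg h3 (by positivity)
    linarith
  set C : ℝ := K * (n + 1) / θ with hC
  have hC0 : 0 < C := by positivity
  have hbound : ∀ i : ℕ, r ^ (2 ^ i) ≤ C * ((2 ^ i : ℕ) : ℝ) := by
    intro i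
    obtain ⟨x, hx⟩ : ∃ x, x = 2 ^ i * (n + 1) - 1 := ⟨_, rfl⟩
    have hpos : 2 ≤ 2 ^ i * (n + 1) := by
      have : 1 ≤ 2 ^ i := Nat.one_le_two_pow
      nlinarith
    have hx1 : 1 ≤ x := by omega
    have hxe : x + 1 = 2 ^ i * (n + 1) := by omega
    have h1 := hiter i
    rw [← hx] at h1
    have h2 := hK x hx1
    have h3 : Real.sqrt (x : ℝ) ≤ ((2 ^ i : ℕ) : ℝ) * (n + 1) := by
      have hx1R : (1 : ℝ) ≤ (x : ℝ) := by exact_mod_cast hx1
      have h4 : Real.sqrt (x : ℝ) ≤ (x : ℝ) := by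
        rw [Real.sqrt_le_left (by linarith)]
        nlinarith
      have h5 : ((x + 1 : ℕ) : ℝ) = ((2 ^ i * (n + 1) : ℕ) : ℝ) := by rw [hxe]
      push_cast at h5 ⊢
      linarith
    have h4 : 0 ≤ t x := by linarith [ht.one_le x hx1]
    have h5 : u ^ 2 ^ i ≤ (((2 ^ i : ℕ) : ℝ) * (n + 1)) * (K * θ ^ x) := by
      refine h1.trans ?_
      exact mul_le_mul h3 h2 h4 (by positivity)
    rw [hr, div_pow, div_le_iff₀ (by positivity), ← pow_mul, mul_comm (n + 1) (2 ^ i), ← hxe,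
      pow_succ, hC]
    calc u ^ 2 ^ i ≤ (((2 ^ i : ℕ) : ℝ) * (n + 1)) * (K * θ ^ x) := h5
      _ = K * (n + 1) / θ * ((2 ^ i : ℕ) : ℝ) * (θ ^ x * θ) := by
          field_simp
  have htend := tendsto_pow_const_div_const_pow_of_one_lt 1 hr1
  have hev : ∀ᶠ y : ℕ in atTop, (y : ℝ) ^ 1 / r ^ y < 1 / C :=
    htend.eventually (gt_mem_nhds (by positivity))
  obtain ⟨y0, hy0⟩ := eventually_atTop.1 hev
  have h6 := hy0 (2 ^ y0) (Nat.lt_two_pow_self).le
  have h7 := hbound y0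
  rw [pow_one, div_lt_div_iff₀ (by positivity) hC0] at h6
  linarith

theorem exists_growth {t : ℕ → ℝ} (ht : Hyp t) :
    ∃ l : ℝ, 1 ≤ l ∧ (∀ n : ℕ, 1 ≤ n → Real.sqrt n * t n ≤ l ^ (n + 1)) ∧
      ∀ n : ℕ, 1 ≤ n → ∃ k : ℕ, n ≤ k ∧ k ≤ 4 * n ∧ l ^ k / (2500 * (k : ℝ) ^ 3) ≤ t k := by
  set T : Set ℝ := {θ : ℝ | 0 < θ ∧ EB t θ} with hT
  have hne : T.Nonempty := by
    set θ : ℝ := ∑ k ∈ Finset.Icc 1 4, 2500 * 64 * t k with hθ
    have h0 : ∀ k ∈ Finset.Icc 1 4, 0 ≤ 2500 * 64 * t k := by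
      intro k hk
      rw [Finset.mem_Icc] at hk
      have := ht.one_le k hk.1
      linarith
    have h1 : ∀ k : ℕ, 1 ≤ k → k ≤ 4 * 1 → 2500 * 64 * t k ≤ θ := by
      intro k hk hk'
      exact Finset.single_le_sum h0 (Finset.mem_Icc.2 ⟨hk, by omega⟩)
    have h2 : 1 ≤ θ := by
      have := h1 1 le_rfl (by norm_num)
      have := ht.one_le 1 le_rfl
      linarith
    have h3 := upper_of_window ht (θ := θ) (by linarith) (n := 1) le_rfl (by
      intro k hk hk'
      have hkR : (1 : ℝ) ≤ (k : ℝ) := by exact_mod_cast hk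
      have hkR' : (k : ℝ) ≤ 4 := by
        have : k ≤ 4 := by omega
        exact_mod_cast this
      rw [le_div_iff₀ (by positivity)]
      have h4 : (k : ℝ) ^ 3 ≤ 64 := by
        calc (k : ℝ) ^ 3 ≤ 4 ^ 3 := pow_le_pow_left₀ (by linarith) hkR' 3
          _ = 64 := by norm_num
      have h5 := ht.one_le k hk
      have h6 : θ ≤ θ ^ k := by
        calc θ = θ ^ 1 := (pow_one θ).symm
          _ ≤ θ ^ k := pow_le_pow_right₀ h2 hk
      calc t k * (2500 * (k : ℝ) ^ 3) ≤ t k * (2500 * 64) :=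
            mul_le_mul_of_nonneg_left (by linarith) (by linarith)
        _ = 2500 * 64 * t k := by ring
        _ ≤ θ := h1 k hk hk'
        _ ≤ θ ^ k := h6)
    refine ⟨θ, by linarith, 1, ?_⟩
    intro m hm
    refine (h3 m hm).trans ?_
    have hmR : (1 : ℝ) ≤ (m : ℝ) := by exact_mod_cast hm
    have h4 : (1 : ℝ) ≤ 2500 * (m : ℝ) ^ 3 := by
      have : (1 : ℝ) ≤ (m : ℝ) ^ 3 := one_le_pow₀ hmR
      linarith
    rw [one_mul]
    exact div_le_self (by positivity) h4
  have hge1 : ∀ θ ∈ T, 1 ≤ θ := by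
    rintro θ ⟨hθ, h⟩
    have h1 := h.sqrt_mul_le ht hθ (n := 1) le_rfl
    have h2 := ht.one_le 1 le_rfl
    simp only [Nat.cast_one, Real.sqrt_one, one_mul] at h1
    by_contra h3
    push Not at h3
    have : θ ^ (1 + 1) < 1 := pow_lt_one₀ hθ.le h3 (by norm_num)
    linarith
  have hbdd : BddBelow T := ⟨1, fun θ hθ => hge1 θ hθ⟩
  have hl1 : 1 ≤ sInf T := le_csInf hne hge1
  refine ⟨sInf T, hl1, ?_, ?_⟩
  · intro n hn
    have hpos : 0 ≤ Real.sqrt n * t n := by
      have := ht.one_le n hn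
      have := Real.sqrt_nonneg (n : ℝ)
      positivity
    set s : ℝ := (Real.sqrt n * t n) ^ (((n + 1 : ℕ) : ℝ)⁻¹) with hs
    have hs0 : 0 ≤ s := Real.rpow_nonneg hpos _
    have hsp : s ^ (n + 1) = Real.sqrt n * t n := Real.rpow_inv_natCast_pow hpos (by omega)
    have h1 : s ≤ sInf T := by
      apply le_csInf hne
      rintro θ ⟨hθ, h⟩
      have h2 := h.sqrt_mul_le ht hθ hn
      rw [← hsp] at h2
      exact (pow_le_pow_iff_left₀ hs0 hθ.le (by omega)).1 h2
    rw [← hsp]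
    exact pow_le_pow_left₀ hs0 h1 _
  · intro n hn
    by_contra hcon
    push Not at hcon
    have hl0 : 0 < sInf T := by linarith
    have h1 : ∀ k ∈ Finset.Icc n (4 * n), ∀ᶠ θ : ℝ in 𝓝[<] (sInf T),
        t k < θ ^ k / (2500 * (k : ℝ) ^ 3) := by
      intro k hk
      rw [Finset.mem_Icc] at hk
      have h2 := hcon k hk.1 hk.2
      have h3 : Tendsto (fun θ : ℝ => θ ^ k / (2500 * (k : ℝ) ^ 3)) (𝓝[<] (sInf T))
          (𝓝 (sInf T ^ k / (2500 * (k : ℝ) ^ 3))) := by
        apply Tendsto.mono_left _ nhdsWithin_le_nhds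
        exact ((continuous_pow k).div_const _).tendsto _
      exact h3.eventually (lt_mem_nhds h2)
    have h2 : ∀ᶠ θ : ℝ in 𝓝[<] (sInf T), 0 < θ :=
      (eventually_nhdsWithin_of_eventually_nhds (lt_mem_nhds hl0))
    have h3 : ∀ᶠ θ : ℝ in 𝓝[<] (sInf T), θ < sInf T := eventually_mem_nhdsWithin
    have h4 := (Finset.eventually_all (Finset.Icc n (4 * n))).2 h1
    obtain ⟨θ, hθ1, hθ2, hθ3⟩ := (h4.and (h2.and h3)).exists
    have h5 := upper_of_window ht hθ2 hn (fun k hk hk' =>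
      (hθ1 k (Finset.mem_Icc.2 ⟨hk, hk'⟩)).le)
    have h6 : θ ∈ T := by
      refine ⟨hθ2, 1 + ∑ m ∈ Finset.range n, |t m| / θ ^ m, ?_⟩
      intro m hm
      have hsum : 0 ≤ ∑ m ∈ Finset.range n, |t m| / θ ^ m :=
        Finset.sum_nonneg (fun i _ => by positivity)
      have hθm : 0 < θ ^ m := by positivity
      by_cases hmn : n ≤ m
      · have h7 := h5 m hmn
        have hmR : (1 : ℝ) ≤ (m : ℝ) := by exact_mod_cast hm
        have h8 : (1 : ℝ) ≤ 2500 * (m : ℝ) ^ 3 := by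
          have : (1 : ℝ) ≤ (m : ℝ) ^ 3 := one_le_pow₀ hmR
          linarith
        have h9 : θ ^ m / (2500 * (m : ℝ) ^ 3) ≤ θ ^ m := div_le_self (by positivity) h8
        nlinarith
      · push Not at hmn
        have h7 : |t m| / θ ^ m ≤ ∑ m ∈ Finset.range n, |t m| / θ ^ m :=
          Finset.single_le_sum (f := fun m => |t m| / θ ^ m) (fun i _ => by positivity)
            (Finset.mem_range.2 hmn)
        rw [div_le_iff₀ hθm] at h7
        have h8 := le_abs_self (t m)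
        nlinarith
    have h7 := csInf_le hbdd h6
    linarith

/-- the analytic theorem -/
theorem ana {t : ℕ → ℝ} (ht : Hyp t) {ε : ℝ} (hε : ε < 1 / 2) :
    ∃ C κ : ℕ, ∀ N : ℕ, 1 ≤ N → ∃ n : ℕ, N ≤ n ∧ n ≤ C * N ^ κ ∧
      (1 + ε / (n : ℝ) ^ 2) * t (n + 1) ^ 2 < t n * t (n + 2) := by
  obtain ⟨l, hl1, hup, hlow⟩ := exists_growth ht
  have hl0 : 0 < l := by linarith
  have hll : 0 ≤ Real.log l := Real.log_nonneg hl1
  obtain ⟨C, κ, hCκ⟩ := final (g := fun n => Real.log (t n) - n * Real.log l)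
    (l := Real.log l) (a := Real.log 2500) hll (Real.log_nonneg (by norm_num))
    (by
      intro n hn
      have h1 := hup n hn
      have h2 := ht.one_le n hn
      have hnR : (1 : ℝ) ≤ (n : ℝ) := by exact_mod_cast hn
      have h3 : 0 < Real.sqrt n := Real.sqrt_pos.2 (by linarith)
      have h4 := Real.log_le_log (by positivity) h1
      rw [Real.log_mul h3.ne' (by linarith), Real.log_pow, Real.log_sqrt (by linarith)] at h4
      push_cast at h4
      linarith)
    (by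
      intro n hn
      obtain ⟨k, hk, hk', h1⟩ := hlow n hn
      refine ⟨k, hk, hk', ?_⟩
      have hkR : (1 : ℝ) ≤ (k : ℝ) := by
        have : 1 ≤ k := by omega
        exact_mod_cast this
      have h4 := Real.log_le_log (by positivity) h1
      rw [Real.log_div (by positivity) (by positivity), Real.log_mul (by norm_num) (by positivity),
        Real.log_pow, Real.log_pow] at h4
      push_cast at h4
      linarith)
    (ε := max ε 0) (le_max_right _ _) (max_lt hε (by norm_num))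
  refine ⟨C, κ, ?_⟩
  intro N hN
  obtain ⟨n, hn, hn', h⟩ := hCκ N hN
  refine ⟨n, hn, hn', ?_⟩
  have h1 : 0 < t n := by linarith [ht.one_le n (by omega)]
  have h2 : 0 < t (n + 1) := by linarith [ht.one_le (n + 1) (by omega)]
  have h3 : 0 < t (n + 2) := by linarith [ht.one_le (n + 2) (by omega)]
  set x : ℝ := max ε 0 / (n : ℝ) ^ 2 with hx
  have h4 : x < Real.log (t n * t (n + 2) / t (n + 1) ^ 2) := by
    rw [Real.log_div (by positivity) (by positivity), Real.log_mul h1.ne' h3.ne', Real.log_pow]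
    push_cast at h ⊢
    linarith
  rw [Real.lt_log_iff_exp_lt (by positivity)] at h4
  have h5 := Real.add_one_le_exp x
  have h6 : ε / (n : ℝ) ^ 2 ≤ x := by
    rw [hx]
    exact div_le_div_of_nonneg_right (le_max_left _ _) (by positivity)
  have h7 : 1 + ε / (n : ℝ) ^ 2 < t n * t (n + 2) / t (n + 1) ^ 2 := by linarith
  rwa [lt_div_iff₀ (by positivity)] at h7

end Pool.Agent.Work.MP_56ddc0_co
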