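import Pool.Agent.Work.MP_56ddc0_co.Poly

/-! Project MP_56ddc0_co: gluing two polyominoes in many ways. -/

set_option autoImplicit false

namespace Pool.Agent.Work.MP_56ddc0_co

/-- the sets do not touch -/
def NT (X Y : Finset Cell) : Prop := ∀ x ∈ X, ∀ y ∈ Y, 2 ≤ |x.1 - y.1| + |x.2 - y.2|

theorem NT.not_ad {X Y : Finset Cell} (h : NT X Y) : ∀ x ∈ X, ∀ y ∈ Y, ¬ Ad x y := by
  intro x hx y hy hxy
  have := h x hx y hy
  unfold Ad at hxy
  omega

theorem NT.disjoint {X Y : Finset Cell} (h : NT X Y) : Disjoint X Y := by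
  rw [Finset.disjoint_left]
  intro x hx hy
  have := h x hx x hy
  simp at this

/-- the rows of a set -/
def rows (P : Finset Cell) : Finset ℤ := P.image Prod.snd

/-- the columns of a set -/
def cols (P : Finset Cell) : Finset ℤ := P.image Prod.fst

/-- `R` is obtained from `P` and a translate of `Q`, moved up by `j`, with a connecting cell -/
def Glue (P Q : Finset Cell) (j : ℤ) (R : Finset Cell) : Prop :=
  ∃ v b : Cell, v.2 = j ∧ R = insert b (P ∪ tr v Q) ∧ NT P (tr v Q) ∧ b ∉ P ∧ b ∉ tr v Q ∧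
    (∃ p ∈ P, Ad p b) ∧ (∃ q ∈ tr v Q, Ad b q)

theorem glue_exists {n : ℕ} {P Q : Finset Cell} (hP : P ∈ TF n) (hQ : Q ∈ TF n) {j : ℤ}
    (hj : j ∈ rows P) : ∃ R, Glue P Q j R ∧ R ∈ TF (2 * n + 1) := by
  classical
  rw [mem_TF] at hP hQ
  obtain ⟨cP, nP, kP⟩ := hP
  obtain ⟨cQ, nQ, kQ⟩ := hQ
  unfold rows at hj
  rw [Finset.mem_image] at hj
  obtain ⟨p0, hp0, hp0j⟩ := hj
  obtain ⟨B1, hB1⟩ : ∃ B : ℤ, ∀ p ∈ P, p.1 ≤ B := by
    obtain ⟨a, _, ha⟩ := P.exists_max_image Prod.fst ⟨p0, hp0⟩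
    exact ⟨a.1, ha⟩
  obtain ⟨B2, hB2⟩ : ∃ B : ℤ, ∀ q ∈ Q, B ≤ q.1 := by
    obtain ⟨a, _, ha⟩ := Q.exists_min_image Prod.fst ⟨_, nQ.1⟩
    exact ⟨a.1, ha⟩
  obtain ⟨x0, ⟨p1, hp1, q1, hq1, hd⟩, hmax⟩ := Int.exists_greatest_of_bdd
    (P := fun x : ℤ => ∃ p ∈ P, ∃ q ∈ Q, |p.1 - (q.1 + x)| + |p.2 - (q.2 + j)| ≤ 1)
    ⟨B1 - B2 + 1, by
      rintro z ⟨p, hp, q, hq, h⟩
      have h1 := hB1 p hp
      have h2 := hB2 q hq
      have h3 := abs_nonneg (p.2 - (q.2 + j))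
      have h4 := neg_abs_le (p.1 - (q.1 + z))
      omega⟩
    ⟨p0.1, p0, hp0, _, nQ.1, by simp [hp0j]⟩
  have hx0 : p0.1 ≤ x0 := hmax p0.1 ⟨p0, hp0, _, nQ.1, by simp [hp0j]⟩
  set v : Cell := (x0 + 1, j) with hv
  set b : Cell := (q1.1 + x0, q1.2 + j) with hb
  have hNT : NT P (tr v Q) := by
    intro x hx y hy
    rw [mem_tr] at hy
    by_contra hcon
    have h1 : x0 + 1 ≤ x0 := by
      apply hmax
      refine ⟨x, hx, _, hy, ?_⟩
      have e1 : x.1 - ((y - v).1 + (x0 + 1)) = x.1 - y.1 := by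
        rw [Prod.fst_sub, hv]
        ring
      have e2 : x.2 - ((y - v).2 + j) = x.2 - y.2 := by
        rw [Prod.snd_sub, hv]
        ring
      rw [e1, e2]
      omega
    omega
  have hqv : q1 + v ∈ tr v Q := by
    rw [mem_tr, add_sub_cancel_right]
    exact hq1
  have hbq : Ad b (q1 + v) := by
    unfold Ad
    rw [Prod.fst_add, Prod.snd_add, hv, hb]
    simp only
    rw [show q1.1 + x0 - (q1.1 + (x0 + 1)) = -1 by ring, sub_self]
    simp
  have hbP : b ∉ P := fun h => hNT.not_ad b h _ hqv hbq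
  have hbQ : b ∉ tr v Q := by
    intro h
    have := hNT p1 hp1 b h
    rw [hb] at this
    simp only at this
    omega
  have hpb : Ad p1 b := by
    have h1 : p1 ≠ b := fun h => hbP (h ▸ hp1)
    unfold Ad
    rw [hb]
    simp only
    have h2 := abs_nonneg (p1.1 - (q1.1 + x0))
    have h3 := abs_nonneg (p1.2 - (q1.2 + j))
    by_contra h4
    have h5 : |p1.1 - (q1.1 + x0)| = 0 := by omega
    have h6 : |p1.2 - (q1.2 + j)| = 0 := by omega
    rw [abs_eq_zero] at h5 h6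
    apply h1
    rw [hb]
    ext
    · show p1.1 = q1.1 + x0
      omega
    · show p1.2 = q1.2 + j
      omega
  refine ⟨insert b (P ∪ tr v Q), ⟨v, b, rfl, rfl, hNT, hbP, hbQ, ⟨p1, hp1, hpb⟩,
    ⟨_, hqv, hbq⟩⟩, ?_⟩
  rw [mem_TF]
  refine ⟨?_, ⟨?_, ?_⟩, ?_⟩
  · rw [Finset.card_insert_of_notMem, Finset.card_union_of_disjoint hNT.disjoint, card_tr, cP, cQ]
    · ring
    · rw [Finset.mem_union]
      rintro (h | h)
      · exact hbP h
      · exact hbQ h
  · exact Finset.mem_insert_of_mem (Finset.mem_union_left _ nP.1)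
  · have g1 := nP.2 p0 hp0
    have g2 := nQ.2 q1 hq1
    intro p hp
    rw [Finset.mem_insert, Finset.mem_union, mem_tr] at hp
    rcases hp with hp | hp | hp
    · rw [hp, hb]
      simp only
      omega
    · exact nP.2 p hp
    · have g3 := nQ.2 _ hp
      rw [Prod.fst_sub, Prod.snd_sub, hv] at g3
      simp only at g3
      omega
  · rw [← Finset.insert_union]
    exact (kP.insert hp1 hpb).union (kQ.tr v)
      ⟨b, Finset.mem_insert_self _ _, _, hqv, Or.inr hbq⟩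

theorem glue_core {n : ℕ} {X Y X₂ Y₂ : Finset Cell} {b b₂ : Cell} (cX : X.card = n)
    (cY : Y.card = n) (cX₂ : X₂.card = n) (cY₂ : Y₂.card = n) (hX : Con X) (hY : Con Y)
    (h : NT X Y) (h₂ : NT X₂ Y₂) (hbX : b ∉ X) (hbY : b ∉ Y) (hbX' : ∃ x ∈ X, Ad x b)
    (hbY' : ∃ y ∈ Y, Ad b y)
    (hR : insert b (X ∪ Y) = insert b₂ (X₂ ∪ Y₂)) : b = b₂ := by
  classical
  by_contra hne
  have h1 : b₂ ∈ insert b (X ∪ Y) := by
    rw [hR]
    exact Finset.mem_insert_self _ _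
  have h2 : b₂ ∈ X ∪ Y := by
    rw [Finset.mem_insert] at h1
    rcases h1 with h1 | h1
    · exact absurd h1.symm hne
    · exact h1
  have key : ∀ Z : Finset Cell, Z.card = n → b ∉ Z → Con (insert b Z) → Z ⊆ X ∪ Y → b₂ ∉ Z →
      False := by
    intro Z cZ hbZ hZ hZs hb₂
    have h3 : insert b Z ⊆ X₂ ∪ Y₂ := by
      intro z hz
      have h4 : z ∈ insert b₂ (X₂ ∪ Y₂) := by
        rw [← hR]
        exact Finset.insert_subset_insert _ hZs hz
      rw [Finset.mem_insert] at h4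
      rcases h4 with h4 | h4
      · exfalso
        rw [Finset.mem_insert] at hz
        rcases hz with hz | hz
        · exact hne (hz.symm.trans h4)
        · exact hb₂ (h4 ▸ hz)
      · exact h4
    have h5 : (insert b Z).card = n + 1 := by
      rw [Finset.card_insert_of_notMem hbZ, cZ]
    rcases hZ.split h3 h₂.not_ad with h6 | h6
    · have := Finset.card_le_card h6
      omega
    · have := Finset.card_le_card h6
      omega
  obtain ⟨x, hx, hxb⟩ := hbX'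
  obtain ⟨y, hy, hyb⟩ := hbY'
  rw [Finset.mem_union] at h2
  rcases h2 with h2 | h2
  · refine key Y cY hbY (hY.insert hy hyb.symm) Finset.subset_union_right ?_
    exact Finset.disjoint_left.1 h.disjoint h2
  · refine key X cX hbX (hX.insert hx hxb) Finset.subset_union_left ?_
    intro h3
    exact Finset.disjoint_left.1 h.disjoint h3 h2

theorem glue_inj {n : ℕ} {P Q P₂ Q₂ R : Finset Cell} {j j₂ : ℤ} (hP : P ∈ TF n) (hQ : Q ∈ TF n)
    (hP₂ : P₂ ∈ TF n) (hQ₂ : Q₂ ∈ TF n) (h : Glue P Q j R) (h₂ : Glue P₂ Q₂ j₂ R) :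
    P = P₂ ∧ Q = Q₂ ∧ j = j₂ := by
  classical
  rw [mem_TF] at hP hQ hP₂ hQ₂
  obtain ⟨cP, nP, kP⟩ := hP
  obtain ⟨cQ, nQ, kQ⟩ := hQ
  obtain ⟨cP₂, nP₂, kP₂⟩ := hP₂
  obtain ⟨cQ₂, nQ₂, kQ₂⟩ := hQ₂
  obtain ⟨v, b, hvj, hR, hNT, hbP, hbQ, hpb, hqb⟩ := h
  obtain ⟨v₂, b₂, hvj₂, hR₂, hNT₂, hbP₂, hbQ₂, hpb₂, hqb₂⟩ := h₂
  have cQ' : (tr v Q).card = n := by rw [card_tr, cQ]
  have cQ₂' : (tr v₂ Q₂).card = n := by rw [card_tr, cQ₂]
  have hbb : b = b₂ := glue_core cP cQ' cP₂ cQ₂' kP (kQ.tr v) hNT hNT₂ hbP hbQ hpb hqb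
    (hR ▸ hR₂)
  subst hbb
  have hU : P ∪ tr v Q = P₂ ∪ tr v₂ Q₂ := by
    have e1 : (insert b (P ∪ tr v Q)).erase b = (insert b (P₂ ∪ tr v₂ Q₂)).erase b := by
      rw [← hR, ← hR₂]
    rw [Finset.erase_insert, Finset.erase_insert] at e1
    · exact e1
    · rw [Finset.mem_union]
      rintro (h | h)
      · exact hbP₂ h
      · exact hbQ₂ h
    · rw [Finset.mem_union]
      rintro (h | h)
      · exact hbP h
      · exact hbQ h
  have hPP : P = P₂ := by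
    have h1 : P ⊆ P₂ ∪ tr v₂ Q₂ := by
      rw [← hU]
      exact Finset.subset_union_left
    rcases kP.split h1 hNT₂.not_ad with h2 | h2
    · exact Finset.eq_of_subset_of_card_le h2 (by rw [cP, cP₂])
    · exact absurd (h2 nP.1) (Finset.disjoint_left.1 hNT₂.disjoint nP₂.1)
  subst hPP
  have hQQ : tr v Q = tr v₂ Q₂ := by
    apply Finset.eq_of_subset_of_card_le
    · intro z hz
      have h1 : z ∈ P ∪ tr v₂ Q₂ := by
        rw [← hU]
        exact Finset.mem_union_right _ hz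
      rw [Finset.mem_union] at h1
      rcases h1 with h1 | h1
      · exact absurd hz (Finset.disjoint_left.1 hNT.disjoint h1)
      · exact h1
    · rw [cQ', cQ₂']
  have h3 : Q₂ = tr (v - v₂) Q := by
    have e1 : tr (-v₂) (tr v Q) = tr (-v₂) (tr v₂ Q₂) := by rw [hQQ]
    rw [tr_tr, tr_tr, add_neg_cancel, tr_zero, ← sub_eq_add_neg] at e1
    exact e1.symm
  have h4 : v - v₂ = 0 := nm_unique nQ (by rw [← h3]; exact nQ₂)
  refine ⟨rfl, ?_, ?_⟩
  · rw [h3, h4, tr_zero]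
  · rw [← hvj, ← hvj₂, sub_eq_zero.1 h4]

theorem count_G (n : ℕ) : tc n * ∑ P ∈ TF n, (rows P).card ≤ tc (2 * n + 1) := by
  classical
  have h1 : tc n * ∑ P ∈ TF n, (rows P).card =
      ((TF n ×ˢ TF n).sigma (fun PQ => rows PQ.1)).card := by
    rw [Finset.card_sigma, Finset.sum_product]
    simp only [Finset.sum_const, smul_eq_mul]
    rw [Finset.mul_sum]
    rfl
  rw [h1]
  unfold tc
  refine Finset.card_le_card_of_injOn
    (fun z => if h : ∃ R, Glue z.1.1 z.1.2 z.2 R ∧ R ∈ TF (2 * n + 1) then h.choose else ∅)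
    ?_ ?_
  · rintro ⟨⟨P, Q⟩, j⟩ hz
    simp only [Finset.coe_sigma, Set.mem_sigma_iff, Finset.mem_coe, Finset.mem_product] at hz
    have h := glue_exists hz.1.1 hz.1.2 hz.2
    simp only
    rw [dif_pos h]
    exact h.choose_spec.2
  · rintro ⟨⟨P, Q⟩, j⟩ hz ⟨⟨P₂, Q₂⟩, j₂⟩ hz₂ heq
    simp only [Finset.coe_sigma, Set.mem_sigma_iff, Finset.mem_coe, Finset.mem_product] at hz hz₂
    have h := glue_exists hz.1.1 hz.1.2 hz.2
    have h₂ := glue_exists hz₂.1.1 hz₂.1.2 hz₂.2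
    simp only at heq
    rw [dif_pos h, dif_pos h₂] at heq
    have e1 := h.choose_spec.1
    have e2 := h₂.choose_spec.1
    rw [← heq] at e2
    obtain ⟨a1, a2, a3⟩ := glue_inj hz.1.1 hz.1.2 hz₂.1.1 hz₂.1.2 e1 e2
    subst a1 a2 a3
    rfl

/-! ### The exchange of the coordinates -/

/-- the exchange of the coordinates -/
def sw (S : Finset Cell) : Finset Cell := S.map (Equiv.prodComm ℤ ℤ).toEmbedding

theorem mem_sw {S : Finset Cell} {p : Cell} : p ∈ sw S ↔ p.swap ∈ S := by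
  simp only [sw, Finset.mem_map, Equiv.coe_toEmbedding, Equiv.prodComm_apply]
  constructor
  · rintro ⟨a, ha, rfl⟩
    simpa using ha
  · intro h
    exact ⟨_, h, by simp⟩

theorem card_sw (S : Finset Cell) : (sw S).card = S.card := Finset.card_map _

theorem sw_sw (S : Finset Cell) : sw (sw S) = S := by
  ext p
  rw [mem_sw, mem_sw, Prod.swap_swap]

theorem sw_tr (v : Cell) (S : Finset Cell) : sw (tr v S) = tr v.swap (sw S) := by
  ext p
  rw [mem_sw, mem_tr, mem_tr, mem_sw]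
  rfl

theorem ad_swap {p q : Cell} : Ad p.swap q.swap ↔ Ad p q := by
  unfold Ad
  rw [Prod.fst_swap, Prod.fst_swap, Prod.snd_swap, Prod.snd_swap, add_comm]

theorem Con.sw {S : Finset Cell} (hS : Con S) : Con (sw S) := by
  intro A hA hA1 hA2
  have k1 : MP_56ddc0_co.sw A ⊆ S := by
    intro x hx
    rw [mem_sw] at hx
    have := hA hx
    rwa [mem_sw, Prod.swap_swap] at this
  have k2 : (MP_56ddc0_co.sw A).Nonempty := by
    obtain ⟨a, ha⟩ := hA1
    exact ⟨a.swap, by rw [mem_sw, Prod.swap_swap]; exact ha⟩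
  have k3 : (S \ MP_56ddc0_co.sw A).Nonempty := by
    obtain ⟨b, hb⟩ := hA2
    rw [Finset.mem_sdiff, mem_sw] at hb
    exact ⟨b.swap, by rw [Finset.mem_sdiff, mem_sw, Prod.swap_swap]; exact hb⟩
  obtain ⟨a, ha, b, hb, hab⟩ := hS _ k1 k2 k3
  rw [mem_sw] at ha
  rw [Finset.mem_sdiff, mem_sw] at hb
  refine ⟨a.swap, ha, b.swap, ?_, ad_swap.2 hab⟩
  rw [Finset.mem_sdiff, mem_sw, Prod.swap_swap]
  exact hb

theorem ne_of_mem_TF {n : ℕ} {P : Finset Cell} (hP : P ∈ TF n) : P.Nonempty := by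
  rw [mem_TF] at hP
  exact ⟨_, hP.2.1.1⟩

theorem sw_nonempty {S : Finset Cell} (h : S.Nonempty) : (sw S).Nonempty := by
  rw [← Finset.card_pos, card_sw, Finset.card_pos]
  exact h

theorem nrm_sw_mem {n : ℕ} {P : Finset Cell} (hP : P ∈ TF n) : nrm (sw P) ∈ TF n := by
  have h := nrm_mem_TF (sw_nonempty (ne_of_mem_TF hP)) (mem_TF.1 hP).2.2.sw
  rwa [card_sw, (mem_TF.1 hP).1] at h

theorem nrm_sw_nrm_sw {n : ℕ} {P : Finset Cell} (hP : P ∈ TF n) :
    nrm (sw (nrm (sw P))) = P := by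
  obtain ⟨_, w, hw⟩ := nrm_spec (sw_nonempty (ne_of_mem_TF hP))
  rw [hw, sw_tr, sw_sw, nrm_tr (ne_of_mem_TF hP), nrm_of_nm (mem_TF.1 hP).2.1]

theorem rows_tr_card (v : Cell) (S : Finset Cell) : (rows (tr v S)).card = (rows S).card := by
  classical
  have h : rows (tr v S) = (rows S).image (fun y => y + v.2) := by
    ext y
    unfold rows
    simp only [Finset.mem_image]
    constructor
    · rintro ⟨p, hp, rfl⟩
      rw [mem_tr] at hp
      exact ⟨_, ⟨_, hp, rfl⟩, by simp⟩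
    · rintro ⟨_, ⟨p, hp, rfl⟩, rfl⟩
      exact ⟨p + v, by rw [mem_tr]; simpa using hp, by simp⟩
  rw [h]
  exact Finset.card_image_of_injective _ (add_left_injective v.2)

theorem rows_sw (S : Finset Cell) : rows (sw S) = cols S := by
  ext y
  unfold rows cols
  simp only [Finset.mem_image]
  constructor
  · rintro ⟨p, hp, rfl⟩
    rw [mem_sw] at hp
    exact ⟨_, hp, rfl⟩
  · rintro ⟨p, hp, rfl⟩
    exact ⟨p.swap, by rw [mem_sw, Prod.swap_swap]; exact hp, rfl⟩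

theorem sum_rows_eq (n : ℕ) : ∑ P ∈ TF n, (rows P).card = ∑ P ∈ TF n, (cols P).card := by
  symm
  refine Finset.sum_bij' (fun P _ => nrm (sw P)) (fun P _ => nrm (sw P)) ?_ ?_ ?_ ?_ ?_
  · intro P hP
    exact nrm_sw_mem hP
  · intro P hP
    exact nrm_sw_mem hP
  · intro P hP
    exact nrm_sw_nrm_sw hP
  · intro P hP
    exact nrm_sw_nrm_sw hP
  · intro P hP
    obtain ⟨_, w, hw⟩ := nrm_spec (sw_nonempty (ne_of_mem_TF hP))
    rw [hw, rows_tr_card, rows_sw]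

theorem card_le_cols_mul_rows (P : Finset Cell) : P.card ≤ (cols P).card * (rows P).card := by
  rw [← Finset.card_product]
  apply Finset.card_le_card
  intro p hp
  rw [Finset.mem_product]
  exact ⟨Finset.mem_image_of_mem _ hp, Finset.mem_image_of_mem _ hp⟩

theorem sum_rows_ge (n : ℕ) :
    Real.sqrt n * (tc n : ℝ) ≤ ∑ P ∈ TF n, ((rows P).card : ℝ) := by
  have h1 : ∑ P ∈ TF n, ((rows P).card : ℝ) = ∑ P ∈ TF n, ((cols P).card : ℝ) := by
    exact_mod_cast sum_rows_eq n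
  have h2 : ∀ P ∈ TF n, 2 * Real.sqrt n ≤ ((rows P).card : ℝ) + ((cols P).card : ℝ) := by
    intro P hP
    have h3 : (n : ℝ) ≤ ((cols P).card : ℝ) * ((rows P).card : ℝ) := by
      have := card_le_cols_mul_rows P
      rw [(mem_TF.1 hP).1] at this
      exact_mod_cast this
    have h4 : 0 ≤ ((rows P).card : ℝ) + ((cols P).card : ℝ) := by positivity
    have h5 : Real.sqrt n ≤ (((rows P).card : ℝ) + ((cols P).card : ℝ)) / 2 := by
      rw [Real.sqrt_le_left (by positivity)]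
      nlinarith [sq_nonneg (((rows P).card : ℝ) - ((cols P).card : ℝ))]
    linarith
  have h3 : ∑ P ∈ TF n, (2 * Real.sqrt n) ≤
      ∑ P ∈ TF n, (((rows P).card : ℝ) + ((cols P).card : ℝ)) := Finset.sum_le_sum h2
  rw [Finset.sum_const, Finset.sum_add_distrib, ← h1, nsmul_eq_mul] at h3
  have h4 : ((TF n).card : ℝ) = (tc n : ℝ) := rfl
  rw [h4] at h3
  nlinarith [h3]

/-- (G): the gluing inequality -/
theorem glue_ineq (n : ℕ) :
    Real.sqrt n * (tc n : ℝ) ^ 2 ≤ (tc (2 * n + 1) : ℝ) := by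
  have h1 := sum_rows_ge n
  have h2 : (tc n : ℝ) * ∑ P ∈ TF n, ((rows P).card : ℝ) ≤ (tc (2 * n + 1) : ℝ) := by
    exact_mod_cast count_G n
  have h3 : (0 : ℝ) ≤ tc n := Nat.cast_nonneg _
  calc Real.sqrt n * (tc n : ℝ) ^ 2 = (tc n : ℝ) * (Real.sqrt n * tc n) := by ring
    _ ≤ (tc n : ℝ) * ∑ P ∈ TF n, ((rows P).card : ℝ) := mul_le_mul_of_nonneg_left h1 h3
    _ ≤ _ := h2

end Pool.Agent.Work.MP_56ddc0_co
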