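import Mathlib

set_option autoImplicit false

namespace Pool.Agent.Work.MP_56ddc0_co.Anim

open Relation

abbrev Cell : Type := ℤ × ℤ

def Adj (p q : Cell) : Prop := |p.1 - q.1| + |p.2 - q.2| = 1

theorem Adj.symm {p q : Cell} (h : Adj p q) : Adj q p := by
  unfold Adj at h ⊢
  rw [abs_sub_comm q.1, abs_sub_comm q.2]
  exact h

theorem Adj.ne {p q : Cell} (h : Adj p q) : p ≠ q := by
  rintro rfl
  unfold Adj at h
  simp at h

theorem adj_add (p q v : Cell) : Adj (p + v) (q + v) ↔ Adj p q := by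
  unfold Adj
  simp

theorem adj_cases {p q : Cell} (h : Adj p q) :
    q = p + (1, 0) ∨ q = p + (-1, 0) ∨ q = p + (0, 1) ∨ q = p + (0, -1) := by
  unfold Adj at h
  obtain ⟨a, b⟩ := p
  obtain ⟨c, d⟩ := q
  simp only at h
  have h1 : |a - c| = 0 ∧ |b - d| = 1 ∨ |a - c| = 1 ∧ |b - d| = 0 := by
    have := abs_nonneg (a - c)
    have := abs_nonneg (b - d)
    omega
  rcases h1 with ⟨h1, h2⟩ | ⟨h1, h2⟩
  · rw [abs_eq_zero] at h1
    rcases (abs_eq (by norm_num : (0 : ℤ) ≤ 1)).mp h2 with h3 | h3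
    · right; right; right
      ext <;> simp <;> omega
    · right; right; left
      ext <;> simp <;> omega
  · rw [abs_eq_zero] at h2
    rcases (abs_eq (by norm_num : (0 : ℤ) ≤ 1)).mp h1 with h3 | h3
    · right; left
      ext <;> simp <;> omega
    · left
      ext <;> simp <;> omega

theorem adj_right (p : Cell) : Adj p (p + (1, 0)) := by unfold Adj; simp
theorem adj_left (p : Cell) : Adj p (p + (-1, 0)) := by unfold Adj; simp
theorem adj_up (p : Cell) : Adj p (p + (0, 1)) := by unfold Adj; simp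
theorem adj_down (p : Cell) : Adj p (p + (0, -1)) := by unfold Adj; simp

def Step (S : Finset Cell) (p q : Cell) : Prop := Adj p q ∧ q ∈ S

def Conn (S : Finset Cell) : Prop :=
  S.Nonempty ∧ ∀ p ∈ S, ∀ q ∈ S, ReflTransGen (Step S) p q

theorem Step.mono {S T : Finset Cell} (h : S ⊆ T) {p q : Cell} (hs : Step S p q) : Step T p q :=
  ⟨hs.1, h hs.2⟩

theorem path_mono {S T : Finset Cell} (h : S ⊆ T) {p q : Cell} (hs : ReflTransGen (Step S) p q) :
    ReflTransGen (Step T) p q :=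
  ReflTransGen.mono (fun _ _ => Step.mono h) _ _ hs

theorem path_symm {S : Finset Cell} {p q : Cell} (hp : p ∈ S)
    (h : ReflTransGen (Step S) p q) : ReflTransGen (Step S) q p ∧ q ∈ S := by
  induction h with
  | refl => exact ⟨ReflTransGen.refl, hp⟩
  | tail _ hbc ih =>
    refine ⟨ReflTransGen.head ⟨hbc.1.symm, ih.2⟩ ih.1, hbc.2⟩

theorem conn_iff_graph (S : Finset Cell) :
    ((SimpleGraph.fromRel (fun p q : ℤ × ℤ => |p.1 - q.1| + |p.2 - q.2| = 1)).induce
      (S : Set (ℤ × ℤ))).Connected ↔ Conn S := by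
  constructor
  · intro h
    have hpre := h.preconnected
    refine ⟨?_, fun p hp q hq => ?_⟩
    · obtain ⟨x⟩ := h.nonempty
      exact ⟨x.1, x.2⟩
    · have h1 := hpre ⟨p, hp⟩ ⟨q, hq⟩
      rw [SimpleGraph.reachable_iff_reflTransGen] at h1
      refine ReflTransGen.lift (fun x : (S : Set Cell) => x.1) (fun a b hab => ?_) _ _ h1
      rw [SimpleGraph.comap_adj, SimpleGraph.fromRel_adj] at hab
      refine ⟨?_, b.2⟩
      rcases hab.2 with h2 | h2
      · exact h2
      · exact Adj.symm h2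
  · rintro ⟨⟨x, hx⟩, h⟩
    have : Nonempty (S : Set Cell) := ⟨⟨x, hx⟩⟩
    refine ⟨fun a b => ?_⟩
    have key : ∀ q, ReflTransGen (Step S) a.1 q → ∃ hq : q ∈ (S : Set Cell),
        ((SimpleGraph.fromRel (fun p q : ℤ × ℤ => |p.1 - q.1| + |p.2 - q.2| = 1)).induce
          (S : Set (ℤ × ℤ))).Reachable a ⟨q, hq⟩ := by
      intro q hq
      induction hq with
      | refl => exact ⟨a.2, SimpleGraph.Reachable.refl _⟩
      | tail _ hbc ih =>
        obtain ⟨hb, hr⟩ := ih
        refine ⟨hbc.2, hr.trans (SimpleGraph.Adj.reachable ?_)⟩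
        rw [SimpleGraph.comap_adj, SimpleGraph.fromRel_adj]
        exact ⟨hbc.1.ne, Or.inl hbc.1⟩
    obtain ⟨_, h2⟩ := key b.1 (h a.1 a.2 b.1 b.2)
    exact h2

/-! ### translations -/

def sh (v : Cell) (S : Finset Cell) : Finset Cell := S.map (Equiv.addRight v).toEmbedding

theorem mem_sh {v : Cell} {S : Finset Cell} {p : Cell} : p ∈ sh v S ↔ p - v ∈ S := by
  unfold sh
  rw [Finset.mem_map_equiv]
  simp [sub_eq_add_neg]

theorem card_sh (v : Cell) (S : Finset Cell) : (sh v S).card = S.card := Finset.card_map _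

theorem add_mem_sh {v : Cell} {S : Finset Cell} {p : Cell} (h : p ∈ S) : p + v ∈ sh v S := by
  rw [mem_sh]; simpa using h

theorem sh_sh (v w : Cell) (S : Finset Cell) : sh v (sh w S) = sh (v + w) S := by
  ext p
  rw [mem_sh, mem_sh, mem_sh, sub_sub]

theorem sh_zero (S : Finset Cell) : sh 0 S = S := by
  ext p; rw [mem_sh, sub_zero]

theorem Conn.sh {S : Finset Cell} (h : Conn S) (v : Cell) : Conn (sh v S) := by
  obtain ⟨⟨x, hx⟩, h2⟩ := h
  refine ⟨⟨x + v, add_mem_sh hx⟩, fun p hp q hq => ?_⟩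
  rw [mem_sh] at hp hq
  have h3 := h2 _ hp _ hq
  have h4 : ReflTransGen (Step (Anim.sh v S)) (p - v + v) (q - v + v) :=
    ReflTransGen.lift (fun x => x + v) (fun a b hab =>
      ⟨(adj_add a b v).mpr hab.1, add_mem_sh hab.2⟩) _ _ h3
  simpa using h4

/-! ### unions -/

theorem conn_singleton (p : Cell) : Conn {p} := by
  refine ⟨⟨p, Finset.mem_singleton_self p⟩, fun a ha b hb => ?_⟩
  rw [Finset.mem_singleton] at ha hb
  subst ha; subst hb
  exact ReflTransGen.refl

/-- every cell of `S` can be joined to a fixed `o ∈ S` -/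
theorem conn_of_base {S : Finset Cell} {o : Cell} (ho : o ∈ S)
    (h : ∀ p ∈ S, ReflTransGen (Step S) o p) : Conn S := by
  refine ⟨⟨o, ho⟩, fun p hp q hq => ?_⟩
  exact ((path_symm ho (h p hp)).1).trans (h q hq)

theorem Conn.union {A B : Finset Cell} (hA : Conn A) (hB : Conn B) {a b : Cell} (ha : a ∈ A)
    (hb : b ∈ B) (hab : Adj a b ∨ a = b) : Conn (A ∪ B) := by
  classical
  refine conn_of_base (o := a) (Finset.mem_union_left _ ha) (fun p hp => ?_)
  rw [Finset.mem_union] at hp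
  rcases hp with hp | hp
  · exact path_mono Finset.subset_union_left (hA.2 a ha p hp)
  · rcases hab with hab | hab
    · exact ReflTransGen.head ⟨hab, Finset.mem_union_right _ hb⟩
        (path_mono Finset.subset_union_right (hB.2 b hb p hp))
    · rw [hab]
      exact path_mono Finset.subset_union_right (hB.2 b hb p hp)

/-- crossing lemma -/
theorem crossing {S A : Finset Cell} {a b : Cell} (h : ReflTransGen (Step S) a b) (ha : a ∈ A)
    (hb : b ∉ A) : ∃ y ∈ A, ∃ z, z ∉ A ∧ z ∈ S ∧ Adj y z := by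
  induction h with
  | refl => exact absurd ha hb
  | tail h1 h2 ih =>
    rename_i c d
    by_cases hc : c ∈ A
    · exact ⟨c, hc, d, hb, h2.2, h2.1⟩
    · exact ih hc

/-- discrete intermediate values along a path -/
theorem ivt {S : Finset Cell} (f : Cell → ℤ) (hf : ∀ p q, Adj p q → |f p - f q| ≤ 1) {a b : Cell}
    (ha : a ∈ S) (h : ReflTransGen (Step S) a b) (j : ℤ) (h1 : f a ≤ j) (h2 : j ≤ f b) :
    ∃ c ∈ S, f c = j := by
  induction h with
  | refl => exact ⟨a, ha, le_antisymm h1 h2⟩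
  | tail h3 h4 ih =>
    rename_i c d
    by_cases hc : j ≤ f c
    · exact ih hc
    · have h5 := hf c d h4.1
      rw [abs_le] at h5
      exact ⟨d, h4.2, by omega⟩

theorem fst_lip (p q : Cell) (h : Adj p q) : |p.1 - q.1| ≤ 1 := by
  unfold Adj at h
  have := abs_nonneg (p.2 - q.2)
  omega

theorem snd_lip (p q : Cell) (h : Adj p q) : |p.2 - q.2| ≤ 1 := by
  unfold Adj at h
  have := abs_nonneg (p.1 - q.1)
  omega

theorem coord_bound {S : Finset Cell} (f : Cell → ℤ) (hf : ∀ p q, Adj p q → |f p - f q| ≤ 1)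
    (hS : Conn S) {a b : Cell} (ha : a ∈ S) (hb : b ∈ S) : f b - f a < S.card := by
  classical
  by_contra hcon
  push Not at hcon
  have h1 : Finset.Icc (f a) (f b) ⊆ S.image f := by
    intro j hj
    rw [Finset.mem_Icc] at hj
    obtain ⟨c, hc, hcj⟩ := ivt f hf ha (hS.2 a ha b hb) j hj.1 hj.2
    rw [Finset.mem_image]
    exact ⟨c, hc, hcj⟩
  have h2 := Finset.card_le_card h1
  have h3 : (S.image f).card ≤ S.card := Finset.card_image_le
  rw [Int.card_Icc] at h2
  omega

noncomputable def box (n : ℕ) : Finset Cell := Finset.Icc (-(n : ℤ)) n ×ˢ Finset.Icc (-(n : ℤ)) n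

theorem subset_box {S : Finset Cell} (hS : Conn S) (h0 : (0 : Cell) ∈ S) : S ⊆ box S.card := by
  intro p hp
  have h1 := coord_bound (fun p => p.1) fst_lip hS h0 hp
  have h2 := coord_bound (fun p => p.1) fst_lip hS hp h0
  have h3 := coord_bound (fun p => p.2) snd_lip hS h0 hp
  have h4 := coord_bound (fun p => p.2) snd_lip hS hp h0
  simp only [Prod.fst_zero, Prod.snd_zero] at h1 h2 h3 h4
  unfold box
  rw [Finset.mem_product, Finset.mem_Icc, Finset.mem_Icc]
  constructor <;> constructor <;> omega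

/-! ### canonical animals -/

def Canon (S : Finset Cell) : Prop :=
  ((0 : ℤ), (0 : ℤ)) ∈ S ∧ ∀ p ∈ S, 0 < p.2 ∨ (p.2 = 0 ∧ 0 ≤ p.1)

open Classical in
noncomputable def T (n : ℕ) : Finset (Finset Cell) :=
  (box n).powerset.filter (fun S => S.card = n ∧ Canon S ∧ Conn S)

open Classical in
noncomputable def R (n : ℕ) : Finset (Finset Cell) :=
  (box n).powerset.filter (fun S => S.card = n ∧ (0 : Cell) ∈ S ∧ Conn S)

open Classical in
theorem mem_T {n : ℕ} {S : Finset Cell} : S ∈ T n ↔ S.card = n ∧ Canon S ∧ Conn S := by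
  unfold T
  rw [Finset.mem_filter, Finset.mem_powerset]
  constructor
  · exact fun h => h.2
  · rintro ⟨h1, h2, h3⟩
    refine ⟨?_, h1, h2, h3⟩
    rw [← h1]
    exact subset_box h3 h2.1

open Classical in
theorem mem_R {n : ℕ} {S : Finset Cell} :
    S ∈ R n ↔ S.card = n ∧ (0 : Cell) ∈ S ∧ Conn S := by
  unfold R
  rw [Finset.mem_filter, Finset.mem_powerset]
  constructor
  · exact fun h => h.2
  · rintro ⟨h1, h2, h3⟩
    refine ⟨?_, h1, h2, h3⟩
    rw [← h1]
    exact subset_box h3 h2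

noncomputable def tn (n : ℕ) : ℕ := (T n).card

theorem tn_eq (n : ℕ) : tn n = Nat.card {S : Finset (ℤ × ℤ) //
    S.card = n ∧ ((0 : ℤ), (0 : ℤ)) ∈ S ∧
    (∀ p ∈ S, 0 < p.2 ∨ (p.2 = 0 ∧ 0 ≤ p.1)) ∧
    ((SimpleGraph.fromRel (fun p q : ℤ × ℤ => |p.1 - q.1| + |p.2 - q.2| = 1)).induce
      (S : Set (ℤ × ℤ))).Connected} := by
  symm
  apply Nat.subtype_card
  intro S
  rw [mem_T, conn_iff_graph]
  unfold Canon
  tauto

/-- lexicographic minimum -/
theorem exists_lexmin {S : Finset Cell} (hS : S.Nonempty) :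
    ∃ m ∈ S, ∀ p ∈ S, m.2 < p.2 ∨ (p.2 = m.2 ∧ m.1 ≤ p.1) := by
  obtain ⟨m, hm, h⟩ := S.exists_min_image (fun p => toLex (p.2, p.1)) hS
  refine ⟨m, hm, fun p hp => ?_⟩
  have h1 := h p hp
  rw [Prod.Lex.toLex_le_toLex] at h1
  simp only at h1
  rcases h1 with h1 | ⟨h1, h2⟩
  · exact Or.inl h1
  · exact Or.inr ⟨h1.symm, h2⟩

theorem exists_lexmax {S : Finset Cell} (hS : S.Nonempty) :
    ∃ m ∈ S, ∀ p ∈ S, p.2 < m.2 ∨ (p.2 = m.2 ∧ p.1 ≤ m.1) := by
  obtain ⟨m, hm, h⟩ := S.exists_max_image (fun p => toLex (p.2, p.1)) hS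
  refine ⟨m, hm, fun p hp => ?_⟩
  have h1 := h p hp
  rw [Prod.Lex.toLex_le_toLex] at h1
  simp only at h1
  rcases h1 with h1 | ⟨h1, h2⟩
  · exact Or.inl h1
  · exact Or.inr ⟨h1, h2⟩

theorem canon_sh {S : Finset Cell} {m : Cell} (hm : m ∈ S)
    (h : ∀ p ∈ S, m.2 < p.2 ∨ (p.2 = m.2 ∧ m.1 ≤ p.1)) : Canon (sh (-m) S) := by
  refine ⟨?_, fun p hp => ?_⟩
  · have := add_mem_sh (v := -m) hm
    rw [add_neg_cancel] at this
    exact this
  · rw [mem_sh, sub_neg_eq_add] at hp
    have h1 := h _ hp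
    simp only [Prod.fst_add, Prod.snd_add] at h1
    rcases h1 with h1 | ⟨h1, h2⟩
    · left; omega
    · right; omega

theorem canon_unique {S : Finset Cell} (hS : Canon S) {v : Cell} (hv : Canon (sh v S)) :
    v = 0 := by
  have h1 := hS.1
  have h2 := hv.1
  rw [mem_sh] at h2
  have h3 := hS.2 _ h2
  have h4 := add_mem_sh (v := v) h1
  have h5 := hv.2 _ h4
  simp only [Prod.fst_sub, Prod.snd_sub, Prod.fst_add, Prod.snd_add] at h3 h5
  ext
  · simp only [Prod.fst_zero]; omega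
  · simp only [Prod.snd_zero]; omega

theorem card_R_le (n : ℕ) : (R n).card ≤ n * tn n := by
  classical
  have h1 : ((T n).sigma (fun P => P)).card = n * tn n := by
    rw [Finset.card_sigma, Finset.sum_congr rfl (g := fun _ => n)
      (fun P hP => (mem_T.mp hP).1), Finset.sum_const, smul_eq_mul, mul_comm]
    rfl
  rw [← h1]
  -- choose the lexmin
  have hex : ∀ S : Finset Cell, ∃ m : Cell, S ∈ R n →
      m ∈ S ∧ ∀ p ∈ S, m.2 < p.2 ∨ (p.2 = m.2 ∧ m.1 ≤ p.1) := by
    intro S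
    by_cases hS : S ∈ R n
    · obtain ⟨m, hm, h⟩ := exists_lexmin (mem_R.mp hS).2.2.1
      exact ⟨m, fun _ => ⟨hm, h⟩⟩
    · exact ⟨0, fun h => absurd h hS⟩
  choose μ hμ using hex
  apply Finset.card_le_card_of_injOn (fun S => (⟨sh (-(μ S)) S, -(μ S)⟩ : (_ : Finset Cell) × Cell))
  · intro S hS
    have hS' : S ∈ R n := hS
    obtain ⟨hm, h⟩ := hμ S hS'
    obtain ⟨hc, h0, hconn⟩ := mem_R.mp hS'
    rw [Finset.mem_coe, Finset.mem_sigma]
    refine ⟨mem_T.mpr ⟨by rw [card_sh]; exact hc, canon_sh hm h, hconn.sh _⟩, ?_⟩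
    simp only
    have := add_mem_sh (v := -(μ S)) h0
    rwa [zero_add] at this
  · intro S hS S' hS' heq
    simp only [Sigma.mk.injEq, heq_eq_eq] at heq
    obtain ⟨h2, h3⟩ := heq
    have h4 : sh (μ S) (sh (-(μ S)) S) = sh (μ S') (sh (-(μ S')) S') := by
      rw [h2, neg_inj.mp h3]
    rw [sh_sh, sh_sh, add_neg_cancel, add_neg_cancel, sh_zero, sh_zero] at h4
    exact h4

/-! ### supermultiplicativity -/

/-- two cut descriptions of the same set agree -/
theorem cut_unique {A C A' C' : Finset Cell} (lt : Cell → Cell → Prop)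
    (hasymm : ∀ p q, lt p q → ¬ lt q p) (h : A ∪ C = A' ∪ C') (hc : A.card = A'.card)
    (h1 : ∀ a ∈ A, ∀ c ∈ C, lt a c) (h2 : ∀ a ∈ A', ∀ c ∈ C', lt a c) : A = A' := by
  classical
  by_contra hne
  have hsub : ¬ A ⊆ A' := fun hs => hne (Finset.eq_of_subset_of_card_le hs hc.ge)
  have hsub' : ¬ A' ⊆ A := fun hs => hne (Finset.eq_of_subset_of_card_le hs hc.le).symm
  obtain ⟨a, ha, ha'⟩ := Finset.not_subset.mp hsub
  obtain ⟨b, hb, hb'⟩ := Finset.not_subset.mp hsub'
  have ha2 : a ∈ A' ∪ C' := h ▸ Finset.mem_union_left _ ha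
  have hb2 : b ∈ A ∪ C := h ▸ Finset.mem_union_left _ hb
  rcases Finset.mem_union.mp ha2 with h3 | h3
  · exact ha' h3
  rcases Finset.mem_union.mp hb2 with h4 | h4
  · exact hb' h4
  exact hasymm _ _ (h1 a ha b h4) (h2 b hb a h3)

def Lt (p q : Cell) : Prop := p.2 < q.2 ∨ (p.2 = q.2 ∧ p.1 < q.1)

theorem Lt.asymm' (p q : Cell) (h : Lt p q) : ¬ Lt q p := by
  unfold Lt at h ⊢
  omega

theorem tn_mul_le (m n : ℕ) : tn m * tn n ≤ tn (m + n) := by
  classical
  by_cases hm0 : m = 0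
  · subst hm0
    have h0 : tn 0 = 0 := by
      unfold tn
      rw [Finset.card_eq_zero, Finset.eq_empty_iff_forall_notMem]
      intro S hS
      obtain ⟨h1, h2, _⟩ := mem_T.mp hS
      rw [Finset.card_eq_zero] at h1
      subst h1
      exact absurd h2.1 (Finset.notMem_empty _)
    rw [h0, zero_mul]; exact Nat.zero_le _
  have hex : ∀ S : Finset Cell, ∃ M : Cell, S ∈ T m →
      M ∈ S ∧ ∀ p ∈ S, p.2 < M.2 ∨ (p.2 = M.2 ∧ p.1 ≤ M.1) := by
    intro S
    by_cases hS : S ∈ T m
    · obtain ⟨M, hM, h⟩ := exists_lexmax (mem_T.mp hS).2.2.1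
      exact ⟨M, fun _ => ⟨hM, h⟩⟩
    · exact ⟨0, fun h => absurd h hS⟩
  choose μ hμ using hex
  have hlt : ∀ A ∈ T m, ∀ B ∈ T n, ∀ a ∈ A, ∀ c ∈ sh (μ A + (1, 0)) B, Lt a c := by
    intro A hA B hB a ha c hc
    rw [mem_sh] at hc
    have h1 := (hμ A hA).2 a ha
    have h2 := (mem_T.mp hB).2.1.2 _ hc
    simp only [Prod.fst_sub, Prod.snd_sub, Prod.fst_add, Prod.snd_add] at h2
    unfold Lt
    omega
  unfold tn
  rw [← Finset.card_product]
  apply Finset.card_le_card_of_injOn (fun P => P.1 ∪ sh (μ P.1 + (1, 0)) P.2)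
  · rintro ⟨A, B⟩ hAB
    rw [Finset.mem_coe, Finset.mem_product] at hAB
    obtain ⟨hA, hB⟩ := hAB
    simp only at hA hB ⊢
    obtain ⟨hcA, hkA, hconA⟩ := mem_T.mp hA
    obtain ⟨hcB, hkB, hconB⟩ := mem_T.mp hB
    have hdisj : Disjoint A (sh (μ A + (1, 0)) B) := by
      rw [Finset.disjoint_left]
      intro a ha hc
      have := hlt A hA B hB a ha a hc
      exact Lt.asymm' _ _ this this
    rw [Finset.mem_coe, mem_T]
    refine ⟨by rw [Finset.card_union_of_disjoint hdisj, card_sh, hcA, hcB], ⟨?_, ?_⟩, ?_⟩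
    · exact Finset.mem_union_left _ hkA.1
    · intro p hp
      rcases Finset.mem_union.mp hp with hp | hp
      · exact hkA.2 p hp
      · have h1 := hlt A hA B hB _ hkA.1 p hp
        unfold Lt at h1
        simp only at h1
        omega
    · refine hconA.union (hconB.sh _) (a := μ A) (b := μ A + (1, 0)) (hμ A hA).1 ?_
        (Or.inl (adj_right _))
      rw [mem_sh, sub_self]
      exact hkB.1
  · rintro ⟨A, B⟩ hAB ⟨A', B'⟩ hAB' heq
    rw [Finset.mem_coe, Finset.mem_product] at hAB hAB'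
    obtain ⟨hA, hB⟩ := hAB
    obtain ⟨hA', hB'⟩ := hAB'
    simp only at hA hB hA' hB' heq
    have hAA : A = A' := cut_unique Lt Lt.asymm' heq
      (by rw [(mem_T.mp hA).1, (mem_T.mp hA').1]) (hlt A hA B hB) (hlt A' hA' B' hB')
    subst hAA
    have hd : ∀ X ∈ T n, Disjoint A (sh (μ A + (1, 0)) X) := by
      intro X hX
      rw [Finset.disjoint_left]
      intro a ha hc
      have := hlt A hA X hX a ha a hc
      exact Lt.asymm' _ _ this this
    have h2 : sh (μ A + (1, 0)) B = sh (μ A + (1, 0)) B' := by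
      have h3 := congrArg (fun X => X \ A) heq
      rw [Finset.union_sdiff_cancel_left (hd B hB), Finset.union_sdiff_cancel_left (hd B' hB')]
        at h3
      exact h3
    have h4 := congrArg (sh (-(μ A + (1, 0)))) h2
    rw [sh_sh, sh_sh, neg_add_cancel, sh_zero, sh_zero] at h4
    rw [h4]

theorem tn_one : tn 1 = 1 := by
  classical
  unfold tn
  rw [Finset.card_eq_one]
  refine ⟨{0}, ?_⟩
  ext S
  rw [mem_T, Finset.mem_singleton]
  constructor
  · rintro ⟨h1, h2, _⟩
    rw [Finset.card_eq_one] at h1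
    obtain ⟨a, rfl⟩ := h1
    have := h2.1
    rw [Finset.mem_singleton] at this
    rw [← this]
    rfl
  · rintro rfl
    refine ⟨Finset.card_singleton _, ⟨Finset.mem_singleton_self _, ?_⟩, conn_singleton _⟩
    intro p hp
    rw [Finset.mem_singleton] at hp
    subst hp
    right
    simp

theorem tn_mono (n : ℕ) : tn n ≤ tn (n + 1) := by
  have := tn_mul_le n 1
  rwa [tn_one, mul_one] at this

theorem tn_pos (n : ℕ) (hn : 1 ≤ n) : 1 ≤ tn n := by
  induction n, hn using Nat.le_induction with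
  | base => rw [tn_one]
  | succ n _ ih => exact le_trans ih (tn_mono n)

/-! ### exponential upper bound -/

def dir : Fin 4 → Cell := ![(1, 0), (-1, 0), (0, 1), (0, -1)]

def opp : Fin 4 → Fin 4 := ![1, 0, 3, 2]

theorem dir_opp (d : Fin 4) : dir d + dir (opp d) = 0 := by
  fin_cases d <;> simp [dir, opp]

def trace : Cell → List (Fin 4) → Finset Cell
  | p, [] => {p}
  | p, d :: l => insert p (trace (p + dir d) l)

theorem mem_trace_start (p : Cell) (l : List (Fin 4)) : p ∈ trace p l := by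
  cases l with
  | nil => simp [trace]
  | cons d l => simp [trace]

theorem detour (d : Fin 4) (y : Cell) : ∀ (l : List (Fin 4)) (p : Cell), y ∈ trace p l →
    ∃ l' : List (Fin 4), l'.length = l.length + 2 ∧
      trace p l' = insert (y + dir d) (trace p l) := by
  intro l
  induction l with
  | nil =>
    intro p hp
    simp only [trace, Finset.mem_singleton] at hp
    subst hp
    refine ⟨[d, opp d], by simp, ?_⟩
    simp only [trace]
    rw [add_assoc, dir_opp, add_zero]
    ext q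
    simp only [Finset.mem_insert, Finset.mem_singleton]
    tauto
  | cons e l ih =>
    intro p hp
    by_cases hy : y = p
    · subst hy
      refine ⟨d :: opp d :: e :: l, by simp, ?_⟩
      simp only [trace]
      rw [add_assoc y (dir d), dir_opp, add_zero]
      ext q
      simp only [Finset.mem_insert]
      tauto
    · simp only [trace, Finset.mem_insert] at hp
      rcases hp with hp | hp
      · exact absurd hp hy
      · obtain ⟨l', h1, h2⟩ := ih _ hp
        refine ⟨e :: l', by simp [h1], ?_⟩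
        simp only [trace]
        rw [h2]
        ext q
        simp only [Finset.mem_insert]
        tauto

theorem adj_dir {p q : Cell} (h : Adj p q) : ∃ d : Fin 4, q = p + dir d := by
  rcases adj_cases h with h | h | h | h
  · exact ⟨0, h⟩
  · exact ⟨1, h⟩
  · exact ⟨2, h⟩
  · exact ⟨3, h⟩

theorem exists_trace {S : Finset Cell} (hS : Conn S) (h0 : (0 : Cell) ∈ S) :
    ∃ l : List (Fin 4), l.length = 2 * (S.card - 1) ∧ trace 0 l = S := by
  classical
  have key : ∀ k, 1 ≤ k → k ≤ S.card → ∃ A ⊆ S, (0 : Cell) ∈ A ∧ A.card = k ∧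
      ∃ l : List (Fin 4), l.length = 2 * (k - 1) ∧ trace 0 l = A := by
    intro k hk
    induction k, hk using Nat.le_induction with
    | base =>
      intro _
      exact ⟨{0}, by simpa using h0, by simp, by simp, [], by simp, by simp [trace]⟩
    | succ k hk ih =>
      intro hkS
      obtain ⟨A, hAS, hA0, hAk, l, hl, hlA⟩ := ih (by omega)
      have hne : ∃ s ∈ S, s ∉ A := by
        by_contra hcon
        push Not at hcon
        have := Finset.card_le_card (fun x hx => hcon x hx : S ⊆ A)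
        omega
      obtain ⟨s, hs, hsA⟩ := hne
      obtain ⟨y, hy, z, hz, hzS, hyz⟩ := crossing (hS.2 0 h0 s hs) hA0 hsA
      obtain ⟨d, hd⟩ := adj_dir hyz
      obtain ⟨l', h1, h2⟩ := detour d y l 0 (by rw [hlA]; exact hy)
      refine ⟨insert z A, Finset.insert_subset hzS hAS, Finset.mem_insert_of_mem hA0,
        by rw [Finset.card_insert_of_notMem hz, hAk], l', by rw [h1, hl]; omega, ?_⟩
      rw [h2, hlA, hd]
  obtain ⟨A, hAS, _, hAk, l, hl, hlA⟩ := key S.card
    (Finset.card_pos.mpr ⟨0, h0⟩) le_rfl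
  refine ⟨l, hl, ?_⟩
  rw [hlA]
  exact Finset.eq_of_subset_of_card_le hAS hAk.ge

theorem tn_le_pow (n : ℕ) : tn n ≤ 16 ^ n := by
  classical
  have hex : ∀ S : Finset Cell, ∃ v : List.Vector (Fin 4) (2 * (n - 1)), S ∈ T n →
      trace 0 v.1 = S := by
    intro S
    by_cases hS : S ∈ T n
    · obtain ⟨h1, h2, h3⟩ := mem_T.mp hS
      obtain ⟨l, hl, hlS⟩ := exists_trace h3 h2.1
      rw [h1] at hl
      exact ⟨⟨l, hl⟩, fun _ => hlS⟩
    · exact ⟨List.Vector.replicate _ 0, fun h => absurd h hS⟩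
  choose ν hν using hex
  have h1 : (T n).card ≤ (Finset.univ : Finset (List.Vector (Fin 4) (2 * (n - 1)))).card := by
    apply Finset.card_le_card_of_injOn ν
    · intro S _; exact Finset.mem_coe.mpr (Finset.mem_univ _)
    · intro S hS S' hS' heq
      rw [← hν S hS, ← hν S' hS', heq]
  rw [Finset.card_univ, card_vector, Fintype.card_fin] at h1
  unfold tn
  calc (T n).card ≤ 4 ^ (2 * (n - 1)) := h1
    _ ≤ 4 ^ (2 * n) := Nat.pow_le_pow_right (by norm_num) (by omega)
    _ = 16 ^ n := by rw [pow_mul]; norm_num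

end Pool.Agent.Work.MP_56ddc0_co.Anim
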