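import Pool.Agent.Work.MP_56ddc0_co.H55Anim

set_option autoImplicit false

namespace Pool.Agent.Work.MP_56ddc0_co.Anim

open Relation

/-- disjoint and with no adjacency -/
def Sep (X Y : Finset Cell) : Prop := ∀ x ∈ X, ∀ y ∈ Y, x ≠ y ∧ ¬ Adj x y

theorem Sep.symm {X Y : Finset Cell} (h : Sep X Y) : Sep Y X := fun y hy x hx =>
  ⟨(h x hx y hy).1.symm, fun ha => (h x hx y hy).2 ha.symm⟩

theorem one_side {Z X Y : Finset Cell} (hZ : Conn Z) (hsub : Z ⊆ X ∪ Y) (hsep : Sep X Y) :
    Z ⊆ X ∨ Z ⊆ Y := by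
  classical
  by_contra hcon
  push Not at hcon
  obtain ⟨h1, h2⟩ := hcon
  obtain ⟨b, hb, hbX⟩ := Finset.not_subset.mp h1
  obtain ⟨a, ha, haY⟩ := Finset.not_subset.mp h2
  have haX : a ∈ X := by
    rcases Finset.mem_union.mp (hsub ha) with h | h
    · exact h
    · exact absurd h haY
  obtain ⟨y, hy, z, hz, hzZ, hyz⟩ := crossing (hZ.2 a ha b hb) haX hbX
  rcases Finset.mem_union.mp (hsub hzZ) with h | h
  · exact hz h
  · exact (hsep y hy z h).2 hyz

/-- a cut cell with two components of equal size is unique, and so is the pair of components -/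
theorem halves_unique {X Y X' Y' : Finset Cell} {c c' : Cell} {n : ℕ}
    (hX : Conn X) (hY : Conn Y) (hs : Sep X Y) (hs' : Sep X' Y')
    (hXn : X.card = n) (hYn : Y.card = n) (hXn' : X'.card = n) (hYn' : Y'.card = n)
    (hcX : ∃ x ∈ X, Adj x c) (hcY : ∃ y ∈ Y, Adj c y)
    (hcX' : ∃ x ∈ X', Adj x c') (hcY' : ∃ y ∈ Y', Adj c' y)
    (h : insert c (X ∪ Y) = insert c' (X' ∪ Y')) :
    (X' = X ∧ Y' = Y) ∨ (X' = Y ∧ Y' = X) := by
  classical
  have hcnX : c ∉ X := by
    intro hc
    obtain ⟨y, hy, hcy⟩ := hcY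
    exact (hs c hc y hy).2 hcy
  have hcnY : c ∉ Y := by
    intro hc
    obtain ⟨x, hx, hcx⟩ := hcX
    exact (hs x hx c hc).2 hcx
  have hcnX' : c' ∉ X' := by
    intro hc
    obtain ⟨y, hy, hcy⟩ := hcY'
    exact (hs' c' hc y hy).2 hcy
  have hcnY' : c' ∉ Y' := by
    intro hc
    obtain ⟨x, hx, hcx⟩ := hcX'
    exact (hs' x hx c' hc).2 hcx
  -- general impossibility
  have key : ∀ Z W : Finset Cell, Conn W → W.card = n → c ∉ W → (∃ w ∈ W, Adj c w) →
      (∀ w ∈ W, w ∈ X ∪ Y) → c' ∉ W → c ≠ c' → Z = insert c W → False := by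
    intro Z W hW hWn hcW hadj hWsub hc'W hne hZ
    obtain ⟨w, hw, hcw⟩ := hadj
    have hZc : Conn Z := by
      rw [hZ, Finset.insert_eq]
      exact (conn_singleton c).union hW (Finset.mem_singleton_self c) hw (Or.inl hcw)
    have hZsub : Z ⊆ X' ∪ Y' := by
      intro z hz
      rw [hZ] at hz
      have hz1 : z ∈ insert c (X ∪ Y) := by
        rcases Finset.mem_insert.mp hz with h1 | h1
        · rw [h1]; exact Finset.mem_insert_self _ _
        · exact Finset.mem_insert_of_mem (hWsub z h1)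
      rw [h] at hz1
      rcases Finset.mem_insert.mp hz1 with h1 | h1
      · exfalso
        rcases Finset.mem_insert.mp hz with h2 | h2
        · exact hne (h2 ▸ h1)
        · exact hc'W (h1 ▸ h2)
      · exact h1
    have hcard : Z.card = n + 1 := by
      rw [hZ, Finset.card_insert_of_notMem hcW, hWn]
    rcases one_side hZc hZsub hs' with h1 | h1
    · have := Finset.card_le_card h1
      omega
    · have := Finset.card_le_card h1
      omega
  have hcc : c = c' := by
    by_contra hne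
    have hc' : c' ∈ insert c (X ∪ Y) := by rw [h]; exact Finset.mem_insert_self _ _
    rcases Finset.mem_insert.mp hc' with h1 | h1
    · exact hne h1.symm
    · rcases Finset.mem_union.mp h1 with h2 | h2
      · -- c' in X, use Y
        refine key (insert c Y) Y hY hYn hcnY hcY (fun w hw => Finset.mem_union_right _ hw) ?_
          hne rfl
        intro h3
        exact (hs c' h2 c' h3).1 rfl
      · refine key (insert c X) X hX hXn hcnX ?_ (fun w hw => Finset.mem_union_left _ hw) ?_
          hne rfl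
        · obtain ⟨x, hx, hxc⟩ := hcX
          exact ⟨x, hx, hxc.symm⟩
        · intro h3
          exact (hs c' h3 c' h2).1 rfl
  subst hcc
  have hun : X ∪ Y = X' ∪ Y' := by
    have h1 : c ∉ X ∪ Y := by
      rw [Finset.mem_union]; tauto
    have h2 : c ∉ X' ∪ Y' := by
      rw [Finset.mem_union]; tauto
    have h3 := congrArg (fun S => S.erase c) h
    simp only [Finset.erase_insert h1, Finset.erase_insert h2] at h3
    exact h3
  have hdis : Disjoint X Y := by
    rw [Finset.disjoint_left]; intro a ha hb; exact (hs a ha a hb).1 rfl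
  have hdis' : Disjoint X' Y' := by
    rw [Finset.disjoint_left]; intro a ha hb; exact (hs' a ha a hb).1 rfl
  have hXsub : X ⊆ X' ∪ Y' := by rw [← hun]; exact Finset.subset_union_left
  have hYeq : Y = (X ∪ Y) \ X := (Finset.union_sdiff_cancel_left hdis).symm
  rcases one_side hX hXsub hs' with h1 | h1
  · left
    have h2 : X = X' := Finset.eq_of_subset_of_card_le h1 (by omega)
    refine ⟨h2.symm, ?_⟩
    rw [hYeq, hun, h2, Finset.union_sdiff_cancel_left hdis']
  · right
    have h2 : X = Y' := Finset.eq_of_subset_of_card_le h1 (by omega)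
    refine ⟨?_, h2.symm⟩
    rw [hYeq, hun, h2, Finset.union_comm, Finset.union_sdiff_cancel_left hdis'.symm]

/-- joinable position -/
def Joint (A B : Finset Cell) (v : Cell) : Prop :=
  Sep A (sh v B) ∧ ∃ c, (∃ x ∈ A, Adj x c) ∧ ∃ y ∈ sh v B, Adj c y

theorem push {A B : Finset Cell} {a b : Cell} (ha : a ∈ A) (hb : b ∈ B) (e : Cell)
    (π : Cell → ℤ) (hadd : ∀ x y, π (x + y) = π x + π y) (hπe : π e = 1)
    (hlip : ∀ x y, Adj x y → |π x - π y| ≤ 1) (hade : ∀ x, Adj x (x + e)) :
    ∃ s : ℕ, Joint A B (a - b + (s : ℤ) • e) := by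
  classical
  have hπs : ∀ s : ℕ, π ((s : ℤ) • e) = s := by
    intro s
    induction s with
    | zero =>
      have := hadd 0 0
      simp only [add_zero] at this
      simp only [Nat.cast_zero, zero_smul]
      omega
    | succ s ih =>
      push_cast
      rw [add_smul, one_smul, hadd, ih, hπe]
  set v : ℕ → Cell := fun s => a - b + (s : ℤ) • e with hv
  have hvs : ∀ s, v (s + 1) = v s + e := by
    intro s
    simp only [hv]
    push_cast
    rw [add_smul, one_smul]
    abel
  -- far away there is no contact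
  obtain ⟨K, hK⟩ : ∃ K : ℕ, ∀ x ∈ A, ∀ y ∈ B, π x - π y - π (a - b) ≤ K := by
    refine ⟨∑ p ∈ A ×ˢ B, (π p.1 - π p.2 - π (a - b)).natAbs, fun x hx y hy => ?_⟩
    have h1 := Finset.single_le_sum (f := fun p : Cell × Cell =>
      (π p.1 - π p.2 - π (a - b)).natAbs) (fun _ _ => Nat.zero_le _)
      (Finset.mem_product.mpr ⟨hx, hy⟩ : (x, y) ∈ A ×ˢ B)
    simp only at h1
    omega
  have hfar : Sep A (sh (v (K + 2)) B) := by
    intro x hx y hy
    rw [mem_sh] at hy
    have h1 := hK x hx _ hy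
    have h2 : π (y - v (K + 2)) = π y - π (v (K + 2)) := by
      have := hadd (y - v (K + 2)) (v (K + 2))
      rw [sub_add_cancel] at this
      omega
    have h3 : π (v (K + 2)) = π (a - b) + (K + 2) := by
      simp only [hv]
      rw [hadd, hπs]
      push_cast
      ring
    constructor
    · rintro rfl
      omega
    · intro hadj
      have h4 := hlip x y hadj
      rw [abs_le] at h4
      omega
  obtain ⟨s, hs1, hs2⟩ : ∃ s, ¬ Sep A (sh (v s) B) ∧ Sep A (sh (v (s + 1)) B) := by
    by_contra hcon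
    push Not at hcon
    have : ∀ s, ¬ Sep A (sh (v s) B) := by
      intro s
      induction s with
      | zero =>
        intro h
        have h1 := (h a ha a (by
          rw [mem_sh]
          simp only [hv, Nat.cast_zero, zero_smul, add_zero, sub_sub_cancel]
          exact hb)).1
        exact h1 rfl
      | succ s ih => exact hcon s ih
    exact this _ hfar
  refine ⟨s + 1, hs2, ?_⟩
  unfold Sep at hs1
  push Not at hs1
  obtain ⟨x, hx, y, hy, hxy⟩ := hs1
  have hye : y + e ∈ sh (v (s + 1)) B := by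
    rw [mem_sh, hvs]
    rw [mem_sh] at hy
    simpa using hy
  have hne : x ≠ y := by
    rintro rfl
    exact (hs2 x hx _ hye).2 (hade x)
  exact ⟨y, ⟨x, hx, hxy hne⟩, y + e, hye, hade y⟩

theorem exists_positions {n : ℕ} {A B : Finset Cell} (hA : A ∈ T n) (hB : B ∈ T n) :
    ∃ V : Finset Cell, Nat.sqrt n ≤ V.card ∧ ∀ v ∈ V, Joint A B v := by
  classical
  obtain ⟨hAn, hAc, hAcon⟩ := mem_T.mp hA
  obtain ⟨hBn, hBc, hBcon⟩ := mem_T.mp hB
  have hb0 : (0 : Cell) ∈ B := hBc.1
  have hcard : A.card ≤ (A.image Prod.fst).card * (A.image Prod.snd).card := by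
    rw [← Finset.card_product]
    apply Finset.card_le_card
    intro p hp
    rw [Finset.mem_product]
    exact ⟨Finset.mem_image_of_mem _ hp, Finset.mem_image_of_mem _ hp⟩
  have hdich : Nat.sqrt n ≤ (A.image Prod.snd).card ∨ Nat.sqrt n ≤ (A.image Prod.fst).card := by
    by_contra hcon
    push Not at hcon
    obtain ⟨h1, h2⟩ := hcon
    have h3 := Nat.sqrt_le' n
    have h4 : (A.image Prod.fst).card * (A.image Prod.snd).card <
        Nat.sqrt n * Nat.sqrt n := Nat.mul_lt_mul'' h2 h1
    rw [← pow_two] at h4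
    omega
  rcases hdich with hd | hd
  · have hex : ∀ y : ℤ, ∃ v : Cell, y ∈ A.image Prod.snd → Joint A B v ∧ v.2 = y := by
      intro y
      by_cases hy : y ∈ A.image Prod.snd
      · obtain ⟨a, ha, hay⟩ := Finset.mem_image.mp hy
        obtain ⟨s, hs⟩ := push ha hb0 (1, 0) Prod.fst (fun _ _ => rfl) rfl fst_lip adj_right
        exact ⟨_, fun _ => ⟨hs, by simp [hay]⟩⟩
      · exact ⟨0, fun h => absurd h hy⟩
    choose v hv using hex
    refine ⟨(A.image Prod.snd).image v, ?_, ?_⟩
    · rw [Finset.card_image_of_injOn]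
      · exact hd
      · intro y hy y' hy' heq
        rw [← (hv y hy).2, ← (hv y' hy').2, heq]
    · intro w hw
      obtain ⟨y, hy, rfl⟩ := Finset.mem_image.mp hw
      exact (hv y hy).1
  · have hex : ∀ y : ℤ, ∃ v : Cell, y ∈ A.image Prod.fst → Joint A B v ∧ v.1 = y := by
      intro y
      by_cases hy : y ∈ A.image Prod.fst
      · obtain ⟨a, ha, hay⟩ := Finset.mem_image.mp hy
        obtain ⟨s, hs⟩ := push ha hb0 (0, 1) Prod.snd (fun _ _ => rfl) rfl snd_lip adj_up
        exact ⟨_, fun _ => ⟨hs, by simp [hay]⟩⟩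
      · exact ⟨0, fun h => absurd h hy⟩
    choose v hv using hex
    refine ⟨(A.image Prod.fst).image v, ?_, ?_⟩
    · rw [Finset.card_image_of_injOn]
      · exact hd
      · intro y hy y' hy' heq
        rw [← (hv y hy).2, ← (hv y' hy').2, heq]
    · intro w hw
      obtain ⟨y, hy, rfl⟩ := Finset.mem_image.mp hw
      exact (hv y hy).1

theorem sh_insert (v c : Cell) (S : Finset Cell) : sh v (insert c S) = insert (c + v) (sh v S) := by
  classical
  ext p
  simp only [mem_sh, Finset.mem_insert, sub_eq_iff_eq_add]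

theorem sh_union (v : Cell) (S U : Finset Cell) : sh v (S ∪ U) = sh v S ∪ sh v U := by
  classical
  ext p
  simp only [mem_sh, Finset.mem_union]

theorem Sep.sh {X Y : Finset Cell} (h : Sep X Y) (w : Cell) : Sep (Anim.sh w X) (Anim.sh w Y) := by
  intro x hx y hy
  rw [mem_sh] at hx hy
  obtain ⟨h1, h2⟩ := h _ hx _ hy
  refine ⟨fun h3 => h1 (by rw [h3]), fun h3 => h2 ?_⟩
  have := (adj_add x y (-w)).mpr h3
  simpa [sub_eq_add_neg] using this

theorem doubling (n : ℕ) : Nat.sqrt n * tn n ^ 2 ≤ 2 * tn (2 * n + 1) := by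
  classical
  -- choices
  have hexV : ∀ p : Finset Cell × Finset Cell, ∃ V : Finset Cell, p.1 ∈ T n → p.2 ∈ T n →
      Nat.sqrt n ≤ V.card ∧ ∀ v ∈ V, Joint p.1 p.2 v := by
    intro p
    by_cases h1 : p.1 ∈ T n
    · by_cases h2 : p.2 ∈ T n
      · obtain ⟨V, hV⟩ := exists_positions h1 h2
        exact ⟨V, fun _ _ => hV⟩
      · exact ⟨∅, fun _ h => absurd h h2⟩
    · exact ⟨∅, fun h => absurd h h1⟩
  choose V hV using hexV
  set D : Finset ((_ : Finset Cell × Finset Cell) × Cell) := (T n ×ˢ T n).sigma V with hD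
  have hDcard : Nat.sqrt n * tn n ^ 2 ≤ D.card := by
    rw [hD, Finset.card_sigma]
    have h1 : ∀ p ∈ T n ×ˢ T n, Nat.sqrt n ≤ (V p).card := by
      intro p hp
      rw [Finset.mem_product] at hp
      exact (hV p hp.1 hp.2).1
    have h2 := Finset.card_nsmul_le_sum _ _ _ h1
    rw [Finset.card_product, smul_eq_mul] at h2
    calc Nat.sqrt n * tn n ^ 2 = (T n).card * (T n).card * Nat.sqrt n := by
          unfold tn; ring
      _ ≤ _ := h2
  have hmemD : ∀ x ∈ D, x.1.1 ∈ T n ∧ x.1.2 ∈ T n ∧ Joint x.1.1 x.1.2 x.2 := by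
    intro x hx
    rw [hD, Finset.mem_sigma, Finset.mem_product] at hx
    exact ⟨hx.1.1, hx.1.2, (hV x.1 hx.1.1 hx.1.2).2 _ hx.2⟩
  -- the map data: an element P of T(2n+1), a cell c, and a vector w
  have hexP : ∀ x : (_ : Finset Cell × Finset Cell) × Cell, ∃ P : Finset Cell, x ∈ D →
      P ∈ T (2 * n + 1) ∧ ∃ c w : Cell, (∃ a ∈ x.1.1, Adj a c) ∧
        (∃ y ∈ sh x.2 x.1.2, Adj c y) ∧ P = sh w (insert c (x.1.1 ∪ sh x.2 x.1.2)) := by
    intro x
    by_cases hx : x ∈ D
    · obtain ⟨hA, hB, hsep, c, hc1, hc2⟩ := hmemD x hx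
      obtain ⟨hAn, hAc, hAcon⟩ := mem_T.mp hA
      obtain ⟨hBn, hBc, hBcon⟩ := mem_T.mp hB
      set Q : Finset Cell := insert c (x.1.1 ∪ sh x.2 x.1.2) with hQ
      have hcnX : c ∉ x.1.1 := by
        intro hc
        obtain ⟨y, hy, hcy⟩ := hc2
        exact (hsep c hc y hy).2 hcy
      have hcnY : c ∉ sh x.2 x.1.2 := by
        intro hc
        obtain ⟨a, ha, hca⟩ := hc1
        exact (hsep a ha c hc).2 hca
      have hdis : Disjoint x.1.1 (sh x.2 x.1.2) := by
        rw [Finset.disjoint_left]; intro a ha hb; exact (hsep a ha a hb).1 rfl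
      have hQcard : Q.card = 2 * n + 1 := by
        rw [hQ, Finset.card_insert_of_notMem (by rw [Finset.mem_union]; tauto),
          Finset.card_union_of_disjoint hdis, card_sh, hAn, hBn]
        ring
      have hQconn : Conn Q := by
        obtain ⟨a, ha, hca⟩ := hc1
        obtain ⟨y, hy, hcy⟩ := hc2
        have h1 : Conn (insert c x.1.1) := by
          rw [Finset.insert_eq]
          exact (conn_singleton c).union hAcon (Finset.mem_singleton_self c) ha (Or.inl hca.symm)
        have h2 := h1.union (hBcon.sh x.2) (Finset.mem_insert_self c _) hy (Or.inl hcy)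
        rw [Finset.insert_union] at h2
        exact h2
      obtain ⟨m, hm, hmin⟩ := exists_lexmin hQconn.1
      refine ⟨sh (-m) Q, fun _ => ⟨mem_T.mpr ⟨by rw [card_sh, hQcard], canon_sh hm hmin,
        hQconn.sh _⟩, c, -m, hc1, hc2, rfl⟩⟩
    · exact ⟨∅, fun h => absurd h hx⟩
  choose Φ hΦ using hexP
  have hfib : ∀ x ∈ D, ∀ x' ∈ D, Φ x = Φ x' → x' = x ∨ x' = ⟨(x.1.2, x.1.1), -x.2⟩ := by
    rintro ⟨⟨A, B⟩, v⟩ hx ⟨⟨A', B'⟩, v'⟩ hx' heq
    obtain ⟨hA, hB, hsep, _⟩ := hmemD _ hx
    obtain ⟨hA', hB', hsep', _⟩ := hmemD _ hx'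
    obtain ⟨_, c, w, hc1, hc2, hP⟩ := hΦ _ hx
    obtain ⟨_, c', w', hc1', hc2', hP'⟩ := hΦ _ hx'
    simp only at hA hB hsep hA' hB' hsep' hc1 hc2 hP hc1' hc2' hP'
    rw [hP, hP'] at heq
    -- shift everything into the frame of x'
    have h1 := congrArg (sh (-w')) heq
    rw [sh_sh, sh_sh, neg_add_cancel, sh_zero, sh_insert, sh_union, sh_sh] at h1
    set z : Cell := -w' + w with hz
    obtain ⟨hAn, hAc, hAcon⟩ := mem_T.mp hA
    obtain ⟨hBn, hBc, hBcon⟩ := mem_T.mp hB
    obtain ⟨hAn', hAc', hAcon'⟩ := mem_T.mp hA'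
    obtain ⟨hBn', hBc', hBcon'⟩ := mem_T.mp hB'
    have hsepz := hsep.sh z
    rw [sh_sh] at hsepz
    have hu := halves_unique (n := n) (hAcon.sh z) (hBcon.sh (z + v)) hsepz hsep'
      (by rw [card_sh, hAn]) (by rw [card_sh, hBn]) hAn' (by rw [card_sh, hBn'])
      (c := c + z) (c' := c')
      (by
        obtain ⟨a, ha, hca⟩ := hc1
        exact ⟨a + z, add_mem_sh ha, (adj_add a c z).mpr hca⟩)
      (by
        obtain ⟨y, hy, hcy⟩ := hc2
        refine ⟨y + z, ?_, (adj_add c y z).mpr hcy⟩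
        have := add_mem_sh (v := z) hy
        rwa [sh_sh] at this)
      hc1' hc2' h1
    rcases hu with ⟨h2, h3⟩ | ⟨h2, h3⟩
    · left
      have hz0 : z = 0 := canon_unique hAc (by rw [← h2]; exact hAc')
      rw [hz0, sh_zero] at h2
      rw [hz0, zero_add] at h3
      have h4 := congrArg (sh (-v')) h3
      rw [sh_sh, sh_sh, neg_add_cancel, sh_zero] at h4
      have h5 : -v' + v = 0 := canon_unique hBc (by rw [← h4]; exact hBc')
      rw [h5, sh_zero] at h4
      have h6 : v' = v := by
        have : v = v' := by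
          have := congrArg (fun p => v' + p) h5
          simpa using this
        exact this.symm
      rw [h2, h4, h6]
    · right
      have hz0 : z + v = 0 := canon_unique hBc (by rw [← h2]; exact hAc')
      rw [hz0, sh_zero] at h2
      have h4 := congrArg (sh (-v')) h3
      rw [sh_sh, sh_sh, neg_add_cancel, sh_zero] at h4
      have h5 : -v' + z = 0 := canon_unique hAc (by rw [← h4]; exact hBc')
      rw [h5, sh_zero] at h4
      have h6 : v' = z := by
        have := congrArg (fun p => v' + p) h5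
        simp only [add_neg_cancel_left, add_zero] at this
        exact this.symm
      have h7 : z = -v := eq_neg_of_add_eq_zero_left hz0
      rw [h2, h4, h6, h7]
  have hle := Finset.card_le_mul_card_image_of_maps_to (s := D) (t := T (2 * n + 1)) (f := Φ)
    (fun x hx => (hΦ x hx).1) 2 (fun b _ => by
      rcases (D.filter (fun x => Φ x = b)).eq_empty_or_nonempty with he | ⟨x, hx⟩
      · rw [he]; simp
      · rw [Finset.mem_filter] at hx
        have hsub : D.filter (fun x => Φ x = b) ⊆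
            {x, (⟨(x.1.2, x.1.1), -x.2⟩ : (_ : Finset Cell × Finset Cell) × Cell)} := by
          intro x' hx'
          rw [Finset.mem_filter] at hx'
          rw [Finset.mem_insert, Finset.mem_singleton]
          exact hfib x hx.1 x' hx'.1 (by rw [hx.2, hx'.2])
        exact le_trans (Finset.card_le_card hsub) Finset.card_le_two)
  exact le_trans hDcard hle

end Pool.Agent.Work.MP_56ddc0_co.Anim
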