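import Pool.Agent.Work.MP_56ddc0_co.H55Anim

set_option autoImplicit false

namespace Pool.Agent.Work.MP_56ddc0_co.Anim

open Relation

theorem Conn.insert_adj {S : Finset Cell} (hS : Conn S) {a b : Cell} (ha : a ∈ S)
    (hab : Adj a b) : Conn (insert b S) := by
  classical
  rw [Finset.insert_eq]
  exact (conn_singleton b).union hS (Finset.mem_singleton_self b) ha (Or.inl hab.symm)

/-! ### the 3×3 boxes -/

def ring0 : Finset Cell :=
  insert (1, -1) (insert (0, -1) (insert (-1, -1) (insert (-1, 0) (insert (-1, 1)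
    (insert (0, 1) (insert (1, 1) {(1, 0)}))))))

theorem conn_ring0 : Conn ring0 := by
  unfold ring0
  refine Conn.insert_adj (a := (0, -1)) ?_ (by simp) (by unfold Adj; decide)
  refine Conn.insert_adj (a := (-1, -1)) ?_ (by simp) (by unfold Adj; decide)
  refine Conn.insert_adj (a := (-1, 0)) ?_ (by simp) (by unfold Adj; decide)
  refine Conn.insert_adj (a := (-1, 1)) ?_ (by simp) (by unfold Adj; decide)
  refine Conn.insert_adj (a := (0, 1)) ?_ (by simp) (by unfold Adj; decide)
  refine Conn.insert_adj (a := (1, 1)) ?_ (by simp) (by unfold Adj; decide)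
  refine Conn.insert_adj (a := (1, 0)) ?_ (by simp) (by unfold Adj; decide)
  exact conn_singleton _

def bx0 : Finset Cell := insert 0 ring0

theorem conn_bx0 : Conn bx0 :=
  conn_ring0.insert_adj (a := (1, 0)) (by simp [ring0]) (by unfold Adj; decide)

def rg (z : Cell) : Finset Cell := sh z ring0

def bx (z : Cell) : Finset Cell := sh z bx0

theorem mem_rg {z p : Cell} : p ∈ rg z ↔ p ∈ bx z ∧ p ≠ z := by
  unfold rg bx
  rw [mem_sh, mem_sh]
  unfold bx0
  rw [Finset.mem_insert, sub_eq_zero]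
  constructor
  · intro h
    refine ⟨Or.inr h, ?_⟩
    rintro rfl
    rw [sub_self] at h
    revert h
    decide
  · rintro ⟨h | h, h2⟩
    · exact absurd h h2
    · exact h

theorem mem_bx {z p : Cell} :
    p ∈ bx z ↔ (z.1 - 1 ≤ p.1 ∧ p.1 ≤ z.1 + 1) ∧ (z.2 - 1 ≤ p.2 ∧ p.2 ≤ z.2 + 1) := by
  unfold bx
  rw [mem_sh]
  have h : ∀ q : Cell, q ∈ bx0 ↔ (-1 ≤ q.1 ∧ q.1 ≤ 1) ∧ (-1 ≤ q.2 ∧ q.2 ≤ 1) := by
    rintro ⟨a, b⟩
    unfold bx0 ring0
    simp only [Finset.mem_insert, Finset.mem_singleton, Prod.mk.injEq, Prod.mk_eq_zero]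
    omega
  rw [h]
  simp only [Prod.fst_sub, Prod.snd_sub]
  omega

theorem card_bx (z : Cell) : (bx z).card = 9 := by
  unfold bx
  rw [card_sh]
  decide

theorem conn_bx (z : Cell) : Conn (bx z) := conn_bx0.sh z

theorem conn_rg (z : Cell) : Conn (rg z) := conn_ring0.sh z

theorem rg_subset_bx (z : Cell) : rg z ⊆ bx z := fun _ hp => (mem_rg.mp hp).1

theorem bx_eq (z : Cell) : bx z = insert z (rg z) := by
  ext p
  rw [Finset.mem_insert, mem_rg]
  constructor
  · intro h
    by_cases hp : p = z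
    · exact Or.inl hp
    · exact Or.inr ⟨h, hp⟩
  · rintro (h | h)
    · rw [h, mem_bx]; omega
    · exact h.1

theorem self_mem_bx (z : Cell) : z ∈ bx z := by rw [bx_eq]; exact Finset.mem_insert_self _ _

theorem adj_mem_rg {z p : Cell} (h : Adj z p) : p ∈ rg z := by
  rw [mem_rg, mem_bx]
  refine ⟨?_, h.ne.symm⟩
  have h1 := fst_lip _ _ h
  have h2 := snd_lip _ _ h
  rw [abs_le] at h1 h2
  omega

/-- centres -/
def isC (z : Cell) : Prop := z.1 % 3 = 1 ∧ z.2 % 3 = 1

instance : DecidablePred isC := fun z => by unfold isC; infer_instance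

def ctr (p : Cell) : Cell := (3 * (p.1 / 3) + 1, 3 * (p.2 / 3) + 1)

theorem isC_ctr (p : Cell) : isC (ctr p) := by unfold isC ctr; simp only; omega

theorem mem_bx_ctr (p : Cell) : p ∈ bx (ctr p) := by
  rw [mem_bx]; unfold ctr; simp only; omega

theorem ctr_eq {z p : Cell} (hz : isC z) (hp : p ∈ bx z) : ctr p = z := by
  rw [mem_bx] at hp
  unfold isC at hz
  unfold ctr
  ext
  · simp only; omega
  · simp only; omega

def Ful (S : Finset Cell) : Finset Cell := S.filter (fun z => isC z ∧ rg z ⊆ S)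

def Hol (S : Finset Cell) : Finset Cell :=
  (sh (-1, 0) S).filter (fun z => isC z ∧ z ∉ S ∧ rg z ⊆ S)

theorem mem_Ful {S : Finset Cell} {z : Cell} : z ∈ Ful S ↔ isC z ∧ z ∈ S ∧ rg z ⊆ S := by
  unfold Ful
  rw [Finset.mem_filter]
  tauto

theorem mem_Hol {S : Finset Cell} {z : Cell} : z ∈ Hol S ↔ isC z ∧ z ∉ S ∧ rg z ⊆ S := by
  unfold Hol
  rw [Finset.mem_filter]
  constructor
  · exact fun h => h.2
  · intro h
    refine ⟨?_, h⟩
    rw [mem_sh]
    apply h.2.2
    apply adj_mem_rg
    unfold Adj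
    simp

theorem mem_Ful' {S : Finset Cell} {z : Cell} : z ∈ Ful S ↔ isC z ∧ bx z ⊆ S := by
  rw [mem_Ful, bx_eq, Finset.insert_subset_iff]

theorem rg_avoid {z z' : Cell} (hz : isC z) (hz' : isC z') : z ∉ rg z' := by
  intro h
  rw [mem_rg] at h
  have h1 := ctr_eq hz' h.1
  have h2 := ctr_eq hz (self_mem_bx z)
  exact h.2 (h2.symm.trans h1)

theorem Ful_insert {S : Finset Cell} {z : Cell} (hz : z ∈ Hol S) :
    Ful (insert z S) = insert z (Ful S) := by
  obtain ⟨h1, h2, h3⟩ := mem_Hol.mp hz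
  ext w
  rw [Finset.mem_insert, mem_Ful, mem_Ful, Finset.mem_insert]
  constructor
  · rintro ⟨hw, hw2, hw3⟩
    by_cases hwz : w = z
    · exact Or.inl hwz
    · right
      refine ⟨hw, hw2.resolve_left hwz, fun p hp => ?_⟩
      rcases Finset.mem_insert.mp (hw3 hp) with h | h
      · exact absurd (h ▸ hp) (rg_avoid h1 hw)
      · exact h
  · rintro (hw | ⟨hw, hw2, hw3⟩)
    · subst hw
      exact ⟨h1, Or.inl rfl, fun p hp => Finset.mem_insert_of_mem (h3 hp)⟩
    · exact ⟨hw, Or.inr hw2, fun p hp => Finset.mem_insert_of_mem (hw3 hp)⟩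

theorem Hol_insert {S : Finset Cell} {z : Cell} (hz : z ∈ Hol S) :
    Hol (insert z S) = (Hol S).erase z := by
  obtain ⟨h1, h2, h3⟩ := mem_Hol.mp hz
  ext w
  rw [Finset.mem_erase, mem_Hol, mem_Hol, Finset.mem_insert]
  constructor
  · rintro ⟨hw, hw2, hw3⟩
    push Not at hw2
    refine ⟨hw2.1, hw, hw2.2, fun p hp => ?_⟩
    rcases Finset.mem_insert.mp (hw3 hp) with h | h
    · exact absurd (h ▸ hp) (rg_avoid h1 hw)
    · exact h
  · rintro ⟨hwz, hw, hw2, hw3⟩
    refine ⟨hw, ?_, fun p hp => Finset.mem_insert_of_mem (hw3 hp)⟩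
    push Not
    exact ⟨hwz, hw2⟩

theorem mem_Hol_erase {S : Finset Cell} {z : Cell} (hz : z ∈ Ful S) : z ∈ Hol (S.erase z) := by
  obtain ⟨h1, h2, h3⟩ := mem_Ful.mp hz
  rw [mem_Hol]
  refine ⟨h1, Finset.notMem_erase z S, fun p hp => ?_⟩
  rw [Finset.mem_erase]
  exact ⟨(mem_rg.mp hp).2, h3 hp⟩

/-- removing a centre keeps connectivity -/
theorem conn_erase {S : Finset Cell} (hS : Conn S) {z : Cell} (hz : rg z ⊆ S) :
    Conn (S.erase z) := by
  classical
  have hsub : rg z ⊆ S.erase z := fun p hp => by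
    rw [Finset.mem_erase]
    exact ⟨(mem_rg.mp hp).2, hz hp⟩
  set o : Cell := z + (1, 0) with ho
  have hoR : o ∈ rg z := adj_mem_rg (adj_right z)
  have hring : ∀ p ∈ rg z, ReflTransGen (Step (S.erase z)) o p := fun p hp =>
    path_mono hsub ((conn_rg z).2 o hoR p hp)
  set φ : Cell → Cell := fun x => if x = z then o else x with hφ
  have hstep : ∀ a b, Step S a b → ReflTransGen (Step (S.erase z)) (φ a) (φ b) := by
    intro a b hab
    by_cases ha : a = z
    · by_cases hb : b = z
      · simp only [hφ, ha, hb, if_true]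
        exact ReflTransGen.refl
      · simp only [hφ, ha, if_true, if_neg hb]
        apply hring
        apply adj_mem_rg
        rw [← ha]
        exact hab.1
    · by_cases hb : b = z
      · simp only [hφ, hb, if_true, if_neg ha]
        have h1 : a ∈ rg z := by
          apply adj_mem_rg
          rw [← hb]
          exact hab.1.symm
        exact (path_symm (hsub hoR) (hring a h1)).1
      · simp only [hφ, if_neg ha, if_neg hb]
        exact ReflTransGen.single ⟨hab.1, Finset.mem_erase.mpr ⟨hb, hab.2⟩⟩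
  have hpath : ∀ a b, ReflTransGen (Step S) a b → ReflTransGen (Step (S.erase z)) (φ a) (φ b) := by
    intro a b hab
    induction hab with
    | refl => exact ReflTransGen.refl
    | tail _ h2 ih => exact ih.trans (hstep _ _ h2)
  refine ⟨⟨o, hsub hoR⟩, fun p hp q hq => ?_⟩
  rw [Finset.mem_erase] at hp hq
  have h1 := hpath p q (hS.2 p hp.2 q hq.2)
  simp only [hφ, if_neg hp.1, if_neg hq.1] at h1
  exact h1

theorem insert_mem_T {n : ℕ} {S : Finset Cell} (hS : S ∈ T n) {z : Cell} (hz : z ∈ Hol S) :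
    insert z S ∈ T (n + 1) := by
  obtain ⟨h1, h2, h3⟩ := mem_T.mp hS
  obtain ⟨hz1, hz2, hz3⟩ := mem_Hol.mp hz
  have hd : z + (0, -1) ∈ S := hz3 (adj_mem_rg (adj_down z))
  refine mem_T.mpr ⟨by rw [Finset.card_insert_of_notMem hz2, h1], ⟨?_, ?_⟩, ?_⟩
  · exact Finset.mem_insert_of_mem h2.1
  · intro p hp
    rcases Finset.mem_insert.mp hp with hp | hp
    · subst hp
      left
      have := h2.2 _ hd
      simp only [Prod.fst_add, Prod.snd_add] at this
      omega
    · exact h2.2 p hp
  · exact h3.insert_adj hd (adj_down z).symm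

theorem erase_mem_T {n : ℕ} {S : Finset Cell} (hS : S ∈ T (n + 1)) {z : Cell} (hz : z ∈ Ful S) :
    S.erase z ∈ T n := by
  obtain ⟨h1, h2, h3⟩ := mem_T.mp hS
  obtain ⟨hz1, hz2, hz3⟩ := mem_Ful.mp hz
  refine mem_T.mpr ⟨by rw [Finset.card_erase_of_mem hz2, h1]; rfl, ⟨?_, ?_⟩, conn_erase h3 hz3⟩
  · rw [Finset.mem_erase]
    refine ⟨?_, h2.1⟩
    rintro rfl
    unfold isC at hz1
    simp at hz1
  · intro p hp
    exact h2.2 p (Finset.mem_erase.mp hp).2

/-- the swap identity -/
theorem swap_sum (n : ℕ) (φ : Finset Cell → ℝ) :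
    ∑ S ∈ T n, ∑ z ∈ Hol S, φ (insert z S) = ∑ S ∈ T (n + 1), ∑ _z ∈ Ful S, φ S := by
  rw [Finset.sum_sigma', Finset.sum_sigma']
  refine Finset.sum_bij' (fun x _ => (⟨insert x.2 x.1, x.2⟩ : (_ : Finset Cell) × Cell))
    (fun x _ => (⟨x.1.erase x.2, x.2⟩ : (_ : Finset Cell) × Cell)) ?_ ?_ ?_ ?_ ?_
  · rintro ⟨S, z⟩ hx
    rw [Finset.mem_sigma] at hx ⊢
    refine ⟨insert_mem_T hx.1 hx.2, ?_⟩
    simp only
    rw [Ful_insert hx.2]
    exact Finset.mem_insert_self _ _
  · rintro ⟨S, z⟩ hx
    rw [Finset.mem_sigma] at hx ⊢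
    exact ⟨erase_mem_T hx.1 hx.2, mem_Hol_erase hx.2⟩
  · rintro ⟨S, z⟩ hx
    rw [Finset.mem_sigma] at hx
    simp only
    rw [Finset.erase_insert (mem_Hol.mp hx.2).2.1]
  · rintro ⟨S, z⟩ hx
    rw [Finset.mem_sigma] at hx
    simp only
    rw [Finset.insert_erase (mem_Ful.mp hx.2).2.1]
  · rintro ⟨S, z⟩ hx
    rfl

theorem Ful_subset (S : Finset Cell) : Ful S ⊆ S := Finset.filter_subset _ _

theorem card_Hol_le (S : Finset Cell) : (Hol S).card ≤ S.card := by
  refine le_trans (Finset.card_filter_le _ _) ?_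
  rw [card_sh]

/-- number of canonical animals with fewer than `u` full boxes -/
noncomputable def Few (u n : ℕ) : ℕ := ((T n).filter (fun S => (Ful S).card < u)).card

theorem sum_const_inv (S : Finset Cell) (c : ℝ) :
    ∑ _z ∈ Ful S, c = ((Ful S).card : ℝ) * c := by
  rw [Finset.sum_const, nsmul_eq_mul]

/-- Kesten type inequality in exact form -/
theorem kesten_ineq (n u : ℕ) (hn : 1 ≤ n) (hu : 1 ≤ u) :
    ((tn (n + 1) : ℝ) - Few 1 (n + 1)) ^ 2 ≤
      tn n * (tn (n + 2) + tn n * (3 * n ^ 2 / u ^ 3) + 3 * n ^ 2 * Few u n) := by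
  classical
  set a : Finset Cell → ℝ := fun S => ((Hol S).card : ℝ) with ha
  set b : Finset Cell → ℝ := fun S => ((Ful S).card : ℝ) with hb
  have ha0 : ∀ S, 0 ≤ a S := fun S => Nat.cast_nonneg _
  have hb0 : ∀ S, 0 ≤ b S := fun S => Nat.cast_nonneg _
  have hcard1 : ∀ {S : Finset Cell} {z : Cell}, z ∈ Hol S → b (insert z S) = b S + 1 := by
    intro S z hz
    simp only [hb]
    rw [Ful_insert hz, Finset.card_insert_of_notMem]
    · push_cast; ring
    · intro h
      exact (mem_Hol.mp hz).2.1 (mem_Ful.mp h).2.1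
  have hcard2 : ∀ {S : Finset Cell} {z : Cell}, z ∈ Hol S → a (insert z S) = a S - 1 := by
    intro S z hz
    simp only [ha]
    rw [Hol_insert hz, Finset.card_erase_of_mem hz,
      Nat.cast_sub (Finset.card_pos.mpr ⟨z, hz⟩)]
    push_cast; ring
  -- first identity
  have hX : ∀ m, ∑ S ∈ T m, a S / (b S + 1) =
      (((T (m + 1)).filter (fun S => ¬ (Ful S).card < 1)).card : ℝ) := by
    intro m
    have h1 := swap_sum m (fun S => 1 / b S)
    have h2 : ∑ S ∈ T m, ∑ z ∈ Hol S, (1 / b (insert z S)) = ∑ S ∈ T m, a S / (b S + 1) := by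
      apply Finset.sum_congr rfl
      intro S _
      rw [Finset.sum_congr rfl (g := fun _ => 1 / (b S + 1))
        (fun z hz => by rw [hcard1 hz]), Finset.sum_const, nsmul_eq_mul]
      simp only [ha]
      ring
    rw [← h2, h1, Finset.card_filter, Nat.cast_sum]
    apply Finset.sum_congr rfl
    intro S _
    rw [sum_const_inv]
    by_cases hc : (Ful S).card < 1
    · have h0 : (Ful S).card = 0 := by omega
      simp [h0]
    · rw [if_pos hc]
      have h0 : ((Ful S).card : ℝ) ≠ 0 := by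
        have : (Ful S).card ≠ 0 := by omega
        exact_mod_cast this
      simp only [hb]
      field_simp
      simp
  have hXle : ∀ m, ∑ S ∈ T m, a S / (b S + 1) ≤ tn (m + 1) := by
    intro m
    rw [hX m]
    unfold tn
    exact_mod_cast Finset.card_filter_le _ _
  have hXeq : ∑ S ∈ T n, a S / (b S + 1) = (tn (n + 1) : ℝ) - Few 1 (n + 1) := by
    rw [hX n]
    have h1 := Finset.card_filter_add_card_filter_not (s := T (n + 1))
      (fun S => (Ful S).card < 1)
    unfold tn Few
    rw [← h1]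
    push_cast
    ring
  -- second identity
  have hY : ∑ S ∈ T n, a S * (a S - 1) / ((b S + 1) * (b S + 2)) ≤ tn (n + 2) := by
    have h1 := swap_sum n (fun S => a S / (b S * (b S + 1)))
    have h2 : ∑ S ∈ T n, ∑ z ∈ Hol S, (a (insert z S) / (b (insert z S) * (b (insert z S) + 1))) =
        ∑ S ∈ T n, a S * (a S - 1) / ((b S + 1) * (b S + 2)) := by
      apply Finset.sum_congr rfl
      intro S _
      rw [Finset.sum_congr rfl (g := fun _ => (a S - 1) / ((b S + 1) * (b S + 2)))
        (fun z hz => by rw [hcard1 hz, hcard2 hz]; ring_nf), Finset.sum_const, nsmul_eq_mul]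
      simp only [ha]
      ring
    rw [← h2, h1]
    refine le_trans (Finset.sum_le_sum (fun S _ => ?_)) (hXle (n + 1))
    rw [sum_const_inv]
    by_cases hc : b S = 0
    · have h0 : ((Ful S).card : ℝ) = 0 := hc
      rw [h0, zero_mul]
      have := ha0 S
      have := hb0 S
      positivity
    · have h0 : 0 < b S := lt_of_le_of_ne (hb0 S) (Ne.symm hc)
      have h3 : ((Ful S).card : ℝ) * (a S / (b S * (b S + 1))) = a S / (b S + 1) := by
        have h4 : ((Ful S).card : ℝ) = b S := rfl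
        rw [h4]
        field_simp
      rw [h3]
  -- pointwise
  have hpt : ∀ S ∈ T n, (a S / (b S + 1)) ^ 2 ≤ a S * (a S - 1) / ((b S + 1) * (b S + 2)) +
      (3 * n ^ 2 / u ^ 3 + (if (Ful S).card < u then 3 * (n : ℝ) ^ 2 else 0)) := by
    intro S hS
    have hn1 : (1 : ℝ) ≤ n := by exact_mod_cast hn
    have han : a S ≤ n := by
      have h1 := card_Hol_le S
      rw [(mem_T.mp hS).1] at h1
      have h2 : ((Hol S).card : ℝ) ≤ n := by exact_mod_cast h1
      exact h2
    have hbn : b S ≤ n := by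
      have h1 := Finset.card_le_card (Ful_subset S)
      rw [(mem_T.mp hS).1] at h1
      have h2 : ((Ful S).card : ℝ) ≤ n := by exact_mod_cast h1
      exact h2
    have hb1 := hb0 S
    have ha1 := ha0 S
    have hw : (a S / (b S + 1)) ^ 2 - a S * (a S - 1) / ((b S + 1) * (b S + 2)) =
        a S * (a S + b S + 1) / ((b S + 1) ^ 2 * (b S + 2)) := by
      field_simp
      ring
    have hnum : a S * (a S + b S + 1) ≤ 3 * n ^ 2 := by
      have h1 : a S + b S + 1 ≤ 3 * n := by linarith
      calc a S * (a S + b S + 1) ≤ n * (3 * n) := mul_le_mul han h1 (by linarith) (by linarith)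
        _ = _ := by ring
    have hnum0 : 0 ≤ a S * (a S + b S + 1) := by positivity
    have hu0 : (0 : ℝ) < u := by exact_mod_cast hu
    by_cases hc : (Ful S).card < u
    · rw [if_pos hc]
      have h1 : a S * (a S + b S + 1) / ((b S + 1) ^ 2 * (b S + 2)) ≤ 3 * n ^ 2 := by
        rw [div_le_iff₀ (by positivity)]
        have h2 : (1 : ℝ) ≤ (b S + 1) ^ 2 * (b S + 2) := by nlinarith [mul_nonneg hb1 hb1]
        have h3 : (0 : ℝ) ≤ 3 * n ^ 2 := by positivity
        nlinarith
      have h4 : (0 : ℝ) ≤ 3 * n ^ 2 / u ^ 3 := by positivity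
      linarith
    · rw [if_neg hc, add_zero]
      have hbu : (u : ℝ) ≤ b S := by
        have h1 : u ≤ (Ful S).card := by omega
        have h2 : (u : ℝ) ≤ ((Ful S).card : ℝ) := by exact_mod_cast h1
        exact h2
      have h1 : a S * (a S + b S + 1) / ((b S + 1) ^ 2 * (b S + 2)) ≤ 3 * n ^ 2 / u ^ 3 := by
        apply div_le_div₀ (by positivity) hnum (by positivity)
        calc (u : ℝ) ^ 3 = u ^ 2 * u := by ring
          _ ≤ (b S + 1) ^ 2 * (b S + 2) := by
            apply mul_le_mul _ (by linarith) hu0.le (by positivity)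
            exact pow_le_pow_left₀ hu0.le (by linarith) 2
      linarith
  have hCS := sq_sum_le_card_mul_sum_sq (s := T n) (f := fun S => a S / (b S + 1))
  rw [hXeq] at hCS
  refine le_trans hCS ?_
  have htn : ((T n).card : ℝ) = tn n := rfl
  rw [htn]
  apply mul_le_mul_of_nonneg_left _ (Nat.cast_nonneg _)
  refine le_trans (Finset.sum_le_sum hpt) ?_
  rw [Finset.sum_add_distrib, Finset.sum_add_distrib, Finset.sum_const, nsmul_eq_mul, htn]
  have hlast : ∑ S ∈ T n, (if (Ful S).card < u then 3 * (n : ℝ) ^ 2 else 0) =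
      3 * (n : ℝ) ^ 2 * (Few u n : ℝ) := by
    rw [← Finset.sum_filter, Finset.sum_const, nsmul_eq_mul]
    unfold Few
    ring
  rw [hlast]
  linarith

/-! ### the pattern theorem estimate -/

theorem conn_fill {S : Finset Cell} (hS : Conn S) (U : Finset Cell)
    (hU : ∀ z ∈ U, ∃ p ∈ S, p ∈ bx z) : Conn (S ∪ U.biUnion bx) := by
  classical
  induction U using Finset.induction_on with
  | empty => simpa using hS
  | insert z U hz ih =>
    have h1 := ih (fun w hw => hU w (Finset.mem_insert_of_mem hw))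
    obtain ⟨p, hp, hpz⟩ := hU z (Finset.mem_insert_self z U)
    have h2 := h1.union (conn_bx z) (Finset.mem_union_left _ hp) hpz (Or.inr rfl)
    have h3 : S ∪ (insert z U).biUnion bx = S ∪ U.biUnion bx ∪ bx z := by
      rw [Finset.biUnion_insert, Finset.union_assoc, Finset.union_comm (bx z)]
    rw [h3]
    exact h2

theorem card_fill {S : Finset Cell} (U : Finset Cell)
    (hU : ∀ z ∈ U, ∃ p ∈ S, p ∈ bx z) : (S ∪ U.biUnion bx).card ≤ S.card + 8 * U.card := by
  classical
  induction U using Finset.induction_on with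
  | empty => simp
  | insert z U hz ih =>
    have h1 := ih (fun w hw => hU w (Finset.mem_insert_of_mem hw))
    obtain ⟨p, hp, hpz⟩ := hU z (Finset.mem_insert_self z U)
    have h3 : S ∪ (insert z U).biUnion bx = (S ∪ U.biUnion bx) ∪ (bx z).erase p := by
      ext q
      simp only [Finset.biUnion_insert, Finset.mem_union, Finset.mem_erase]
      constructor
      · rintro (h | h | h)
        · exact Or.inl (Or.inl h)
        · by_cases hqp : q = p
          · rw [hqp]; exact Or.inl (Or.inl hp)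
          · exact Or.inr ⟨hqp, h⟩
        · exact Or.inl (Or.inr h)
      · rintro ((h | h) | ⟨_, h⟩)
        · exact Or.inl h
        · exact Or.inr (Or.inr h)
        · exact Or.inr (Or.inl h)
    rw [h3, Finset.card_insert_of_notMem hz]
    refine le_trans (Finset.card_union_le _ _) ?_
    rw [Finset.card_erase_of_mem hpz, card_bx]
    omega

def Mt (S : Finset Cell) : Finset Cell := S.image ctr

theorem card_le_Mt (S : Finset Cell) : S.card ≤ 9 * (Mt S).card := by
  classical
  unfold Mt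
  apply Finset.card_le_mul_card_image
  intro z hz
  obtain ⟨p, hp, rfl⟩ := Finset.mem_image.mp hz
  rw [← card_bx (ctr p)]
  apply Finset.card_le_card
  intro q hq
  rw [Finset.mem_filter] at hq
  rw [← hq.2]
  exact mem_bx_ctr q

theorem mem_Mt {S : Finset Cell} {z : Cell} (hz : z ∈ Mt S) : isC z ∧ ∃ p ∈ S, p ∈ bx z := by
  obtain ⟨p, hp, rfl⟩ := Finset.mem_image.mp hz
  exact ⟨isC_ctr p, p, hp, mem_bx_ctr p⟩

theorem Ful_fill {S U : Finset Cell} (hUC : ∀ z ∈ U, isC z) :
    Ful (S ∪ U.biUnion bx) ⊆ Ful S ∪ U := by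
  classical
  intro w hw
  rw [mem_Ful'] at hw
  by_cases hwU : w ∈ U
  · exact Finset.mem_union_right _ hwU
  · apply Finset.mem_union_left
    rw [mem_Ful']
    refine ⟨hw.1, fun p hp => ?_⟩
    rcases Finset.mem_union.mp (hw.2 hp) with h | h
    · exact h
    · obtain ⟨z, hz, hpz⟩ := Finset.mem_biUnion.mp h
      exfalso
      apply hwU
      have h1 := ctr_eq hw.1 hp
      have h2 := ctr_eq (hUC z hz) hpz
      rw [← h1, h2]
      exact hz

theorem pattern_count (u n : ℕ) :
    Few u n * Nat.choose (n / 9 - u) u ≤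
      2 ^ (11 * u) * ∑ k ∈ Finset.range (n + 8 * u + 1), k * tn k := by
  classical
  set Bad : Finset (Finset Cell) := (T n).filter (fun S => (Ful S).card < u) with hBad
  -- domain
  set Dom : Finset ((_ : Finset Cell) × Finset Cell) :=
    Bad.sigma (fun S => Finset.powersetCard u (Mt S \ Ful S)) with hDom
  have hDomcard : Few u n * Nat.choose (n / 9 - u) u ≤ Dom.card := by
    rw [hDom, Finset.card_sigma]
    have h1 : ∀ S ∈ Bad, Nat.choose (n / 9 - u) u ≤
        (Finset.powersetCard u (Mt S \ Ful S)).card := by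
      intro S hS
      rw [hBad, Finset.mem_filter] at hS
      rw [Finset.card_powersetCard]
      apply Nat.choose_le_choose
      have h2 := card_le_Mt S
      rw [(mem_T.mp hS.1).1] at h2
      have h3 := Finset.le_card_sdiff (Ful S) (Mt S)
      omega
    have h2 := Finset.card_nsmul_le_sum _ _ _ h1
    rw [smul_eq_mul] at h2
    exact h2
  -- codomain
  set Rle : Finset (Finset Cell) := (Finset.range (n + 8 * u + 1)).biUnion R with hRle
  set Cod : Finset ((_ : Finset Cell) × Finset Cell × Finset Cell) :=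
    (Rle.filter (fun S => (Ful S).card < 2 * u)).sigma (fun S =>
      (Finset.powersetCard u (Ful S)).biUnion (fun U =>
        ((U.biUnion bx).powerset).image (fun C => (U, C)))) with hCod
  have hCodcard : Cod.card ≤ 2 ^ (11 * u) * ∑ k ∈ Finset.range (n + 8 * u + 1), k * tn k := by
    rw [hCod, Finset.card_sigma]
    have h1 : ∀ S ∈ Rle.filter (fun S => (Ful S).card < 2 * u),
        ((Finset.powersetCard u (Ful S)).biUnion (fun U =>
          ((U.biUnion bx).powerset).image (fun C => (U, C)))).card ≤ 2 ^ (11 * u) := by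
      intro S hS
      rw [Finset.mem_filter] at hS
      have h2 : ∀ U ∈ Finset.powersetCard u (Ful S),
          (((U.biUnion bx).powerset).image (fun C => (U, C))).card ≤ 2 ^ (9 * u) := by
        intro U hU
        rw [Finset.mem_powersetCard] at hU
        refine le_trans Finset.card_image_le ?_
        rw [Finset.card_powerset]
        apply Nat.pow_le_pow_right (by norm_num)
        refine le_trans Finset.card_biUnion_le ?_
        rw [Finset.sum_congr rfl (fun z _ => card_bx z), Finset.sum_const, smul_eq_mul, hU.2]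
        omega
      have h3 := Finset.card_biUnion_le_card_mul _ _ _ h2
      refine le_trans h3 ?_
      have h4 : (Finset.powersetCard u (Ful S)).card ≤ 2 ^ (2 * u) := by
        rw [Finset.card_powersetCard]
        refine le_trans (Nat.choose_le_two_pow _ _) ?_
        exact Nat.pow_le_pow_right (by norm_num) (by omega)
      calc (Finset.powersetCard u (Ful S)).card * 2 ^ (9 * u) ≤ 2 ^ (2 * u) * 2 ^ (9 * u) :=
            Nat.mul_le_mul_right _ h4
        _ = 2 ^ (11 * u) := by rw [← pow_add]; congr 1; ring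
    have h2 := Finset.sum_le_card_nsmul _ _ _ h1
    rw [smul_eq_mul] at h2
    refine le_trans h2 ?_
    rw [mul_comm]
    apply Nat.mul_le_mul_left
    refine le_trans (Finset.card_filter_le _ _) ?_
    rw [hRle]
    refine le_trans Finset.card_biUnion_le ?_
    exact Finset.sum_le_sum (fun k _ => card_R_le k)
  refine le_trans hDomcard (le_trans ?_ hCodcard)
  apply Finset.card_le_card_of_injOn (fun x : (_ : Finset Cell) × Finset Cell =>
    (⟨x.1 ∪ x.2.biUnion bx, x.2, x.1 ∩ x.2.biUnion bx⟩ :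
      (_ : Finset Cell) × Finset Cell × Finset Cell))
  · rintro ⟨S, U⟩ hx
    rw [Finset.mem_coe, hDom, Finset.mem_sigma] at hx
    obtain ⟨hS, hU⟩ := hx
    simp only at hS hU
    rw [hBad, Finset.mem_filter] at hS
    rw [Finset.mem_powersetCard] at hU
    obtain ⟨hST, hSF⟩ := hS
    obtain ⟨hUs, hUc⟩ := hU
    obtain ⟨h1, h2, h3⟩ := mem_T.mp hST
    have hUM : ∀ z ∈ U, isC z ∧ ∃ p ∈ S, p ∈ bx z := fun z hz =>
      mem_Mt (Finset.mem_sdiff.mp (hUs hz)).1
    rw [Finset.mem_coe, hCod, Finset.mem_sigma]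
    simp only
    rw [Finset.mem_filter]
    refine ⟨⟨?_, ?_⟩, Finset.mem_biUnion.mpr ⟨U, ?_, ?_⟩⟩
    · rw [hRle]
      refine Finset.mem_biUnion.mpr ⟨(S ∪ U.biUnion bx).card, ?_, mem_R.mpr ⟨rfl,
        Finset.mem_union_left _ h2.1, conn_fill h3 U (fun z hz => (hUM z hz).2)⟩⟩
      rw [Finset.mem_range]
      have := card_fill U (fun z hz => (hUM z hz).2)
      rw [h1, hUc] at this
      omega
    · have h4 := Finset.card_le_card (Ful_fill (S := S) (fun z hz => (hUM z hz).1))
      have h5 := Finset.card_union_le (Ful S) U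
      omega
    · rw [Finset.mem_powersetCard]
      refine ⟨fun z hz => ?_, hUc⟩
      rw [mem_Ful']
      refine ⟨(hUM z hz).1, fun p hp => Finset.mem_union_right _ ?_⟩
      exact Finset.mem_biUnion.mpr ⟨z, hz, hp⟩
    · rw [Finset.mem_image]
      exact ⟨_, Finset.mem_powerset.mpr Finset.inter_subset_right, rfl⟩
  · rintro ⟨S, U⟩ _ ⟨S', U'⟩ _ heq
    simp only [Sigma.mk.injEq, heq_eq_eq, Prod.mk.injEq] at heq
    obtain ⟨h1, h2, h3⟩ := heq
    subst h2
    have h4 : ∀ X Y : Finset Cell, X = ((X ∪ Y) \ Y) ∪ (X ∩ Y) := by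
      intro X Y
      ext p
      simp only [Finset.mem_union, Finset.mem_sdiff, Finset.mem_inter]
      tauto
    have h5 : S = S' := by
      rw [h4 S (U.biUnion bx), h4 S' (U.biUnion bx), h1, h3]
    rw [h5]

end Pool.Agent.Work.MP_56ddc0_co.Anim
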