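import Pool.Agent.Work.MP_56ddc0_co.H55RatioAbs
import Pool.Agent.Work.MP_56ddc0_co.H55Doubling
import Pool.Agent.Work.MP_56ddc0_co.H55Pattern

set_option autoImplicit false

namespace Pool.Agent.Work.MP_56ddc0_co.Anim

open Filter Topology RatioAbs

theorem Few_mono {u v : ℕ} (h : u ≤ v) (n : ℕ) : Few u n ≤ Few v n := by
  unfold Few
  apply Finset.card_le_card
  intro S hS
  rw [Finset.mem_filter] at hS ⊢
  exact ⟨hS.1, lt_of_lt_of_le hS.2 h⟩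

theorem tn_exp : ∃ C : ℝ, 1 ≤ C ∧ ∀ n, 1 ≤ n → (tn n : ℝ) ≤ C ^ n :=
  ⟨16, by norm_num, fun n _ => by exact_mod_cast tn_le_pow n⟩

theorem tn_growth : ∃ L : ℝ, 0 ≤ L ∧
    Tendsto (fun n : ℕ => (Real.log (tn n) - n * L) / n) atTop (𝓝 0) ∧
      ∀ n : ℕ, 1 ≤ n → Real.log (tn n) ≤ n * L :=
  growth tn tn_pos (fun m n _ _ => tn_mul_le m n) tn_exp

theorem tn_kesten (L : ℝ) (hL : 0 ≤ L)
    (h0 : Tendsto (fun n : ℕ => (Real.log (tn n) - n * L) / n) atTop (𝓝 0))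
    (hup : ∀ n : ℕ, 1 ≤ n → Real.log (tn n) ≤ n * L) :
    ∃ D : ℝ, 0 ≤ D ∧
      ∀ᶠ n : ℕ in atTop, (tn (n + 1) : ℝ) ^ 2 * (1 - D / n) ≤ tn n * tn (n + 2) := by
  obtain ⟨q, hq1, hq⟩ := bad_small tn tn_pos L hL hup h0 Few (fun u n _ => pattern_count u n)
  obtain ⟨M, hM⟩ := hq.exists_forall_of_atTop
  refine ⟨24 * q ^ 3 + 5, by positivity, ?_⟩
  filter_upwards [eventually_ge_atTop (M + q + 1)] with n hn
  have hn0 : (0 : ℝ) < n := by exact_mod_cast (by omega : 0 < n)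
  have hn1 : (1 : ℝ) ≤ n := by exact_mod_cast (by omega : 1 ≤ n)
  have hq0 : (0 : ℝ) < q := by exact_mod_cast hq1
  set u : ℕ := n / q with hu
  have hu1 : 1 ≤ u := by
    rw [hu]; exact (Nat.one_le_div_iff (by omega)).mpr (by omega)
  have hun : n < q * (u + 1) := by
    rw [hu]; exact Nat.lt_mul_div_succ n (by omega)
  have hun2 : (n : ℝ) ≤ 2 * q * u := by
    have : n ≤ 2 * q * u := by nlinarith
    exact_mod_cast this
  have h1 := kesten_ineq n u (by omega) hu1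
  have h2 : (n : ℝ) ^ 3 * Few u n ≤ tn n := by exact_mod_cast hM n (by omega)
  have h3 : ((n + 1 : ℕ) : ℝ) ^ 3 * Few 1 (n + 1) ≤ tn (n + 1) := by
    have h4 := hM (n + 1) (by omega)
    have h5 : Few 1 (n + 1) ≤ Few ((n + 1) / q) (n + 1) :=
      Few_mono ((Nat.one_le_div_iff (by omega)).mpr (by omega)) _
    have h6 : (n + 1) ^ 3 * Few 1 (n + 1) ≤ tn (n + 1) :=
      le_trans (Nat.mul_le_mul_left _ h5) h4
    exact_mod_cast h6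
  set x : ℝ := ((tn (n + 1) : ℕ) : ℝ) with hx
  set y : ℝ := ((tn n : ℕ) : ℝ) with hy
  set z : ℝ := ((tn (n + 2) : ℕ) : ℝ) with hz
  have hy0 : 0 < y := by rw [hy]; exact_mod_cast tn_pos n (by omega)
  have hx0 : 0 < x := by rw [hx]; exact_mod_cast tn_pos (n + 1) (by omega)
  have hyx : y ≤ x := by rw [hx, hy]; exact_mod_cast tn_mono n
  -- Few 1 (n+1) ≤ x / n
  have h7 : (Few 1 (n + 1) : ℝ) ≤ x / n := by
    rw [le_div_iff₀ hn0]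
    have h8 : (n : ℝ) ≤ ((n + 1 : ℕ) : ℝ) ^ 3 := by
      push_cast
      nlinarith [mul_pos hn0 hn0, mul_pos (mul_pos hn0 hn0) hn0]
    have h9 : (0 : ℝ) ≤ Few 1 (n + 1) := Nat.cast_nonneg _
    nlinarith
  have hx1 : x / n ≤ x := by
    rw [div_le_iff₀ hn0]; nlinarith
  have h8 : x ^ 2 * (1 - 2 / n) ≤ (x - Few 1 (n + 1)) ^ 2 := by
    have h9 : x * (1 - 1 / n) ≤ x - Few 1 (n + 1) := by
      have : x * (1 - 1 / n) = x - x / n := by ring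
      linarith
    have h10 : 0 ≤ 1 - 1 / (n : ℝ) := by
      rw [sub_nonneg, div_le_one hn0]; exact hn1
    have h11 : (x * (1 - 1 / n)) ^ 2 ≤ (x - Few 1 (n + 1)) ^ 2 :=
      pow_le_pow_left₀ (mul_nonneg hx0.le h10) h9 2
    have h12 : x ^ 2 * (1 - 2 / n) ≤ (x * (1 - 1 / n)) ^ 2 := by
      have h13 : (x * (1 - 1 / n)) ^ 2 - x ^ 2 * (1 - 2 / n) = x ^ 2 * (1 / n) ^ 2 := by ring
      have h14 : 0 ≤ x ^ 2 * (1 / (n : ℝ)) ^ 2 := by positivity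
      linarith
    linarith
  -- bound of the error terms
  have h9 : 3 * (n : ℝ) ^ 2 * Few u n ≤ 3 * y / n := by
    rw [le_div_iff₀ hn0]
    nlinarith
  have h10 : 3 * (n : ℝ) ^ 2 / u ^ 3 ≤ 24 * q ^ 3 / n := by
    have hu0 : (0 : ℝ) < u := by exact_mod_cast hu1
    rw [div_le_div_iff₀ (by positivity) hn0]
    have h11 : (n : ℝ) ^ 3 ≤ (2 * q * u) ^ 3 := pow_le_pow_left₀ hn0.le hun2 3
    nlinarith
  have h11 : y * (z + y * (3 * n ^ 2 / u ^ 3) + 3 * n ^ 2 * Few u n) ≤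
      y * z + y ^ 2 * ((24 * q ^ 3 + 3) / n) := by
    have h12 : y * (y * (3 * (n : ℝ) ^ 2 / u ^ 3)) ≤ y * (y * (24 * q ^ 3 / n)) :=
      mul_le_mul_of_nonneg_left (mul_le_mul_of_nonneg_left h10 hy0.le) hy0.le
    have h13 : y * (3 * (n : ℝ) ^ 2 * Few u n) ≤ y * (3 * y / n) :=
      mul_le_mul_of_nonneg_left h9 hy0.le
    have h14 : y ^ 2 * ((24 * q ^ 3 + 3) / (n : ℝ)) =
        y * (y * (24 * q ^ 3 / n)) + y * (3 * y / n) := by ring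
    rw [h14]
    linarith
  have h12 : y ^ 2 * ((24 * q ^ 3 + 3) / (n : ℝ)) ≤ x ^ 2 * ((24 * q ^ 3 + 3) / n) :=
    mul_le_mul_of_nonneg_right (pow_le_pow_left₀ hy0.le hyx 2) (by positivity)
  have h13 : x ^ 2 * (1 - (24 * (q : ℝ) ^ 3 + 5) / n) =
      x ^ 2 * (1 - 2 / n) - x ^ 2 * ((24 * q ^ 3 + 3) / n) := by ring
  rw [h13]
  linarith

/-- Madras' ratio limit theorem for fixed polyominoes -/
theorem tn_ratio : ∃ L : ℝ, 0 ≤ L ∧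
    Tendsto (fun n : ℕ => (Real.log (tn n) - n * L) / n) atTop (𝓝 0) ∧
    (∀ n : ℕ, 1 ≤ n → Real.log (tn n) ≤ n * L) ∧
    Tendsto (fun n : ℕ => (tn (n + 1) : ℝ) / tn n) atTop (𝓝 (Real.exp L)) := by
  obtain ⟨L, hL, h0, hup⟩ := tn_growth
  obtain ⟨D, hD, hK⟩ := tn_kesten L hL h0 hup
  exact ⟨L, hL, h0, hup, ratio_tendsto tn tn_pos L h0 slope_tendsto D hD hK⟩

theorem tn_right_min (c : ℝ) (hc : c < 1 / 2) : ∃ lam : ℝ,
    Tendsto (fun n : ℕ => (tn (n + 1) : ℝ) / tn n) atTop (𝓝 lam) ∧ ∀ N : ℕ,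
    ∃ n, N ≤ n ∧ (n : ℝ) * (lam - tn (n + 1) / tn n) > c * lam ∧
      ∀ m, n < m → (tn (n + 1) : ℝ) / tn n < tn (m + 1) / tn m := by
  obtain ⟨L, hL, h0, hup, hr⟩ := tn_ratio
  exact ⟨Real.exp L, hr, fun N => right_min_quant tn tn_pos L hL hup (fun n _ => doubling n)
    hr c hc N⟩

theorem tn_far (n : ℕ) (hn : 1 ≤ n) :
    ∃ K : ℕ, ∀ k, K ≤ k → tn (n + k) ^ 2 < tn n * tn (n + 2 * k) := by
  obtain ⟨L, hL, h0, hup, hr⟩ := tn_ratio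
  obtain ⟨R, hR⟩ := exists_nat_gt (Real.exp L)
  obtain ⟨M, hM⟩ := (hr.eventually (gt_mem_nhds hR)).exists_forall_of_atTop
  refine far_apart tn tn_pos (fun n _ => doubling n) R (M + 1) (fun m hm => ?_) n hn
  have h1 := hM m (by omega)
  have h2 : (0 : ℝ) < tn m := by exact_mod_cast tn_pos m (by omega)
  rw [div_lt_iff₀ h2] at h1
  exact_mod_cast h1.le

theorem tn_hull (c : ℝ) (hc : c < 1 / 2) (J : Set ℕ) (hJ : J.Infinite) (hJ0 : ∀ n ∈ J, 1 ≤ n)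
    (N : ℕ) : ∃ n ∈ J, N ≤ n ∧ ∀ i ∈ J, ∀ m ∈ J, i < n → n < m →
      ((n : ℝ) ^ c * tn n) ^ (m - i) <
        ((i : ℝ) ^ c * tn i) ^ (m - n) * ((m : ℝ) ^ c * tn m) ^ (n - i) :=
  hull_mult tn tn_pos (fun m n _ _ => tn_mul_le m n) tn_exp (fun n _ => doubling n) c hc J hJ hJ0 N

end Pool.Agent.Work.MP_56ddc0_co.Anim
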