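import Pool.Agent.Work.MP_56ddc0_co.H55RatioAbs

set_option autoImplicit false

namespace Pool.Agent.Work.MP_56ddc0_co.RatioAbs

open Filter Topology

/-- from the cut inequality to the logarithmic form -/
theorem cut_log (t : ℕ → ℕ) (hpos : ∀ n, 1 ≤ n → 1 ≤ t n) (L : ℝ)
    (hcut : ∀ N K, 1 ≤ K → 4 * K - 2 ≤ N →
      t N ≤ ∑ k ∈ Finset.Icc K (3 * K - 2), 4 * k * (N - k) * (t k * t (N - k)))
    (N : ℕ) (hN : 2 ≤ N) :
    ∃ k, N ≤ 4 * k + 1 ∧ N ≤ 4 * (N - k) + 1 ∧ 1 ≤ k ∧ k + 1 ≤ N ∧
      Real.log (t N) - N * L ≤ 3 * Real.log N + (Real.log (t k) - k * L) +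
        (Real.log (t (N - k)) - ((N - k : ℕ) : ℝ) * L) := by
  set K : ℕ := (N + 2) / 4 with hK
  have hK1 : 1 ≤ K := by omega
  have h1 := hcut N K hK1 (by omega)
  obtain ⟨k, hk, hmax⟩ := (Finset.Icc K (3 * K - 2)).exists_max_image
    (fun k => 4 * k * (N - k) * (t k * t (N - k)))
    ⟨K, Finset.mem_Icc.mpr ⟨le_rfl, by omega⟩⟩
  have h2 := Finset.sum_le_card_nsmul _ _ _ hmax
  rw [smul_eq_mul, Nat.card_Icc] at h2
  rw [Finset.mem_Icc] at hk
  have h3 : t N ≤ (3 * K - 2 + 1 - K) * (4 * k * (N - k) * (t k * t (N - k))) := le_trans h1 h2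
  have hkN : k + 1 ≤ N := by omega
  refine ⟨k, by omega, by omega, by omega, hkN, ?_⟩
  have hkN' : 1 ≤ N - k := by omega
  have h4 : ((N - k : ℕ) : ℝ) = N - k := by rw [Nat.cast_sub (by omega)]
  have htk : (0 : ℝ) < t k := by exact_mod_cast hpos k (by omega)
  have htNk : (0 : ℝ) < t (N - k) := by exact_mod_cast hpos (N - k) hkN'
  have htN : (0 : ℝ) < t N := by exact_mod_cast hpos N (by omega)
  have hN0 : (0 : ℝ) < N := by exact_mod_cast (by omega : 0 < N)
  have h5 : (t N : ℝ) ≤ (N : ℝ) ^ 3 * (t k * t (N - k)) := by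
    have h6 : (t N : ℝ) ≤ ((3 * K - 2 + 1 - K : ℕ) : ℝ) *
        (4 * k * ((N - k : ℕ) : ℝ) * (t k * t (N - k))) := by
      exact_mod_cast h3
    have h7 : ((3 * K - 2 + 1 - K : ℕ) : ℝ) ≤ N := by
      exact_mod_cast (by omega : 3 * K - 2 + 1 - K ≤ N)
    have h8 : 4 * (k : ℝ) * ((N - k : ℕ) : ℝ) ≤ N ^ 2 := by
      rw [h4]; nlinarith [sq_nonneg ((N : ℝ) - 2 * k)]
    have h9 : (0 : ℝ) ≤ 4 * (k : ℝ) * ((N - k : ℕ) : ℝ) := by positivity
    calc (t N : ℝ) ≤ _ := h6
      _ ≤ (N : ℝ) * ((N : ℝ) ^ 2 * (t k * t (N - k))) := by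
          apply mul_le_mul h7 _ (by positivity) hN0.le
          exact mul_le_mul_of_nonneg_right h8 (by positivity)
      _ = _ := by ring
  have h6 := Real.log_le_log htN h5
  rw [Real.log_mul (by positivity) (by positivity), Real.log_pow, Real.log_mul htk.ne' htNk.ne']
    at h6
  rw [h4]
  push_cast at h6
  linarith

/-- good indices -/
theorem good_index (f : ℕ → ℝ) (h0 : Tendsto (fun n : ℕ => f n / n) atTop (𝓝 0))
    (hcut : ∀ N : ℕ, 2 ≤ N → ∃ k, N ≤ 4 * k + 1 ∧ N ≤ 4 * (N - k) + 1 ∧ 1 ≤ k ∧ k + 1 ≤ N ∧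
      f N ≤ 3 * Real.log N + f k + f (N - k)) (K : ℕ) (hK : 1 ≤ K) :
    ∃ k, K ≤ k ∧ k ≤ 8 * K ∧ -(4 * Real.log k) - 13 ≤ f k := by
  by_contra hcon
  push Not at hcon
  have hK0 : (0 : ℝ) < K := by exact_mod_cast hK
  set a : ℝ := 1 / (8 * K) with ha
  have ha0 : 0 < a := by positivity
  have hlog2 : Real.log 2 < 0.6931471808 := Real.log_two_lt_d9
  have hmain : ∀ N : ℕ, K ≤ N → f N ≤ -(a * N) - 4 * Real.log N - 16 * Real.log 2 := by
    intro N
    induction N using Nat.strong_induction_on with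
    | _ N ih =>
      intro hN
      by_cases hN8 : N ≤ 8 * K
      · have h1 := hcon N hN hN8
        have h2 : a * N ≤ 1 := by
          rw [ha, div_mul_eq_mul_div, one_mul, div_le_one (by positivity)]
          exact_mod_cast hN8
        linarith
      · obtain ⟨k, hk1, hk2, hk3, hk4, hk5⟩ := hcut N (by omega)
        have i1 := ih k (by omega) (by omega)
        have i2 := ih (N - k) (by omega) (by omega)
        have hN0 : (0 : ℝ) < N := by exact_mod_cast (by omega : 0 < N)
        have hk0 : (0 : ℝ) < k := by exact_mod_cast hk3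
        have hNk0 : (0 : ℝ) < ((N - k : ℕ) : ℝ) := by exact_mod_cast (by omega : 0 < N - k)
        have h4 : ((N - k : ℕ) : ℝ) = N - k := by rw [Nat.cast_sub (by omega)]
        -- log k + log (N-k) ≥ 2 log N - 4 log 2
        have h5 : 2 * Real.log N - 4 * Real.log 2 ≤ Real.log k + Real.log ((N - k : ℕ) : ℝ) := by
          have h6 : (N : ℝ) ^ 2 / 16 ≤ k * ((N - k : ℕ) : ℝ) := by
            have e1 : (N : ℝ) ≤ 8 * k := by exact_mod_cast (by omega : N ≤ 8 * k)
            have e2 : (N : ℝ) ≤ 8 * ((N - k : ℕ) : ℝ) := by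
              exact_mod_cast (by omega : N ≤ 8 * (N - k))
            rw [h4] at e2 ⊢
            rcases le_total (2 * (k : ℝ)) N with h7 | h7
            · nlinarith
            · nlinarith
          have h7 := Real.log_le_log (by positivity) h6
          rw [Real.log_mul hk0.ne' hNk0.ne', Real.log_div (by positivity) (by norm_num),
            Real.log_pow] at h7
          have h8 : Real.log 16 = 4 * Real.log 2 := by
            rw [show (16 : ℝ) = 2 ^ 4 by norm_num, Real.log_pow]; norm_num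
          rw [h8] at h7
          push_cast at h7 ⊢
          linarith
        have h6 : 0 ≤ Real.log N := Real.log_nonneg (by exact_mod_cast (by omega : 1 ≤ N))
        have h9 : a * (k : ℝ) + a * ((N - k : ℕ) : ℝ) = a * N := by rw [h4]; ring
        linarith
  -- contradiction
  have h1 : ∀ᶠ n : ℕ in atTop, -a < f n / n := h0.eventually (lt_mem_nhds (by linarith))
  obtain ⟨M, hM⟩ := h1.exists_forall_of_atTop
  have h2 := hM (M + K) (by omega)
  have h3 := hmain (M + K) (by omega)
  have h4 : (0 : ℝ) < ((M + K : ℕ) : ℝ) := by exact_mod_cast (by omega : 0 < M + K)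
  rw [lt_div_iff₀ h4] at h2
  have h5 : 0 ≤ Real.log ((M + K : ℕ) : ℝ) :=
    Real.log_nonneg (by exact_mod_cast (by omega : 1 ≤ M + K))
  have h6 : 0 ≤ Real.log 2 := Real.log_nonneg (by norm_num)
  linarith

/-- quasi-polynomial lower bound -/
theorem log_sq_lower (f : ℕ → ℝ) (L : ℝ) (hL : 0 ≤ L)
    (h0 : Tendsto (fun n : ℕ => f n / n) atTop (𝓝 0))
    (hsup : ∀ m n, 1 ≤ m → 1 ≤ n → f m + f n ≤ f (m + n))
    (htriv : ∀ n : ℕ, 1 ≤ n → -(n * L) ≤ f n)
    (hcut : ∀ N : ℕ, 2 ≤ N → ∃ k, N ≤ 4 * k + 1 ∧ N ≤ 4 * (N - k) + 1 ∧ 1 ≤ k ∧ k + 1 ≤ N ∧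
      f N ≤ 3 * Real.log N + f k + f (N - k)) (n : ℕ) (hn : 1 ≤ n) :
    -((300 + 8 * L) * (1 + Real.log n) ^ 2) ≤ f n := by
  induction n using Nat.strong_induction_on with
  | _ n ih =>
    have hn0 : (0 : ℝ) < n := by exact_mod_cast hn
    have hlog : 0 ≤ Real.log n := Real.log_nonneg (by exact_mod_cast hn)
    by_cases hn8 : n < 8
    · have h1 := htriv n hn
      have h2 : (n : ℝ) * L ≤ 8 * L := by
        apply mul_le_mul_of_nonneg_right _ hL
        exact_mod_cast hn8.le
      have h3 : (1 : ℝ) ≤ (1 + Real.log n) ^ 2 := by nlinarith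
      nlinarith
    · obtain ⟨k, hk1, hk2, hk3⟩ := good_index f h0 hcut (n / 8) (by omega)
      have hkn : k ≤ n := by omega
      have hk0 : (0 : ℝ) < k := by exact_mod_cast (by omega : 0 < k)
      have hlk : Real.log k ≤ Real.log n := Real.log_le_log hk0 (by exact_mod_cast hkn)
      rcases Nat.lt_or_ge k n with hlt | hge
      · have h1 := hsup k (n - k) (by omega) (by omega)
        rw [show k + (n - k) = n by omega] at h1
        have h2 := ih (n - k) (by omega) (by omega)
        -- log (n-k) ≤ log n - 1/16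
        have h3 : Real.log ((n - k : ℕ) : ℝ) ≤ Real.log n - 1 / 16 := by
          have h4 : ((n - k : ℕ) : ℝ) ≤ n * (15 / 16) := by
            have : 16 * (n - k) ≤ 15 * n := by omega
            have h5 : (16 : ℝ) * ((n - k : ℕ) : ℝ) ≤ 15 * n := by exact_mod_cast this
            linarith
          have h5 := Real.log_le_log (by exact_mod_cast (by omega : 0 < n - k)) h4
          rw [Real.log_mul hn0.ne' (by norm_num)] at h5
          have h6 : Real.log (15 / 16 : ℝ) ≤ 15 / 16 - 1 := Real.log_le_sub_one_of_pos (by norm_num)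
          linarith
        have h4 : 0 ≤ Real.log ((n - k : ℕ) : ℝ) :=
          Real.log_nonneg (by exact_mod_cast (by omega : 1 ≤ n - k))
        have h5 : (1 + Real.log ((n - k : ℕ) : ℝ)) ^ 2 ≤
            (1 + Real.log n) ^ 2 - 1 / 16 * (1 + Real.log n) := by nlinarith
        have h6 : (300 + 8 * L) * (1 + Real.log ((n - k : ℕ) : ℝ)) ^ 2 ≤
            (300 + 8 * L) * ((1 + Real.log n) ^ 2 - 1 / 16 * (1 + Real.log n)) :=
          mul_le_mul_of_nonneg_left h5 (by positivity)
        nlinarith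
      · have : k = n := le_antisymm hkn hge
        subst this
        nlinarith [mul_nonneg hL (sq_nonneg (1 + Real.log k))]

/-- rate of convergence of the slopes -/
theorem slope_rate (f : ℕ → ℝ) (hneg : ∀ n : ℕ, 1 ≤ n → f n ≤ 0) (A : ℝ) (hA : 0 < A)
    (hlow : ∀ n : ℕ, 1 ≤ n → -(A * (1 + Real.log n) ^ 2) ≤ f n) (D : ℝ) (hD : 1 ≤ D) (N : ℕ)
    (hN : 1 ≤ N)
    (h : ∀ n : ℕ, N ≤ n → (f (n + 1) - f n) - D / n ≤ f (n + 2) - f (n + 1)) :
    ∃ C : ℝ, 0 < C ∧ ∀ n : ℕ, 1 ≤ n →
      |f (n + 1) - f n| ≤ C * (1 + Real.log n) / Real.sqrt n := by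
  have hstep : ∀ n, N ≤ n → (f (n + 1) - f n) - D / n ≤ f (n + 1 + 1) - f (n + 1) := fun n hn =>
    h n hn
  -- the main estimate for large n
  set C1 : ℝ := 48 * D * (A + 1) with hC1
  have hC10 : 0 < C1 := by positivity
  have hlarge : ∀ n : ℕ, 2 * N ≤ n → |f (n + 1) - f n| ≤ C1 * (1 + Real.log n) / Real.sqrt n := by
    intro n hn
    have hn1 : (1 : ℝ) ≤ n := by exact_mod_cast (by omega : 1 ≤ n)
    have hn0 : (0 : ℝ) < n := by linarith
    have hlog : 0 ≤ Real.log n := Real.log_nonneg hn1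
    have hs0 : 0 < Real.sqrt n := Real.sqrt_pos.mpr hn0
    have hs1 : 1 ≤ Real.sqrt n := by rw [Real.one_le_sqrt]; exact hn1
    have hss : Real.sqrt n * Real.sqrt n = n := Real.mul_self_sqrt hn0.le
    by_contra hcon
    push Not at hcon
    set δ : ℝ := C1 * (1 + Real.log n) / Real.sqrt n with hδ
    have hδ0 : 0 < δ := by positivity
    have hδs : δ * Real.sqrt n = C1 * (1 + Real.log n) := by rw [hδ]; field_simp
    have hδsn : δ * n = C1 * (1 + Real.log n) * Real.sqrt n := by
      calc δ * n = δ * Real.sqrt n * Real.sqrt n := by rw [mul_assoc, hss]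
        _ = _ := by rw [hδs]
    have hbig : 16 * D ≤ δ * n := by
      rw [hδsn, hC1]
      have : 1 ≤ (1 + Real.log n) * Real.sqrt n := by nlinarith
      nlinarith [mul_pos (by linarith : (0 : ℝ) < D) hA]
    set J : ℕ := ⌊min (δ * n / (4 * D)) (n / 2)⌋₊ with hJ
    have hmin0 : 0 ≤ min (δ * n / (4 * D)) ((n : ℝ) / 2) := by positivity
    have hJle : (J : ℝ) ≤ min (δ * n / (4 * D)) (n / 2) := Nat.floor_le hmin0
    have hJ1 : (J : ℝ) ≤ δ * n / (4 * D) := le_trans hJle (min_le_left _ _)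
    have hJ2 : (J : ℝ) ≤ n / 2 := le_trans hJle (min_le_right _ _)
    have hJD : D * J ≤ δ * n / 4 := by
      rw [le_div_iff₀ (by positivity)] at hJ1
      linarith
    have hJn : 2 * J ≤ n := by
      have : (2 : ℝ) * J ≤ n := by linarith
      exact_mod_cast this
    have hJge : min (δ * n / (4 * D)) (n / 2) - 1 ≤ J := by
      have := Nat.lt_floor_add_one (min (δ * n / (4 * D)) ((n : ℝ) / 2))
      rw [← hJ] at this
      linarith
    -- bound for the total
    have hA2 : (J + 1 : ℝ) * (δ / 2) ≤ A * (1 + Real.log (n + 1 : ℕ)) ^ 2 := by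
      rw [lt_abs] at hcon
      rcases hcon with hcon | hcon
      · have hfor : ∀ i, i < J + 1 → δ / 2 ≤ f (n + i + 1) - f (n + i) := by
          intro i hi
          have h5 := slope_forward (fun n => f (n + 1) - f n) D (by linarith) N hN hstep n
            (by omega) i
          have h7 : D * (i : ℝ) / (n : ℝ) ≤ δ / 2 := by
            rw [div_le_iff₀ hn0]
            have h8 : (i : ℝ) ≤ J := by exact_mod_cast Nat.lt_succ_iff.mp hi
            have h9 : D * (i : ℝ) ≤ D * J := mul_le_mul_of_nonneg_left h8 (by linarith)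
            have : 0 ≤ δ * n := by positivity
            linarith
          linarith
        have h13 := sum_lower f (δ / 2) n (J + 1) hfor
        have h14 := hneg (n + (J + 1)) (by omega)
        have h15 := hlow n (by omega)
        have h16 : (1 + Real.log n) ^ 2 ≤ (1 + Real.log (n + 1 : ℕ)) ^ 2 := by
          apply pow_le_pow_left₀ (by linarith)
          have := Real.log_le_log hn0 (by push_cast; linarith : (n : ℝ) ≤ ((n + 1 : ℕ) : ℝ))
          linarith
        have h17 := mul_le_mul_of_nonneg_left h16 hA.le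
        push_cast at h13
        linarith
      · have hback : ∀ i, i < J + 1 →
            δ / 2 ≤ -(f ((n - J) + i + 1)) - -(f ((n - J) + i)) := by
          intro i hi
          have h5 := slope_forward (fun n => f (n + 1) - f n) D (by linarith) N hN
            hstep ((n - J) + i) (by omega) (J - i)
          have h6 : (n - J) + i + (J - i) = n := by omega
          simp only [h6] at h5
          have h7 : D * ((J - i : ℕ) : ℝ) / (((n - J) + i : ℕ) : ℝ) ≤ δ / 2 := by
            rw [div_le_iff₀ (by exact_mod_cast (by omega : 0 < (n - J) + i))]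
            have h8 : ((J - i : ℕ) : ℝ) ≤ J := by exact_mod_cast Nat.sub_le _ _
            have h9 : (n : ℝ) / 2 ≤ (((n - J) + i : ℕ) : ℝ) := by
              have : (n : ℝ) ≤ 2 * (((n - J) + i : ℕ) : ℝ) := by exact_mod_cast (by omega)
              linarith
            have h10 : D * ((J - i : ℕ) : ℝ) ≤ D * J :=
              mul_le_mul_of_nonneg_left h8 (by linarith)
            have h12 : δ / 2 * ((n : ℝ) / 2) ≤ δ / 2 * (((n - J) + i : ℕ) : ℝ) :=
              mul_le_mul_of_nonneg_left h9 (by positivity)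
            have h13 : δ / 2 * ((n : ℝ) / 2) = δ * n / 4 := by ring
            linarith
          linarith
        have h13 := sum_lower (fun n => -(f n)) (δ / 2) (n - J) (J + 1) hback
        have h14 : n - J + (J + 1) = n + 1 := by omega
        simp only [h14] at h13
        have h15 := hlow (n + 1) (by omega)
        have h16 := hneg (n - J) (by omega)
        push_cast at h13 h15 ⊢
        linarith
    -- (J+1) ≥ min (...)
    have hJ3 : min (δ * n / (4 * D)) (n / 2) ≤ (J : ℝ) + 1 := by linarith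
    have hlog1 : Real.log ((n + 1 : ℕ) : ℝ) ≤ Real.log n + 1 := by
      have h5 : ((n + 1 : ℕ) : ℝ) ≤ n * 2 := by push_cast; linarith
      have h6 := Real.log_le_log (by positivity) h5
      rw [Real.log_mul hn0.ne' (by norm_num)] at h6
      have := Real.log_two_lt_d9
      linarith
    have hlog2 : (1 + Real.log ((n + 1 : ℕ) : ℝ)) ^ 2 ≤ 4 * (1 + Real.log n) ^ 2 := by
      have h5 : 0 ≤ 1 + Real.log ((n + 1 : ℕ) : ℝ) := by
        have : 0 ≤ Real.log ((n + 1 : ℕ) : ℝ) :=
          Real.log_nonneg (by exact_mod_cast (by omega : 1 ≤ n + 1))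
        linarith
      have h6 : 1 + Real.log ((n + 1 : ℕ) : ℝ) ≤ 2 * (1 + Real.log n) := by linarith
      calc (1 + Real.log ((n + 1 : ℕ) : ℝ)) ^ 2 ≤ (2 * (1 + Real.log n)) ^ 2 :=
            pow_le_pow_left₀ h5 h6 2
        _ = _ := by ring
    have hfin : min (δ * n / (4 * D)) (n / 2) * (δ / 2) ≤ A * (4 * (1 + Real.log n) ^ 2) := by
      have h5 : min (δ * n / (4 * D)) (n / 2) * (δ / 2) ≤ ((J : ℝ) + 1) * (δ / 2) :=
        mul_le_mul_of_nonneg_right hJ3 (by positivity)
      have h6 : A * (1 + Real.log ((n + 1 : ℕ) : ℝ)) ^ 2 ≤ A * (4 * (1 + Real.log n) ^ 2) :=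
        mul_le_mul_of_nonneg_left hlog2 hA.le
      linarith
    rcases le_total (δ * n / (4 * D)) ((n : ℝ) / 2) with hle | hle
    · rw [min_eq_left hle] at hfin
      -- δ² n / (8 D) = C1² (1+log)² / (8D)
      have h5 : δ * n / (4 * D) * (δ / 2) = (C1 * (1 + Real.log n)) ^ 2 / (8 * D) := by
        rw [← hδs]
        have : (δ * Real.sqrt n) ^ 2 = δ ^ 2 * n := by
          rw [mul_pow, Real.sq_sqrt hn0.le]
        rw [this]
        field_simp
        ring
      rw [h5, div_le_iff₀ (by positivity)] at hfin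
      have h6 : 0 < (1 + Real.log n) ^ 2 := by positivity
      have h7 : C1 ^ 2 ≤ 32 * A * D := by
        have : C1 ^ 2 * (1 + Real.log n) ^ 2 ≤ (32 * A * D) * (1 + Real.log n) ^ 2 := by
          nlinarith
        exact le_of_mul_le_mul_right this h6
      rw [hC1] at h7
      have h8 : 0 < D * A := by positivity
      nlinarith [mul_pos hA hA, mul_pos h8 h8, mul_pos (by linarith : (0 : ℝ) < D) h8]
    · rw [min_eq_right hle] at hfin
      -- n/2 * δ/2 ≥ ... : δ n / 4 = C1 (1+log) √n / 4, and δ ≥ 2 D ≥ 2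
      have h5 : 2 * D ≤ δ := by
        have : (n : ℝ) / 2 * (4 * D) ≤ δ * n := by
          rwa [le_div_iff₀ (by positivity)] at hle
        have h6 : 2 * D * n ≤ δ * n := by linarith
        exact le_of_mul_le_mul_right h6 hn0
      -- δ = C1 (1+log)/√n ≥ 2D means √n ≤ C1 (1+log)/(2D)
      -- then n δ / 4 ≤ 4 A (1+log)^2 ; but n δ = √n * C1 (1+log) ; √n δ = C1 (1+log)
      have h6 : (n : ℝ) * δ ≤ 16 * A * (1 + Real.log n) ^ 2 := by nlinarith
      -- log n ≤ 2 √n  hence (1 + log n) ≤ 3 √n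
      have h7 : Real.log n ≤ 2 * Real.sqrt n := by
        have h8 := Real.log_le_sub_one_of_pos hs0
        have h9 : Real.log (Real.sqrt n) = Real.log n / 2 := Real.log_sqrt hn0.le
        rw [h9] at h8
        linarith
      have h8 : (n : ℝ) * δ = Real.sqrt n * (C1 * (1 + Real.log n)) := by
        calc (n : ℝ) * δ = (Real.sqrt n * Real.sqrt n) * δ := by rw [hss]
          _ = Real.sqrt n * (δ * Real.sqrt n) := by ring
          _ = _ := by rw [hδs]
      rw [h8] at h6
      have h9 : 0 < 1 + Real.log n := by positivity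
      have h10 : Real.sqrt n * C1 ≤ 16 * A * (1 + Real.log n) := by
        have : (Real.sqrt n * C1) * (1 + Real.log n) ≤
            (16 * A * (1 + Real.log n)) * (1 + Real.log n) := by nlinarith
        exact le_of_mul_le_mul_right this h9
      have h11 : 1 + Real.log n ≤ 2 * Real.sqrt n := by
        have h12 := Real.log_le_sub_one_of_pos hs0
        have h13 : Real.log (Real.sqrt n) = Real.log n / 2 := Real.log_sqrt hn0.le
        rw [h13] at h12
        linarith
      have h12 : Real.sqrt n * C1 ≤ Real.sqrt n * (32 * A) := by nlinarith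
      have h13 : C1 ≤ 32 * A := le_of_mul_le_mul_left h12 hs0
      rw [hC1] at h13
      nlinarith
  set C : ℝ := C1 + ∑ i ∈ Finset.range (2 * N), |f (i + 1) - f i| * Real.sqrt i with hC
  have hsum0 : 0 ≤ ∑ i ∈ Finset.range (2 * N), |f (i + 1) - f i| * Real.sqrt i :=
    Finset.sum_nonneg (fun i _ => by positivity)
  refine ⟨C, by linarith, fun n hn => ?_⟩
  have hn1 : (1 : ℝ) ≤ n := by exact_mod_cast hn
  have hn0 : (0 : ℝ) < n := by linarith
  have hlog : 0 ≤ Real.log n := Real.log_nonneg hn1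
  have hs0 : 0 < Real.sqrt n := Real.sqrt_pos.mpr hn0
  rcases Nat.lt_or_ge n (2 * N) with hlt | hge
  · rw [le_div_iff₀ hs0]
    have h1 := Finset.single_le_sum (f := fun i : ℕ => |f (i + 1) - f i| * Real.sqrt i)
      (fun i _ => by positivity) (Finset.mem_range.mpr hlt)
    nlinarith
  · refine le_trans (hlarge n hge) ?_
    apply div_le_div_of_nonneg_right _ hs0.le
    apply mul_le_mul_of_nonneg_right _ (by linarith)
    linarith

end Pool.Agent.Work.MP_56ddc0_co.RatioAbs
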