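import Mathlib

set_option autoImplicit false

namespace Pool.Agent.Work.MP_56ddc0_co.RatioAbs

open Filter Topology

/-- lower hull vertices: a sequence that is sublinear and tends to `-∞` has, along every infinite
index set, infinitely many vertices of its lower convex hull. -/
theorem hull_vertices (f : ℕ → ℝ) (h0 : Tendsto (fun n : ℕ => f n / n) atTop (𝓝 0))
    (h1 : Tendsto f atTop atBot) (J : Set ℕ) (hJ : J.Infinite) (N : ℕ) :
    ∃ n ∈ J, N ≤ n ∧ ∀ i ∈ J, ∀ m ∈ J, i < n → n < m →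
      ((m : ℝ) - n) * (f n - f i) < ((n : ℝ) - i) * (f m - f n) := by
  classical
  -- a point of J far below everything before N
  obtain ⟨B, hB⟩ : ∃ B : ℝ, ∀ j < N, B ≤ f j := by
    refine ⟨-(∑ j ∈ Finset.range N, |f j|), fun j hj => ?_⟩
    have h := Finset.single_le_sum (f := fun j => |f j|) (fun i _ => abs_nonneg (f i))
      (Finset.mem_range.mpr hj)
    have h2 := neg_abs_le (f j)
    linarith
  obtain ⟨M, hM⟩ := (h1.eventually (eventually_lt_atBot (B - 1))).exists_forall_of_atTop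
  obtain ⟨k, hkJ, hkM⟩ := hJ.exists_gt M
  have hkB : f k < B - 1 := hM k hkM.le
  set s : ℝ := 1 / ((k : ℝ) + 1) with hs
  have hk0 : (0 : ℝ) < (k : ℝ) + 1 := by positivity
  have hs0 : 0 < s := by rw [hs]; positivity
  have hsk : s * k ≤ 1 := by
    rw [hs, div_mul_eq_mul_div, one_mul, div_le_one hk0]; linarith
  -- g j = f j + s j tends to infinity
  have hg : Tendsto (fun n : ℕ => f n + s * n) atTop atTop := by
    have h2 : ∀ᶠ n : ℕ in atTop, -(s / 2) < f n / n :=
      h0.eventually (lt_mem_nhds (by linarith))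
    have h3 : Tendsto (fun n : ℕ => s / 2 * (n : ℝ)) atTop atTop :=
      Tendsto.const_mul_atTop (by positivity) tendsto_natCast_atTop_atTop
    refine tendsto_atTop_mono' _ ?_ h3
    filter_upwards [h2, eventually_gt_atTop 0] with n hn hn0
    have hn1 : (0 : ℝ) < n := by exact_mod_cast hn0
    rw [lt_div_iff₀ hn1] at hn
    nlinarith
  obtain ⟨M2, hM2⟩ := (hg.eventually (eventually_gt_atTop (f k + s * k))).exists_forall_of_atTop
  -- the finite candidate set
  set C : Finset ℕ := (Finset.range (M2 + k + 1)).filter (fun j => j ∈ J) with hC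
  have hkC : k ∈ C := by
    rw [hC, Finset.mem_filter, Finset.mem_range]; exact ⟨by omega, hkJ⟩
  obtain ⟨n0, hn0C, hn0⟩ := C.exists_min_image (fun j => f j + s * j) ⟨k, hkC⟩
  -- the largest minimiser
  set D : Finset ℕ := C.filter (fun j => f j + s * j = f n0 + s * n0) with hD
  have hn0D : n0 ∈ D := by rw [hD, Finset.mem_filter]; exact ⟨hn0C, rfl⟩
  obtain ⟨n, hnD, hn⟩ := D.exists_max_image (fun j => j) ⟨n0, hn0D⟩
  have hnC : n ∈ C := (Finset.mem_filter.mp hnD).1
  have hnv : f n + s * n = f n0 + s * n0 := (Finset.mem_filter.mp hnD).2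
  have hmin : ∀ j ∈ J, f n + s * n ≤ f j + s * j := by
    intro j hj
    by_cases hjC : j ∈ C
    · rw [hnv]; exact hn0 j hjC
    · have hj2 : M2 ≤ j := by
        by_contra hlt
        apply hjC
        rw [hC, Finset.mem_filter, Finset.mem_range]
        exact ⟨by omega, hj⟩
      have h5 := hM2 j hj2
      have h6 := hn0 k hkC
      rw [hnv]
      linarith
  have hmin2 : ∀ j ∈ J, n < j → f n + s * n < f j + s * j := by
    intro j hj hnj
    rcases lt_or_eq_of_le (hmin j hj) with h | h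
    · exact h
    · exfalso
      have hjC : j ∈ C := by
        by_contra hjC
        have hj2 : M2 ≤ j := by
          by_contra hlt
          apply hjC
          rw [hC, Finset.mem_filter, Finset.mem_range]
          exact ⟨by omega, hj⟩
        have h5 := hM2 j hj2
        have h6 := hmin k hkJ
        linarith
      have hjD : j ∈ D := by
        rw [hD, Finset.mem_filter]; exact ⟨hjC, by rw [← h, hnv]⟩
      have := hn j hjD
      omega
  have hnJ : n ∈ J := (Finset.mem_filter.mp hnC).2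
  refine ⟨n, hnJ, ?_, ?_⟩
  · by_contra hlt
    have h7 := hmin k hkJ
    have h8 := hB n (by omega)
    have h9 : 0 ≤ s * n := by positivity
    linarith
  · intro i hi m hm hin hnm
    have h1' := hmin i hi
    have h2' := hmin2 m hm hnm
    have hin' : (i : ℝ) < n := by exact_mod_cast hin
    have hnm' : (n : ℝ) < m := by exact_mod_cast hnm
    have ha : f n - f i ≤ -(s * (n - i)) := by linarith
    have hb : -(s * (m - n)) < f m - f n := by linarith
    have hc : (0 : ℝ) < (m : ℝ) - n := by linarith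
    have hd : (0 : ℝ) < (n : ℝ) - i := by linarith
    calc ((m : ℝ) - n) * (f n - f i) ≤ ((m : ℝ) - n) * (-(s * (n - i))) :=
          mul_le_mul_of_nonneg_left ha hc.le
      _ = ((n : ℝ) - i) * (-(s * (m - n))) := by ring
      _ < ((n : ℝ) - i) * (f m - f n) := mul_lt_mul_of_pos_left hb hd

/-- right minima: a sequence with limit `L` that is infinitely often below `L` has infinitely many
indices at which it is strictly below every later value. -/
theorem right_minima (r : ℕ → ℝ) (L : ℝ) (h0 : Tendsto r atTop (𝓝 L))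
    (h1 : ∀ N, ∃ n, N ≤ n ∧ r n < L) (N : ℕ) :
    ∃ n, N ≤ n ∧ ∀ m, n < m → r n < r m := by
  classical
  obtain ⟨k, hkN, hkL⟩ := h1 N
  obtain ⟨M, hM⟩ := (h0.eventually (lt_mem_nhds hkL)).exists_forall_of_atTop
  set C : Finset ℕ := (Finset.range (M + k + 1)).filter (fun j => N ≤ j) with hC
  have hkC : k ∈ C := by
    rw [hC, Finset.mem_filter, Finset.mem_range]; exact ⟨by omega, hkN⟩
  obtain ⟨n0, hn0C, hn0⟩ := C.exists_min_image r ⟨k, hkC⟩
  set D : Finset ℕ := C.filter (fun j => r j = r n0) with hD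
  have hn0D : n0 ∈ D := by rw [hD, Finset.mem_filter]; exact ⟨hn0C, rfl⟩
  obtain ⟨n, hnD, hn⟩ := D.exists_max_image (fun j => j) ⟨n0, hn0D⟩
  have hnC : n ∈ C := (Finset.mem_filter.mp hnD).1
  have hnv : r n = r n0 := (Finset.mem_filter.mp hnD).2
  have hnN : N ≤ n := (Finset.mem_filter.mp hnC).2
  refine ⟨n, hnN, fun m hm => ?_⟩
  by_cases hmC : m ∈ C
  · rcases lt_or_eq_of_le (hn0 m hmC) with h | h
    · rw [hnv]; exact h
    · exfalso
      have hmD : m ∈ D := by rw [hD, Finset.mem_filter]; exact ⟨hmC, h.symm⟩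
      have := hn m hmD
      omega
  · have hm2 : M ≤ m := by
      by_contra hlt
      apply hmC
      rw [hC, Finset.mem_filter, Finset.mem_range]
      exact ⟨by omega, by omega⟩
    have h5 := hM m hm2
    have h6 := hn0 k hkC
    rw [hnv]
    linarith



theorem slope_forward (g : ℕ → ℝ) (D : ℝ) (hD : 0 ≤ D) (N : ℕ) (hN : 1 ≤ N)
    (h : ∀ n, N ≤ n → g n - D / n ≤ g (n + 1)) (n : ℕ) (hn : N ≤ n) (j : ℕ) :
    g n - D * j / n ≤ g (n + j) := by
  have hn0 : (0 : ℝ) < n := by exact_mod_cast (by omega : 0 < n)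
  induction j with
  | zero => simp
  | succ j ih =>
    have h1 := h (n + j) (by omega)
    have h2 : D / ((n + j : ℕ) : ℝ) ≤ D / n := by
      apply div_le_div_of_nonneg_left hD hn0
      push_cast
      linarith [(Nat.cast_nonneg j : (0 : ℝ) ≤ j)]
    have h3 : D * ((j + 1 : ℕ) : ℝ) / n = D * j / n + D / n := by
      push_cast; ring
    rw [h3]
    have h4 : n + (j + 1) = n + j + 1 := rfl
    rw [h4]
    linarith

theorem sum_lower (f : ℕ → ℝ) (e : ℝ) (n J : ℕ)
    (h : ∀ j, j < J → e ≤ f (n + j + 1) - f (n + j)) : (J : ℝ) * e ≤ f (n + J) - f n := by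
  induction J with
  | zero => simp
  | succ J ih =>
    have h1 := ih (fun j hj => h j (by omega))
    have h2 := h J (by omega)
    have h3 : n + (J + 1) = n + J + 1 := rfl
    rw [h3]
    push_cast
    linarith

/-- Kesten's lemma. -/
theorem slope_tendsto (f : ℕ → ℝ) (h0 : Tendsto (fun n : ℕ => f n / n) atTop (𝓝 0)) (D : ℝ)
    (h : ∀ᶠ n : ℕ in atTop, (f (n + 1) - f n) - D / n ≤ f (n + 2) - f (n + 1)) :
    Tendsto (fun n => f (n + 1) - f n) atTop (𝓝 0) := by
  -- normalise D
  set E : ℝ := max D 1 with hE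
  have hE1 : 1 ≤ E := le_max_right _ _
  obtain ⟨N0, hN0⟩ := h.exists_forall_of_atTop
  set N1 : ℕ := max N0 1 with hN1
  have hstep : ∀ n, N1 ≤ n → (f (n + 1) - f n) - E / n ≤ f (n + 1 + 1) - f (n + 1) := by
    intro n hn
    have h1 := hN0 n (le_trans (le_max_left _ _) hn)
    have hn0 : (0 : ℝ) < n := by
      exact_mod_cast (lt_of_lt_of_le Nat.one_pos (le_trans (le_max_right _ _) hn))
    have h2 : D / n ≤ E / n := div_le_div_of_nonneg_right (le_max_left _ _) hn0.le
    have h3 : n + 1 + 1 = n + 2 := rfl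
    rw [h3]
    linarith
  rw [Metric.tendsto_atTop]
  intro ε' hε'
  set ε : ℝ := min ε' 1 with hεdef
  have hε : 0 < ε := lt_min hε' one_pos
  have hε1 : ε ≤ 1 := min_le_right _ _
  set c : ℝ := ε / (4 * E) with hc
  have hc0 : 0 < c := by positivity
  have hc4 : c ≤ 1 / 4 := by
    rw [hc, div_le_div_iff₀ (by positivity) (by norm_num)]
    nlinarith
  set η : ℝ := c * ε / 24 with hη
  have hη0 : 0 < η := by positivity
  have hsmall : ∀ᶠ n : ℕ in atTop, |f n| ≤ η * n := by
    have h1 : ∀ᶠ n : ℕ in atTop, |f n / n| < η := by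
      have := h0.abs
      rw [abs_zero] at this
      exact this.eventually (gt_mem_nhds hη0)
    filter_upwards [h1, eventually_gt_atTop 0] with n hn hn0
    have hn1 : (0 : ℝ) < n := by exact_mod_cast hn0
    rw [abs_div, abs_of_pos hn1, div_lt_iff₀ hn1] at hn
    exact hn.le
  obtain ⟨N2, hN2⟩ := hsmall.exists_forall_of_atTop
  obtain ⟨N3, hN3⟩ := exists_nat_gt (4 / c)
  refine ⟨2 * (N1 + N2 + N3 + 1), fun n hn => ?_⟩
  have hnN3 : (N3 : ℝ) ≤ n := by exact_mod_cast (by omega : N3 ≤ n)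
  have hn0 : (0 : ℝ) < n := by exact_mod_cast (by omega : 0 < n)
  have hn1 : (1 : ℝ) ≤ n := by exact_mod_cast (by omega : 1 ≤ n)
  set J : ℕ := ⌊c * n⌋₊ with hJ
  have hJle : (J : ℝ) ≤ c * n := Nat.floor_le (by positivity)
  have hJge : c * n - 1 < J := by
    have := Nat.lt_floor_add_one (c * n)
    rw [← hJ] at this
    linarith
  have hcn : 4 < c * n := by
    have : 4 / c < n := lt_of_lt_of_le hN3 hnN3
    rwa [div_lt_iff₀ hc0, mul_comm] at this
  have hJ2 : c * n / 2 ≤ J := by linarith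
  have hJn : J ≤ n := by
    have : (J : ℝ) ≤ n := by nlinarith
    exact_mod_cast this
  have hJn2 : 2 * J ≤ n := by
    have : (2 : ℝ) * J ≤ n := by nlinarith
    exact_mod_cast this
  rw [Real.dist_eq, sub_zero]
  refine lt_of_lt_of_le ?_ (min_le_left ε' 1)
  rw [← hεdef, abs_lt]
  constructor
  · -- lower bound
    by_contra hcon
    push Not at hcon
    have hback : ∀ i, i < J + 1 → ε / 2 ≤ -(f ((n - J) + i + 1)) - -(f ((n - J) + i)) := by
      intro i hi
      have h5 := slope_forward (fun n => f (n + 1) - f n) E (by linarith) N1 (le_max_right _ _)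
        hstep ((n - J) + i) (by omega) (J - i)
      have h6 : (n - J) + i + (J - i) = n := by omega
      simp only [h6] at h5
      have h7 : E * ((J - i : ℕ) : ℝ) / (((n - J) + i : ℕ) : ℝ) ≤ ε / 2 := by
        rw [div_le_iff₀ (by exact_mod_cast (by omega : 0 < (n - J) + i))]
        have h8 : ((J - i : ℕ) : ℝ) ≤ J := by exact_mod_cast Nat.sub_le _ _
        have h9 : (n : ℝ) / 2 ≤ (((n - J) + i : ℕ) : ℝ) := by
          have : (n : ℝ) ≤ 2 * (((n - J) + i : ℕ) : ℝ) := by exact_mod_cast (by omega)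
          linarith
        have h10 : E * ((J - i : ℕ) : ℝ) ≤ E * (c * n) :=
          mul_le_mul_of_nonneg_left (le_trans h8 hJle) (by linarith)
        have h11 : E * (c * n) = ε / 2 * (n / 2) := by
          rw [hc]; field_simp; ring
        have h12 : ε / 2 * ((n : ℝ) / 2) ≤ ε / 2 * (((n - J) + i : ℕ) : ℝ) :=
          mul_le_mul_of_nonneg_left h9 (by positivity)
        linarith
      linarith
    have h13 := sum_lower (fun n => -(f n)) (ε / 2) (n - J) (J + 1) hback
    have h14 : n - J + (J + 1) = n + 1 := by omega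
    simp only [h14] at h13
    have h15 := hN2 (n + 1) (by omega)
    have h16 := hN2 (n - J) (by omega)
    have h17 := neg_abs_le (f (n + 1))
    have h18 := le_abs_self (f (n - J))
    have h19 : ((n - J : ℕ) : ℝ) ≤ n := by exact_mod_cast Nat.sub_le _ _
    have h20 : η * ((n - J : ℕ) : ℝ) ≤ η * n := mul_le_mul_of_nonneg_left h19 hη0.le
    push_cast at h13 h15
    have h21 : c * n / 2 * (ε / 2) ≤ (J : ℝ) * (ε / 2) :=
      mul_le_mul_of_nonneg_right hJ2 (by positivity)
    have h22 : η * ((n : ℝ) + 1) ≤ η * (2 * n) := mul_le_mul_of_nonneg_left (by linarith) hη0.le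
    have h23 : c * n / 2 * (ε / 2) = 6 * (η * n) := by rw [hη]; ring
    have h24 : 0 < η * n := by positivity
    nlinarith
  · by_contra hcon
    push Not at hcon
    have hfor : ∀ i, i < J → ε / 2 ≤ f (n + i + 1) - f (n + i) := by
      intro i hi
      have h5 := slope_forward (fun n => f (n + 1) - f n) E (by linarith) N1 (le_max_right _ _)
        hstep n (by omega) i
      have h7 : E * (i : ℝ) / (n : ℝ) ≤ ε / 2 := by
        rw [div_le_iff₀ hn0]
        have h8 : (i : ℝ) ≤ J := by exact_mod_cast hi.le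
        have h10 : E * (i : ℝ) ≤ E * (c * n) :=
          mul_le_mul_of_nonneg_left (le_trans h8 hJle) (by linarith)
        have h11 : E * (c * n) = ε / 2 * (n / 2) := by
          rw [hc]; field_simp; ring
        have : 0 ≤ ε / 2 * (n / 2) := by positivity
        linarith
      linarith
    have h13 := sum_lower f (ε / 2) n J hfor
    have h15 := hN2 (n + J) (by omega)
    have h16 := hN2 n (by omega)
    have h17 := neg_abs_le (f n)
    have h18 := le_abs_self (f (n + J))
    push_cast at h15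
    have h19 : (J : ℝ) ≤ n := by exact_mod_cast hJn
    have h20 : η * ((n : ℝ) + J) ≤ η * (2 * n) := mul_le_mul_of_nonneg_left (by linarith) hη0.le
    have h21 : c * n / 2 * (ε / 2) ≤ (J : ℝ) * (ε / 2) :=
      mul_le_mul_of_nonneg_right hJ2 (by positivity)
    have h23 : c * n / 2 * (ε / 2) = 6 * (η * n) := by rw [hη]; ring
    have h24 : 0 < η * n := by positivity
    nlinarith



/-- Fekete data. -/
theorem growth (t : ℕ → ℕ) (hpos : ∀ n, 1 ≤ n → 1 ≤ t n)
    (hsup : ∀ m n, 1 ≤ m → 1 ≤ n → t m * t n ≤ t (m + n))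
    (hexp : ∃ C : ℝ, 1 ≤ C ∧ ∀ n, 1 ≤ n → (t n : ℝ) ≤ C ^ n) :
    ∃ L : ℝ, 0 ≤ L ∧ Tendsto (fun n : ℕ => (Real.log (t n) - n * L) / n) atTop (𝓝 0) ∧
      ∀ n : ℕ, 1 ≤ n → Real.log (t n) ≤ n * L := by
  set u : ℕ → ℝ := fun n => if n = 0 then 0 else -Real.log (t n) with hu
  have hsub : Subadditive u := by
    intro m n
    by_cases hm : m = 0
    · subst hm; simp [hu]
    by_cases hn : n = 0
    · subst hn; simp [hu]
    have hmn : m + n ≠ 0 := by omega
    simp only [hu, hm, hn, hmn, if_false]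
    have h1 : (0 : ℝ) < t m := by exact_mod_cast hpos m (by omega)
    have h2 : (0 : ℝ) < t n := by exact_mod_cast hpos n (by omega)
    have h3 : (t m : ℝ) * t n ≤ t (m + n) := by exact_mod_cast hsup m n (by omega) (by omega)
    have h4 := Real.log_le_log (mul_pos h1 h2) h3
    rw [Real.log_mul h1.ne' h2.ne'] at h4
    linarith
  obtain ⟨C, hC1, hC⟩ := hexp
  have hbdd : BddBelow (Set.range fun n : ℕ => u n / n) := by
    refine ⟨-Real.log C, ?_⟩
    rintro _ ⟨n, rfl⟩
    by_cases hn : n = 0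
    · subst hn
      simp [hu, Real.log_nonneg hC1]
    · have hn1 : (0 : ℝ) < n := by exact_mod_cast (by omega : 0 < n)
      simp only [hu, hn, if_false]
      rw [le_div_iff₀ hn1]
      have h1 : (0 : ℝ) < t n := by exact_mod_cast hpos n (by omega)
      have h2 := Real.log_le_log h1 (hC n (by omega))
      rw [Real.log_pow] at h2
      linarith
  have hlim := hsub.tendsto_lim hbdd
  refine ⟨-hsub.lim, ?_, ?_, ?_⟩
  · have h1 := hsub.lim_le_div hbdd (n := 1) one_ne_zero
    simp only [hu, one_ne_zero, if_false, Nat.cast_one, div_one] at h1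
    have h2 : 0 ≤ Real.log (t 1) := Real.log_nonneg (by exact_mod_cast hpos 1 le_rfl)
    linarith
  · have h1 : Tendsto (fun n : ℕ => -(u n / n) - (-hsub.lim)) atTop (𝓝 (-hsub.lim - (-hsub.lim))) :=
      (hlim.neg).sub_const _
    rw [sub_self] at h1
    refine h1.congr' ?_
    filter_upwards [eventually_gt_atTop 0] with n hn
    have hn0 : n ≠ 0 := by omega
    have hn1 : (n : ℝ) ≠ 0 := by exact_mod_cast hn0
    simp only [hu, hn0, if_false]
    field_simp
  · intro n hn
    have h1 := hsub.lim_le_div hbdd (n := n) (by omega)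
    have hn0 : n ≠ 0 := by omega
    have hn1 : (0 : ℝ) < n := by exact_mod_cast (by omega : 0 < n)
    simp only [hu, hn0, if_false] at h1
    rw [le_div_iff₀ hn1] at h1
    linarith

/-- the doubling inequality gives an upper bound with a `log √n` gain. -/
theorem decay (t : ℕ → ℕ) (L : ℝ) (hL : 0 ≤ L) (hpos : ∀ n, 1 ≤ n → 1 ≤ t n)
    (hup : ∀ n : ℕ, 1 ≤ n → Real.log (t n) ≤ n * L)
    (hdbl : ∀ n, 1 ≤ n → Nat.sqrt n * t n ^ 2 ≤ 2 * t (2 * n + 1)) (n : ℕ) (hn : 1 ≤ n) :
    Real.log (t n) - n * L ≤ L + Real.log 2 - Real.log (Nat.sqrt n) := by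
  set U : ℕ → ℝ := fun n => Real.log (Nat.sqrt n) - Real.log 2 + Real.log (t n) - (n + 1) * L
    with hU
  have hsq : ∀ n, 1 ≤ n → 1 ≤ Nat.sqrt n := fun n hn => by
    rw [Nat.le_sqrt]; omega
  have hstep : ∀ n, 1 ≤ n → 2 * U n ≤ U (2 * n + 1) := by
    intro n hn
    have h1 : (0 : ℝ) < t n := by exact_mod_cast hpos n hn
    have h2 : (0 : ℝ) < t (2 * n + 1) := by exact_mod_cast hpos (2 * n + 1) (by omega)
    have h3 : (0 : ℝ) < Nat.sqrt n := by exact_mod_cast hsq n hn
    have h4 : ((Nat.sqrt n : ℕ) : ℝ) * (t n : ℝ) ^ 2 ≤ 2 * t (2 * n + 1) := by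
      exact_mod_cast hdbl n hn
    have h5 := Real.log_le_log (by positivity) h4
    rw [Real.log_mul h3.ne' (by positivity), Real.log_pow, Real.log_mul (by norm_num) h2.ne'] at h5
    have h6 : Real.log (Nat.sqrt n) ≤ Real.log (Nat.sqrt (2 * n + 1)) := by
      apply Real.log_le_log h3
      exact_mod_cast Nat.sqrt_le_sqrt (by omega : n ≤ 2 * n + 1)
    simp only [hU]
    push_cast at h5 ⊢
    linarith
  have hiter : ∀ i : ℕ, 2 ^ i * U n ≤ U (2 ^ i * (n + 1) - 1) ∧ 1 ≤ 2 ^ i * (n + 1) - 1 := by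
    intro i
    induction i with
    | zero => simp [hn]
    | succ i ih =>
      obtain ⟨h1, h2⟩ := ih
      have h3 := hstep _ h2
      have h4 : 2 * (2 ^ i * (n + 1) - 1) + 1 = 2 ^ (i + 1) * (n + 1) - 1 := by
        rw [pow_succ]
        have : 2 ^ i * 2 * (n + 1) = 2 * (2 ^ i * (n + 1)) := by ring
        rw [this]
        omega
      rw [h4] at h3
      refine ⟨?_, by omega⟩
      calc 2 ^ (i + 1) * U n = 2 * (2 ^ i * U n) := by ring
        _ ≤ 2 * U (2 ^ i * (n + 1) - 1) := by linarith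
        _ ≤ _ := h3
  have hbound : ∀ m, 1 ≤ m → U m ≤ Real.log m := by
    intro m hm
    have h1 := hup m hm
    have h2 : Real.log (Nat.sqrt m) ≤ Real.log m := by
      apply Real.log_le_log (by exact_mod_cast hsq m hm)
      exact_mod_cast Nat.sqrt_le_self m
    have h3 : 0 ≤ Real.log 2 := Real.log_nonneg (by norm_num)
    simp only [hU]
    linarith
  have hUn : U n ≤ 0 := by
    by_contra hcon
    push Not at hcon
    -- 2^i U n ≤ log (2^i (n+1)) = i log 2 + log (n+1)
    have h1 : ∀ i : ℕ, 2 ^ i * U n ≤ i * Real.log 2 + Real.log (n + 1) := by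
      intro i
      obtain ⟨h2, h3⟩ := hiter i
      have h4 := hbound _ h3
      have h5 : Real.log ((2 ^ i * (n + 1) - 1 : ℕ) : ℝ) ≤ Real.log ((2 : ℝ) ^ i * (n + 1)) := by
        apply Real.log_le_log (by exact_mod_cast h3)
        have : ((2 ^ i * (n + 1) - 1 : ℕ) : ℝ) ≤ ((2 ^ i * (n + 1) : ℕ) : ℝ) := by
          exact_mod_cast Nat.sub_le _ _
        push_cast at this
        exact this
      rw [Real.log_mul (by positivity) (by positivity), Real.log_pow] at h5
      linarith
    have h2 : Tendsto (fun i : ℕ => ((i : ℝ) * Real.log 2 + Real.log (n + 1)) / 2 ^ i) atTop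
        (𝓝 0) := by
      have ha : Tendsto (fun i : ℕ => (i : ℝ) / 2 ^ i) atTop (𝓝 0) := by
        have := tendsto_pow_const_div_const_pow_of_one_lt 1 (r := (2 : ℝ)) (by norm_num)
        simpa using this
      have hb : Tendsto (fun i : ℕ => ((1 : ℝ) / 2) ^ i) atTop (𝓝 0) :=
        tendsto_pow_atTop_nhds_zero_of_lt_one (by norm_num) (by norm_num)
      have hc := (ha.mul_const (Real.log 2)).add (hb.mul_const (Real.log (n + 1)))
      rw [zero_mul, zero_mul, add_zero] at hc
      refine hc.congr (fun i => ?_)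
      rw [one_div, inv_pow]
      field_simp
    obtain ⟨i, hi⟩ := (h2.eventually (gt_mem_nhds hcon)).exists
    rw [div_lt_iff₀ (by positivity)] at hi
    have := h1 i
    linarith
  simp only [hU] at hUn
  linarith


theorem weighted_atBot (t : ℕ → ℕ) (L : ℝ) (hL : 0 ≤ L) (hpos : ∀ n, 1 ≤ n → 1 ≤ t n)
    (hup : ∀ n : ℕ, 1 ≤ n → Real.log (t n) ≤ n * L)
    (hdbl : ∀ n, 1 ≤ n → Nat.sqrt n * t n ^ 2 ≤ 2 * t (2 * n + 1)) (c : ℝ) (hc : c < 1 / 2) :
    Tendsto (fun n : ℕ => Real.log (t n) - n * L + c * Real.log n) atTop atBot := by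
  have h1 : Tendsto (fun n : ℕ => (L + 2 * Real.log 2) - (1 / 2 - c) * Real.log n) atTop atBot := by
    have ha : Tendsto (fun n : ℕ => (1 / 2 - c) * Real.log n) atTop atTop :=
      Tendsto.const_mul_atTop (by linarith)
        (Real.tendsto_log_atTop.comp tendsto_natCast_atTop_atTop)
    have hb := (tendsto_neg_atTop_atBot.comp ha)
    have := tendsto_atBot_add_const_left atTop (L + 2 * Real.log 2) hb
    refine this.congr (fun n => ?_)
    simp only [Function.comp]
    ring
  refine tendsto_atBot_mono' _ ?_ h1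
  filter_upwards [eventually_ge_atTop 1] with n hn
  have h2 := decay t L hL hpos hup hdbl n hn
  -- sqrt n ≥ √n / 2
  have hn1 : (1 : ℝ) ≤ n := by exact_mod_cast hn
  have h3 : Real.sqrt n / 2 ≤ Nat.sqrt n := by
    have ha : Real.sqrt n < Nat.sqrt n + 1 := by
      rw [Real.sqrt_lt' (by positivity)]
      have := Nat.lt_succ_sqrt' n
      exact_mod_cast this
    have hb : (1 : ℝ) ≤ Nat.sqrt n := by
      exact_mod_cast (Nat.le_sqrt.mpr (by omega) : 1 ≤ Nat.sqrt n)
    linarith
  have h4 : Real.log (Real.sqrt n / 2) ≤ Real.log (Nat.sqrt n) := by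
    apply Real.log_le_log _ h3
    have : 0 < Real.sqrt n := Real.sqrt_pos.mpr (by linarith)
    positivity
  rw [Real.log_div (Real.sqrt_pos.mpr (by linarith)).ne' (by norm_num),
    Real.log_sqrt (by linarith)] at h4
  linarith

theorem weighted_div (t : ℕ → ℕ) (L : ℝ)
    (h0 : Tendsto (fun n : ℕ => (Real.log (t n) - n * L) / n) atTop (𝓝 0)) (c : ℝ) :
    Tendsto (fun n : ℕ => (Real.log (t n) - n * L + c * Real.log n) / n) atTop (𝓝 0) := by
  have h1 : Tendsto (fun n : ℕ => Real.log n / n) atTop (𝓝 0) := by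
    have h2 := Real.isLittleO_log_id_atTop.tendsto_div_nhds_zero
    exact h2.comp tendsto_natCast_atTop_atTop
  have h3 := h0.add (h1.const_mul c)
  rw [mul_zero, add_zero] at h3
  refine h3.congr (fun n => ?_)
  ring

/-- the hull statement in multiplicative form -/
theorem hull_mult (t : ℕ → ℕ) (hpos : ∀ n, 1 ≤ n → 1 ≤ t n)
    (hsup : ∀ m n, 1 ≤ m → 1 ≤ n → t m * t n ≤ t (m + n))
    (hexp : ∃ C : ℝ, 1 ≤ C ∧ ∀ n, 1 ≤ n → (t n : ℝ) ≤ C ^ n)
    (hdbl : ∀ n, 1 ≤ n → Nat.sqrt n * t n ^ 2 ≤ 2 * t (2 * n + 1)) (c : ℝ) (hc : c < 1 / 2)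
    (J : Set ℕ) (hJ : J.Infinite) (hJ0 : ∀ n ∈ J, 1 ≤ n) (N : ℕ) :
    ∃ n ∈ J, N ≤ n ∧ ∀ i ∈ J, ∀ m ∈ J, i < n → n < m →
      ((n : ℝ) ^ c * t n) ^ (m - i) <
        ((i : ℝ) ^ c * t i) ^ (m - n) * ((m : ℝ) ^ c * t m) ^ (n - i) := by
  obtain ⟨L, hL, h0, hup⟩ := growth t hpos hsup hexp
  obtain ⟨n, hnJ, hnN, hn⟩ := hull_vertices _ (weighted_div t L h0 c)
    (weighted_atBot t L hL hpos hup hdbl c hc) J hJ N
  refine ⟨n, hnJ, hnN, fun i hi m hm hin hnm => ?_⟩
  have h1 := hn i hi m hm hin hnm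
  have hp : ∀ j ∈ J, 0 < (j : ℝ) ^ c * t j := by
    intro j hj
    have ha : (0 : ℝ) < j := by exact_mod_cast hJ0 j hj
    have hb : (0 : ℝ) < t j := by exact_mod_cast hpos j (hJ0 j hj)
    positivity
  have hlog : ∀ j ∈ J, Real.log ((j : ℝ) ^ c * t j) = Real.log (t j) + c * Real.log j := by
    intro j hj
    have ha : (0 : ℝ) < j := by exact_mod_cast hJ0 j hj
    have hb : (0 : ℝ) < t j := by exact_mod_cast hpos j (hJ0 j hj)
    rw [Real.log_mul (by positivity) hb.ne', Real.log_rpow ha]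
    ring
  rw [← Real.log_lt_log_iff (pow_pos (hp n hnJ) _)
    (mul_pos (pow_pos (hp i hi) _) (pow_pos (hp m hm) _)),
    Real.log_mul (pow_pos (hp i hi) _).ne' (pow_pos (hp m hm) _).ne', Real.log_pow, Real.log_pow,
    Real.log_pow, hlog n hnJ, hlog i hi, hlog m hm, Nat.cast_sub (by omega : i ≤ m),
    Nat.cast_sub (by omega : n ≤ m), Nat.cast_sub (by omega : i ≤ n)]
  nlinarith [h1]

/-- bounded ratios give the far-apart inequality -/
theorem far_apart (t : ℕ → ℕ) (hpos : ∀ n, 1 ≤ n → 1 ≤ t n)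
    (hdbl : ∀ n, 1 ≤ n → Nat.sqrt n * t n ^ 2 ≤ 2 * t (2 * n + 1)) (R M : ℕ)
    (hR : ∀ m, M ≤ m → t (m + 1) ≤ R * t m) (n : ℕ) (hn : 1 ≤ n) :
    ∃ K : ℕ, ∀ k, K ≤ k → t (n + k) ^ 2 < t n * t (n + 2 * k) := by
  refine ⟨M + (2 * R ^ (n + 1) + 1) ^ 2, fun k hk => ?_⟩
  have h1 : ∀ j, t (n + 2 * k + j) ≤ R ^ j * t (n + 2 * k) := by
    intro j
    induction j with
    | zero => simp
    | succ j ih =>
      calc t (n + 2 * k + j + 1) ≤ R * t (n + 2 * k + j) := hR _ (by omega)
        _ ≤ R * (R ^ j * t (n + 2 * k)) := Nat.mul_le_mul_left _ ih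
        _ = R ^ (j + 1) * t (n + 2 * k) := by ring
  have h2 := h1 (n + 1)
  have h3 : n + 2 * k + (n + 1) = 2 * (n + k) + 1 := by ring
  rw [h3] at h2
  have h4 := hdbl (n + k) (by omega)
  have h5 : 2 * R ^ (n + 1) + 1 ≤ Nat.sqrt (n + k) := by
    rw [Nat.le_sqrt]
    nlinarith
  have h6 : (2 * R ^ (n + 1) + 1) * t (n + k) ^ 2 ≤ 2 * (R ^ (n + 1) * t (n + 2 * k)) :=
    le_trans (Nat.mul_le_mul_right _ h5) (le_trans h4 (Nat.mul_le_mul_left _ h2))
  have h7 : 0 < t (n + k) ^ 2 := by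
    have := hpos (n + k) (by omega)
    positivity
  have h8 : 1 ≤ t n := hpos n hn
  by_contra hcon
  push Not at hcon
  have h9 : t (n + 2 * k) ≤ t (n + k) ^ 2 := le_trans (by nlinarith) hcon
  nlinarith [Nat.mul_le_mul_left (2 * R ^ (n + 1)) h9]

/-- the right-minima theorem with the quantitative gap -/
theorem right_min_quant (t : ℕ → ℕ) (hpos : ∀ n, 1 ≤ n → 1 ≤ t n) (L : ℝ) (hL : 0 ≤ L)
    (hup : ∀ n : ℕ, 1 ≤ n → Real.log (t n) ≤ n * L)
    (hdbl : ∀ n, 1 ≤ n → Nat.sqrt n * t n ^ 2 ≤ 2 * t (2 * n + 1))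
    (hratio : Tendsto (fun n : ℕ => (t (n + 1) : ℝ) / t n) atTop (𝓝 (Real.exp L)))
    (c : ℝ) (hc : c < 1 / 2) (N : ℕ) :
    ∃ n, N ≤ n ∧ (n : ℝ) * (Real.exp L - t (n + 1) / t n) > c * Real.exp L ∧
      ∀ m, n < m → (t (n + 1) : ℝ) / t n < t (m + 1) / t m := by
  classical
  -- choose max c 0 < d < 1/2
  set c' : ℝ := max c 0 with hc'
  have hc'0 : 0 ≤ c' := le_max_right _ _
  have hc'1 : c' < 1 / 2 := max_lt hc (by norm_num)
  set d : ℝ := (c' + 1 / 2) / 2 with hd
  have hd0 : 0 < d := by rw [hd]; linarith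
  have hcd : c' < d := by rw [hd]; linarith
  have hd1 : d < 1 / 2 := by rw [hd]; linarith
  have hbot := weighted_atBot t L hL hpos hup hdbl d hd1
  -- large index threshold
  obtain ⟨N1, hN1⟩ := exists_nat_gt ((d + 1) ^ 2 / (d - c') + 1)
  have hE : 0 < Real.exp L := Real.exp_pos L
  -- infinitely many j with small ratio
  have hex : ∃ j, N + N1 + 1 ≤ j ∧ Real.log (t (j + 1)) - Real.log (t j) - L < -(d / (j + 1)) := by
    by_contra hcon
    push Not at hcon
    have hmono : ∀ j, Real.log (t (N + N1 + 1)) - ((N + N1 + 1 : ℕ) : ℝ) * L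
        + d * Real.log ((N + N1 + 1 : ℕ) : ℝ) ≤
        Real.log (t (N + N1 + 1 + j)) - ((N + N1 + 1 + j : ℕ) : ℝ) * L
          + d * Real.log ((N + N1 + 1 + j : ℕ) : ℝ) := by
      intro j
      induction j with
      | zero => simp
      | succ j ih =>
        refine le_trans ih ?_
        have h1 := hcon (N + N1 + 1 + j) (by omega)
        have h2 : N + N1 + 1 + (j + 1) = (N + N1 + 1 + j) + 1 := rfl
        rw [h2]
        set p := N + N1 + 1 + j with hp
        have hp0 : (0 : ℝ) < p := by exact_mod_cast (by omega : 0 < p)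
        have h3 : 1 / ((p : ℝ) + 1) ≤ Real.log ((p + 1 : ℕ) : ℝ) - Real.log p := by
          push_cast
          rw [← Real.log_div (by positivity) hp0.ne']
          have h4 := Real.one_sub_inv_le_log_of_pos (x := ((p : ℝ) + 1) / p) (by positivity)
          have h5 : 1 - (((p : ℝ) + 1) / p)⁻¹ = 1 / ((p : ℝ) + 1) := by
            field_simp
            ring
          rwa [h5] at h4
        have h6 : d * (1 / ((p : ℝ) + 1)) ≤ d * (Real.log ((p + 1 : ℕ) : ℝ) - Real.log p) :=
          mul_le_mul_of_nonneg_left h3 hd0.le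
        have h7 : d / ((p : ℝ) + 1) = d * (1 / ((p : ℝ) + 1)) := by ring
        push_cast at h6 h1 ⊢
        linarith
    have h1 := (hbot.eventually (eventually_lt_atBot (Real.log (t (N + N1 + 1)) -
      ((N + N1 + 1 : ℕ) : ℝ) * L + d * Real.log ((N + N1 + 1 : ℕ) : ℝ)))).exists_forall_of_atTop
    obtain ⟨M, hM⟩ := h1
    have h2 := hM (N + N1 + 1 + M) (by omega)
    have h3 := hmono M
    linarith
  obtain ⟨j, hj, hjlt⟩ := hex
  -- turn into a bound for the ratio
  have htj : ∀ n, 1 ≤ n → (0 : ℝ) < t n := fun n hn => by exact_mod_cast hpos n hn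
  have hrj : (t (j + 1) : ℝ) / t j < Real.exp L * Real.exp (-(d / (j + 1))) := by
    have h1 : Real.log ((t (j + 1) : ℝ) / t j) < L + -(d / (j + 1)) := by
      rw [Real.log_div (htj _ (by omega)).ne' (htj _ (by omega)).ne']
      linarith
    rw [← Real.exp_add, ← Real.log_lt_iff_lt_exp (div_pos (htj _ (by omega)) (htj _ (by omega)))]
    exact h1
  have hrjE : (t (j + 1) : ℝ) / t j < Real.exp L := by
    refine lt_trans hrj ?_
    have h1 : Real.exp (-(d / ((j : ℝ) + 1))) < 1 := by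
      rw [Real.exp_lt_one_iff]
      have : 0 < d / ((j : ℝ) + 1) := by positivity
      linarith
    nlinarith
  -- the last minimiser beyond j
  obtain ⟨M, hM⟩ := (hratio.eventually (lt_mem_nhds hrjE)).exists_forall_of_atTop
  set C : Finset ℕ := (Finset.range (M + j + 1)).filter (fun i => j ≤ i) with hC
  have hjC : j ∈ C := by
    rw [hC, Finset.mem_filter, Finset.mem_range]; exact ⟨by omega, le_rfl⟩
  obtain ⟨n0, hn0C, hn0⟩ := C.exists_min_image (fun i => (t (i + 1) : ℝ) / t i) ⟨j, hjC⟩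
  set D : Finset ℕ := C.filter (fun i => (t (i + 1) : ℝ) / t i = t (n0 + 1) / t n0) with hD
  have hn0D : n0 ∈ D := by rw [hD, Finset.mem_filter]; exact ⟨hn0C, rfl⟩
  obtain ⟨n, hnD, hn⟩ := D.exists_max_image (fun i => i) ⟨n0, hn0D⟩
  have hnC : n ∈ C := (Finset.mem_filter.mp hnD).1
  have hnv : (t (n + 1) : ℝ) / t n = t (n0 + 1) / t n0 := (Finset.mem_filter.mp hnD).2
  have hnj : j ≤ n := (Finset.mem_filter.mp hnC).2
  have hnle : (t (n + 1) : ℝ) / t n ≤ t (j + 1) / t j := by rw [hnv]; exact hn0 j hjC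
  refine ⟨n, by omega, ?_, fun m hm => ?_⟩
  · -- quantitative gap
    have hn1 : (0 : ℝ) < n := by exact_mod_cast (by omega : 0 < n)
    have h1 : (t (n + 1) : ℝ) / t n < Real.exp L * Real.exp (-(d / (n + 1))) := by
      refine lt_of_le_of_lt hnle (lt_of_lt_of_le hrj ?_)
      apply mul_le_mul_of_nonneg_left _ hE.le
      apply Real.exp_le_exp.mpr
      have : d / ((n : ℝ) + 1) ≤ d / ((j : ℝ) + 1) := by
        apply div_le_div_of_nonneg_left hd0.le (by positivity)
        have : (j : ℝ) ≤ n := by exact_mod_cast hnj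
        linarith
      linarith
    -- exp(-x) ≤ 1 - x + x^2 for x ∈ [0,1]
    have hx0 : 0 < d / ((n : ℝ) + 1) := by positivity
    have hx1 : d / ((n : ℝ) + 1) < 1 := by
      rw [div_lt_one (by positivity)]; linarith
    have h2 : Real.exp (-(d / ((n : ℝ) + 1))) ≤ 1 / (1 + d / ((n : ℝ) + 1)) := by
      rw [Real.exp_neg, ← one_div]
      apply one_div_le_one_div_of_le (by positivity)
      have := Real.add_one_le_exp (d / ((n : ℝ) + 1))
      linarith
    have h3 : 1 / (1 + d / ((n : ℝ) + 1)) = ((n : ℝ) + 1) / (n + 1 + d) := by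
      field_simp
    rw [h3] at h2
    have hbig : (d + 1) ^ 2 / (d - c') + 1 < n := by
      refine lt_of_lt_of_le hN1 ?_
      exact_mod_cast (by omega : N1 ≤ n)
    have hbig2 : (d + 1) ^ 2 < (d - c') * (n - 1) := by
      have : (d + 1) ^ 2 / (d - c') < n - 1 := by linarith
      rwa [div_lt_iff₀ (by linarith), mul_comm] at this
    have h4 : (n : ℝ) * (1 - ((n : ℝ) + 1) / (n + 1 + d)) > c' := by
      have h5 : 1 - ((n : ℝ) + 1) / (n + 1 + d) = d / (n + 1 + d) := by
        field_simp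
        ring
      rw [h5, gt_iff_lt, ← mul_div_assoc, lt_div_iff₀ (by positivity)]
      nlinarith
    have h6 : (n : ℝ) * (Real.exp L - t (n + 1) / t n) >
        Real.exp L * ((n : ℝ) * (1 - ((n : ℝ) + 1) / (n + 1 + d))) := by
      have h7 : (t (n + 1) : ℝ) / t n < Real.exp L * (((n : ℝ) + 1) / (n + 1 + d)) :=
        lt_of_lt_of_le h1 (mul_le_mul_of_nonneg_left h2 hE.le)
      have h8 : Real.exp L * (1 - ((n : ℝ) + 1) / (n + 1 + d)) < Real.exp L - t (n + 1) / t n := by
        linarith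
      have h9 := mul_lt_mul_of_pos_left h8 hn1
      calc Real.exp L * ((n : ℝ) * (1 - ((n : ℝ) + 1) / (n + 1 + d)))
          = (n : ℝ) * (Real.exp L * (1 - ((n : ℝ) + 1) / (n + 1 + d))) := by ring
        _ < _ := h9
    have h10 : c ≤ c' := le_max_left _ _
    have h11 := mul_lt_mul_of_pos_left h4 hE
    have h12 := mul_le_mul_of_nonneg_left h10 hE.le
    linarith
  · by_cases hmC : m ∈ C
    · rcases lt_or_eq_of_le (hn0 m hmC) with h | h
      · rw [hnv]; exact h
      · exfalso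
        have hmD : m ∈ D := by rw [hD, Finset.mem_filter]; exact ⟨hmC, h.symm⟩
        have := hn m hmD
        omega
    · have hm2 : M ≤ m := by
        by_contra hlt
        apply hmC
        rw [hC, Finset.mem_filter, Finset.mem_range]
        exact ⟨by omega, by omega⟩
      have h5 := hM m hm2
      exact lt_of_le_of_lt hnle h5

/-- the pattern-theorem estimate, analytic part -/
theorem bad_small (t : ℕ → ℕ) (hpos : ∀ n, 1 ≤ n → 1 ≤ t n) (L : ℝ) (hL : 0 ≤ L)
    (hup : ∀ n : ℕ, 1 ≤ n → Real.log (t n) ≤ n * L)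
    (h0 : Tendsto (fun n : ℕ => (Real.log (t n) - n * L) / n) atTop (𝓝 0))
    (B : ℕ → ℕ → ℕ)
    (hB : ∀ u n, 1 ≤ n → B u n * Nat.choose (n / 9 - u) u ≤
      2 ^ (11 * u) * ∑ k ∈ Finset.range (n + 8 * u + 1), k * t k) :
    ∃ q : ℕ, 1 ≤ q ∧ ∀ᶠ n : ℕ in atTop, n ^ 3 * B (n / q) n ≤ t n := by
  set A : ℝ := 18 * 2 ^ 11 * Real.exp L ^ 8 * Real.exp 1 with hA
  have hE1 : 1 ≤ Real.exp L := Real.one_le_exp hL
  obtain ⟨q, hq⟩ := exists_nat_gt (A + 36)
  have hA0 : 0 < A := by positivity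
  have hq36 : 36 ≤ q := by
    have : (36 : ℝ) < q := by linarith
    exact_mod_cast this.le
  have hq0 : (0 : ℝ) < q := by linarith
  refine ⟨q, by omega, ?_⟩
  -- growth facts
  have e1 : ∀ᶠ n : ℕ in atTop, (n : ℝ) * L - n / (2 * q) ≤ Real.log (t n) := by
    have h1 : ∀ᶠ n : ℕ in atTop, -(1 / (2 * (q : ℝ))) < (Real.log (t n) - n * L) / n :=
      h0.eventually (lt_mem_nhds (by have : 0 < 1 / (2 * (q : ℝ)) := by positivity
                                     linarith))
    filter_upwards [h1, eventually_gt_atTop 0] with n hn hn0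
    have hn1 : (0 : ℝ) < n := by exact_mod_cast hn0
    rw [lt_div_iff₀ hn1] at hn
    have : -(1 / (2 * (q : ℝ))) * n = -(n / (2 * q)) := by ring
    linarith
  have e2 : ∀ᶠ n : ℕ in atTop, 7 * Real.log (10 * n) + 2 ≤ n / (2 * q) := by
    have h2 : Tendsto (fun n : ℕ => Real.log n / n) atTop (𝓝 0) :=
      (Real.isLittleO_log_id_atTop.tendsto_div_nhds_zero).comp tendsto_natCast_atTop_atTop
    have h3 : Tendsto (fun n : ℕ => (7 * Real.log 10 + 2) / (n : ℝ)) atTop (𝓝 0) :=
      tendsto_const_nhds.div_atTop tendsto_natCast_atTop_atTop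
    have h4 := (h2.const_mul 7).add h3
    rw [mul_zero, add_zero] at h4
    have h5 : ∀ᶠ n : ℕ in atTop, 7 * (Real.log n / n) + (7 * Real.log 10 + 2) / n < 1 / (2 * q) :=
      h4.eventually (gt_mem_nhds (by positivity))
    filter_upwards [h5, eventually_gt_atTop 0] with n hn hn0
    have hn1 : (0 : ℝ) < n := by exact_mod_cast hn0
    rw [Real.log_mul (by norm_num) hn1.ne']
    have h6 : 7 * (Real.log n / n) + (7 * Real.log 10 + 2) / n =
        (7 * (Real.log 10 + Real.log n) + 2) / n := by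
      field_simp
      ring
    rw [h6, div_lt_iff₀ hn1] at hn
    have h7 : 1 / (2 * (q : ℝ)) * n = n / (2 * q) := by ring
    rw [h7] at hn
    exact hn.le
  filter_upwards [e1, e2, eventually_ge_atTop q] with n h1 h2 hnq
  have hn0 : (0 : ℝ) < n := by exact_mod_cast (by omega : 0 < n)
  have hn1 : (1 : ℝ) ≤ n := by exact_mod_cast (by omega : 1 ≤ n)
  set u : ℕ := n / q with hu
  have hu1 : 1 ≤ u := by
    rw [hu]; exact (Nat.one_le_div_iff (by omega)).mpr hnq
  have hqu : q * u ≤ n := Nat.mul_div_le n q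
  have hun : n < q * (u + 1) := by
    rw [hu]; exact Nat.lt_mul_div_succ n (by omega)
  by_cases hBz : B u n = 0
  · rw [hBz, mul_zero]; exact Nat.zero_le _
  have hBpos : (0 : ℝ) < B u n := by exact_mod_cast Nat.pos_of_ne_zero hBz
  -- binomial lower bound
  have hch : ((q : ℝ) / 18) ^ u ≤ Nat.choose (n / 9 - u) u := by
    have h3 := Nat.pow_le_choose (α := ℝ) u (n / 9 - u)
    have h4 : (u.factorial : ℝ) ≤ (u : ℝ) ^ u := by exact_mod_cast Nat.factorial_le_pow u
    have h5 : (q : ℝ) / 18 * u ≤ ((n / 9 - u + 1 - u : ℕ) : ℝ) := by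
      have h6 : n ≤ 9 * (n / 9) + 8 := by omega
      have h7 : 36 * u ≤ n := le_trans (Nat.mul_le_mul_right u hq36) hqu
      have h8 : (q * u : ℕ) ≤ 18 * (n / 9 - u + 1 - u) := by omega
      have h9 : ((q * u : ℕ) : ℝ) ≤ ((18 * (n / 9 - u + 1 - u) : ℕ) : ℝ) := by exact_mod_cast h8
      rw [Nat.cast_mul, Nat.cast_mul] at h9
      push_cast at h9
      linarith
    have h6 : ((q : ℝ) / 18 * u) ^ u ≤ (u : ℝ) ^ u * Nat.choose (n / 9 - u) u := by
      calc ((q : ℝ) / 18 * u) ^ u ≤ (((n / 9 - u + 1 - u : ℕ) : ℝ)) ^ u :=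
            pow_le_pow_left₀ (by positivity) h5 u
        _ ≤ (u.factorial : ℝ) * Nat.choose (n / 9 - u) u := by
            rw [div_le_iff₀ (by exact_mod_cast Nat.factorial_pos u)] at h3
            rw [mul_comm]
            exact h3
        _ ≤ _ := mul_le_mul_of_nonneg_right h4 (by positivity)
    rw [mul_pow, mul_comm] at h6
    have hu0 : (0 : ℝ) < (u : ℝ) ^ u := by
      have : (0 : ℝ) < u := by exact_mod_cast hu1
      positivity
    exact le_of_mul_le_mul_left h6 hu0
  -- the sum bound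
  have hsum : ((∑ k ∈ Finset.range (n + 8 * u + 1), k * t k : ℕ) : ℝ) ≤
      (10 * n) ^ 2 * (Real.exp L ^ (n + 8 * u)) := by
    have hb : ∀ k ∈ Finset.range (n + 8 * u + 1), ((k * t k : ℕ) : ℝ) ≤
        (10 * n) * (Real.exp L ^ (n + 8 * u)) := by
      intro k hk
      rw [Finset.mem_range] at hk
      by_cases hk0 : k = 0
      · subst hk0
        simp only [zero_mul, Nat.cast_zero]
        positivity
      · have hk1 : 1 ≤ k := by omega
        have ht : (t k : ℝ) ≤ Real.exp L ^ (n + 8 * u) := by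
          have h3 : (0 : ℝ) < t k := by exact_mod_cast hpos k hk1
          have h4 : (t k : ℝ) ≤ Real.exp L ^ k := by
            rw [← Real.exp_nat_mul, ← Real.log_le_iff_le_exp h3]
            exact hup k hk1
          exact le_trans h4 (pow_le_pow_right₀ hE1 (by omega))
        have hkn : (k : ℝ) ≤ 10 * n := by
          have hun' : u ≤ n := Nat.div_le_self n q
          exact_mod_cast (by omega : k ≤ 10 * n)
        push_cast
        exact mul_le_mul hkn ht (by positivity) (by positivity)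
    have h3 := Finset.sum_le_sum hb
    rw [Finset.sum_const, Finset.card_range, nsmul_eq_mul] at h3
    rw [Nat.cast_sum]
    refine le_trans h3 ?_
    have h4 : ((n + 8 * u + 1 : ℕ) : ℝ) ≤ 10 * n := by
      have h7 : 36 * u ≤ n := le_trans (Nat.mul_le_mul_right u hq36) hqu
      exact_mod_cast (by omega : n + 8 * u + 1 ≤ 10 * n)
    calc ((n + 8 * u + 1 : ℕ) : ℝ) * (10 * n * Real.exp L ^ (n + 8 * u))
        ≤ 10 * n * (10 * n * Real.exp L ^ (n + 8 * u)) :=
          mul_le_mul_of_nonneg_right h4 (by positivity)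
      _ = _ := by ring
  have hmain : (B u n : ℝ) * ((q : ℝ) / 18) ^ u ≤
      2 ^ (11 * u) * ((10 * n) ^ 2 * (Real.exp L ^ (n + 8 * u))) := by
    have h3 : ((B u n * Nat.choose (n / 9 - u) u : ℕ) : ℝ) ≤
        ((2 ^ (11 * u) * ∑ k ∈ Finset.range (n + 8 * u + 1), k * t k : ℕ) : ℝ) := by
      exact_mod_cast hB u n (by omega)
    rw [Nat.cast_mul, Nat.cast_mul, Nat.cast_pow] at h3
    calc (B u n : ℝ) * ((q : ℝ) / 18) ^ u ≤ (B u n : ℝ) * Nat.choose (n / 9 - u) u :=
          mul_le_mul_of_nonneg_left hch hBpos.le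
      _ ≤ _ := h3
      _ ≤ _ := by
          push_cast
          push_cast at hsum
          exact mul_le_mul_of_nonneg_left hsum (by positivity)
  -- rewrite: B ≤ (10 n)^2 exp(L n) * (2^11 exp(L)^8 * 18 / q)^u
  have hfac : (2 : ℝ) ^ 11 * Real.exp L ^ 8 ≤ (q : ℝ) / 18 * Real.exp (-1) := by
    rw [Real.exp_neg]
    have h3 : A ≤ q := by linarith
    rw [hA] at h3
    have h4 : 0 < Real.exp 1 := Real.exp_pos 1
    rw [← div_eq_mul_inv, le_div_iff₀ h4]
    linarith
  have hmain2 : (B u n : ℝ) ≤ (10 * n) ^ 2 * Real.exp L ^ n * Real.exp (-1) ^ u := by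
    have hq18 : 0 < ((q : ℝ) / 18) ^ u := by positivity
    have h3 : 2 ^ (11 * u) * ((10 * n) ^ 2 * (Real.exp L ^ (n + 8 * u))) =
        (10 * (n : ℝ)) ^ 2 * Real.exp L ^ n * ((2 : ℝ) ^ 11 * Real.exp L ^ 8) ^ u := by
      rw [mul_pow (2 ^ 11 : ℝ), ← pow_mul, ← pow_mul, pow_add]
      ring
    rw [h3] at hmain
    have h4 : ((2 : ℝ) ^ 11 * Real.exp L ^ 8) ^ u ≤ ((q : ℝ) / 18 * Real.exp (-1)) ^ u :=
      pow_le_pow_left₀ (by positivity) hfac u
    rw [mul_pow ((q : ℝ) / 18)] at h4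
    have h5 : (B u n : ℝ) * ((q : ℝ) / 18) ^ u ≤
        ((10 * n) ^ 2 * Real.exp L ^ n * Real.exp (-1) ^ u) * ((q : ℝ) / 18) ^ u := by
      refine le_trans hmain ?_
      calc (10 * (n : ℝ)) ^ 2 * Real.exp L ^ n * ((2 : ℝ) ^ 11 * Real.exp L ^ 8) ^ u
          ≤ (10 * (n : ℝ)) ^ 2 * Real.exp L ^ n *
            (((q : ℝ) / 18) ^ u * Real.exp (-1) ^ u) :=
            mul_le_mul_of_nonneg_left h4 (by positivity)
        _ = _ := by ring
    exact le_of_mul_le_mul_right h5 hq18
  -- logs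
  have htn : (0 : ℝ) < t n := by exact_mod_cast hpos n (by omega)
  have hgoal : Real.log ((n : ℝ) ^ 3 * B u n) ≤ Real.log (t n) := by
    have h10n : (0 : ℝ) < 10 * n := by positivity
    have h3 : Real.log (B u n) ≤ 2 * Real.log (10 * n) + n * L - u := by
      have h4 := Real.log_le_log hBpos hmain2
      rw [Real.log_mul (by positivity) (by positivity), Real.log_mul (by positivity) (by positivity),
        Real.log_pow, Real.log_pow, Real.log_pow, Real.log_exp, Real.log_exp] at h4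
      push_cast at h4
      linarith
    rw [Real.log_mul (by positivity) hBpos.ne', Real.log_pow]
    have h5 : Real.log n ≤ Real.log (10 * n) := Real.log_le_log hn0 (by linarith)
    have h6 : 0 ≤ Real.log (10 * n) := Real.log_nonneg (by linarith)
    have h7 : (n : ℝ) / q - 1 ≤ u := by
      have h8 : (n : ℝ) < q * (u + 1) := by exact_mod_cast hun
      have h9 : (n : ℝ) / q < u + 1 := by
        rw [div_lt_iff₀ hq0, mul_comm]; exact h8
      linarith
    have h8 : (n : ℝ) / q = n / (2 * q) + n / (2 * q) := by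
      field_simp
      ring
    push_cast
    linarith
  have h3 := (Real.log_le_log_iff (by positivity) htn).mp hgoal
  exact_mod_cast h3

/-- from the Kesten-type inequality to the ratio limit -/
theorem ratio_tendsto (t : ℕ → ℕ) (hpos : ∀ n, 1 ≤ n → 1 ≤ t n) (L : ℝ)
    (h0 : Tendsto (fun n : ℕ => (Real.log (t n) - n * L) / n) atTop (𝓝 0))
    (slope : ∀ (f : ℕ → ℝ), Tendsto (fun n : ℕ => f n / n) atTop (𝓝 0) → ∀ D : ℝ,
      (∀ᶠ n : ℕ in atTop, (f (n + 1) - f n) - D / n ≤ f (n + 2) - f (n + 1)) →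
      Tendsto (fun n => f (n + 1) - f n) atTop (𝓝 0))
    (D : ℝ) (hD : 0 ≤ D)
    (hK : ∀ᶠ n : ℕ in atTop, (t (n + 1) : ℝ) ^ 2 * (1 - D / n) ≤ t n * t (n + 2)) :
    Tendsto (fun n : ℕ => (t (n + 1) : ℝ) / t n) atTop (𝓝 (Real.exp L)) := by
  have h1 := slope (fun n => Real.log (t n) - n * L) h0 (2 * D) (by
    obtain ⟨M, hM⟩ := exists_nat_gt (2 * D)
    filter_upwards [hK, eventually_ge_atTop (M + 1)] with n hn hnM
    have hn0 : (0 : ℝ) < n := by exact_mod_cast (by omega : 0 < n)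
    have hnM' : (M : ℝ) ≤ n := by exact_mod_cast (by omega : M ≤ n)
    have ha : (0 : ℝ) < t n := by exact_mod_cast hpos n (by omega)
    have hb : (0 : ℝ) < t (n + 1) := by exact_mod_cast hpos (n + 1) (by omega)
    have hc : (0 : ℝ) < t (n + 2) := by exact_mod_cast hpos (n + 2) (by omega)
    have hx : D / n ≤ 1 / 2 := by
      rw [div_le_iff₀ hn0]; linarith
    have hx0 : 0 ≤ D / n := by positivity
    have h2 := Real.log_le_log (by
      have : 0 < 1 - D / n := by linarith
      positivity) hn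
    rw [Real.log_mul (by positivity) (by linarith), Real.log_pow, Real.log_mul ha.ne' hc.ne'] at h2
    have h3 : -(2 * D / n) ≤ Real.log (1 - D / n) := by
      have h4 := Real.one_sub_inv_le_log_of_pos (x := 1 - D / n) (by linarith)
      have h5 : -(2 * D / n) ≤ 1 - (1 - D / n)⁻¹ := by
        have h6 : (1 - D / n)⁻¹ ≤ 1 + 2 * (D / n) := by
          rw [inv_le_comm₀ (by linarith) (by positivity)]
          rw [inv_le_iff_one_le_mul₀ (by positivity)]
          nlinarith
        have h7 : 2 * D / n = 2 * (D / n) := by ring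
        linarith
      linarith
    push_cast at h2 ⊢
    linarith)
  have h2 : Tendsto (fun n : ℕ => Real.exp ((Real.log (t (n + 1)) - ((n + 1 : ℕ) : ℝ) * L) -
      (Real.log (t n) - n * L) + L)) atTop (𝓝 (Real.exp (0 + L))) :=
    (Real.continuous_exp.tendsto _).comp (h1.add_const L)
  rw [zero_add] at h2
  refine h2.congr' ?_
  filter_upwards [eventually_ge_atTop 1] with n hn
  have ha : (0 : ℝ) < t n := by exact_mod_cast hpos n hn
  have hb : (0 : ℝ) < t (n + 1) := by exact_mod_cast hpos (n + 1) (by omega)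
  have h3 : (Real.log (t (n + 1)) - ((n + 1 : ℕ) : ℝ) * L) - (Real.log (t n) - n * L) + L =
      Real.log ((t (n + 1) : ℝ) / t n) := by
    rw [Real.log_div hb.ne' ha.ne']
    push_cast
    ring
  rw [h3, Real.exp_log (div_pos hb ha)]

end Pool.Agent.Work.MP_56ddc0_co.RatioAbs
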