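import Pool.Agent.Work.MP_56ddc0_co.H55Roots

set_option autoImplicit false

namespace Pool.Agent.Work.MP_56ddc0_co.RatioAbs

open Filter Topology

/-- the slopes at distance `C n²` beat the average slope up to `n` -/
theorem slope_root (f : ℕ → ℝ) (hneg : ∀ n : ℕ, 1 ≤ n → f n < 0) (B : ℝ) (hB : 0 < B)
    (hrate : ∀ n : ℕ, 1 ≤ n → |f (n + 1) - f n| ≤ B * (1 + Real.log n) / Real.sqrt n) (C : ℝ)
    (hup : ∀ n : ℕ, 1 ≤ n → f n ≤ C - Real.log n / 2) :
    ∃ c : ℝ, 0 < c ∧ ∀ n m : ℕ, 1 ≤ n → c * n ^ 2 ≤ m → f n < n * (f (m + 1) - f m) := by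
  -- a decay function
  have hq : Tendsto (fun m : ℕ => B * (1 + Real.log m) / Real.sqrt m) atTop (𝓝 0) := by
    have h1 : Tendsto (fun m : ℕ => (Real.sqrt m)) atTop atTop :=
      Real.tendsto_sqrt_atTop.comp tendsto_natCast_atTop_atTop
    have h2 : Tendsto (fun y : ℝ => Real.log y ^ 1 / (1 * y + 0)) atTop (𝓝 0) :=
      Real.tendsto_pow_log_div_mul_add_atTop 1 0 1 one_ne_zero
    have h3 : Tendsto (fun m : ℕ => B * (1 / Real.sqrt m + 2 * (Real.log (Real.sqrt m) ^ 1 /
        (1 * Real.sqrt m + 0)))) atTop (𝓝 (B * (0 + 2 * 0))) :=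
      ((((tendsto_const_nhds (x := (1 : ℝ))).div_atTop h1).add
        ((h2.comp h1).const_mul 2)).const_mul B)
    simp only [mul_zero, add_zero] at h3
    refine h3.congr' ?_
    filter_upwards [eventually_ge_atTop 1] with m hm
    rw [Real.log_sqrt (Nat.cast_nonneg m)]
    field_simp
  obtain ⟨N0, hN0⟩ := (((Real.tendsto_log_atTop.comp tendsto_natCast_atTop_atTop).eventually
    (eventually_ge_atTop (max (4 * C) 1))).and (eventually_ge_atTop 3)).exists_forall_of_atTop
  set d : ℝ := 80 * B + 1 with hd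
  have hd0 : 0 < d := by positivity
  have hlarge : ∀ n m : ℕ, N0 ≤ n → d ^ 4 * n ^ 2 ≤ m → f n < n * (f (m + 1) - f m) := by
    intro n m hn hm
    obtain ⟨e1, e2⟩ := hN0 n hn
    simp only [Function.comp] at e1
    have e3 : 4 * C ≤ Real.log n := le_trans (le_max_left _ _) e1
    have e4 : 1 ≤ Real.log n := le_trans (le_max_right _ _) e1
    have hn0 : (0 : ℝ) < n := by exact_mod_cast (by omega : 0 < n)
    have hfn : f n ≤ -(Real.log n / 4) := by
      have := hup n (by omega)
      linarith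
    have hm0 : (0 : ℝ) < m := lt_of_lt_of_le (by positivity) hm
    have h1 := (abs_le.mp (hrate m (by exact_mod_cast hm0))).1
    have hs0 : 0 < Real.sqrt m := Real.sqrt_pos.mpr hm0
    -- w = √m / n ≥ d²
    set w : ℝ := Real.sqrt m / n with hw
    have hw0 : 0 < w := div_pos hs0 hn0
    have hsw : Real.sqrt m = n * w := by rw [hw]; field_simp
    have hwd : d ^ 2 ≤ w := by
      rw [hw, le_div_iff₀ hn0]
      apply Real.le_sqrt_of_sq_le
      calc (d ^ 2 * (n : ℝ)) ^ 2 = d ^ 4 * (n : ℝ) ^ 2 := by ring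
        _ ≤ (m : ℝ) := hm
    -- log m = 2 log n + 2 log w
    have hlogm : Real.log m = 2 * (Real.log n + Real.log w) := by
      rw [← Real.log_mul hn0.ne' hw0.ne', ← hsw, Real.log_sqrt hm0.le]; ring
    -- log w ≤ 2 √w
    have hww : 0 < Real.sqrt w := Real.sqrt_pos.mpr hw0
    have hlogw : Real.log w ≤ 2 * Real.sqrt w := by
      have h2 := Real.log_le_sub_one_of_pos hww
      rw [Real.log_sqrt hw0.le] at h2
      linarith
    have hwsq : Real.sqrt w * Real.sqrt w = w := Real.mul_self_sqrt hw0.le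
    have hdw : d ≤ Real.sqrt w := Real.le_sqrt_of_sq_le hwd
    have hd1 : 1 ≤ d := by rw [hd]; linarith
    -- B (1 + log m) < w log n / 4
    have h2 : B * (1 + Real.log m) < w * Real.log n / 4 := by
      rw [hlogm]
      have h3 : B * (1 + 2 * (Real.log n + Real.log w)) ≤
          B * (3 * Real.log n + 4 * Real.sqrt w) :=
        mul_le_mul_of_nonneg_left (by linarith) hB.le
      have h4 : 80 * B < Real.sqrt w := by linarith
      have h5 : B * (3 * Real.log n) ≤ w * Real.log n / 20 := by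
        have : 80 * B ≤ w := by nlinarith
        nlinarith
      have h6 : B * (4 * Real.sqrt w) ≤ w * Real.log n / 20 := by
        have : 80 * B * Real.sqrt w ≤ w := by
          calc 80 * B * Real.sqrt w ≤ Real.sqrt w * Real.sqrt w :=
                mul_le_mul_of_nonneg_right h4.le hww.le
            _ = w := hwsq
        nlinarith
      have h7 : 0 < w * Real.log n := by positivity
      linarith
    have h3 : (n : ℝ) * (B * (1 + Real.log m) / Real.sqrt m) < Real.log n / 4 := by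
      rw [hsw, mul_div_assoc', div_lt_iff₀ (by positivity)]
      nlinarith
    have h4 : (n : ℝ) * (-(B * (1 + Real.log m) / Real.sqrt m)) ≤ n * (f (m + 1) - f m) :=
      mul_le_mul_of_nonneg_left h1 hn0.le
    linarith
  have hsmall : ∀ n : ℕ, ∃ M : ℕ, 1 ≤ n → ∀ m : ℕ, M ≤ m → f n < n * (f (m + 1) - f m) := by
    intro n
    by_cases hn : 1 ≤ n
    · have hn0 : (0 : ℝ) < n := by exact_mod_cast hn
      have h1 : 0 < -(f n) / n := div_pos (by linarith [hneg n hn]) hn0
      obtain ⟨M, hM⟩ := (hq.eventually (gt_mem_nhds h1)).exists_forall_of_atTop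
      refine ⟨M + 1, fun _ m hm => ?_⟩
      have h2 := hM m (by omega)
      have h3 := (abs_le.mp (hrate m (by omega))).1
      rw [lt_div_iff₀ hn0] at h2
      nlinarith
    · exact ⟨0, fun h => absurd h hn⟩
  choose M hM using hsmall
  set c2 : ℝ := ∑ n ∈ Finset.range N0, (M n : ℝ) with hc2
  have hc20 : 0 ≤ c2 := Finset.sum_nonneg (fun _ _ => Nat.cast_nonneg _)
  refine ⟨d ^ 4 + c2, by positivity, fun n m hn hm => ?_⟩
  have hn0 : (1 : ℝ) ≤ n := by exact_mod_cast hn
  have hn2 : (1 : ℝ) ≤ (n : ℝ) ^ 2 := by nlinarith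
  rcases Nat.lt_or_ge n N0 with hlt | hge
  · apply hM n hn m
    have h1 := Finset.single_le_sum (f := fun n => (M n : ℝ)) (fun _ _ => Nat.cast_nonneg _)
      (Finset.mem_range.mpr hlt)
    have h5 : 0 ≤ d ^ 4 := by positivity
    have h4 : (M n : ℝ) ≤ m := by
      calc (M n : ℝ) ≤ d ^ 4 + c2 := by linarith
        _ ≤ (d ^ 4 + c2) * n ^ 2 := by nlinarith
        _ ≤ m := hm
    exact_mod_cast h4
  · apply hlarge n m hge
    refine le_trans ?_ hm
    nlinarith

end Pool.Agent.Work.MP_56ddc0_co.RatioAbs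

namespace Pool.Agent.Work.MP_56ddc0_co.Anim

open Filter Topology RatioAbs

theorem tn_neg (L : ℝ) (hL : 0 ≤ L) (hup : ∀ n : ℕ, 1 ≤ n → Real.log (tn n) ≤ n * L) :
    ∀ n : ℕ, 1 ≤ n → Real.log (tn n) - n * L < 0 := by
  have hbot := weighted_atBot tn L hL tn_pos hup (fun n _ => doubling n) 0 (by norm_num)
  intro n hn
  by_contra hcon
  push Not at hcon
  have hmul : ∀ k : ℕ, 1 ≤ k → 0 ≤ Real.log (tn (k * n)) - ((k * n : ℕ) : ℝ) * L := by
    intro k hk
    induction k, hk using Nat.le_induction with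
    | base => rw [one_mul]; exact hcon
    | succ k hk ih =>
      have hkn : 1 ≤ k * n := Nat.mul_pos hk hn
      have h1 : (0 : ℝ) < tn (k * n) := by exact_mod_cast tn_pos _ hkn
      have h2 : (0 : ℝ) < tn n := by exact_mod_cast tn_pos n hn
      have h3 : (tn (k * n) : ℝ) * tn n ≤ tn (k * n + n) := by
        exact_mod_cast tn_mul_le (k * n) n
      have h4 := Real.log_le_log (mul_pos h1 h2) h3
      rw [Real.log_mul h1.ne' h2.ne'] at h4
      have h5 : (k + 1) * n = k * n + n := by ring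
      rw [h5]
      push_cast at ih ⊢
      linarith
  obtain ⟨M, hM⟩ := (hbot.eventually (eventually_lt_atBot 0)).exists_forall_of_atTop
  have h1 := hM ((M + 1) * n) (le_trans (by omega) (Nat.le_mul_of_pos_right (M + 1) hn))
  have h2 := hmul (M + 1) (by omega)
  linarith

theorem tn_root_ratio : ∃ c : ℝ, 0 < c ∧ ∀ n m : ℕ, 1 ≤ n → c * n ^ 2 ≤ m →
    tn n * tn m ^ n < tn (m + 1) ^ n := by
  obtain ⟨L, hL, h0, hup, hr, _, ⟨B, hB, hrate⟩, _⟩ := tn_data
  obtain ⟨c, hc, h⟩ := slope_root (fun n => Real.log (tn n) - n * L) (tn_neg L hL hup) B hB hrate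
    (L + 2 * Real.log 2) (fun n hn => by
      have h2 := decay tn L hL tn_pos hup (fun n _ => doubling n) n hn
      have h3 := sqrt_log_lower n hn
      linarith)
  refine ⟨c, hc, fun n m hn hm => ?_⟩
  have h1 := h n m hn hm
  have hn0 : (1 : ℝ) ≤ n := by exact_mod_cast hn
  have hm0 : (0 : ℝ) < m := lt_of_lt_of_le (by positivity) hm
  have hm1 : 1 ≤ m := by exact_mod_cast hm0
  have ha : (0 : ℝ) < tn n := by exact_mod_cast tn_pos n hn
  have hb : (0 : ℝ) < tn m := by exact_mod_cast tn_pos m hm1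
  have hd : (0 : ℝ) < tn (m + 1) := by exact_mod_cast tn_pos (m + 1) (by omega)
  have h2 : Real.log ((tn n : ℝ) * (tn m : ℝ) ^ n) < Real.log ((tn (m + 1) : ℝ) ^ n) := by
    rw [Real.log_mul ha.ne' (by positivity), Real.log_pow, Real.log_pow]
    push_cast at h1
    nlinarith
  have h3 := (Real.log_lt_log_iff (by positivity) (by positivity)).mp h2
  exact_mod_cast h3

end Pool.Agent.Work.MP_56ddc0_co.Anim
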