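import Pool.Agent.Work.MP_56ddc0_co.H55Main2

set_option autoImplicit false

namespace Pool.Agent.Work.MP_56ddc0_co.RatioAbs

open Filter Topology

/-- comparison of `n`-th roots at distance `n log n` -/
theorem roots_compare (f : ℕ → ℝ) (h0 : Tendsto (fun n : ℕ => f n / n) atTop (𝓝 0))
    (hneg : ∀ n : ℕ, 1 ≤ n → f n < 0) (A : ℝ) (hA : 0 < A)
    (hlow : ∀ n : ℕ, 1 ≤ n → -(A * (1 + Real.log n) ^ 2) ≤ f n) (C : ℝ)
    (hup : ∀ n : ℕ, 1 ≤ n → f n ≤ C - Real.log n / 2) :
    ∃ c : ℝ, 0 < c ∧ ∀ n m : ℕ, 2 ≤ n → c * n * Real.log n ≤ m → (m : ℝ) * f n < n * f m := by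
  -- threshold for y
  have hy : Tendsto (fun y : ℝ => Real.log y ^ 2 / y) atTop (𝓝 0) := by
    have h1 := Real.tendsto_pow_log_div_mul_add_atTop 1 0 2 one_ne_zero
    simpa using h1
  obtain ⟨Y, hY⟩ := (hy.eventually (gt_mem_nhds (show (0 : ℝ) < 1 / (32 * A) by positivity))
    ).exists_forall_of_atTop
  -- large n
  obtain ⟨N0, hN0⟩ := (((Real.tendsto_log_atTop.comp tendsto_natCast_atTop_atTop).eventually
    (eventually_ge_atTop (max (4 * C) 1))).and (eventually_ge_atTop 3)).exists_forall_of_atTop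
  set c1 : ℝ := max (80 * A) (max Y 1) with hc1
  have hc1A : 80 * A ≤ c1 := le_max_left _ _
  have hc1Y : Y ≤ c1 := le_trans (le_max_left _ _) (le_max_right _ _)
  have hc11 : 1 ≤ c1 := le_trans (le_max_right _ _) (le_max_right _ _)
  have hlarge : ∀ n m : ℕ, N0 ≤ n → c1 * n * Real.log n ≤ m → (m : ℝ) * f n < n * f m := by
    intro n m hn hm
    obtain ⟨e1, e2⟩ := hN0 n hn
    simp only [Function.comp] at e1
    have e3 : 4 * C ≤ Real.log n := le_trans (le_max_left _ _) e1
    have e4 : 1 ≤ Real.log n := le_trans (le_max_right _ _) e1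
    have hn0 : (0 : ℝ) < n := by exact_mod_cast (by omega : 0 < n)
    have hfn : f n ≤ -(Real.log n / 4) := by
      have := hup n (by omega)
      linarith
    have hm0 : (0 : ℝ) < m := lt_of_lt_of_le (by positivity) hm
    set y : ℝ := (m : ℝ) / n with hyd
    have hy0 : 0 < y := div_pos hm0 hn0
    have hmy : (m : ℝ) = n * y := by rw [hyd]; field_simp
    have hyc : c1 * Real.log n ≤ y := by
      rw [hyd, le_div_iff₀ hn0]; linarith
    have hyY : Y ≤ y := by nlinarith
    have hlogm : Real.log m = Real.log n + Real.log y := by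
      rw [hmy, Real.log_mul hn0.ne' hy0.ne']
    have h1 := hY y hyY
    rw [div_lt_div_iff₀ hy0 (by positivity)] at h1
    have h2 := hlow m (by exact_mod_cast hm0)
    rw [hlogm] at h2
    -- (1 + log n + log y)^2 ≤ 8 log^2 n + 2 log^2 y
    have h3 : (1 + (Real.log n + Real.log y)) ^ 2 ≤ 8 * Real.log n ^ 2 + 2 * Real.log y ^ 2 := by
      nlinarith [sq_nonneg ((1 + Real.log n) - Real.log y), sq_nonneg (Real.log n - 1)]
    have h4 : A * (1 + (Real.log n + Real.log y)) ^ 2 ≤
        A * (8 * Real.log n ^ 2 + 2 * Real.log y ^ 2) := mul_le_mul_of_nonneg_left h3 hA.le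
    have h5 : A * (8 * Real.log n ^ 2) ≤ y * Real.log n / 10 := by
      have : 80 * A * Real.log n ≤ y := le_trans (mul_le_mul_of_nonneg_right hc1A (by linarith)) hyc
      nlinarith
    have h6 : A * (2 * Real.log y ^ 2) < y * Real.log n / 16 := by
      have : A * (2 * Real.log y ^ 2) < y / 16 := by linarith
      nlinarith
    have h7 : -(y * Real.log n / 4) < f m := by
      have : 0 < y * Real.log n := by positivity
      linarith
    calc (m : ℝ) * f n ≤ m * (-(Real.log n / 4)) := mul_le_mul_of_nonneg_left hfn hm0.le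
      _ = n * (-(y * Real.log n / 4)) := by rw [hmy]; ring
      _ < n * f m := mul_lt_mul_of_pos_left h7 hn0
  -- small n
  have hsmall : ∀ n : ℕ, ∃ M : ℕ, 1 ≤ n → ∀ m : ℕ, M ≤ m → (m : ℝ) * f n < n * f m := by
    intro n
    by_cases hn : 1 ≤ n
    · have hn0 : (0 : ℝ) < n := by exact_mod_cast hn
      have h1 : f n / n < 0 := div_neg_of_neg_of_pos (hneg n hn) hn0
      obtain ⟨M, hM⟩ := (h0.eventually (lt_mem_nhds h1)).exists_forall_of_atTop
      refine ⟨M + 1, fun _ m hm => ?_⟩
      have h2 := hM m (by omega)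
      have hm0 : (0 : ℝ) < m := by exact_mod_cast (by omega : 0 < m)
      rw [div_lt_div_iff₀ hn0 hm0] at h2
      linarith
    · exact ⟨0, fun h => absurd h hn⟩
  choose M hM using hsmall
  set c2 : ℝ := ∑ n ∈ Finset.range N0, (M n : ℝ) with hc2
  have hc20 : 0 ≤ c2 := Finset.sum_nonneg (fun _ _ => Nat.cast_nonneg _)
  refine ⟨c1 + c2, by linarith, fun n m hn hm => ?_⟩
  have hn0 : (2 : ℝ) ≤ n := by exact_mod_cast hn
  have hlogn : 0 < Real.log n := Real.log_pos (by linarith)
  rcases Nat.lt_or_ge n N0 with hlt | hge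
  · apply hM n (by omega) m
    have h1 := Finset.single_le_sum (f := fun n => (M n : ℝ)) (fun _ _ => Nat.cast_nonneg _)
      (Finset.mem_range.mpr hlt)
    have h2 : (1 : ℝ) ≤ n * Real.log n := by
      have h3 : Real.log 2 ≤ Real.log n := Real.log_le_log (by norm_num) hn0
      have := Real.log_two_gt_d9
      nlinarith
    have h4 : (M n : ℝ) ≤ m := by
      calc (M n : ℝ) ≤ c1 + c2 := by linarith
        _ ≤ (c1 + c2) * (n * Real.log n) := by nlinarith
        _ = (c1 + c2) * n * Real.log n := by ring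
        _ ≤ m := hm
    exact_mod_cast h4
  · apply hlarge n m hge
    refine le_trans ?_ hm
    have : 0 ≤ c2 * n * Real.log n := by positivity
    nlinarith

end Pool.Agent.Work.MP_56ddc0_co.RatioAbs

namespace Pool.Agent.Work.MP_56ddc0_co.Anim

open Filter Topology RatioAbs

theorem tn_roots : ∃ c : ℝ, 0 < c ∧ ∀ n m : ℕ, 2 ≤ n → c * n * Real.log n ≤ m →
    tn n ^ m < tn m ^ n := by
  obtain ⟨L, hL, h0, hup, hr, ⟨A, hA, hlow⟩, _, hcut⟩ := tn_data
  have hbot := weighted_atBot tn L hL tn_pos hup (fun n _ => doubling n) 0 (by norm_num)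
  have hneg : ∀ n : ℕ, 1 ≤ n → Real.log (tn n) - n * L < 0 := by
    intro n hn
    by_contra hcon
    push Not at hcon
    have hmul : ∀ k : ℕ, 1 ≤ k → 0 ≤ Real.log (tn (k * n)) - ((k * n : ℕ) : ℝ) * L := by
      intro k hk
      induction k, hk using Nat.le_induction with
      | base => rw [one_mul]; exact hcon
      | succ k hk ih =>
        have hkn : 1 ≤ k * n := Nat.mul_pos hk hn
        have h1 : (0 : ℝ) < tn (k * n) := by exact_mod_cast tn_pos _ hkn
        have h2 : (0 : ℝ) < tn n := by exact_mod_cast tn_pos n hn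
        have h3 : (tn (k * n) : ℝ) * tn n ≤ tn (k * n + n) := by
          exact_mod_cast tn_mul_le (k * n) n
        have h4 := Real.log_le_log (mul_pos h1 h2) h3
        rw [Real.log_mul h1.ne' h2.ne'] at h4
        have h5 : (k + 1) * n = k * n + n := by ring
        rw [h5]
        push_cast at ih ⊢
        linarith
    obtain ⟨M, hM⟩ := (hbot.eventually (eventually_lt_atBot 0)).exists_forall_of_atTop
    have h1 := hM ((M + 1) * n) (le_trans (by omega) (Nat.le_mul_of_pos_right (M + 1) hn))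
    have h2 := hmul (M + 1) (by omega)
    linarith
  obtain ⟨c, hc, h⟩ := roots_compare (fun n => Real.log (tn n) - n * L) h0 hneg A hA hlow
    (L + 2 * Real.log 2) (fun n hn => by
      have h2 := decay tn L hL tn_pos hup (fun n _ => doubling n) n hn
      have h3 := sqrt_log_lower n hn
      linarith)
  refine ⟨c, hc, fun n m hn hm => ?_⟩
  have h1 := h n m hn hm
  have hn0 : (2 : ℝ) ≤ n := by exact_mod_cast hn
  have hlogn : 0 < Real.log n := Real.log_pos (by linarith)
  have hm0 : (0 : ℝ) < m := lt_of_lt_of_le (by positivity) hm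
  have hm1 : 1 ≤ m := by exact_mod_cast hm0
  have ha : (0 : ℝ) < tn n := by exact_mod_cast tn_pos n (by omega)
  have hb : (0 : ℝ) < tn m := by exact_mod_cast tn_pos m hm1
  have h2 : Real.log ((tn n : ℝ) ^ m) < Real.log ((tn m : ℝ) ^ n) := by
    rw [Real.log_pow, Real.log_pow]
    nlinarith
  have h3 := (Real.log_lt_log_iff (by positivity) (by positivity)).mp h2
  exact_mod_cast h3

end Pool.Agent.Work.MP_56ddc0_co.Anim
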