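import Mathlib

/-! Project MP_56ddc0_co: basic facts on polyominoes (finite connected sets of cells). -/

set_option autoImplicit false

namespace Pool.Agent.Work.MP_56ddc0_co

abbrev Cell := ℤ × ℤ

/-- the adjacency of cells -/
def Ad (p q : Cell) : Prop := |p.1 - q.1| + |p.2 - q.2| = 1

/-- connectedness by cuts (the empty set is connected) -/
def Con (S : Finset Cell) : Prop :=
  ∀ A : Finset Cell, A ⊆ S → A.Nonempty → (S \ A).Nonempty → ∃ a ∈ A, ∃ b ∈ S \ A, Ad a b

theorem Ad.symm {p q : Cell} (h : Ad p q) : Ad q p := by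
  unfold Ad at *
  rw [abs_sub_comm q.1, abs_sub_comm q.2]
  exact h

theorem Ad.ne {p q : Cell} (h : Ad p q) : p ≠ q := by
  rintro rfl
  simp [Ad] at h

/-- the four directions -/
def dirs : Finset Cell := {(1, 0), (-1, 0), (0, 1), (0, -1)}

theorem card_dirs : dirs.card = 4 := by decide

theorem ad_iff (p q : Cell) : Ad p q ↔ q - p ∈ dirs := by
  obtain ⟨a, b⟩ := p
  obtain ⟨c, d⟩ := q
  simp only [Ad, dirs, Finset.mem_insert, Finset.mem_singleton, Prod.mk_sub_mk, Prod.mk.injEq]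
  constructor
  · intro h
    rcases abs_cases (a - c) with h1 | h1 <;> rcases abs_cases (b - d) with h2 | h2 <;> omega
  · intro h
    rcases abs_cases (a - c) with h1 | h1 <;> rcases abs_cases (b - d) with h2 | h2 <;> omega

theorem con_singleton (x : Cell) : Con {x} := by
  intro A hA hA1 hA2
  exfalso
  obtain ⟨a, ha⟩ := hA1
  obtain ⟨b, hb⟩ := hA2
  have h1 := Finset.mem_singleton.1 (hA ha)
  rw [Finset.mem_sdiff, Finset.mem_singleton] at hb
  apply hb.2
  rw [hb.1, ← h1]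
  exact ha

/-- a union of two connected sets which meet or touch is connected -/
theorem Con.union {X Y : Finset Cell} (hX : Con X) (hY : Con Y)
    (h : ∃ x ∈ X, ∃ y ∈ Y, x = y ∨ Ad x y) : Con (X ∪ Y) := by
  classical
  intro A hA hA1 hA2
  by_contra hno
  push Not at hno
  have key : ∀ Z : Finset Cell, Con Z → Z ⊆ X ∪ Y → (∀ z ∈ Z, z ∈ A) ∨ (∀ z ∈ Z, z ∉ A) := by
    intro Z hZ hZs
    by_contra hcon
    push Not at hcon
    obtain ⟨⟨z1, hz1, hz1'⟩, ⟨z2, hz2, hz2'⟩⟩ := hcon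
    obtain ⟨a, ha, b, hb, hab⟩ := hZ (Z ∩ A) Finset.inter_subset_left
      ⟨z2, Finset.mem_inter.2 ⟨hz2, hz2'⟩⟩
      ⟨z1, Finset.mem_sdiff.2 ⟨hz1, fun h => hz1' (Finset.mem_inter.1 h).2⟩⟩
    rw [Finset.mem_inter] at ha
    rw [Finset.mem_sdiff, Finset.mem_inter] at hb
    exact hno a ha.2 b (Finset.mem_sdiff.2 ⟨hZs hb.1, fun h => hb.2 ⟨hb.1, h⟩⟩) hab
  obtain ⟨x, hx, y, hy, hxy⟩ := h
  obtain ⟨a, ha⟩ := hA1
  obtain ⟨b, hb⟩ := hA2
  rw [Finset.mem_sdiff, Finset.mem_union] at hb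
  have ha' := Finset.mem_union.1 (hA ha)
  rcases key X hX Finset.subset_union_left with h1 | h1 <;>
    rcases key Y hY Finset.subset_union_right with h2 | h2
  · rcases hb.1 with h3 | h3
    · exact hb.2 (h1 b h3)
    · exact hb.2 (h2 b h3)
  · rcases hxy with h3 | h3
    · exact h2 y hy (h3 ▸ h1 x hx)
    · exact hno x (h1 x hx) y
        (Finset.mem_sdiff.2 ⟨Finset.mem_union_right _ hy, h2 y hy⟩) h3
  · rcases hxy with h3 | h3
    · exact h1 x hx (h3 ▸ h2 y hy)
    · exact hno y (h2 y hy) x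
        (Finset.mem_sdiff.2 ⟨Finset.mem_union_left _ hx, h1 x hx⟩) h3.symm
  · rcases ha' with h3 | h3
    · exact h1 a h3 ha
    · exact h2 a h3 ha

theorem Con.insert {X : Finset Cell} (hX : Con X) {x y : Cell} (hx : x ∈ X) (h : Ad x y) :
    Con (insert y X) := by
  rw [Finset.insert_eq, Finset.union_comm]
  exact hX.union (con_singleton y) ⟨x, hx, y, Finset.mem_singleton_self y, Or.inr h⟩

/-- a connected set in a union of two sets which do not touch is in one of them -/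
theorem Con.split {A X Y : Finset Cell} (hA : Con A) (h : A ⊆ X ∪ Y)
    (hXY : ∀ x ∈ X, ∀ y ∈ Y, ¬ Ad x y) : A ⊆ X ∨ A ⊆ Y := by
  classical
  by_contra hcon
  rw [not_or, Finset.not_subset, Finset.not_subset] at hcon
  obtain ⟨⟨z1, hz1, hz1'⟩, ⟨z2, hz2, hz2'⟩⟩ := hcon
  have hz2X : z2 ∈ X := (Finset.mem_union.1 (h hz2)).resolve_right hz2'
  obtain ⟨a, ha, b, hb, hab⟩ := hA (A ∩ X) Finset.inter_subset_left
      ⟨z2, Finset.mem_inter.2 ⟨hz2, hz2X⟩⟩
      ⟨z1, Finset.mem_sdiff.2 ⟨hz1, fun h => hz1' (Finset.mem_inter.1 h).2⟩⟩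
  rw [Finset.mem_inter] at ha
  rw [Finset.mem_sdiff, Finset.mem_inter] at hb
  have hbX : b ∉ X := fun h => hb.2 ⟨hb.1, h⟩
  exact hXY a ha.2 b ((Finset.mem_union.1 (h hb.1)).resolve_left hbX) hab

/-! ### Translations and the normal position -/

/-- the translate -/
def tr (v : Cell) (S : Finset Cell) : Finset Cell := S.map (addRightEmbedding v)

theorem mem_tr {v p : Cell} {S : Finset Cell} : p ∈ tr v S ↔ p - v ∈ S := by
  simp only [tr, Finset.mem_map, addRightEmbedding_apply]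
  constructor
  · rintro ⟨a, ha, rfl⟩
    simpa using ha
  · intro h
    exact ⟨p - v, h, by simp⟩

theorem card_tr (v : Cell) (S : Finset Cell) : (tr v S).card = S.card := Finset.card_map _

theorem tr_tr (v w : Cell) (S : Finset Cell) : tr v (tr w S) = tr (w + v) S := by
  ext p
  rw [mem_tr, mem_tr, mem_tr, sub_sub, add_comm v w]

theorem tr_zero (S : Finset Cell) : tr 0 S = S := by
  ext p
  rw [mem_tr, sub_zero]

theorem tr_union (v : Cell) (S T : Finset Cell) : tr v (S ∪ T) = tr v S ∪ tr v T := by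
  ext p
  simp only [mem_tr, Finset.mem_union]

theorem ad_sub {p q v : Cell} : Ad (p - v) (q - v) ↔ Ad p q := by
  simp [Ad]

theorem Con.tr {S : Finset Cell} (hS : Con S) (v : Cell) : Con (tr v S) := by
  intro A hA hA1 hA2
  have k1 : MP_56ddc0_co.tr (-v) A ⊆ S := by
    intro x hx
    rw [mem_tr] at hx
    have := hA hx
    rw [mem_tr] at this
    simpa using this
  have k2 : (MP_56ddc0_co.tr (-v) A).Nonempty := by
    obtain ⟨a, ha⟩ := hA1
    exact ⟨a - v, by rw [mem_tr]; simpa using ha⟩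
  have k3 : (S \ MP_56ddc0_co.tr (-v) A).Nonempty := by
    obtain ⟨b, hb⟩ := hA2
    rw [Finset.mem_sdiff, mem_tr] at hb
    exact ⟨b - v, by rw [Finset.mem_sdiff, mem_tr]; simpa using hb⟩
  obtain ⟨a, ha, b, hb, hab⟩ := hS _ k1 k2 k3
  refine ⟨a + v, ?_, b + v, ?_, ?_⟩
  · rw [mem_tr] at ha
    simpa using ha
  · rw [Finset.mem_sdiff, mem_tr] at hb
    rw [Finset.mem_sdiff, mem_tr]
    simpa using hb
  · rw [← ad_sub (v := v)]
    simpa using hab

/-- the normal position -/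
def Nm (S : Finset Cell) : Prop :=
  ((0 : ℤ), (0 : ℤ)) ∈ S ∧ ∀ p ∈ S, 0 < p.2 ∨ (p.2 = 0 ∧ 0 ≤ p.1)

theorem exists_nm {S : Finset Cell} (h : S.Nonempty) : ∃ v, Nm (tr v S) := by
  classical
  obtain ⟨a, ha, ha'⟩ := S.exists_min_image Prod.snd h
  obtain ⟨b, hb, hb'⟩ := (S.filter (fun p => p.2 = a.2)).exists_min_image Prod.fst
    ⟨a, by simp [ha]⟩
  rw [Finset.mem_filter] at hb
  refine ⟨-b, ?_, ?_⟩
  · rw [mem_tr]
    have : ((0 : ℤ), (0 : ℤ)) - -b = b := by
      ext <;> simp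
    rw [this]
    exact hb.1
  · intro p hp
    rw [mem_tr] at hp
    have h1 := ha' _ hp
    simp only [sub_neg_eq_add, Prod.snd_add] at h1 hp
    rcases lt_or_eq_of_le h1 with h2 | h2
    · left
      have := hb.2
      omega
    · right
      have h3 := hb' (p + b) (by
        rw [Finset.mem_filter]
        exact ⟨hp, by rw [Prod.snd_add]; exact h2.symm⟩)
      rw [Prod.fst_add] at h3
      have := hb.2
      constructor <;> omega

theorem nm_unique {S : Finset Cell} {v : Cell} (h : Nm S) (h' : Nm (tr v S)) : v = 0 := by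
  obtain ⟨h1, h2⟩ := h
  obtain ⟨h3, h4⟩ := h'
  have h5 := h4 v (by rw [mem_tr, sub_self]; exact h1)
  rw [mem_tr] at h3
  have h6 := h2 _ h3
  simp only [Prod.fst_sub, Prod.snd_sub] at h6
  obtain ⟨a, b⟩ := v
  simp only at h5 h6
  ext
  · show a = 0
    omega
  · show b = 0
    omega

/-- the normal translate -/
noncomputable def nrm (S : Finset Cell) : Finset Cell := by
  classical
  exact if h : S.Nonempty then tr (exists_nm h).choose S else ∅

theorem nrm_spec {S : Finset Cell} (h : S.Nonempty) : Nm (nrm S) ∧ ∃ v, nrm S = tr v S := by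
  unfold nrm
  rw [dif_pos h]
  exact ⟨(exists_nm h).choose_spec, _, rfl⟩

theorem nrm_eq {S : Finset Cell} (h : S.Nonempty) {v : Cell} (hv : Nm (tr v S)) :
    nrm S = tr v S := by
  obtain ⟨h1, w, hw⟩ := nrm_spec h
  have h2 : tr v S = tr (v - w) (nrm S) := by
    rw [hw, tr_tr]
    congr 1
    abel
  have h3 : v - w = 0 := nm_unique h1 (by rw [← h2]; exact hv)
  rw [hw, sub_eq_zero.1 h3]

theorem nrm_tr {S : Finset Cell} (h : S.Nonempty) (v : Cell) : nrm (tr v S) = nrm S := by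
  obtain ⟨h1, w, hw⟩ := nrm_spec h
  have h2 : tr (w - v) (tr v S) = tr w S := by
    rw [tr_tr]
    congr 1
    abel
  have h3 : (tr v S).Nonempty := by
    rw [← Finset.card_pos, card_tr, Finset.card_pos]
    exact h
  rw [nrm_eq h3 (v := w - v) (by rw [h2, ← hw]; exact h1), h2, hw]

theorem nrm_of_nm {S : Finset Cell} (h : Nm S) : nrm S = S := by
  have := nrm_eq ⟨_, h.1⟩ (v := 0) (by rw [tr_zero]; exact h)
  rwa [tr_zero] at this

/-! ### Finiteness -/

/-- a coordinate takes all intermediate values on a connected set -/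
theorem Con.interval {S : Finset Cell} (hS : Con S) (f : Cell → ℤ)
    (hf : ∀ p q, Ad p q → |f p - f q| ≤ 1) {a p : Cell} (ha : a ∈ S) (hp : p ∈ S) :
    Finset.Icc (f a) (f p) ⊆ S.image f := by
  classical
  intro i hi
  rw [Finset.mem_Icc] at hi
  rw [Finset.mem_image]
  rcases lt_or_eq_of_le hi.1 with h1 | h1
  · obtain ⟨x, hx, y, hy, hxy⟩ := hS (S.filter (fun z => f z < i)) (Finset.filter_subset _ _)
      ⟨a, by simp [ha, h1]⟩ ⟨p, by simp [hp, hi.2]⟩
    rw [Finset.mem_filter] at hx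
    rw [Finset.mem_sdiff, Finset.mem_filter] at hy
    have h2 : ¬ f y < i := fun h => hy.2 ⟨hy.1, h⟩
    have h3 := abs_le.1 (hf x y hxy)
    exact ⟨y, hy.1, by omega⟩
  · exact ⟨a, ha, h1⟩

theorem Con.coord_le {S : Finset Cell} (hS : Con S) (f : Cell → ℤ)
    (hf : ∀ p q, Ad p q → |f p - f q| ≤ 1) {a p : Cell} (ha : a ∈ S) (hp : p ∈ S) :
    f p - f a < S.card := by
  have h1 := Finset.card_le_card (hS.interval f hf ha hp)
  have h2 : (S.image f).card ≤ S.card := Finset.card_image_le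
  rw [Int.card_Icc] at h1
  have h3 : 0 < S.card := Finset.card_pos.2 ⟨a, ha⟩
  omega

theorem ad_fst (p q : Cell) (h : Ad p q) : |p.1 - q.1| ≤ 1 := by
  unfold Ad at h
  have := abs_nonneg (p.2 - q.2)
  linarith

theorem ad_snd (p q : Cell) (h : Ad p q) : |p.2 - q.2| ≤ 1 := by
  unfold Ad at h
  have := abs_nonneg (p.1 - q.1)
  linarith

/-- the set of the `n`-ominoes in normal position -/
def TS (n : ℕ) : Set (Finset Cell) := {S | S.card = n ∧ Nm S ∧ Con S}

theorem finite_TS (n : ℕ) : (TS n).Finite := by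
  classical
  apply Set.Finite.subset
    (Finset.finite_toSet (Finset.Icc ((-(n : ℤ)), (-(n : ℤ))) ((n : ℤ), (n : ℤ))).powerset)
  intro S hS
  obtain ⟨h1, h2, h3⟩ := hS
  rw [Finset.mem_coe, Finset.mem_powerset]
  intro p hp
  have e1 := h3.coord_le Prod.fst ad_fst h2.1 hp
  have e2 := h3.coord_le Prod.snd ad_snd h2.1 hp
  have e3 := h3.coord_le Prod.fst ad_fst hp h2.1
  have e4 := h3.coord_le Prod.snd ad_snd hp h2.1
  rw [h1] at e1 e2 e3 e4
  rw [Finset.mem_Icc]
  simp only at e1 e2 e3 e4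
  constructor
  · constructor
    · show -(n : ℤ) ≤ p.1
      omega
    · show -(n : ℤ) ≤ p.2
      omega
  · constructor
    · show p.1 ≤ (n : ℤ)
      omega
    · show p.2 ≤ (n : ℤ)
      omega

/-- the finite set of the `n`-ominoes in normal position -/
noncomputable def TF (n : ℕ) : Finset (Finset Cell) := (finite_TS n).toFinset

theorem mem_TF {n : ℕ} {S : Finset Cell} : S ∈ TF n ↔ S.card = n ∧ Nm S ∧ Con S := by
  unfold TF
  rw [Set.Finite.mem_toFinset]
  rfl

/-- the number of fixed polyominoes -/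
noncomputable def tc (n : ℕ) : ℕ := (TF n).card

theorem nrm_mem_TF {S : Finset Cell} (h : S.Nonempty) (hS : Con S) : nrm S ∈ TF S.card := by
  obtain ⟨h1, v, hv⟩ := nrm_spec h
  rw [mem_TF]
  refine ⟨?_, h1, ?_⟩
  · rw [hv, card_tr]
  · rw [hv]
    exact hS.tr v

/-- there is at least one polyomino with `n` cells -/
theorem one_le_tc {n : ℕ} (hn : 1 ≤ n) : 1 ≤ tc n := by
  classical
  have key : ∀ m : ℕ, ∃ S : Finset Cell, S.card = m + 1 ∧ Con S ∧ ((m : ℤ), (0 : ℤ)) ∈ S ∧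
      ∀ p ∈ S, p.1 ≤ m := by
    intro m
    induction m with
    | zero =>
      refine ⟨{(0, 0)}, by simp, con_singleton _, by simp, ?_⟩
      intro p hp
      rw [Finset.mem_singleton] at hp
      rw [hp]
      simp
    | succ m ih =>
      obtain ⟨S, h1, h2, h3, h4⟩ := ih
      refine ⟨insert (((m + 1 : ℕ) : ℤ), 0) S, ?_, ?_, ?_, ?_⟩
      · rw [Finset.card_insert_of_notMem, h1]
        intro h
        have := h4 _ h
        push_cast at this
        omega
      · apply h2.insert h3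
        unfold Ad
        push_cast
        simp
      · exact Finset.mem_insert_self _ _
      · intro p hp
        rw [Finset.mem_insert] at hp
        rcases hp with hp | hp
        · rw [hp]
        · have := h4 p hp
          push_cast
          omega
  obtain ⟨S, h1, h2, h3, h4⟩ := key (n - 1)
  have h5 := nrm_mem_TF ⟨_, h3⟩ h2
  rw [h1, Nat.sub_add_cancel hn] at h5
  exact Finset.card_pos.2 ⟨_, h5⟩

/-! ### The definition by the induced graph -/

/-- the graph of the square lattice -/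
abbrev LG : SimpleGraph (ℤ × ℤ) :=
  SimpleGraph.fromRel (fun p q : ℤ × ℤ => |p.1 - q.1| + |p.2 - q.2| = 1)

theorem LG_adj (p q : Cell) : LG.Adj p q ↔ Ad p q := by
  unfold LG
  rw [SimpleGraph.fromRel_adj]
  constructor
  · rintro ⟨_, h | h⟩
    · exact h
    · exact Ad.symm h
  · intro h
    exact ⟨h.ne, Or.inl h⟩

theorem connected_iff (S : Finset Cell) :
    (LG.induce (S : Set (ℤ × ℤ))).Connected ↔ S.Nonempty ∧ Con S := by
  classical
  constructor
  · intro h
    refine ⟨?_, ?_⟩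
    · obtain ⟨x⟩ := h.nonempty
      exact ⟨x.1, x.2⟩
    · intro A hA hA1 hA2
      obtain ⟨a, ha⟩ := hA1
      obtain ⟨b, hb⟩ := hA2
      rw [Finset.mem_sdiff] at hb
      obtain ⟨w⟩ := h.preconnected ⟨a, hA ha⟩ ⟨b, hb.1⟩
      obtain ⟨d, _, hd1, hd2⟩ := w.exists_boundary_dart {x | x.1 ∈ A} ha hb.2
      refine ⟨d.fst.1, hd1, d.snd.1, ?_, ?_⟩
      · rw [Finset.mem_sdiff]
        exact ⟨d.snd.2, hd2⟩
      · have := d.adj
        rw [SimpleGraph.comap_adj] at this
        exact (LG_adj _ _).1 this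
  · rintro ⟨⟨x, hx⟩, h⟩
    have : Nonempty (S : Set (ℤ × ℤ)) := ⟨⟨x, hx⟩⟩
    refine ⟨?_⟩
    intro u v
    by_contra hcon
    obtain ⟨a, ha, b, hb, hab⟩ := h
      (S.filter (fun z => ∃ hz : z ∈ (S : Set (ℤ × ℤ)),
        (LG.induce (S : Set (ℤ × ℤ))).Reachable u ⟨z, hz⟩)) (Finset.filter_subset _ _)
      ⟨u.1, by
        rw [Finset.mem_filter]
        exact ⟨u.2, u.2, SimpleGraph.Reachable.refl _⟩⟩
      ⟨v.1, by
        rw [Finset.mem_sdiff, Finset.mem_filter]
        refine ⟨v.2, ?_⟩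
        rintro ⟨_, hz, hr⟩
        exact hcon hr⟩
    rw [Finset.mem_filter] at ha
    rw [Finset.mem_sdiff, Finset.mem_filter] at hb
    obtain ⟨_, hz, hr⟩ := ha
    apply hb.2
    refine ⟨hb.1, hb.1, hr.trans ?_⟩
    apply SimpleGraph.Adj.reachable
    rw [SimpleGraph.comap_adj]
    exact (LG_adj _ _).2 hab

/-- the counting function of the problem -/
theorem card_eq_tc (n : ℕ) :
    Nat.card {S : Finset (ℤ × ℤ) // S.card = n ∧ ((0 : ℤ), (0 : ℤ)) ∈ S ∧
      (∀ p ∈ S, 0 < p.2 ∨ (p.2 = 0 ∧ 0 ≤ p.1)) ∧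
      ((SimpleGraph.fromRel (fun p q : ℤ × ℤ => |p.1 - q.1| + |p.2 - q.2| = 1)).induce
        (S : Set (ℤ × ℤ))).Connected} = tc n := by
  have h : ∀ S : Finset (ℤ × ℤ), (S.card = n ∧ ((0 : ℤ), (0 : ℤ)) ∈ S ∧
      (∀ p ∈ S, 0 < p.2 ∨ (p.2 = 0 ∧ 0 ≤ p.1)) ∧
      ((SimpleGraph.fromRel (fun p q : ℤ × ℤ => |p.1 - q.1| + |p.2 - q.2| = 1)).induce
        (S : Set (ℤ × ℤ))).Connected) ↔ S ∈ TF n := by
    intro S
    rw [mem_TF, connected_iff]
    constructor
    · rintro ⟨h1, h2, h3, _, h4⟩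
      exact ⟨h1, ⟨h2, h3⟩, h4⟩
    · rintro ⟨h1, ⟨h2, h3⟩, h4⟩
      exact ⟨h1, h2, h3, ⟨_, h2⟩, h4⟩
  rw [Nat.card_congr (Equiv.subtypeEquivRight h)]
  rw [Nat.card_eq_fintype_card, Fintype.card_coe]
  rfl

end Pool.Agent.Work.MP_56ddc0_co
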