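import Pool.Agent.Work.MP_56ddc0_co.Poly

/-! Project MP_56ddc0_co: balanced decompositions of polyominoes. -/

set_option autoImplicit false

namespace Pool.Agent.Work.MP_56ddc0_co

instance decAd (p q : Cell) : Decidable (Ad p q) := by
  unfold Ad
  infer_instance

/-- the component of `w` in `X` -/
theorem exists_comp {X : Finset Cell} {w : Cell} (hw : w ∈ X) :
    ∃ K : Finset Cell, K ⊆ X ∧ w ∈ K ∧ Con K ∧ ∀ x ∈ K, ∀ y ∈ X \ K, ¬ Ad x y := by
  classical
  obtain ⟨K, hK, hmax⟩ := (X.powerset.filter (fun K => w ∈ K ∧ Con K)).exists_max_image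
    Finset.card ⟨{w}, by
      rw [Finset.mem_filter, Finset.mem_powerset]
      exact ⟨Finset.singleton_subset_iff.2 hw, Finset.mem_singleton_self w, con_singleton w⟩⟩
  rw [Finset.mem_filter, Finset.mem_powerset] at hK
  refine ⟨K, hK.1, hK.2.1, hK.2.2, ?_⟩
  intro x hx y hy hxy
  rw [Finset.mem_sdiff] at hy
  have h1 := hmax (insert y K) (by
    rw [Finset.mem_filter, Finset.mem_powerset]
    refine ⟨?_, Finset.mem_insert_of_mem hK.2.1, hK.2.2.insert hx hxy⟩
    intro z hz
    rw [Finset.mem_insert] at hz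
    rcases hz with hz | hz
    · rw [hz]
      exact hy.1
    · exact hK.1 hz)
  rw [Finset.card_insert_of_notMem hy.2] at h1
  omega

theorem con_sdiff {P Q K : Finset Cell} {p : Cell} (hP : Con P) (hQ : Con Q)
    (hdis : Disjoint P Q) (hp : p ∈ P) (hpq : Q.Nonempty → ∃ q ∈ Q, Ad p q)
    (hK : K ⊆ P.erase p) (hK' : ∀ x ∈ K, ∀ y ∈ P.erase p \ K, ¬ Ad x y) :
    Con ((P ∪ Q) \ K) := by
  classical
  have hpK : p ∉ K := fun h => by simpa using hK h
  have hQK : ∀ q ∈ Q, q ∉ K := fun q hq h =>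
    Finset.disjoint_left.1 hdis (Finset.mem_of_mem_erase (hK h)) hq
  have hQS : Q ⊆ (P ∪ Q) \ K := by
    intro q hq
    rw [Finset.mem_sdiff, Finset.mem_union]
    exact ⟨Or.inr hq, hQK q hq⟩
  have hpS : p ∈ (P ∪ Q) \ K := by
    rw [Finset.mem_sdiff, Finset.mem_union]
    exact ⟨Or.inl hp, hpK⟩
  have key : ∀ C : Finset Cell, C ⊆ (P ∪ Q) \ K → C.Nonempty → p ∉ C →
      (∀ a ∈ C, ∀ b ∈ ((P ∪ Q) \ K) \ C, ¬ Ad a b) → False := by
    intro C hC hC1 hpC hno
    have hCQ : ∀ c ∈ C, c ∉ Q := by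
      intro c hc hcQ
      have h1 : Q ⊆ C ∪ (((P ∪ Q) \ K) \ C) := by
        rw [Finset.union_sdiff_of_subset hC]
        exact hQS
      rcases hQ.split h1 hno with h2 | h2
      · obtain ⟨q, hq, hq'⟩ := hpq ⟨c, hcQ⟩
        exact hno q (h2 hq) p (Finset.mem_sdiff.2 ⟨hpS, hpC⟩) hq'.symm
      · exact (Finset.mem_sdiff.1 (h2 hcQ)).2 hc
    have hCP : C ⊆ P := by
      intro c hc
      have h1 := hC hc
      rw [Finset.mem_sdiff, Finset.mem_union] at h1
      exact h1.1.resolve_right (hCQ c hc)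
    obtain ⟨a, ha, b, hb, hab⟩ := hP C hCP hC1 ⟨p, Finset.mem_sdiff.2 ⟨hp, hpC⟩⟩
    rw [Finset.mem_sdiff] at hb
    by_cases hbK : b ∈ K
    · refine hK' b hbK a ?_ hab.symm
      rw [Finset.mem_sdiff, Finset.mem_erase]
      refine ⟨⟨?_, hCP ha⟩, (Finset.mem_sdiff.1 (hC ha)).2⟩
      rintro rfl
      exact hpC ha
    · refine hno a ha b ?_ hab
      rw [Finset.mem_sdiff, Finset.mem_sdiff, Finset.mem_union]
      exact ⟨⟨Or.inl hb.1, hbK⟩, hb.2⟩
  intro A hA hA1 hA2
  by_contra hno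
  push Not at hno
  by_cases hpA : p ∈ A
  · refine key (((P ∪ Q) \ K) \ A) Finset.sdiff_subset hA2 ?_ ?_
    · intro h
      exact (Finset.mem_sdiff.1 h).2 hpA
    · intro a ha b hb hab
      rw [Finset.sdiff_sdiff_eq_self hA] at hb
      exact hno b hb a ha hab.symm
  · exact key A hA hA1 hpA hno

theorem card_le_of_nb {P : Finset Cell} {p : Cell} (hP : Con P) (hp : p ∈ P) {m c : ℕ}
    (hc : (P.filter (fun w => Ad p w)).card ≤ c)
    (hK : ∀ K : Finset Cell, K ⊆ P.erase p → Con K →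
      (∀ x ∈ K, ∀ y ∈ P.erase p \ K, ¬ Ad x y) → K.card ≤ m) :
    P.card ≤ c * m + 1 := by
  classical
  have h1 : ∀ w : Cell, ∃ K : Finset Cell, w ∈ P.filter (fun w => Ad p w) →
      (K ⊆ P.erase p ∧ w ∈ K ∧ Con K ∧ ∀ x ∈ K, ∀ y ∈ P.erase p \ K, ¬ Ad x y) := by
    intro w
    by_cases hw : w ∈ P.filter (fun w => Ad p w)
    · rw [Finset.mem_filter] at hw
      obtain ⟨K, hK⟩ := exists_comp (X := P.erase p) (w := w)
        (Finset.mem_erase.2 ⟨hw.2.ne.symm, hw.1⟩)
      exact ⟨K, fun _ => hK⟩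
    · exact ⟨∅, fun h => absurd h hw⟩
  choose K hK1 using h1
  have h2 : P.erase p ⊆ (P.filter (fun w => Ad p w)).biUnion K := by
    intro x hx
    by_contra hxU
    obtain ⟨a, ha, b, hb, hab⟩ := hP (P.erase p \ (P.filter (fun w => Ad p w)).biUnion K)
      (Finset.sdiff_subset.trans (Finset.erase_subset _ _))
      ⟨x, Finset.mem_sdiff.2 ⟨hx, hxU⟩⟩
      ⟨p, by
        rw [Finset.mem_sdiff, Finset.mem_sdiff]
        exact ⟨hp, fun h => by simpa using h.1⟩⟩
    rw [Finset.mem_sdiff] at ha hb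
    by_cases hbp : b = p
    · subst hbp
      apply ha.2
      rw [Finset.mem_biUnion]
      have haf : a ∈ P.filter (fun w => Ad b w) := by
        rw [Finset.mem_filter]
        exact ⟨Finset.mem_of_mem_erase ha.1, hab.symm⟩
      exact ⟨a, haf, (hK1 a haf).2.1⟩
    · have hbU : b ∈ (P.filter (fun w => Ad p w)).biUnion K := by
        by_contra hbU
        apply hb.2
        rw [Finset.mem_sdiff, Finset.mem_erase]
        exact ⟨⟨hbp, hb.1⟩, hbU⟩
      rw [Finset.mem_biUnion] at hbU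
      obtain ⟨w, hw, hbw⟩ := hbU
      refine (hK1 w hw).2.2.2 b hbw a ?_ hab.symm
      rw [Finset.mem_sdiff]
      refine ⟨ha.1, fun h => ha.2 ?_⟩
      rw [Finset.mem_biUnion]
      exact ⟨w, hw, h⟩
  have h3 := Finset.card_le_card h2
  have h4 : ((P.filter (fun w => Ad p w)).biUnion K).card ≤
      (P.filter (fun w => Ad p w)).card * m := by
    apply Finset.card_biUnion_le_card_mul
    intro w hw
    exact hK (K w) (hK1 w hw).1 (hK1 w hw).2.2.1 (hK1 w hw).2.2.2
  rw [Finset.card_erase_of_mem hp] at h3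
  have h5 := Nat.mul_le_mul_right m hc
  omega

theorem card_nb_le (P : Finset Cell) (p : Cell) : (P.filter (fun w => Ad p w)).card ≤ 4 := by
  classical
  rw [← card_dirs]
  apply Finset.card_le_card_of_injOn (fun w => w - p)
  · intro w hw
    rw [Finset.mem_coe, Finset.mem_filter] at hw
    exact (ad_iff p w).1 hw.2
  · intro a _ b _ hab
    exact sub_left_injective hab

theorem card_nb_le_three {P : Finset Cell} {p q : Cell} (hq : q ∉ P) (hpq : Ad p q) :
    (P.filter (fun w => Ad p w)).card ≤ 3 := by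
  classical
  have h1 : (dirs.erase (q - p)).card = 3 := by
    rw [Finset.card_erase_of_mem ((ad_iff p q).1 hpq), card_dirs]
  rw [← h1]
  apply Finset.card_le_card_of_injOn (fun w => w - p)
  · intro w hw
    rw [Finset.mem_coe, Finset.mem_filter] at hw
    show w - p ∈ dirs.erase (q - p)
    rw [Finset.mem_erase]
    refine ⟨?_, (ad_iff p w).1 hw.2⟩
    intro h
    exact hq (sub_left_injective h ▸ hw.1)
  · intro a _ b _ hab
    exact sub_left_injective hab

/-- the balanced decomposition -/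
theorem exists_sep {S : Finset Cell} {m : ℕ} (hS : Con S) (hm : 1 ≤ m)
    (h : 4 * m ≤ S.card + 2) :
    ∃ P ⊆ S, Con P ∧ Con (S \ P) ∧ m ≤ P.card ∧ P.card + 2 ≤ 3 * m := by
  classical
  obtain ⟨P, hP, hmin⟩ := (S.powerset.filter
    (fun P => Con P ∧ Con (S \ P) ∧ m ≤ P.card)).exists_min_image Finset.card ⟨S, by
      rw [Finset.mem_filter, Finset.mem_powerset]
      refine ⟨subset_rfl, hS, ?_, by omega⟩
      rw [Finset.sdiff_self]
      intro A hA hA1 hA2
      exfalso
      obtain ⟨a, ha⟩ := hA1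
      simpa using hA ha⟩
  rw [Finset.mem_filter, Finset.mem_powerset] at hP
  obtain ⟨hPS, hPc, hQc, hPm⟩ := hP
  have hPQ : P ∪ (S \ P) = S := Finset.union_sdiff_of_subset hPS
  have key : ∀ p ∈ P, ((S \ P).Nonempty → ∃ q ∈ S \ P, Ad p q) →
      ∀ K : Finset Cell, K ⊆ P.erase p → Con K →
      (∀ x ∈ K, ∀ y ∈ P.erase p \ K, ¬ Ad x y) → K.card ≤ m - 1 := by
    intro p hp hpq K hK hKc hK'
    by_contra hcon
    have h1 : Con (S \ K) := by
      have := con_sdiff hPc hQc Finset.disjoint_sdiff hp hpq hK hK'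
      rwa [hPQ] at this
    have h2 := hmin K (by
      rw [Finset.mem_filter, Finset.mem_powerset]
      exact ⟨(hK.trans (Finset.erase_subset _ _)).trans hPS, hKc, h1, by omega⟩)
    have h3 := Finset.card_le_card hK
    rw [Finset.card_erase_of_mem hp] at h3
    have h4 : 0 < P.card := Finset.card_pos.2 ⟨p, hp⟩
    omega
  refine ⟨P, hPS, hPc, hQc, hPm, ?_⟩
  have hPne : P.Nonempty := by
    rw [← Finset.card_pos]
    omega
  by_cases hQ : (S \ P).Nonempty
  · obtain ⟨p, hp, q, hq, hpq⟩ := hS P hPS hPne hQ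
    have h1 := card_le_of_nb hPc hp (m := m - 1)
      (card_nb_le_three (Finset.mem_sdiff.1 hq).2 hpq) (key p hp (fun _ => ⟨q, hq, hpq⟩))
    omega
  · exfalso
    obtain ⟨p, hp⟩ := hPne
    have h1 := card_le_of_nb hPc hp (m := m - 1) (card_nb_le P p) (key p hp (fun h => absurd h hQ))
    rw [Finset.not_nonempty_iff_eq_empty, Finset.sdiff_eq_empty_iff_subset] at hQ
    have h2 : P = S := Finset.Subset.antisymm hPS hQ
    rw [h2] at h1
    omega

/-- (C): the upper bound by balanced decompositions -/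
theorem count_C {N m : ℕ} (hN : 2 ≤ N) (hm : 1 ≤ m) (h : 4 * m ≤ N + 2) :
    tc N ≤ ∑ k ∈ Finset.Icc m (3 * m - 2), tc k * (tc (N - k) * (k * ((N - k) * 4))) := by
  classical
  have hsub : TF N ⊆ (Finset.Icc m (3 * m - 2)).biUnion (fun k => (TF k).biUnion fun P =>
      (TF (N - k)).biUnion fun Q => P.biUnion fun p => Q.biUnion fun q =>
        dirs.image fun d => nrm (P ∪ tr (p + d - q) Q)) := by
    intro S hS
    have hS' := mem_TF.1 hS
    obtain ⟨P, hPS, hPc, hQc, hPm, hPm'⟩ := exists_sep hS'.2.2 hm (by rw [hS'.1]; exact h)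
    have hPne : P.Nonempty := by
      rw [← Finset.card_pos]
      omega
    have hQcard : (S \ P).card = N - P.card := by
      rw [Finset.card_sdiff_of_subset hPS, hS'.1]
    have hQne : (S \ P).Nonempty := by
      rw [← Finset.card_pos, hQcard]
      omega
    obtain ⟨p, hp, q, hq, hpq⟩ := hS'.2.2 P hPS hPne hQne
    obtain ⟨_, v, hv⟩ := nrm_spec hPne
    obtain ⟨_, w, hw⟩ := nrm_spec hQne
    simp only [Finset.mem_biUnion, Finset.mem_image]
    refine ⟨P.card, ?_, nrm P, nrm_mem_TF hPne hPc, nrm (S \ P), ?_, p + v, ?_, q + w, ?_,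
      q - p, (ad_iff p q).1 hpq, ?_⟩
    · rw [Finset.mem_Icc]
      omega
    · rw [← hQcard]
      exact nrm_mem_TF hQne hQc
    · rw [hv, mem_tr, add_sub_cancel_right]
      exact hp
    · rw [hw, mem_tr, add_sub_cancel_right]
      exact hq
    · have e1 : p + v + (q - p) - (q + w) = v - w := by abel
      rw [e1, hw, tr_tr, hv, show w + (v - w) = v by abel, ← tr_union,
        Finset.union_sdiff_of_subset hPS, nrm_tr ⟨_, hS'.2.1.1⟩,
        nrm_of_nm hS'.2.1]
  refine (Finset.card_le_card hsub).trans (Finset.card_biUnion_le.trans ?_)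
  apply Finset.sum_le_sum
  intro k _
  apply Finset.card_biUnion_le_card_mul
  intro P hP
  apply Finset.card_biUnion_le_card_mul
  intro Q hQ
  have h1 := (mem_TF.1 hP).1
  have h2 := (mem_TF.1 hQ).1
  have h3 : (P.biUnion fun p => Q.biUnion fun q =>
      dirs.image fun d => nrm (P ∪ tr (p + d - q) Q)).card ≤ P.card * (Q.card * 4) := by
    apply Finset.card_biUnion_le_card_mul
    intro p _
    apply Finset.card_biUnion_le_card_mul
    intro q _
    rw [← card_dirs]
    exact Finset.card_image_le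
  rw [h1, h2] at h3
  exact h3

end Pool.Agent.Work.MP_56ddc0_co
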